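import Mathlib

/-!
# Integrable groups of prime-power order: basic definitions

Isomorphism classes of groups of order `N`, integrable groups, the Frattini quotient `V p G` of a
`p`-group and the subgroup `Om p G = {z ∈ Z(G) ∩ G' : z ^ p = 1}`.
-/

open Subgroup
open scoped commutatorElement

noncomputable section

namespace Pool.Agent.IG

universe v

/-- `G` is integrable: it is isomorphic to the derived group of some group `H`. -/
def Integrable (G : Type) [Group G] : Prop :=
  ∃ (H : Type v) (_ : Group H), Nonempty (commutator H ≃* G)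

/-- group structures on `Fin N` -/
abbrev GS (N : ℕ) : Type := Group (Fin N)

/-- isomorphism of group structures -/
def GSIso {N : ℕ} (G H : GS N) : Prop :=
  Nonempty (@MulEquiv (Fin N) (Fin N) G.toMul H.toMul)

/-- isomorphism is an equivalence relation -/
def gsSetoid (N : ℕ) : Setoid (GS N) where
  r := GSIso
  iseqv := by
    refine ⟨fun G => ?_, fun {G H} h => ?_, fun {G H K} h h' => ?_⟩
    · exact ⟨@MulEquiv.refl (Fin N) G.toMul⟩
    · obtain ⟨e⟩ := h
      exact ⟨@MulEquiv.symm _ _ G.toMul H.toMul e⟩
    · obtain ⟨e⟩ := h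
      obtain ⟨e'⟩ := h'
      exact ⟨@MulEquiv.trans _ _ _ G.toMul H.toMul K.toMul e e'⟩

/-- isomorphism classes of groups of order `N` -/
def Cl (N : ℕ) : Type := Quotient (gsSetoid N)

/-- the number of isomorphism classes of groups of order `N` which contain a group with the
property `P` -/
def num (N : ℕ) (P : ∀ (G : Type) [Group G], Prop) : ℕ :=
  Nat.card {c : Cl N // ∃ G : GS N, Quotient.mk (gsSetoid N) G = c ∧ @P (Fin N) G}

/-- the number of groups of order `p ^ n` up to isomorphism -/
def gp (p n : ℕ) : ℕ := num (p ^ n) (fun _ _ => True)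

/-- the number of integrable groups of order `p ^ n` up to isomorphism -/
def ip (p n : ℕ) : ℕ := num (p ^ n) (fun G _ => Integrable.{v} G)

/-! ### The Frattini quotient -/

section Frattini

variable (p : ℕ) (G : Type) [Group G]

/-- the subgroup `G' G ^ p` generated by commutators and `p`-th powers -/
def Phi : Subgroup G := commutator G ⊔ closure {x | ∃ a : G, x = a ^ p}

variable {G}

theorem commutator_le_Phi : commutator G ≤ Phi p G := le_sup_left

theorem pow_mem_Phi (a : G) : a ^ p ∈ Phi p G :=
  (le_sup_right : closure {x | ∃ a : G, x = a ^ p} ≤ Phi p G) (subset_closure ⟨a, rfl⟩)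

theorem comm_mem_Phi (a b : G) : ⁅a, b⁆ ∈ Phi p G :=
  commutator_le_Phi p (commutator_mem_commutator (mem_top a) (mem_top b))

instance Phi_normal : (Phi p G).Normal := by
  refine ⟨fun n hn g => ?_⟩
  have h : g * n * g⁻¹ = ⁅g, n⁆ * n := by rw [commutatorElement_def]; group
  rw [h]
  exact mul_mem (comm_mem_Phi p g n) hn

theorem Phi_le_iff {N : Subgroup G} : Phi p G ≤ N ↔ (∀ a b : G, ⁅a, b⁆ ∈ N) ∧ ∀ a : G, a ^ p ∈ N := by
  constructor
  · intro h
    exact ⟨fun a b => h (comm_mem_Phi p a b), fun a => h (pow_mem_Phi p a)⟩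
  · rintro ⟨h1, h2⟩
    refine sup_le ?_ ?_
    · rw [_root_.commutator_def, Subgroup.commutator_le]
      exact fun a _ b _ => h1 a b
    · rw [closure_le]
      rintro x ⟨a, rfl⟩
      exact h2 a

variable (G)

/-- the quotient by `Phi` is commutative -/
instance quotPhiCommGroup : CommGroup (G ⧸ Phi p G) :=
  { (inferInstance : Group (G ⧸ Phi p G)) with
    mul_comm := by
      intro a b
      induction a using QuotientGroup.induction_on with | _ a => ?_
      induction b using QuotientGroup.induction_on with | _ b => ?_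
      rw [← QuotientGroup.mk_mul, ← QuotientGroup.mk_mul, QuotientGroup.eq]
      have h : (a * b)⁻¹ * (b * a) = ⁅b⁻¹, a⁻¹⁆ := by rw [commutatorElement_def]; group
      rw [h]
      exact comm_mem_Phi p _ _ }

/-- the Frattini quotient of `G` (for a `p`-group), written additively -/
def V : Type := Additive (G ⧸ Phi p G)

instance : AddCommGroup (V p G) := inferInstanceAs (AddCommGroup (Additive (G ⧸ Phi p G)))

variable {G}

/-- the class of an element in the Frattini quotient -/
def mkV (x : G) : V p G := Additive.ofMul (x : G ⧸ Phi p G)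

theorem mkV_mul (x y : G) : mkV p (x * y) = mkV p x + mkV p y := rfl

theorem mkV_one : mkV p (1 : G) = 0 := rfl

theorem mkV_inv (x : G) : mkV p x⁻¹ = -mkV p x := rfl

theorem mkV_pow (x : G) (m : ℕ) : mkV p (x ^ m) = m • mkV p x := rfl

theorem mkV_eq_zero_iff (x : G) : mkV p x = 0 ↔ x ∈ Phi p G := by
  change (x : G ⧸ Phi p G) = 1 ↔ _
  exact QuotientGroup.eq_one_iff x

theorem mkV_eq_iff (x y : G) : mkV p x = mkV p y ↔ x⁻¹ * y ∈ Phi p G := by
  change (x : G ⧸ Phi p G) = (y : G ⧸ Phi p G) ↔ _
  exact QuotientGroup.eq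

theorem mkV_surjective : Function.Surjective (mkV p : G → V p G) := fun v => by
  obtain ⟨x, hx⟩ := QuotientGroup.mk_surjective (Additive.toMul v)
  exact ⟨x, hx⟩

theorem nsmul_V (v : V p G) : p • v = 0 := by
  obtain ⟨x, rfl⟩ := mkV_surjective p v
  rw [← mkV_pow, mkV_eq_zero_iff]
  exact pow_mem_Phi p x

instance : Module (ZMod p) (V p G) := AddCommGroup.zmodModule (nsmul_V p)

instance [Finite G] : Finite (V p G) := inferInstanceAs (Finite (G ⧸ Phi p G))

variable (G)

/-- the rank of the Frattini quotient (= minimal number of generators of a finite `p`-group) -/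
def dd : ℕ := Module.finrank (ZMod p) (V p G)

variable {G}

theorem Phi_map_le {H : Type} [Group H] (f : G →* H) : Phi p G ≤ (Phi p H).comap f := by
  rw [Phi_le_iff]
  refine ⟨fun a b => ?_, fun a => ?_⟩
  · rw [mem_comap, map_commutatorElement]
    exact comm_mem_Phi p _ _
  · rw [mem_comap, map_pow]
    exact pow_mem_Phi p _

/-- the linear map induced on Frattini quotients -/
def vmap {H : Type} [Group H] (f : G →* H) : V p G →ₗ[ZMod p] V p H :=
  AddMonoidHom.toZModLinearMap p
    (MonoidHom.toAdditive (QuotientGroup.map (Phi p G) (Phi p H) f (Phi_map_le p f)))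

theorem vmap_mkV {H : Type} [Group H] (f : G →* H) (x : G) :
    vmap p f (mkV p x) = mkV p (f x) := rfl

/-! ### The subgroup `Om` -/

variable (G)

/-- `{z ∈ Z(G) ∩ G' : z ^ p = 1}` -/
def Om : Subgroup G where
  carrier := {z | z ∈ center G ∧ z ∈ commutator G ∧ z ^ p = 1}
  mul_mem' := by
    rintro a b ⟨h1, h2, h3⟩ ⟨h1', h2', h3'⟩
    refine ⟨mul_mem h1 h1', mul_mem h2 h2', ?_⟩
    rw [(show Commute a b from ((mem_center_iff.1 h1) b).symm).mul_pow, h3, h3', mul_one]
  one_mem' := ⟨one_mem _, one_mem _, one_pow p⟩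
  inv_mem' := by
    rintro a ⟨h1, h2, h3⟩
    exact ⟨inv_mem h1, inv_mem h2, by rw [inv_pow, h3, inv_one]⟩

variable {G}

theorem mem_Om {z : G} : z ∈ Om p G ↔ z ∈ center G ∧ z ∈ commutator G ∧ z ^ p = 1 := Iff.rfl

theorem Om_le_center : Om p G ≤ center G := fun _ h => h.1

theorem Om_le_commutator : Om p G ≤ commutator G := fun _ h => h.2.1

theorem Om_le_Phi : Om p G ≤ Phi p G := (Om_le_commutator p).trans (commutator_le_Phi p)

instance Om_normal : (Om p G).Normal := by
  refine ⟨fun n hn g => ?_⟩
  rw [(mem_center_iff.1 hn.1 g), mul_inv_cancel_right]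
  exact hn

variable (G)

instance OmCommGroup : CommGroup (Om p G) :=
  { (inferInstance : Group (Om p G)) with
    mul_comm := fun a b => Subtype.ext ((mem_center_iff.1 a.2.1 b.1).symm) }

/-- the subgroup `Om`, written additively -/
def OV : Type := Additive (Om p G)

instance : AddCommGroup (OV p G) := inferInstanceAs (AddCommGroup (Additive (Om p G)))

variable {G}

/-- an element of `Om` as a vector -/
def mkO (x : G) (hx : x ∈ Om p G) : OV p G := Additive.ofMul (⟨x, hx⟩ : Om p G)

/-- the group element of a vector -/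
def OV.val (z : OV p G) : G := (Additive.toMul z : Om p G).1

theorem OV.val_mem (z : OV p G) : z.val ∈ Om p G := (Additive.toMul z : Om p G).2

theorem nsmul_OV (z : OV p G) : p • z = 0 := by
  refine Additive.toMul.injective (Subtype.ext ?_)
  exact (Additive.toMul z : Om p G).2.2.2

instance : Module (ZMod p) (OV p G) := AddCommGroup.zmodModule (nsmul_OV p)

instance [Finite G] : Finite (OV p G) := inferInstanceAs (Finite (Om p G))

variable (G)

/-- the rank of `Om` -/
def om : ℕ := Module.finrank (ZMod p) (OV p G)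

variable {G}

theorem Om_map {H : Type} [Group H] (e : G ≃* H) {x : G} (hx : x ∈ Om p G) : e x ∈ Om p H := by
  refine ⟨?_, ?_, ?_⟩
  · rw [mem_center_iff]
    intro h
    obtain ⟨g, rfl⟩ := e.surjective h
    rw [← map_mul, ← map_mul, mem_center_iff.1 hx.1 g]
  · have h2 : e x ∈ (commutator G).map e.toMonoidHom := ⟨x, hx.2.1, rfl⟩
    rw [map_commutator_eq] at h2
    exact commutator_mono le_top le_top h2
  · rw [← map_pow, hx.2.2, map_one]

/-- the linear map induced by an isomorphism on `Om` -/
def omap {H : Type} [Group H] (e : G ≃* H) : OV p G →ₗ[ZMod p] OV p H :=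
  AddMonoidHom.toZModLinearMap p
    (MonoidHom.toAdditive
      ({ toFun := fun x => ⟨e x.1, Om_map p e x.2⟩
         map_one' := Subtype.ext (map_one e)
         map_mul' := fun x y => Subtype.ext (map_mul e x.1 y.1) } : Om p G →* Om p H))

theorem omap_val {H : Type} [Group H] (e : G ≃* H) (z : OV p G) : (omap p e z).val = e z.val := rfl

end Frattini

/-- good groups: `d(G) ≥ (2/3 - e) n` and `dim Om ≥ (1/3 - e) n` -/
def Good (p : ℕ) (e : ℝ) (n : ℕ) (G : Type) [Group G] : Prop :=
  (2 / 3 - e) * n ≤ dd p G ∧ (1 / 3 - e) * n ≤ om p G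

/-- the rank of a linear map -/
def rk {K V W : Type} [Field K] [AddCommGroup V] [Module K V] [AddCommGroup W] [Module K W]
    (f : V →ₗ[K] W) : ℕ := Module.finrank K (LinearMap.range f)

end Pool.Agent.IG
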