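import Pool.Agent.IG.Basic

/-!
# Counting isomorphism classes
-/

open Subgroup

set_option linter.unusedVariables false

noncomputable section

namespace Pool.Agent.IG

/-- invariance under isomorphisms -/
def IsoInv (P : ∀ (G : Type) [Group G], Prop) : Prop :=
  ∀ (G H : Type) [Group G] [Group H], (G ≃* H) → P G → P H

instance finite_GS (N : ℕ) : Finite (GS N) := by
  refine Finite.of_injective (fun g : GS N => (g.mul : Fin N → Fin N → Fin N)) ?_
  intro g h hgh
  exact Group.ext hgh

instance finite_Cl (N : ℕ) : Finite (Cl N) :=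
  inferInstanceAs (Finite (Quotient (gsSetoid N)))

/-- every group of order `N` is isomorphic to a group structure on `Fin N` -/
theorem exists_GS {N : ℕ} (G : Type) [Group G] [Finite G] (h : Nat.card G = N) :
    ∃ S : GS N, Nonempty (@MulEquiv G (Fin N) _ S.toMul) := by
  have e : G ≃ Fin N := Finite.equivFinOfCardEq h
  refine ⟨e.symm.group, ⟨@MulEquiv.mk G (Fin N) _ e.symm.group.toMul e fun x y => ?_⟩⟩
  change e (x * y) = e (e.symm (e x) * e.symm (e y))
  rw [e.symm_apply_apply, e.symm_apply_apply]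

/-- main tool for upper bounds: if the groups of order `N` with property `P` are determined up to
isomorphism by data in a finite type `X`, there are at most `|X|` classes -/
theorem num_le_of_rel {N : ℕ} (hN : 0 < N) {P : ∀ (G : Type) [Group G], Prop} {X : Type} [Finite X]
    (R : ∀ (G : Type) [Group G], X → Prop)
    (h1 : ∀ (G : Type) [Group G], Nat.card G = N → P G → ∃ x, R G x)
    (h2 : ∀ (G H : Type) [Group G] [Group H] (x : X), Nat.card G = N → Nat.card H = N →
      P G → P H → R G x → R H x → Nonempty (G ≃* H)) :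
    num N P ≤ Nat.card X := by
  have hX : ∀ c : {c : Cl N // ∃ G : GS N, Quotient.mk (gsSetoid N) G = c ∧ @P (Fin N) G},
      ∃ (x : X) (G : GS N), Quotient.mk (gsSetoid N) G = c.1 ∧ @P (Fin N) G ∧ @R (Fin N) G x := by
    rintro ⟨c, G, hG, hP⟩
    obtain ⟨x, hx⟩ := @h1 (Fin N) G (by simp) hP
    exact ⟨x, G, hG, hP, hx⟩
  choose f G hG hP hR using hX
  refine Nat.card_le_card_of_injective f ?_
  intro c c' hcc
  refine Subtype.ext ?_
  rw [← hG c, ← hG c']
  refine Quotient.sound ?_
  change GSIso (G c) (G c')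
  have h3 := hR c'
  rw [← hcc] at h3
  exact @h2 (Fin N) (Fin N) (G c) (G c') (f c) (by simp) (by simp) (hP c) (hP c') (hR c) h3

theorem num_mono {N : ℕ} (hN : 0 < N) {P Q : ∀ (G : Type) [Group G], Prop}
    (h : ∀ (G : Type) [Group G], Nat.card G = N → P G → Q G) : num N P ≤ num N Q := by
  refine Nat.card_le_card_of_injective
    (fun c => ⟨c.1, c.2.imp fun G hG => ⟨hG.1, @h (Fin N) G (by simp) hG.2⟩⟩) ?_
  intro c c' hcc
  have h1 := Subtype.ext_iff.1 hcc
  exact Subtype.ext h1

theorem num_or {N : ℕ} {P Q : ∀ (G : Type) [Group G], Prop} :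
    num N (fun G _ => P G ∨ Q G) ≤ num N P + num N Q := by
  have h : ∀ R : ∀ (G : Type) [Group G], Prop, num N R =
      Set.ncard {c : Cl N | ∃ G : GS N, Quotient.mk (gsSetoid N) G = c ∧ @R (Fin N) G} :=
    fun R => rfl
  rw [h, h, h]
  refine (Set.ncard_le_ncard ?_ (Set.toFinite _)).trans (Set.ncard_union_le _ _)
  rintro c ⟨G, hG, hP | hQ⟩
  · exact Or.inl ⟨G, hG, hP⟩
  · exact Or.inr ⟨G, hG, hQ⟩

theorem num_le_sum {N : ℕ} (hN : 0 < N) {ι : Type} [Fintype ι] {P : ∀ (G : Type) [Group G], Prop}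
    (Q : ι → ∀ (G : Type) [Group G], Prop)
    (h : ∀ (G : Type) [Group G], Nat.card G = N → P G → ∃ i, Q i G) :
    num N P ≤ ∑ i, num N (Q i) := by
  have hX : ∀ c : {c : Cl N // ∃ G : GS N, Quotient.mk (gsSetoid N) G = c ∧ @P (Fin N) G},
      ∃ i : ι, ∃ G : GS N, Quotient.mk (gsSetoid N) G = c.1 ∧ @Q i (Fin N) G := by
    rintro ⟨c, G, hG, hP⟩
    obtain ⟨i, hi⟩ := @h (Fin N) G (by simp) hP
    exact ⟨i, G, hG, hi⟩
  choose f hf using hX
  have h1 : num N P ≤ Nat.card (Σ i : ι,
      {c : Cl N // ∃ G : GS N, Quotient.mk (gsSetoid N) G = c ∧ @Q i (Fin N) G}) := by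
    refine Nat.card_le_card_of_injective (fun c => ⟨f c, c.1, hf c⟩) ?_
    intro c c' hcc
    refine Subtype.ext ?_
    simp only [Sigma.mk.injEq] at hcc
    obtain ⟨h3, h4⟩ := hcc
    have h5 : ∀ (i j : ι) (hij : i = j)
        (a : {c : Cl N // ∃ G : GS N, Quotient.mk (gsSetoid N) G = c ∧ @Q i (Fin N) G})
        (b : {c : Cl N // ∃ G : GS N, Quotient.mk (gsSetoid N) G = c ∧ @Q j (Fin N) G}),
        HEq a b → a.1 = b.1 := by
      rintro i j rfl a b hab
      rw [eq_of_heq hab]
    exact h5 _ _ h3 _ _ h4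
  refine h1.trans (le_of_eq ?_)
  rw [Nat.card_sigma]
  rfl

/-- main tool for lower bounds -/
theorem le_num_of_fibers {N K : ℕ} (hN : 0 < N) {P : ∀ (G : Type) [Group G], Prop} (hP : IsoInv P)
    {Y : Type} [Finite Y] (Gy : Y → Type) [∀ y, Group (Gy y)] (hc : ∀ y, Nat.card (Gy y) = N)
    (hPy : ∀ y, P (Gy y)) (hf : ∀ y, Nat.card {y' : Y // Nonempty (Gy y ≃* Gy y')} ≤ K) :
    Nat.card Y ≤ K * num N P := by
  have hX : ∀ y : Y, ∃ S : GS N, Nonempty (@MulEquiv (Gy y) (Fin N) _ S.toMul) := fun y => by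
    have : Finite (Gy y) := Nat.finite_of_card_ne_zero (by rw [hc]; omega)
    exact exists_GS (Gy y) (hc y)
  choose S hS using hX
  let f : Y → {c : Cl N // ∃ G : GS N, Quotient.mk (gsSetoid N) G = c ∧ @P (Fin N) G} := fun y =>
    ⟨Quotient.mk (gsSetoid N) (S y), S y, rfl, by
      let _ := S y
      exact hP (Gy y) (Fin N) (hS y).some (hPy y)⟩
  have h1 : Nat.card Y = Nat.card (Σ c, {y : Y // f y = c}) :=
    Nat.card_congr (Equiv.sigmaFiberEquiv f).symm
  have := Fintype.ofFinite
    {c : Cl N // ∃ G : GS N, Quotient.mk (gsSetoid N) G = c ∧ @P (Fin N) G}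
  rw [h1, Nat.card_sigma]
  have h2 : ∀ c, Nat.card {y : Y // f y = c} ≤ K := by
    intro c
    by_cases hne : Nonempty {y : Y // f y = c}
    · obtain ⟨y, hy⟩ := hne
      refine le_trans ?_ (hf y)
      refine Nat.card_le_card_of_injective (fun z => ⟨z.1, ?_⟩) ?_
      · have h3 : f y = f z.1 := hy.trans z.2.symm
        have h4 : GSIso (S y) (S z.1) := Quotient.exact (Subtype.ext_iff.1 h3)
        obtain ⟨e⟩ := h4
        obtain ⟨e1⟩ := hS y
        obtain ⟨e2⟩ := hS z.1
        exact ⟨@MulEquiv.trans _ _ _ _ (S y).toMul _ e1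
          (@MulEquiv.trans _ _ _ (S y).toMul (S z.1).toMul _ e
            (@MulEquiv.symm _ _ _ (S z.1).toMul e2))⟩
      · intro z z' hzz
        have h3 := Subtype.ext_iff.1 hzz
        exact Subtype.ext h3
    · rw [not_nonempty_iff] at hne
      rw [Nat.card_of_isEmpty]
      exact Nat.zero_le _
  calc ∑ c, Nat.card {y : Y // f y = c} ≤ ∑ _c :
        {c : Cl N // ∃ G : GS N, Quotient.mk (gsSetoid N) G = c ∧ @P (Fin N) G}, K :=
        Finset.sum_le_sum fun c _ => h2 c
    _ = K * num N P := by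
        rw [Finset.sum_const, Finset.card_univ, ← Nat.card_eq_fintype_card, smul_eq_mul, mul_comm]
        rfl

/-- choice of representatives: for an isomorphism invariant property there are `num N P` pairwise
non-isomorphic groups representing all classes -/
theorem exists_reps {N : ℕ} (hN : 0 < N) {P : ∀ (G : Type) [Group G], Prop} (hP : IsoInv P) :
    ∃ S : Fin (num N P) → GS N, (∀ i, @P (Fin N) (S i)) ∧
      (∀ i j, GSIso (S i) (S j) → i = j) ∧
      ∀ (G : Type) [Group G], Nat.card G = N → P G →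
        ∃ i, Nonempty (@MulEquiv G (Fin N) _ (S i).toMul) := by
  have e : {c : Cl N // ∃ G : GS N, Quotient.mk (gsSetoid N) G = c ∧ @P (Fin N) G} ≃
      Fin (num N P) := Finite.equivFin _
  have hX : ∀ i : Fin (num N P), ∃ G : GS N, Quotient.mk (gsSetoid N) G = (e.symm i).1 ∧
      @P (Fin N) G := fun i => (e.symm i).2
  choose S hS hPS using hX
  refine ⟨S, hPS, ?_, ?_⟩
  · intro i j hij
    have h1 : Quotient.mk (gsSetoid N) (S i) = Quotient.mk (gsSetoid N) (S j) := Quotient.sound hij
    rw [hS, hS] at h1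
    exact e.symm.injective (Subtype.ext h1)
  · intro G _ hG hPG
    have : Finite G := Nat.finite_of_card_ne_zero (by rw [hG]; omega)
    obtain ⟨T, ⟨e1⟩⟩ := exists_GS G hG
    have hPT : @P (Fin N) T := by
      let _ := T
      exact hP G (Fin N) e1 hPG
    refine ⟨e ⟨Quotient.mk (gsSetoid N) T, T, rfl, hPT⟩, ?_⟩
    have h1 := hS (e ⟨Quotient.mk (gsSetoid N) T, T, rfl, hPT⟩)
    rw [e.symm_apply_apply] at h1
    have h2 : GSIso (S (e ⟨Quotient.mk (gsSetoid N) T, T, rfl, hPT⟩)) T := Quotient.exact h1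
    obtain ⟨e2⟩ := h2
    exact ⟨@MulEquiv.trans G (Fin N) (Fin N) _ T.toMul
      (S (e ⟨Quotient.mk (gsSetoid N) T, T, rfl, hPT⟩)).toMul e1
      (@MulEquiv.symm (Fin N) (Fin N) (S (e ⟨Quotient.mk (gsSetoid N) T, T, rfl, hPT⟩)).toMul
        T.toMul e2)⟩

/-- a group of order `p ^ n` is generated by `n` elements -/
theorem exists_gen {p n : ℕ} [Fact p.Prime] (G : Type) [Group G] (h : Nat.card G = p ^ n) :
    ∃ x : Fin n → G, closure (Set.range x) = ⊤ := by
  have hp : p.Prime := Fact.out
  have hfin : Finite G := Nat.finite_of_card_ne_zero (by rw [h]; exact pow_ne_zero _ hp.ne_zero)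
  have key : ∀ k ≤ n, ∃ x : Fin k → G, p ^ k ≤ Nat.card (closure (Set.range x)) := by
    intro k
    induction k with
    | zero => intro _; exact ⟨fun i => i.elim0, by rw [pow_zero]; exact Nat.card_pos⟩
    | succ k ih =>
      intro hk
      obtain ⟨x, hx⟩ := ih (by omega)
      by_cases htop : closure (Set.range x) = ⊤
      · refine ⟨Fin.snoc x 1, ?_⟩
        have h1 : closure (Set.range x) ≤ closure (Set.range (Fin.snoc x 1 : Fin (k + 1) → G)) := by
          refine closure_mono ?_
          rintro _ ⟨i, rfl⟩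
          exact ⟨i.castSucc, Fin.snoc_castSucc (α := fun _ => G) _ _ _⟩
        rw [htop, top_le_iff] at h1
        rw [h1, card_top, h]
        exact Nat.pow_le_pow_right hp.pos hk
      · obtain ⟨y, hy⟩ : ∃ y, y ∉ closure (Set.range x) := by
          by_contra hcon
          push Not at hcon
          exact htop (eq_top_iff.2 fun z _ => hcon z)
        refine ⟨Fin.snoc x y, ?_⟩
        have h1 : closure (Set.range x) ≤ closure (Set.range (Fin.snoc x y : Fin (k + 1) → G)) := by
          refine closure_mono ?_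
          rintro _ ⟨i, rfl⟩
          exact ⟨i.castSucc, Fin.snoc_castSucc (α := fun _ => G) _ _ _⟩
        have h2 : y ∈ closure (Set.range (Fin.snoc x y : Fin (k + 1) → G)) :=
          subset_closure ⟨Fin.last k, Fin.snoc_last (α := fun _ => G) _ _⟩
        have h3 : Nat.card (closure (Set.range x)) *
            (closure (Set.range x)).relIndex (closure (Set.range (Fin.snoc x y : Fin (k + 1) → G)))
            = Nat.card (closure (Set.range (Fin.snoc x y : Fin (k + 1) → G))) := by
          have h0 := relIndex_mul_relIndex ⊥ _ _ bot_le h1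
          rwa [relIndex_bot_left, relIndex_bot_left] at h0
        have h4 : (closure (Set.range x)).relIndex
            (closure (Set.range (Fin.snoc x y : Fin (k + 1) → G))) ≠ 1 := by
          rw [Ne, relIndex_eq_one]
          exact fun hle => hy (hle h2)
        have h5 : (closure (Set.range x)).relIndex
            (closure (Set.range (Fin.snoc x y : Fin (k + 1) → G))) ∣ p ^ n := by
          refine (Dvd.intro_left _ h3).trans ?_
          rw [← h]
          exact card_subgroup_dvd_card _
        obtain ⟨j, _, hj⟩ := (Nat.dvd_prime_pow hp).1 h5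
        have h6 : j ≠ 0 := by
          rintro rfl
          exact h4 (by rw [hj, pow_zero])
        have h7 : p ≤ (closure (Set.range x)).relIndex
            (closure (Set.range (Fin.snoc x y : Fin (k + 1) → G))) := by
          rw [hj]
          exact Nat.le_self_pow h6 p
        calc p ^ (k + 1) = p ^ k * p := pow_succ _ _
          _ ≤ _ := Nat.mul_le_mul hx h7
          _ = _ := h3
  obtain ⟨x, hx⟩ := key n le_rfl
  refine ⟨x, ?_⟩
  rw [← h] at hx
  exact eq_top_of_le_card _ hx

/-- a finite `p`-group of order `p ^ n` has at most `p ^ (n ^ 2)` automorphisms -/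
theorem card_mulAut_le {p n : ℕ} [Fact p.Prime] (G : Type) [Group G] (h : Nat.card G = p ^ n) :
    Nat.card (MulAut G) ≤ p ^ (n ^ 2) := by
  have hp : p.Prime := Fact.out
  have hfin : Finite G := Nat.finite_of_card_ne_zero (by rw [h]; exact pow_ne_zero _ hp.ne_zero)
  obtain ⟨x, hx⟩ := exists_gen G h
  have h1 : Function.Injective (fun (α : MulAut G) (i : Fin n) => α (x i)) := by
    intro α β hαβ
    have h2 : α.toMonoidHom = β.toMonoidHom := by
      refine MonoidHom.eq_of_eqOn_dense hx ?_
      rintro _ ⟨i, rfl⟩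
      exact congrFun hαβ i
    exact MulEquiv.ext fun g => DFunLike.congr_fun h2 g
  have h2 := Nat.card_le_card_of_injective _ h1
  rw [Nat.card_fun, h, Nat.card_eq_fintype_card (α := Fin n), Fintype.card_fin] at h2
  rwa [sq, pow_mul]

end Pool.Agent.IG
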