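import Pool.Agent.IG.Basic

/-!
# A subgroup whose derived group generates `K'` modulo `[K', K] K' ^ p` has the same derived group
-/

open Subgroup
open scoped commutatorElement

noncomputable section

namespace Pool.Agent.IG

theorem comm_le_of_le_sup_center {K : Type} [Group K] {A B : Subgroup K} (C : Subgroup K)
    (h : A ≤ B ⊔ center K) : ⁅A, C⁆ ≤ ⁅B, C⁆ := by
  rw [commutator_le]
  intro a ha c hc
  obtain ⟨b, hb, z, hz, rfl⟩ := Subgroup.mem_sup_of_normal_right.1 (h ha)
  have h1 : ⁅b * z, c⁆ = ⁅b, c⁆ := by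
    rw [commutatorElement_def, commutatorElement_def]
    have := mem_center_iff.1 hz c
    calc b * z * c * (b * z)⁻¹ * c⁻¹ = b * (z * c) * z⁻¹ * b⁻¹ * c⁻¹ := by group
      _ = b * (c * z) * z⁻¹ * b⁻¹ * c⁻¹ := by rw [this]
      _ = b * c * b⁻¹ * c⁻¹ := by group
  rw [h1]
  exact commutator_mem_commutator hb hc

theorem comm_eq_of_nilpotent (K : Type) [Group K] [Group.IsNilpotent K] :
    ∀ T : Subgroup K, ⁅T, T⁆ ⊔ ⁅commutator K, (⊤ : Subgroup K)⁆ = commutator K →
      ⁅T, T⁆ = commutator K := by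
  refine Group.nilpotent_center_quotient_ind (P := fun K _ _ => ∀ T : Subgroup K,
    ⁅T, T⁆ ⊔ ⁅commutator K, (⊤ : Subgroup K)⁆ = commutator K → ⁅T, T⁆ = commutator K) K ?_ ?_
  · intro K _ _ T _
    exact Subsingleton.elim _ _
  · intro K _ _ ih T hT
    set π := QuotientGroup.mk' (center K) with hπ
    have hsurj : Function.Surjective π := QuotientGroup.mk'_surjective _
    have hcomm : (commutator K).map π = commutator (K ⧸ center K) := by
      rw [_root_.commutator_def, _root_.commutator_def, Subgroup.map_commutator,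
        Subgroup.map_top_of_surjective π hsurj]
    have h1 : ⁅T.map π, T.map π⁆ = commutator (K ⧸ center K) := by
      refine ih (T.map π) ?_
      rw [← hcomm, ← Subgroup.map_commutator, ← Subgroup.map_top_of_surjective π hsurj,
        ← Subgroup.map_commutator, ← Subgroup.map_sup, hT]
    have h2 : commutator K ≤ ⁅T, T⁆ ⊔ center K := by
      have h3 : (commutator K).map π ≤ ⁅T, T⁆.map π := by
        rw [hcomm, ← h1, ← Subgroup.map_commutator]
      have h4 := Subgroup.map_le_iff_le_comap.1 h3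
      rw [Subgroup.comap_map_eq, QuotientGroup.ker_mk'] at h4
      exact h4
    have hTK : ⁅T, T⁆ ≤ commutator K := commutator_mono le_top le_top
    set X : Subgroup K := ⁅⁅T, T⁆, T⁆ with hX
    have hX1 : ⁅commutator K, T⁆ ≤ X := comm_le_of_le_sup_center T h2
    have hX2 : X ≤ ⁅commutator K, T⁆ := commutator_mono hTK le_rfl
    have hXT : X ≤ ⁅T, T⁆ := by
      refine commutator_mono ?_ le_rfl
      rw [commutator_le]
      intro a ha b hb
      rw [commutatorElement_def]
      exact mul_mem (mul_mem (mul_mem ha hb) (inv_mem ha)) (inv_mem hb)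
    have hTT : ⁅T, T⁆ ≤ T := by
      rw [commutator_le]
      intro a ha b hb
      rw [commutatorElement_def]
      exact mul_mem (mul_mem (mul_mem ha hb) (inv_mem ha)) (inv_mem hb)
    have hKK : ⁅commutator K, commutator K⁆ ≤ X := by
      refine (comm_le_of_le_sup_center _ h2).trans ?_
      rw [Subgroup.commutator_comm]
      refine (comm_le_of_le_sup_center _ h2).trans ?_
      exact commutator_mono le_rfl hTT
    have hnorm : ∀ c ∈ commutator K, ∀ a ∈ commutator K, ∀ t ∈ T, c * ⁅a, t⁆ * c⁻¹ ∈ X := by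
      intro c hc a ha t ht
      obtain ⟨τ, hτ, z, hz, rfl⟩ := Subgroup.mem_sup_of_normal_right.1 (h2 hc)
      have hz1 := mem_center_iff.1 hz
      have h5 : τ * z * ⁅a, t⁆ * (τ * z)⁻¹ = ⁅τ * a * τ⁻¹, τ * t * τ⁻¹⁆ := by
        have h6 : τ * z * ⁅a, t⁆ * (τ * z)⁻¹ = τ * (z * ⁅a, t⁆) * z⁻¹ * τ⁻¹ := by group
        rw [h6, ← hz1, commutatorElement_def, commutatorElement_def]
        group
      rw [h5]
      refine hX1 (commutator_mem_commutator ?_ ?_)
      · exact (inferInstance : (commutator K).Normal).conj_mem a ha τ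
      · exact mul_mem (mul_mem (hTT hτ) ht) (inv_mem (hTT hτ))
    have hXn : X.Normal := by
      have h7 : ∀ k : K, X.map (MulAut.conj k).toMonoidHom ≤ X := by
        intro k
        refine (Subgroup.map_mono hX2).trans ?_
        rw [Subgroup.map_commutator, commutator_le]
        rintro _ ⟨a, ha, rfl⟩ _ ⟨t, ht, rfl⟩
        change ⁅k * a * k⁻¹, k * t * k⁻¹⁆ ∈ X
        have h8 : k * t * k⁻¹ = ⁅k, t⁆ * t := by rw [commutatorElement_def]; group
        have ha' : k * a * k⁻¹ ∈ commutator K :=
          (inferInstance : (commutator K).Normal).conj_mem a ha k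
        have hc : ⁅k, t⁆ ∈ commutator K := commutator_mem_commutator (mem_top _) (mem_top _)
        rw [h8]
        have h9 : ⁅k * a * k⁻¹, ⁅k, t⁆ * t⁆ =
            ⁅k * a * k⁻¹, ⁅k, t⁆⁆ * (⁅k, t⁆ * ⁅k * a * k⁻¹, t⁆ * ⁅k, t⁆⁻¹) := by
          generalize k * a * k⁻¹ = a'
          generalize ⁅k, t⁆ = c
          rw [commutatorElement_def, commutatorElement_def, commutatorElement_def]
          group
        rw [h9]
        exact mul_mem (hKK (commutator_mem_commutator ha' hc)) (hnorm _ hc _ ha' t ht)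
      exact ⟨fun x hx k => h7 k ⟨x, hx, rfl⟩⟩
    have h3 : ⁅⁅T, T⁆, (⊤ : Subgroup K)⁆ ≤ X := by
      set q := QuotientGroup.mk' X with hq
      have h10 : ⁅⁅T, (⊤ : Subgroup K)⁆, T⁆ ≤ X :=
        (commutator_mono (commutator_mono le_top le_rfl) le_rfl).trans hX1
      have h11 : ⁅⁅T.map q, (⊤ : Subgroup K).map q⁆, T.map q⁆ = ⊥ := by
        rw [← Subgroup.map_commutator, ← Subgroup.map_commutator, Subgroup.map_eq_bot_iff,
          QuotientGroup.ker_mk']
        exact h10
      have h12 : ⁅⁅T.map q, T.map q⁆, (⊤ : Subgroup K).map q⁆ = ⊥ := by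
        refine Subgroup.commutator_commutator_eq_bot_of_rotate h11 ?_
        rw [Subgroup.commutator_comm ((⊤ : Subgroup K).map q)]
        exact h11
      rwa [← Subgroup.map_commutator, ← Subgroup.map_commutator, Subgroup.map_eq_bot_iff,
        QuotientGroup.ker_mk'] at h12
    have h4 : ⁅commutator K, (⊤ : Subgroup K)⁆ ≤ ⁅T, T⁆ :=
      ((comm_le_of_le_sup_center ⊤ h2).trans h3).trans hXT
    rw [← hT]
    exact (sup_eq_left.2 h4).symm

variable {p : ℕ} [Fact p.Prime]

theorem exists_dual_ne_zero {M : Type} [AddCommGroup M] [Module (ZMod p) M] {x : M}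
    (hx : x ≠ 0) : ∃ f : M →ₗ[ZMod p] ZMod p, f x ≠ 0 :=
  Module.Projective.exists_dual_ne_zero (ZMod p) hx

theorem exists_addHom_ne_zero {M : Type} [AddCommGroup M] (hM : ∀ m : M, p • m = 0) {x : M}
    (hx : x ≠ 0) : ∃ f : M →+ ZMod p, f x ≠ 0 := by
  let _ : Module (ZMod p) M := AddCommGroup.zmodModule hM
  obtain ⟨f, hf⟩ := exists_dual_ne_zero (p := p) hx
  exact ⟨f.toAddMonoidHom, hf⟩

/-- a nontrivial finite abelian `p`-group has a nontrivial homomorphism to `ZMod p` -/
theorem exists_hom_ne_one {Q : Type} [CommGroup Q] [Finite Q] (hQ : IsPGroup p Q)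
    [Nontrivial Q] : ∃ φ : Q →* Multiplicative (ZMod p), φ ≠ 1 := by
  classical
  have hni : ¬ Function.Injective (powMonoidHom p : Q →* Q) := by
    intro hinj
    obtain ⟨x, hx⟩ := exists_prime_orderOf_dvd_card' p (G := Q) (by
      obtain ⟨k, hk, hk'⟩ := hQ.nontrivial_iff_card.1 inferInstance
      rw [hk']
      exact dvd_pow_self p hk.ne')
    have h1 : x ^ p = 1 := by rw [← hx]; exact pow_orderOf_eq_one x
    have h2 : x = 1 := hinj (by simpa using h1)
    rw [h2, orderOf_one] at hx
    exact (Fact.out : p.Prime).one_lt.ne hx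
  have hns : ¬ Function.Surjective (powMonoidHom p : Q →* Q) := fun h =>
    hni (Finite.injective_iff_surjective.2 h)
  set R : Subgroup Q := (powMonoidHom p : Q →* Q).range with hR
  have hR1 : R ≠ ⊤ := fun h => hns (MonoidHom.range_eq_top.1 h)
  have hM : ∀ m : Additive (Q ⧸ R), p • m = 0 := by
    intro m
    obtain ⟨x, hx⟩ := QuotientGroup.mk_surjective (Additive.toMul m)
    refine Additive.toMul.injective ?_
    change (Additive.toMul m) ^ p = 1
    rw [← hx, ← QuotientGroup.mk_pow, QuotientGroup.eq_one_iff]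
    exact ⟨x, rfl⟩
  obtain ⟨x, hx⟩ : ∃ x : Q, x ∉ R := by
    by_contra hcon
    push Not at hcon
    exact hR1 (eq_top_iff.2 fun x _ => hcon x)
  have hx0 : (Additive.ofMul (x : Q ⧸ R)) ≠ 0 := by
    intro h
    have h1 : (x : Q ⧸ R) = 1 := h
    exact hx ((QuotientGroup.eq_one_iff x).1 h1)
  obtain ⟨f, hf⟩ := exists_addHom_ne_zero hM hx0
  refine ⟨(AddMonoidHom.toMultiplicativeRight f).comp (QuotientGroup.mk' R), ?_⟩
  intro h
  apply hf
  exact DFunLike.congr_fun h x

/-- If every `K`-invariant homomorphism `K' → ZMod p` that kills `T'` is trivial, then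
`T' = K'`. -/
theorem comm_eq_of_hom {K : Type} [Group K] [Finite K] (hK : IsPGroup p K) (T : Subgroup K)
    (h : ∀ χ : commutator K →* Multiplicative (ZMod p),
      (∀ (k : K) (x : commutator K), χ ⟨k * x.1 * k⁻¹,
        (inferInstance : (commutator K).Normal).conj_mem x.1 x.2 k⟩ = χ x) →
      (∀ x : commutator K, x.1 ∈ ⁅T, T⁆ → χ x = 1) → χ = 1) : ⁅T, T⁆ = commutator K := by
  have hnil : Group.IsNilpotent K := hK.isNilpotent
  apply comm_eq_of_nilpotent K T
  have hle : ⁅T, T⁆ ⊔ ⁅commutator K, (⊤ : Subgroup K)⁆ ≤ commutator K :=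
    sup_le (commutator_mono le_top le_top) (commutator_mono le_top le_rfl)
  by_contra hne
  set M₀ : Subgroup K := ⁅T, T⁆ ⊔ ⁅commutator K, (⊤ : Subgroup K)⁆ with hM₀
  set N : Subgroup (commutator K) := M₀.subgroupOf (commutator K) with hN
  have hNne : N ≠ ⊤ := by
    intro h1
    rw [hN, Subgroup.subgroupOf_eq_top] at h1
    exact hne (le_antisymm hle h1)
  set A : Subgroup (Abelianization (commutator K)) := N.map Abelianization.of with hA
  have hker : (Abelianization.of : commutator K →* _).ker ≤ N := by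
    rw [Abelianization.ker_of]
    refine Subgroup.commutator_le.2 ?_
    intro a _ b _
    rw [hN, Subgroup.mem_subgroupOf]
    exact (le_sup_right : _ ≤ M₀) (commutator_mem_commutator a.2 (mem_top _))
  have hAne : A ≠ ⊤ := by
    intro h1
    apply hNne
    have h2 : A.comap Abelianization.of = N := by
      rw [hA, Subgroup.comap_map_eq_self hker]
    rw [← h2, h1, Subgroup.comap_top]
  have : Finite (Abelianization (commutator K)) := Quotient.finite _
  have hAn : A.Normal := Subgroup.normal_of_isMulCommutative A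
  have : Nontrivial (Abelianization (commutator K) ⧸ A) :=
    QuotientGroup.nontrivial_iff.2 hAne
  have hpg : IsPGroup p (Abelianization (commutator K) ⧸ A) :=
    IsPGroup.of_surjective (hK.to_subgroup (commutator K))
      ((QuotientGroup.mk' A).comp Abelianization.of) (by
        intro y
        obtain ⟨z, rfl⟩ := QuotientGroup.mk_surjective y
        obtain ⟨x, rfl⟩ := QuotientGroup.mk_surjective z
        exact ⟨x, rfl⟩)
  obtain ⟨φ, hφ⟩ := exists_hom_ne_one hpg
  set χ : commutator K →* Multiplicative (ZMod p) :=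
    (φ.comp (QuotientGroup.mk' A)).comp Abelianization.of with hχ
  have hχN : ∀ x ∈ N, χ x = 1 := by
    intro x hx
    have h1 : QuotientGroup.mk' A (Abelianization.of x) = 1 := by
      rw [QuotientGroup.mk'_apply, QuotientGroup.eq_one_iff]
      exact ⟨x, hx, rfl⟩
    rw [hχ, MonoidHom.comp_apply, MonoidHom.comp_apply, h1, map_one]
  have h1 := h χ (by
    intro k x
    have hx' : ⁅k, x.1⁆ ∈ ⁅commutator K, (⊤ : Subgroup K)⁆ := by
      rw [Subgroup.commutator_comm]
      exact commutator_mem_commutator (mem_top _) x.2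
    have hxc : ⁅k, x.1⁆ ∈ commutator K := commutator_mem_commutator (mem_top _) (mem_top _)
    have h2 : (⟨k * x.1 * k⁻¹, (inferInstance : (commutator K).Normal).conj_mem x.1 x.2 k⟩ :
        commutator K) = ⟨⁅k, x.1⁆, hxc⟩ * x := by
      refine Subtype.ext ?_
      change k * x.1 * k⁻¹ = ⁅k, x.1⁆ * x.1
      rw [commutatorElement_def]
      group
    rw [h2, map_mul, hχN _ (by
      rw [hN, Subgroup.mem_subgroupOf]
      exact (le_sup_right : _ ≤ M₀) hx'), one_mul]) (by
    intro x hx
    refine hχN x ?_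
    rw [hN, Subgroup.mem_subgroupOf]
    exact (le_sup_left : _ ≤ M₀) hx)
  apply hφ
  refine MonoidHom.ext fun y => ?_
  obtain ⟨z, rfl⟩ := QuotientGroup.mk_surjective y
  obtain ⟨x, rfl⟩ := QuotientGroup.mk_surjective z
  exact DFunLike.congr_fun h1 x

end Pool.Agent.IG
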