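import Pool.Agent.IG.LinA
import Pool.Agent.IG.NilComm
import Pool.Agent.IG.Count

/-!
# Bounded index subgroups whose derived group is the derived group of a few-generated subgroup
-/

open Subgroup Filter Module
open scoped commutatorElement

noncomputable section

namespace Pool.Agent.IG

/-- `G' = T'` for a subgroup `T` generated by `s` elements -/
def TypeI (s : ℕ) (G : Type) [Group G] : Prop :=
  ∃ u : Fin s → G, ⁅closure (Set.range u), closure (Set.range u)⁆ = commutator G

theorem TypeI_of_finset {s : ℕ} {G : Type} [Group G] (S : Finset G) (hS : S.card ≤ s)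
    (h : ⁅closure (S : Set G), closure (S : Set G)⁆ = commutator G) : TypeI s G := by
  classical
  have e := S.equivFin
  refine ⟨fun i => if hi : (i : ℕ) < S.card then (e.symm ⟨i, hi⟩ : G) else 1, ?_⟩
  have h1 : closure (Set.range fun i : Fin s =>
      if hi : (i : ℕ) < S.card then (e.symm ⟨i, hi⟩ : G) else 1) = closure (S : Set G) := by
    apply le_antisymm
    · rw [closure_le]
      rintro _ ⟨i, rfl⟩
      by_cases hi : (i : ℕ) < S.card
      · simp only [dif_pos hi]
        exact subset_closure (e.symm ⟨i, hi⟩).2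
      · simp only [dif_neg hi]
        exact one_mem _
    · rw [closure_le]
      intro x hx
      refine subset_closure ⟨⟨e ⟨x, hx⟩, (e ⟨x, hx⟩).2.trans_le hS⟩, ?_⟩
      simp only [Fin.eta, Fin.is_lt, dif_pos, Equiv.symm_apply_apply]
  rw [h1, h]

theorem TypeI_mono {s s' : ℕ} (h : s ≤ s') {G : Type} [Group G] (hG : TypeI s G) :
    TypeI s' G := by
  classical
  obtain ⟨u, hu⟩ := hG
  refine TypeI_of_finset (Finset.univ.image u) ?_ ?_
  · refine Finset.card_image_le.trans ?_
    simpa using h
  · rw [Finset.coe_image, Finset.coe_univ, Set.image_univ]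
    exact hu

theorem TypeI_isoInv (s : ℕ) : IsoInv (fun G _ => TypeI s G) := by
  intro G H _ _ e hG
  obtain ⟨u, hu⟩ := hG
  refine ⟨fun i => e (u i), ?_⟩
  have h1 : Set.range (fun i => e (u i)) = e.toMonoidHom '' Set.range u := by
    rw [← Set.range_comp]; rfl
  rw [h1, ← MonoidHom.map_closure, ← Subgroup.map_commutator, hu, _root_.commutator_def,
    _root_.commutator_def, Subgroup.map_commutator,
    Subgroup.map_top_of_surjective e.toMonoidHom e.surjective]

variable {p : ℕ} [Fact p.Prime]

section Forms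

variable (p) (K : Type) [Group K]

/-- the `K`-invariant homomorphisms `K' → ZMod p` -/
def InvHom : Submodule (ZMod p) (commutator K → ZMod p) where
  carrier := {χ | (∀ x y, χ (x * y) = χ x + χ y) ∧ ∀ (k : K) (x : commutator K),
    χ ⟨k * x.1 * k⁻¹, (inferInstance : (commutator K).Normal).conj_mem x.1 x.2 k⟩ = χ x}
  add_mem' := by
    rintro χ ψ ⟨h1, h2⟩ ⟨h1', h2'⟩
    refine ⟨fun x y => ?_, fun k x => ?_⟩
    · simp only [Pi.add_apply, h1, h1']; ring
    · simp only [Pi.add_apply, h2, h2']
  zero_mem' := ⟨fun _ _ => by simp, fun _ _ => rfl⟩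
  smul_mem' := by
    rintro c χ ⟨h1, h2⟩
    refine ⟨fun x y => ?_, fun k x => ?_⟩
    · simp only [Pi.smul_apply, h1, smul_add]
    · simp only [Pi.smul_apply, h2]

variable {K}

/-- the commutator as an element of the derived group -/
def cm (x y : K) : commutator K := ⟨⁅x, y⁆, commutator_mem_commutator (mem_top x) (mem_top y)⟩

variable {p}

theorem inv_cm_mul_left (χ : InvHom p K) (x x' y : K) :
    χ.1 (cm (x * x') y) = χ.1 (cm x y) + χ.1 (cm x' y) := by
  have h := χ.2.2 x (cm x' y)
  rw [← h, add_comm, ← χ.2.1]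
  refine congrArg χ.1 (Subtype.ext ?_)
  change ⁅x * x', y⁆ = x * ⁅x', y⁆ * x⁻¹ * ⁅x, y⁆
  rw [commutatorElement_def, commutatorElement_def, commutatorElement_def]
  group

theorem inv_cm_mul_right (χ : InvHom p K) (x y y' : K) :
    χ.1 (cm x (y * y')) = χ.1 (cm x y) + χ.1 (cm x y') := by
  have h := χ.2.2 y (cm x y')
  rw [← h, ← χ.2.1]
  refine congrArg χ.1 (Subtype.ext ?_)
  change ⁅x, y * y'⁆ = ⁅x, y⁆ * (y * ⁅x, y'⁆ * y⁻¹)
  rw [commutatorElement_def, commutatorElement_def, commutatorElement_def]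
  group

theorem inv_one (χ : InvHom p K) : χ.1 1 = 0 := by
  have := χ.2.1 1 1
  rw [mul_one] at this
  simpa using this

theorem inv_cm_self (χ : InvHom p K) (x : K) : χ.1 (cm x x) = 0 := by
  have : cm x x = (1 : commutator K) := Subtype.ext (commutatorElement_self x)
  rw [this, inv_one]

theorem additive_Phi {g : K → ZMod p} (hg : ∀ x y, g (x * y) = g x + g y) {x : K}
    (hx : x ∈ Phi p K) : g x = 0 := by
  let f : K →* Multiplicative (ZMod p) :=
    { toFun := fun x => Multiplicative.ofAdd (g x)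
      map_one' := by
        have := hg 1 1
        rw [mul_one] at this
        have h0 : g 1 = 0 := by simpa using this
        rw [h0]; rfl
      map_mul' := fun x y => by rw [hg]; rfl }
  have h1 : Phi p K ≤ f.ker := by
    rw [Phi_le_iff]
    refine ⟨fun a b => ?_, fun a => ?_⟩
    · rw [MonoidHom.mem_ker, map_commutatorElement]
      exact commutatorElement_eq_one_iff_mul_comm.2 (mul_comm _ _)
    · rw [MonoidHom.mem_ker, map_pow]
      change Multiplicative.ofAdd (p • g a) = 1
      rw [nsmul_eq_mul, ZMod.natCast_self, zero_mul]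
      rfl
  have h2 := h1 hx
  exact MonoidHom.mem_ker.1 h2

theorem additive_congr {g : K → ZMod p} (hg : ∀ x y, g (x * y) = g x + g y) {x y : K}
    (hxy : mkV p x = mkV p y) : g x = g y := by
  have h1 : x * (x⁻¹ * y) = y := by group
  rw [← h1, hg, additive_Phi hg ((mkV_eq_iff p x y).1 hxy), add_zero]

/-- a representative of a class in the Frattini quotient -/
def rep (v : V p K) : K := (mkV_surjective p v).choose

omit [Fact p.Prime] in
theorem mkV_rep (v : V p K) : mkV p (rep v) = v := (mkV_surjective p v).choose_spec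

/-- the form attached to an invariant homomorphism -/
def fm (χ : InvHom p K) (v w : V p K) : ZMod p := χ.1 (cm (rep v) (rep w))

theorem fm_mkV (χ : InvHom p K) (x y : K) : fm χ (mkV p x) (mkV p y) = χ.1 (cm x y) := by
  rw [fm]
  rw [additive_congr (g := fun z => χ.1 (cm z (rep (mkV p y))))
    (fun a b => inv_cm_mul_left χ a b _) (mkV_rep (mkV p x))]
  exact additive_congr (g := fun z => χ.1 (cm x z))
    (fun a b => inv_cm_mul_right χ x a b) (mkV_rep (mkV p y))

/-- the forms as a linear map -/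
def frm : InvHom p K →ₗ[ZMod p] V p K →ₗ[ZMod p] V p K →ₗ[ZMod p] ZMod p :=
  AddMonoidHom.toZModLinearMap p (AddMonoidHom.mk' (fun χ =>
    AddMonoidHom.toZModLinearMap p (AddMonoidHom.mk' (fun v =>
      AddMonoidHom.toZModLinearMap p (AddMonoidHom.mk' (fun w => fm χ v w) (by
        intro w w'
        obtain ⟨x, rfl⟩ := mkV_surjective p v
        obtain ⟨y, rfl⟩ := mkV_surjective p w
        obtain ⟨y', rfl⟩ := mkV_surjective p w'
        rw [← mkV_mul, fm_mkV, fm_mkV, fm_mkV, inv_cm_mul_right]))) (by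
      intro v v'
      ext w
      obtain ⟨x, rfl⟩ := mkV_surjective p v
      obtain ⟨x', rfl⟩ := mkV_surjective p v'
      obtain ⟨y, rfl⟩ := mkV_surjective p w
      change fm χ (mkV p x + mkV p x') (mkV p y) = fm χ (mkV p x) (mkV p y) + fm χ _ _
      rw [← mkV_mul, fm_mkV, fm_mkV, fm_mkV, inv_cm_mul_left]))) (by
    intro χ ψ
    ext v w
    rfl))

theorem frm_apply (χ : InvHom p K) (x y : K) : frm χ (mkV p x) (mkV p y) = χ.1 (cm x y) :=
  fm_mkV χ x y

theorem frm_alt (χ : InvHom p K) (v : V p K) : frm χ v v = 0 := by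
  obtain ⟨x, rfl⟩ := mkV_surjective p v
  rw [frm_apply, inv_cm_self]

/-- an invariant homomorphism as a monoid homomorphism -/
def invToHom (χ : InvHom p K) : commutator K →* Multiplicative (ZMod p) where
  toFun x := Multiplicative.ofAdd (χ.1 x)
  map_one' := by rw [inv_one]; rfl
  map_mul' x y := by rw [χ.2.1]; rfl

theorem inv_eq_zero_of_cm (χ : InvHom p K) (h : ∀ x y, χ.1 (cm x y) = 0) : χ = 0 := by
  have h1 : (⊤ : Subgroup (commutator K)) ≤ (invToHom χ).ker := by
    have h2 : commutator K ≤ ((invToHom χ).ker).map (commutator K).subtype := by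
      refine Subgroup.commutator_le.2 ?_
      intro a _ b _
      exact ⟨cm a b, congrArg Multiplicative.ofAdd (h a b), rfl⟩
    intro x _
    obtain ⟨y, hy, hxy⟩ := h2 x.2
    have : y = x := Subtype.ext hxy
    rw [← this]
    exact hy
  refine Subtype.ext (funext fun x => ?_)
  exact h1 (mem_top x)

theorem frm_inj (χ : InvHom p K) (h : frm χ = 0) : χ = 0 := by
  refine inv_eq_zero_of_cm χ fun x y => ?_
  rw [← frm_apply, h]
  rfl

instance [Finite K] : Finite (InvHom p K) :=
  Finite.of_injective (fun χ : InvHom p K => (χ.1 : commutator K → ZMod p))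
    Subtype.val_injective

/-- the common kernel of a space of invariant homomorphisms -/
def kerOf (E : Submodule (ZMod p) (InvHom p K)) : Subgroup (commutator K) where
  carrier := {x | ∀ χ ∈ E, χ.1 x = 0}
  mul_mem' := by
    intro x y hx hy χ hχ
    rw [χ.2.1, hx χ hχ, hy χ hχ, add_zero]
  one_mem' := fun χ _ => inv_one χ
  inv_mem' := by
    intro x hx χ hχ
    have h1 := χ.2.1 x x⁻¹
    rw [mul_inv_cancel, inv_one, hx χ hχ, zero_add] at h1
    exact h1.symm

theorem mem_kerOf {E : Submodule (ZMod p) (InvHom p K)} {x : commutator K} :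
    x ∈ kerOf E ↔ ∀ χ ∈ E, χ.1 x = 0 := Iff.rfl

theorem card_kerOf_mul [Finite K] (E : Submodule (ZMod p) (InvHom p K)) :
    Nat.card (kerOf E) * p ^ finrank (ZMod p) E = Nat.card (commutator K) := by
  let f : commutator K →* Multiplicative (Dual (ZMod p) E) :=
    { toFun := fun x => Multiplicative.ofAdd
        (AddMonoidHom.toZModLinearMap p (AddMonoidHom.mk' (fun χ : E => χ.1.1 x)
          (fun _ _ => rfl)))
      map_one' := by
        refine congrArg Multiplicative.ofAdd (LinearMap.ext fun χ => ?_)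
        exact inv_one χ.1
      map_mul' := by
        intro x y
        refine congrArg Multiplicative.ofAdd (LinearMap.ext fun χ => ?_)
        exact χ.1.2.1 x y }
  have hf : ∀ x (χ : E), (Multiplicative.toAdd (f x)) χ = χ.1.1 x := fun _ _ => rfl
  have hker : f.ker = kerOf E := by
    ext x
    rw [MonoidHom.mem_ker, mem_kerOf]
    constructor
    · intro h χ hχ
      have h1 : Multiplicative.toAdd (f x) = 0 := by rw [h]; rfl
      have := LinearMap.congr_fun h1 ⟨χ, hχ⟩
      exact this
    · intro h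
      refine Multiplicative.toAdd.injective (LinearMap.ext fun χ => ?_)
      exact h χ.1 χ.2
  have hrange : f.range = ⊤ := by
    let R : Submodule (ZMod p) (Dual (ZMod p) E) :=
      AddSubgroup.toZModSubmodule p (Subgroup.toAddSubgroup' f.range)
    have hR : ∀ φ : Dual (ZMod p) E, φ ∈ R ↔ Multiplicative.ofAdd φ ∈ f.range := fun _ => Iff.rfl
    have h1 : R.dualCoannihilator = ⊥ := by
      rw [Submodule.eq_bot_iff]
      intro χ hχ
      rw [Submodule.mem_dualCoannihilator] at hχ
      refine Subtype.ext ?_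
      refine Subtype.ext (funext fun x => ?_)
      exact hχ (Multiplicative.toAdd (f x)) ⟨x, rfl⟩
    have h2 := Subspace.finrank_add_finrank_dualCoannihilator_eq R
    rw [h1, finrank_bot, add_zero] at h2
    have h3 : R = ⊤ := by
      refine Submodule.eq_top_of_finrank_eq ?_
      rw [h2, Subspace.dual_finrank_eq]
    rw [eq_top_iff]
    intro φ _
    have : Multiplicative.toAdd φ ∈ R := by rw [h3]; trivial
    exact (hR _).1 this
  have h4 : Nat.card f.range = p ^ finrank (ZMod p) E := by
    rw [hrange, Subgroup.card_top]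
    change Nat.card (Dual (ZMod p) E) = _
    rw [Module.natCard_eq_pow_finrank (K := ZMod p), Nat.card_zmod, Subspace.dual_finrank_eq]
  rw [← h4, ← hker, ← Subgroup.index_ker, Subgroup.card_mul_index]

end Forms

section Step

/-- the preimage in `K` of a subspace of the Frattini quotient -/
def preV {K : Type} [Group K] (A : Submodule (ZMod p) (V p K)) : Subgroup K where
  carrier := {x | mkV p x ∈ A}
  mul_mem' := by
    intro x y hx hy
    change mkV p (x * y) ∈ A
    rw [mkV_mul]
    exact A.add_mem hx hy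
  one_mem' := by
    change mkV p 1 ∈ A
    rw [mkV_one]
    exact A.zero_mem
  inv_mem' := by
    intro x hx
    change mkV p x⁻¹ ∈ A
    rw [mkV_inv]
    exact A.neg_mem hx

theorem mem_preV {K : Type} [Group K] {A : Submodule (ZMod p) (V p K)} {x : K} :
    x ∈ preV A ↔ mkV p x ∈ A := Iff.rfl

theorem index_preV_le {K : Type} [Group K] [Finite K] (A : Submodule (ZMod p) (V p K)) {r : ℕ}
    (h : finrank (ZMod p) (V p K) ≤ finrank (ZMod p) A + r) : (preV A).index ≤ p ^ r := by
  have : Finite (V p K ⧸ A) := Finite.of_surjective _ (Submodule.Quotient.mk_surjective A)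
  have h1 : (preV A).index ≤ Nat.card (V p K ⧸ A) := by
    rw [Subgroup.index]
    refine Nat.card_le_card_of_injective (fun q : K ⧸ preV A =>
      Quotient.liftOn' q (fun x => (Submodule.Quotient.mk (mkV p x) : V p K ⧸ A)) ?_) ?_
    · intro x y hxy
      rw [QuotientGroup.leftRel_apply, mem_preV, mkV_mul, mkV_inv] at hxy
      refine ((Submodule.Quotient.eq A).2 ?_).symm
      rwa [sub_eq_add_neg, add_comm]
    · intro q q' hqq
      obtain ⟨x, rfl⟩ := QuotientGroup.mk_surjective q
      obtain ⟨y, rfl⟩ := QuotientGroup.mk_surjective q'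
      have h2 : (Submodule.Quotient.mk (mkV p x) : V p K ⧸ A) = Submodule.Quotient.mk (mkV p y) :=
        hqq
      rw [QuotientGroup.eq, mem_preV, mkV_mul, mkV_inv]
      have h3 := (Submodule.Quotient.eq A).1 h2.symm
      rwa [sub_eq_add_neg, add_comm] at h3
  have h2 := Submodule.finrank_quotient_add_finrank A
  refine h1.trans ?_
  rw [Module.natCard_eq_pow_finrank (K := ZMod p), Nat.card_zmod]
  exact Nat.pow_le_pow_right (Fact.out : p.Prime).pos (by omega)

theorem preV_normal {K : Type} [Group K] (A : Submodule (ZMod p) (V p K)) :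
    (preV A).Normal := by
  refine ⟨fun x hx k => ?_⟩
  rw [mem_preV, mkV_mul, mkV_mul, mkV_inv, add_comm (mkV p k), add_neg_cancel_right]
  exact hx

/-- the index of the normal core of a subgroup normalised by a normal subgroup -/
theorem index_normalCore_le {G : Type} [Group G] [Finite G] (B K : Subgroup G)
    (hB : ∀ k ∈ K, ∀ b ∈ B, k * b * k⁻¹ ∈ B) : B.normalCore.index ≤ B.index ^ K.index := by
  classical
  have := Fintype.ofFinite (G ⧸ K)
  have h1 : B.normalCore = ⨅ q : G ⧸ K, B.map (MulAut.conj q.out).toMonoidHom := by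
    ext a
    rw [Subgroup.mem_iInf]
    constructor
    · intro h q
      refine ⟨q.out⁻¹ * a * q.out⁻¹⁻¹, h q.out⁻¹, ?_⟩
      change q.out * (q.out⁻¹ * a * q.out⁻¹⁻¹) * q.out⁻¹ = a
      group
    · intro h b
      have h2 := h (QuotientGroup.mk b⁻¹)
      obtain ⟨c, hc, hca⟩ := h2
      set r : G := (QuotientGroup.mk b⁻¹ : G ⧸ K).out with hr
      have h3 : (r : G ⧸ K) = (b⁻¹ : G) := QuotientGroup.out_eq' _
      have h4 : r⁻¹ * b⁻¹ ∈ K := QuotientGroup.eq.1 h3
      have hca' : r * c * r⁻¹ = a := hca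
      have h5 : b * a * b⁻¹ = (r⁻¹ * b⁻¹)⁻¹ * c * (r⁻¹ * b⁻¹)⁻¹⁻¹ := by
        rw [← hca']
        group
      rw [h5]
      exact hB _ (K.inv_mem h4) c hc
  rw [h1]
  refine (Subgroup.index_iInf_le _).trans ?_
  rw [Finset.prod_congr rfl (g := fun _ => B.index) (fun q _ => ?_)]
  · rw [Finset.prod_const, Finset.card_univ, ← Nat.card_eq_fintype_card]
    rfl
  · exact Subgroup.index_map_equiv B (MulAut.conj q.out)

/-- the number of generators in `step_A3` -/
def numGen (a n e₀ : ℕ) : ℕ := (n / a ^ 2 + 1) * a + (n / a + 1) + 2 * e₀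

/-- one step: either `K` is of type I or there is a normal subgroup of `G` of bounded index with a
smaller derived group -/
theorem step_A3 {a n e₀ c : ℕ} (ha : 0 < a)
    {G : Type} [Group G] (hG : Nat.card G = p ^ n) (K : Subgroup G) [K.Normal]
    (hK : K.index ≤ p ^ c) :
    TypeI (numGen a n e₀) K ∨ ∃ K₁ : Subgroup G, K₁.Normal ∧
      K₁.index ≤ p ^ ((c + (a ^ 2 + a) ^ 2) * p ^ c) ∧
      Nat.card (commutator K₁) * p ^ (e₀ + 1) ≤ Nat.card (commutator K) := by
  classical
  have hp : 0 < p := (Fact.out : p.Prime).pos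
  have hfin : Finite G := Nat.finite_of_card_ne_zero (by rw [hG]; exact (pow_pos hp n).ne')
  have hPG : IsPGroup p G := IsPGroup.of_card hG
  have hPK : IsPGroup p K := hPG.to_subgroup K
  -- the dimension of the space of invariant homomorphisms
  have hdim : finrank (ZMod p) (InvHom p K) ≤ n := by
    have h1 := card_kerOf_mul (K := K) (⊤ : Submodule (ZMod p) (InvHom p K))
    rw [finrank_top] at h1
    have h2 : Nat.card (commutator K) ≤ p ^ n := by
      rw [← hG]
      exact (Subgroup.card_le_card_group _).trans (Subgroup.card_le_card_group _)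
    have h3 : p ^ finrank (ZMod p) (InvHom p K) ≤ p ^ n := by
      refine le_trans ?_ h2
      rw [← h1]
      exact Nat.le_mul_of_pos_left _ Nat.card_pos
    exact (Nat.pow_le_pow_iff_right (Fact.out : p.Prime).one_lt).1 h3
  rcases linA12 (frm (p := p) (K := K)) (fun χ x => frm_alt χ x) frm_inj ha hdim e₀ with
    ⟨s, hs, hsep⟩ | ⟨A, E', hA, hE', hv⟩
  · left
    refine TypeI_of_finset (s.image rep) (Finset.card_image_le.trans hs) ?_
    refine comm_eq_of_hom hPK _ fun χ h1 h2 => ?_
    let ψ : InvHom p K := ⟨fun x => Multiplicative.toAdd (χ x),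
      fun x y => congrArg Multiplicative.toAdd (map_mul χ x y),
      fun k x => congrArg Multiplicative.toAdd (h1 k x)⟩
    have h3 : ψ = 0 := by
      refine hsep ψ fun v hv w hw => ?_
      rw [← mkV_rep v, ← mkV_rep w, frm_apply]
      have h4 : ((cm (rep v) (rep w) : commutator K) : K) ∈
          ⁅closure ((s.image rep : Finset K) : Set K), closure ((s.image rep : Finset K) : Set K)⁆ := by
        refine commutator_mem_commutator (subset_closure ?_) (subset_closure ?_)
        · exact Finset.mem_coe.2 (Finset.mem_image_of_mem rep hv)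
        · exact Finset.mem_coe.2 (Finset.mem_image_of_mem rep hw)
      have h5 := h2 _ h4
      change Multiplicative.toAdd (χ _) = 0
      rw [h5]
      rfl
    refine MonoidHom.ext fun x => ?_
    have h4 : ψ.1 x = 0 := by rw [h3]; rfl
    exact Multiplicative.toAdd.injective h4
  · right
    set B : Subgroup G := (preV A).map K.subtype with hBdef
    have hBK : B ≤ K := by
      rintro _ ⟨x, _, rfl⟩
      exact x.2
    have hBn : ∀ k ∈ K, ∀ b ∈ B, k * b * k⁻¹ ∈ B := by
      rintro k hk _ ⟨x, hx, rfl⟩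
      exact ⟨⟨k, hk⟩ * x * ⟨k, hk⟩⁻¹, (preV_normal A).conj_mem x hx ⟨k, hk⟩, rfl⟩
    have hBi : B.index ≤ p ^ (c + (a ^ 2 + a) ^ 2) := by
      have h1 : B.index = (preV A).index * K.index := by
        rw [hBdef, Subgroup.index_map_subtype]
      rw [h1, pow_add, mul_comm]
      exact Nat.mul_le_mul hK (index_preV_le A hA)
    refine ⟨B.normalCore, inferInstance, ?_, ?_⟩
    · refine (index_normalCore_le B K hBn).trans ?_
      have h2 : B.index ^ K.index ≤ (p ^ (c + (a ^ 2 + a) ^ 2)) ^ (p ^ c) := by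
        refine (Nat.pow_le_pow_left hBi _).trans (Nat.pow_le_pow_right (pow_pos hp _) hK)
      rwa [← pow_mul] at h2
    · set K₁ := B.normalCore with hK₁
      have hK₁B : K₁ ≤ B := Subgroup.normalCore_le B
      have h1 := card_kerOf_mul (K := K) E'
      have h2 : Nat.card (commutator K₁) ≤ Nat.card (kerOf E') := by
        have h3 : ∀ x : commutator K₁, ∃ y : kerOf E', ((y.1.1 : K) : G) = ((x.1 : K₁) : G) := by
          intro x
          have h4 : commutator K₁ ≤
              (((kerOf E').map (commutator K).subtype).map K.subtype).comap K₁.subtype := by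
            refine Subgroup.commutator_le.2 ?_
            rintro a _ b _
            obtain ⟨x, hx, hxa⟩ := hK₁B a.2
            obtain ⟨y, hy, hyb⟩ := hK₁B b.2
            refine ⟨⁅x, y⁆, ⟨cm x y, ?_, rfl⟩, ?_⟩
            · intro χ hχ
              rw [← frm_apply]
              exact hv χ hχ _ hx _ hy
            · rw [map_commutatorElement, map_commutatorElement, hxa, hyb]
              rfl
          obtain ⟨z, ⟨y, hy, hyz⟩, hzx⟩ := h4 x.2
          exact ⟨⟨y, hy⟩, (congrArg K.subtype hyz).trans hzx⟩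
        choose g hg using h3
        refine Nat.card_le_card_of_injective g fun x y hxy => ?_
        refine Subtype.ext (Subtype.ext ?_)
        rw [← hg x, ← hg y, hxy]
      rw [← h1]
      exact Nat.mul_le_mul h2 (Nat.pow_le_pow_right hp hE')

end Step

/-- the exponents of the indices -/
def idx (p a : ℕ) : ℕ → ℕ
  | 0 => 0
  | i + 1 => (idx p a i + (a ^ 2 + a) ^ 2) * p ^ idx p a i

theorem idx_mono (a : ℕ) {i j : ℕ} (h : i ≤ j) : idx p a i ≤ idx p a j := by
  induction h with
  | refl => exact le_rfl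
  | step _ ih =>
    refine ih.trans ?_
    rw [idx]
    exact (Nat.le_add_right _ _).trans (Nat.le_mul_of_pos_right _
      (pow_pos (Fact.out : p.Prime).pos _))

theorem iterate_A3 {a n e₀ : ℕ} (ha : 0 < a) {G : Type} [Group G] (hG : Nat.card G = p ^ n)
    (i : ℕ) : (∃ K : Subgroup G, K.Normal ∧ K.index ≤ p ^ idx p a i ∧
      TypeI (numGen a n e₀) K) ∨
    ∃ K : Subgroup G, K.Normal ∧ K.index ≤ p ^ idx p a i ∧
      Nat.card (commutator K) * p ^ (i * (e₀ + 1)) ≤ p ^ n := by
  have hp : 0 < p := (Fact.out : p.Prime).pos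
  have hfin : Finite G := Nat.finite_of_card_ne_zero (by rw [hG]; exact (pow_pos hp n).ne')
  induction i with
  | zero =>
    right
    refine ⟨⊤, inferInstance, ?_, ?_⟩
    · rw [Subgroup.index_top]
      exact Nat.one_le_pow _ _ hp
    · rw [zero_mul, pow_zero, mul_one, ← hG]
      refine (Subgroup.card_le_card_group _).trans ?_
      rw [Subgroup.card_top]
  | succ i ih =>
    rcases ih with ⟨K, h1, h2, h3⟩ | ⟨K, h1, h2, h3⟩
    · exact Or.inl ⟨K, h1, h2.trans (Nat.pow_le_pow_right hp (idx_mono a (Nat.le_succ i))), h3⟩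
    · rcases step_A3 (e₀ := e₀) ha hG K h2 with h4 | ⟨K₁, h4, h5, h6⟩
      · exact Or.inl ⟨K, h1, h2.trans (Nat.pow_le_pow_right hp (idx_mono a (Nat.le_succ i))), h4⟩
      · refine Or.inr ⟨K₁, h4, h5, ?_⟩
        calc Nat.card (commutator K₁) * p ^ ((i + 1) * (e₀ + 1))
            = (Nat.card (commutator K₁) * p ^ (e₀ + 1)) * p ^ (i * (e₀ + 1)) := by
              rw [add_mul, one_mul, pow_add (n := e₀ + 1)]; ring
          _ ≤ Nat.card (commutator K) * p ^ (i * (e₀ + 1)) := Nat.mul_le_mul_right _ h6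
          _ ≤ p ^ n := h3

/-- (A3) -/
theorem exists_typeI (σ : ℝ) (hσ : 0 < σ) : ∃ C : ℕ, ∀ᶠ n : ℕ in atTop,
    ∀ (G : Type) [Group G], Nat.card G = p ^ n →
      ∃ K : Subgroup G, K.Normal ∧ K.index ≤ p ^ C ∧ TypeI ⌊3 * σ * n⌋₊ K := by
  have hp : 1 < p := (Fact.out : p.Prime).one_lt
  set a : ℕ := ⌈4 / σ⌉₊ + 1 with ha
  set I : ℕ := ⌈1 / σ⌉₊ + 1 with hI
  have ha1 : (4 / σ : ℝ) ≤ a := by
    rw [ha]
    push_cast
    have := Nat.le_ceil (4 / σ)
    linarith
  have ha0 : (0 : ℝ) < a := lt_of_lt_of_le (by positivity) ha1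
  have hI1 : (1 / σ : ℝ) ≤ I := by
    rw [hI]
    push_cast
    have := Nat.le_ceil (1 / σ)
    linarith
  refine ⟨idx p a I, ?_⟩
  filter_upwards [eventually_ge_atTop (⌈2 * (a + 1) / σ⌉₊)] with n hn G _ hG
  set e₀ : ℕ := ⌊σ * n⌋₊ with he₀
  have he1 : (e₀ : ℝ) ≤ σ * n := Nat.floor_le (by positivity)
  have he2 : σ * n < e₀ + 1 := Nat.lt_floor_add_one _
  have hapos : 0 < a := by rw [ha]; exact Nat.succ_pos _
  rcases iterate_A3 (e₀ := e₀) hapos hG I with ⟨K, h1, h2, h3⟩ | ⟨K, h1, h2, h3⟩
  · refine ⟨K, h1, h2, TypeI_mono ?_ h3⟩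
    refine Nat.le_floor ?_
    have hn' : 2 * (a + 1) / σ ≤ (n : ℝ) := (Nat.le_ceil _).trans (by exact_mod_cast hn)
    have hn2 : 2 * ((a : ℝ) + 1) ≤ n * σ := by rwa [div_le_iff₀ hσ] at hn'
    have h5 : ((n / a ^ 2 : ℕ) : ℝ) ≤ n / (a : ℝ) ^ 2 := by
      have := Nat.cast_div_le (α := ℝ) (m := n) (n := a ^ 2)
      push_cast at this
      exact this
    have h6 : ((n / a : ℕ) : ℝ) ≤ n / (a : ℝ) := Nat.cast_div_le
    have h7 : (n : ℝ) / a ≤ σ * n / 4 := by
      rw [div_le_iff₀ ha0]
      have h8 : 4 ≤ σ * a := by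
        rw [div_le_iff₀ hσ] at ha1
        linarith
      have : (0 : ℝ) ≤ n := Nat.cast_nonneg n
      nlinarith
    have h8 : (n : ℝ) / (a : ℝ) ^ 2 * a = n / a := by
      field_simp
    rw [numGen]
    push_cast
    have h9 : ((n / a ^ 2 : ℕ) : ℝ) * a ≤ n / a := by
      rw [← h8]
      exact mul_le_mul_of_nonneg_right h5 ha0.le
    nlinarith
  · exfalso
    have h4 : 0 < Nat.card (commutator K) := by
      have hfin : Finite G :=
        Nat.finite_of_card_ne_zero (by rw [hG]; exact (pow_pos (by omega) n).ne')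
      exact Nat.card_pos
    have h5 : p ^ (I * (e₀ + 1)) ≤ p ^ n := (Nat.le_mul_of_pos_left _ h4).trans h3
    have h6 : I * (e₀ + 1) ≤ n := (Nat.pow_le_pow_iff_right hp).1 h5
    have h7 : (I : ℝ) * (e₀ + 1) ≤ n := by exact_mod_cast h6
    have h8 : (1 / σ) * (σ * n) < (I : ℝ) * (e₀ + 1) := by
      have hI0 : 0 < (1 / σ : ℝ) := by positivity
      calc (1 / σ) * (σ * n) < (1 / σ) * (e₀ + 1) := mul_lt_mul_of_pos_left he2 hI0
        _ ≤ I * (e₀ + 1) := mul_le_mul_of_nonneg_right hI1 (by positivity)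
    have h9 : (1 / σ) * (σ * n) = n := by field_simp
    linarith

end Pool.Agent.IG
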