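import Pool.Agent.IG.ExtDetA

/-!
# Counting extensions
-/

open Subgroup
open scoped commutatorElement

noncomputable section

namespace Pool.Agent.IG

variable {p : ℕ} [Fact p.Prime]

/-- the group with a given group structure on `Fin N` -/
def GT {N : ℕ} (_S : GS N) : Type := Fin N

instance {N : ℕ} (S : GS N) : Group (GT S) := S

instance {N : ℕ} (S : GS N) : Finite (GT S) := inferInstanceAs (Finite (Fin N))

theorem card_GT {N : ℕ} (S : GS N) : Nat.card (GT S) = N := by
  change Nat.card (Fin N) = N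
  simp

/-- number of groups with a given class of normal subgroups of index `p` -/
theorem num_ext (a : ℕ) {P : ∀ (G : Type) [Group G], Prop} (hP : IsoInv P) :
    num (p ^ (a + 1)) (fun G _ => ∃ N : Subgroup G, N.Normal ∧ N.index = p ∧ P N) ≤
      num (p ^ a) P * p ^ (a ^ 2 + a) := by
  have hp : p.Prime := Fact.out
  have hpos : ∀ n, 0 < p ^ n := fun n => pow_pos hp.pos n
  obtain ⟨S, -, -, hS⟩ := exists_reps (hpos a) hP
  have h := num_le_of_rel (hpos (a + 1))
    (P := fun G _ => ∃ N : Subgroup G, N.Normal ∧ N.index = p ∧ P N)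
    (X := Σ k : Fin (num (p ^ a) P), MulAut (GT (S k)) × GT (S k))
    (fun G _ x => ∃ N : Subgroup G, N.Normal ∧ N.index = p ∧ ∃ (e : N ≃* GT (S x.1)) (g : G),
      closure ((N : Set G) ∪ {g}) = ⊤ ∧
      (∀ u v : N, (v : G) = g * u * g⁻¹ → e v = x.2.1 (e u)) ∧
      ∃ u : N, (u : G) = g ^ p ∧ e u = x.2.2)
    ?_ ?_
  · refine h.trans ?_
    rw [Nat.card_sigma]
    calc ∑ k : Fin (num (p ^ a) P), Nat.card (MulAut (GT (S k)) × GT (S k))
        ≤ ∑ k : Fin (num (p ^ a) P), p ^ (a ^ 2 + a) := by
          refine Finset.sum_le_sum fun k _ => ?_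
          rw [Nat.card_prod, pow_add, card_GT]
          exact Nat.mul_le_mul_right _ (card_mulAut_le _ (card_GT _))
      _ = _ := by
          rw [Finset.sum_const, Finset.card_univ, Fintype.card_fin, smul_eq_mul]
  · rintro G _ hG ⟨N, hN, hNi, hPN⟩
    have hfin : Finite G := Nat.finite_of_card_ne_zero (by rw [hG]; exact (hpos _).ne')
    have hcN : Nat.card N = p ^ a := by
      have h1 := card_mul_index N
      rw [hNi, hG, pow_succ] at h1
      exact Nat.eq_of_mul_eq_mul_right hp.pos h1
    obtain ⟨k, ⟨e⟩⟩ := hS N hcN hPN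
    obtain ⟨g, hg⟩ : ∃ g, g ∉ N := by
      by_contra hcon
      push Not at hcon
      rw [index_eq_one.2 (eq_top_iff.2 fun z _ => hcon z)] at hNi
      exact hp.one_lt.ne hNi
    let e' : N ≃* GT (S k) := e
    refine ⟨⟨k, (e'.symm.trans (MulAut.conjNormal g)).trans e',
      e' ⟨g ^ p, by have := N.pow_index_mem g; rwa [hNi] at this⟩⟩, N, hN, hNi, e', g, ?_, ?_, ?_⟩
    · have h1 : N ≤ closure ((N : Set G) ∪ {g}) := fun z hz => subset_closure (Or.inl hz)
      have h2 : g ∈ closure ((N : Set G) ∪ {g}) := subset_closure (Or.inr rfl)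
      have h3 := relIndex_mul_index h1
      rw [hNi] at h3
      have h4 : N.relIndex (closure ((N : Set G) ∪ {g})) ≠ 1 := by
        rw [Ne, relIndex_eq_one]
        exact fun hle => hg (hle h2)
      rcases (Nat.dvd_prime hp).1 (Dvd.intro _ h3) with h5 | h5
      · exact absurd h5 h4
      · rw [h5] at h3
        rw [← index_eq_one]
        exact Nat.eq_of_mul_eq_mul_left hp.pos (by rw [h3, mul_one])
    · intro u v huv
      change e' v = e' (MulAut.conjNormal g (e'.symm (e' u)))
      rw [MulEquiv.symm_apply_apply]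
      congr 1
      refine Subtype.ext ?_
      rw [huv, MulAut.conjNormal_apply]
    · exact ⟨_, rfl, rfl⟩
  · rintro G H _ _ x hG hH - - ⟨N, hN, hNi, e, g, hg, hc, u, hu, hu'⟩
      ⟨N', hN', hNi', e', g', hg', hc', w, hw, hw'⟩
    have hfin : Finite G := Nat.finite_of_card_ne_zero (by rw [hG]; exact (hpos _).ne')
    have hfin' : Finite H := Nat.finite_of_card_ne_zero (by rw [hH]; exact (hpos _).ne')
    refine (ext_det (e.trans e'.symm) (t := 1) (fun _ => g) (fun _ => g') (fun _ => p)
      (by simpa using hNi) (by simpa using hNi') (by rwa [Set.range_const])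
      (by rwa [Set.range_const]) ?_ ?_ ?_).nonempty
    · intro _ s t hst
      have h1 := hc s t hst
      have h2 := hc' (e'.symm (e s)) ⟨g' * (e'.symm (e s) : N') * g'⁻¹,
        hN'.conj_mem _ (e'.symm (e s)).2 _⟩ rfl
      rw [MulEquiv.apply_symm_apply, ← h1] at h2
      change ((e'.symm (e t) : N') : H) = g' * (e'.symm (e s) : N') * g'⁻¹
      rw [← h2, MulEquiv.symm_apply_apply]
    · intro _ _
      exact ⟨1, by simp, by simp⟩
    · intro _
      refine ⟨u, hu, ?_⟩
      change ((e'.symm (e u) : N') : H) = g' ^ p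
      rw [hu', ← hw', MulEquiv.symm_apply_apply, hw]

/-- the property of having a normal subgroup of given index with a given property is
isomorphism invariant -/
theorem isoInv_ext (m : ℕ) {P : ∀ (G : Type) [Group G], Prop} (hP : IsoInv P) :
    IsoInv (fun G _ => ∃ N : Subgroup G, N.Normal ∧ N.index = m ∧ P N) := by
  rintro G H _ _ e ⟨N, hN, hNi, hPN⟩
  refine ⟨N.map e.toMonoidHom, hN.map _ e.surjective, ?_, ?_⟩
  · rw [← hNi]
    exact index_map_of_bijective (f := e.toMonoidHom) e.bijective N
  · exact hP N (N.map e.toMonoidHom) (e.subgroupMap N) hPN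

/-- number of groups with a given class of normal subgroups of index `p ^ c` -/
theorem num_ext_pow (a c : ℕ) {P : ∀ (G : Type) [Group G], Prop} (hP : IsoInv P) :
    num (p ^ (a + c)) (fun G _ => ∃ N : Subgroup G, N.Normal ∧ N.index = p ^ c ∧ P N) ≤
      num (p ^ a) P * p ^ (c * ((a + c) ^ 2 + (a + c))) := by
  have hp : p.Prime := Fact.out
  have hpos : ∀ n, 0 < p ^ n := fun n => pow_pos hp.pos n
  induction c with
  | zero =>
    rw [add_zero, Nat.zero_mul, pow_zero, mul_one]
    refine num_mono (hpos a) ?_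
    rintro G _ hG ⟨N, hN, hNi, hPN⟩
    rw [index_eq_one] at hNi
    subst hNi
    exact hP _ _ topEquiv hPN
  | succ c ih =>
    have h1 : num (p ^ (a + (c + 1)))
        (fun G _ => ∃ N : Subgroup G, N.Normal ∧ N.index = p ^ (c + 1) ∧ P N) ≤
        num (p ^ ((a + c) + 1)) (fun G _ => ∃ N : Subgroup G, N.Normal ∧ N.index = p ∧
          ∃ K : Subgroup N, K.Normal ∧ K.index = p ^ c ∧ P K) := by
      refine num_mono (hpos _) ?_
      rintro G _ hG ⟨K, hK, hKi, hPK⟩
      have hfin : Finite G := Nat.finite_of_card_ne_zero (by rw [hG]; exact (hpos _).ne')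
      have hQ : Nat.card (G ⧸ K) = p ^ (c + 1) := hKi
      obtain ⟨M, hM⟩ := Sylow.exists_subgroup_card_pow_prime (G := G ⧸ K) p (n := c)
        (by rw [hQ]; exact pow_dvd_pow p (Nat.le_succ c))
      have hMi : M.index = p := by
        have h2 := card_mul_index M
        rw [hQ, hM, pow_succ] at h2
        exact Nat.eq_of_mul_eq_mul_left (hpos c) h2
      have hNi : (M.comap (QuotientGroup.mk' K)).index = p := by
        rw [index_comap_of_surjective _ (QuotientGroup.mk'_surjective K), hMi]
      have hNn : (M.comap (QuotientGroup.mk' K)).Normal := by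
        refine normal_of_index_eq_minFac_card ?_
        rw [hNi, hG, hp.pow_minFac (by omega)]
      have hKN : K ≤ M.comap (QuotientGroup.mk' K) := by
        intro z hz
        rw [mem_comap, QuotientGroup.mk'_apply, (QuotientGroup.eq_one_iff z).2 hz]
        exact one_mem _
      refine ⟨M.comap (QuotientGroup.mk' K), hNn, hNi,
        K.subgroupOf (M.comap (QuotientGroup.mk' K)), inferInstance, ?_, ?_⟩
      · have h2 := relIndex_mul_index hKN
        rw [hNi, hKi, pow_succ] at h2
        exact Nat.eq_of_mul_eq_mul_right hp.pos h2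
      · exact hP _ _ (subgroupOfEquivOfLe hKN).symm hPK
    refine h1.trans ((num_ext (a + c) (isoInv_ext (p ^ c) hP)).trans ?_)
    calc num (p ^ (a + c)) (fun G _ => ∃ N : Subgroup G, N.Normal ∧ N.index = p ^ c ∧ P N) *
          p ^ ((a + c) ^ 2 + (a + c))
        ≤ (num (p ^ a) P * p ^ (c * ((a + c) ^ 2 + (a + c)))) * p ^ ((a + c) ^ 2 + (a + c)) :=
          Nat.mul_le_mul_right _ ih
      _ = num (p ^ a) P * p ^ ((c + 1) * ((a + c) ^ 2 + (a + c))) := by
          rw [mul_assoc, ← pow_add]
          congr 2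
          ring
      _ ≤ num (p ^ a) P * p ^ ((c + 1) * ((a + (c + 1)) ^ 2 + (a + (c + 1)))) := by
          refine Nat.mul_le_mul_left _ (Nat.pow_le_pow_right hp.pos ?_)
          refine Nat.mul_le_mul_left _ (Nat.add_le_add (Nat.pow_le_pow_left (by omega) 2) (by omega))

end Pool.Agent.IG
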