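import Pool.Agent.IG.Inv

/-!
# Extensions are determined by their data
-/

open Subgroup
open scoped commutatorElement

noncomputable section

namespace Pool.Agent.IG

/-- a group generated by commuting elements `y i` with `y i ^ o i = 1` has at most `∏ o i`
elements -/
theorem card_le_prod_of_gen {Q : Type} [Group Q] {t : ℕ} (y : Fin t → Q) (o : Fin t → ℕ)
    (ho : ∀ i, o i ≠ 0) (hy : closure (Set.range y) = ⊤) (hcomm : ∀ i j, Commute (y i) (y j))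
    (hpow : ∀ i, y i ^ o i = 1) : Nat.card Q ≤ ∏ i, o i := by
  have hc : Pairwise fun i j : Fin t => ∀ a b : Q, a ∈ zpowers (y i) → b ∈ zpowers (y j) →
      Commute a b := by
    intro i j _ a b ha hb
    obtain ⟨m, rfl⟩ := mem_zpowers_iff.1 ha
    obtain ⟨n, rfl⟩ := mem_zpowers_iff.1 hb
    exact ((hcomm i j).zpow_zpow m n)
  have hsurj : Function.Surjective (noncommPiCoprod (H := fun i => zpowers (y i)) hc) := by
    rw [← MonoidHom.range_eq_top, noncommPiCoprod_range, eq_top_iff, ← hy, closure_le]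
    rintro _ ⟨i, rfl⟩
    exact (le_iSup (fun i => zpowers (y i)) i) (mem_zpowers _)
  have hfin : ∀ i, Finite (zpowers (y i)) := fun i =>
    (isOfFinOrder_iff_pow_eq_one.2 ⟨o i, Nat.pos_of_ne_zero (ho i), hpow i⟩).finite_zpowers
  calc Nat.card Q ≤ Nat.card (∀ i, zpowers (y i)) := Nat.card_le_card_of_surjective _ hsurj
    _ = ∏ i, Nat.card (zpowers (y i)) := Nat.card_pi
    _ ≤ ∏ i, o i := Finset.prod_le_prod' fun i _ => by
      rw [Nat.card_zpowers]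
      exact Nat.le_of_dvd (Nat.pos_of_ne_zero (ho i)) (orderOf_dvd_of_pow_eq_one (hpow i))

/-- a finite group `G` with a normal subgroup `N` and abelian quotient generated by `x i`, with
`|G / N| = ∏ o i`, is determined by `N`, the conjugations by `x i`, the commutators `[x i, x j]` and
the powers `x i ^ o i` -/
theorem ext_det {G₁ G₂ : Type} [Group G₁] [Group G₂] [Finite G₁] [Finite G₂]
    {N₁ : Subgroup G₁} {N₂ : Subgroup G₂} [N₁.Normal] [N₂.Normal] (ι : N₁ ≃* N₂) {t : ℕ}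
    (x₁ : Fin t → G₁) (x₂ : Fin t → G₂) (o : Fin t → ℕ)
    (h₁ : N₁.index = ∏ i, o i) (h₂ : N₂.index = ∏ i, o i)
    (g₁ : closure ((N₁ : Set G₁) ∪ Set.range x₁) = ⊤)
    (g₂ : closure ((N₂ : Set G₂) ∪ Set.range x₂) = ⊤)
    (hconj : ∀ i (u v : N₁), (v : G₁) = x₁ i * u * (x₁ i)⁻¹ →
      (ι v : G₂) = x₂ i * ι u * (x₂ i)⁻¹)
    (hc : ∀ i j, ∃ u : N₁, (u : G₁) = ⁅x₁ i, x₁ j⁆ ∧ (ι u : G₂) = ⁅x₂ i, x₂ j⁆)
    (hp : ∀ i, ∃ u : N₁, (u : G₁) = x₁ i ^ o i ∧ (ι u : G₂) = x₂ i ^ o i) :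
    ∃ Θ : G₁ ≃* G₂, (∀ u : N₁, Θ u = ι u) ∧ ∀ i, Θ (x₁ i) = x₂ i := by
  classical
  have ho : ∀ i, o i ≠ 0 := by
    intro i hi
    have h0 : N₁.index = 0 := by
      rw [h₁]
      exact Finset.prod_eq_zero (Finset.mem_univ i) hi
    exact index_ne_zero_of_finite h0
  -- the graph of `ι`
  let δ : N₁ →* G₁ × G₂ := (N₁.subtype).prod ((N₂.subtype).comp ι.toMonoidHom)
  have hδ : ∀ u : N₁, δ u = ((u : G₁), (ι u : G₂)) := fun u => rfl
  let y : Fin t → G₁ × G₂ := fun i => (x₁ i, x₂ i)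
  let Δ : Subgroup (G₁ × G₂) := δ.range
  let Γ : Subgroup (G₁ × G₂) := closure ((Δ : Set (G₁ × G₂)) ∪ Set.range y)
  have hΔΓ : Δ ≤ Γ := fun z hz => subset_closure (Or.inl hz)
  have hyΓ : ∀ i, y i ∈ Γ := fun i => subset_closure (Or.inr ⟨i, rfl⟩)
  have hnorm : Γ ≤ normalizer (Δ : Set (G₁ × G₂)) := by
    rw [closure_le]
    rintro z (hz | ⟨i, rfl⟩)
    · exact Δ.le_normalizer hz
    · refine mem_normalizer_fintype ?_
      rintro _ ⟨u, rfl⟩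
      refine ⟨⟨x₁ i * u * (x₁ i)⁻¹, ‹N₁.Normal›.conj_mem _ u.2 _⟩, ?_⟩
      rw [hδ, hconj i u ⟨x₁ i * u * (x₁ i)⁻¹, ‹N₁.Normal›.conj_mem _ u.2 _⟩ rfl]
      rfl
  have hn : (Δ.subgroupOf Γ).Normal := normal_subgroupOf_of_le_normalizer hnorm
  have hcardΔ : Nat.card (Δ.subgroupOf Γ) = Nat.card N₁ := by
    rw [Nat.card_congr (subgroupOfEquivOfLe hΔΓ).toEquiv]
    refine (Nat.card_congr (MonoidHom.ofInjective (f := δ) ?_).toEquiv).symm
    intro u v huv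
    rw [hδ, hδ, Prod.mk.injEq] at huv
    exact Subtype.ext huv.1
  have hQ : Nat.card (Γ ⧸ Δ.subgroupOf Γ) ≤ ∏ i, o i := by
    refine card_le_prod_of_gen (fun i => ((⟨y i, hyΓ i⟩ : Γ) : Γ ⧸ Δ.subgroupOf Γ)) o ho ?_ ?_ ?_
    · rw [eq_top_iff]
      rintro q -
      obtain ⟨⟨z, hz⟩, rfl⟩ := QuotientGroup.mk_surjective q
      have key : ∀ (z : G₁ × G₂) (hz : z ∈ Γ), ((⟨z, hz⟩ : Γ) : Γ ⧸ Δ.subgroupOf Γ) ∈
          closure (Set.range fun i => ((⟨y i, hyΓ i⟩ : Γ) : Γ ⧸ Δ.subgroupOf Γ)) := by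
        intro z hz
        induction hz using closure_induction with
        | mem w hw =>
          rcases hw with hw | ⟨i, rfl⟩
          · have h1 : ((⟨w, hΔΓ hw⟩ : Γ) : Γ ⧸ Δ.subgroupOf Γ) = 1 := by
              rw [QuotientGroup.eq_one_iff, mem_subgroupOf]
              exact hw
            rw [h1]
            exact one_mem _
          · exact subset_closure ⟨i, rfl⟩
        | one => exact one_mem _
        | mul a b ha hb iha ihb => exact mul_mem iha ihb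
        | inv a ha iha => exact inv_mem iha
      exact key z hz
    · intro i j
      rw [← commutatorElement_eq_one_iff_commute]
      obtain ⟨u, hu, hu'⟩ := hc i j
      change ((⁅(⟨y i, hyΓ i⟩ : Γ), ⟨y j, hyΓ j⟩⁆ : Γ) : Γ ⧸ Δ.subgroupOf Γ) = 1
      rw [QuotientGroup.eq_one_iff, mem_subgroupOf]
      refine ⟨u, ?_⟩
      rw [hδ, hu, hu']
      rfl
    · intro i
      obtain ⟨u, hu, hu'⟩ := hp i
      change (((⟨y i, hyΓ i⟩ : Γ) ^ o i : Γ) : Γ ⧸ Δ.subgroupOf Γ) = 1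
      rw [QuotientGroup.eq_one_iff, mem_subgroupOf]
      refine ⟨u, ?_⟩
      rw [hδ, hu, hu']
      rfl
  have hcardΓ : Nat.card Γ ≤ Nat.card N₁ * ∏ i, o i := by
    rw [← card_mul_index (Δ.subgroupOf Γ), hcardΔ]
    exact Nat.mul_le_mul_left _ hQ
  have hG₁ : Nat.card N₁ * ∏ i, o i = Nat.card G₁ := by rw [← h₁, card_mul_index]
  have hG₂ : Nat.card N₁ * ∏ i, o i = Nat.card G₂ := by
    rw [Nat.card_congr ι.toEquiv, ← h₂, card_mul_index]
  let p₁ : Γ →* G₁ := (MonoidHom.fst G₁ G₂).comp Γ.subtype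
  let p₂ : Γ →* G₂ := (MonoidHom.snd G₁ G₂).comp Γ.subtype
  have s₁ : Function.Surjective p₁ := by
    rw [← MonoidHom.range_eq_top, eq_top_iff, ← g₁, closure_le]
    rintro z (hz | ⟨i, rfl⟩)
    · exact ⟨⟨δ ⟨z, hz⟩, hΔΓ ⟨⟨z, hz⟩, rfl⟩⟩, rfl⟩
    · exact ⟨⟨y i, hyΓ i⟩, rfl⟩
  have s₂ : Function.Surjective p₂ := by
    rw [← MonoidHom.range_eq_top, eq_top_iff, ← g₂, closure_le]
    rintro z (hz | ⟨i, rfl⟩)
    · refine ⟨⟨δ (ι.symm ⟨z, hz⟩), hΔΓ ⟨ι.symm ⟨z, hz⟩, rfl⟩⟩, ?_⟩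
      change (ι (ι.symm ⟨z, hz⟩) : G₂) = z
      rw [MulEquiv.apply_symm_apply]
    · exact ⟨⟨y i, hyΓ i⟩, rfl⟩
  have b₁ : Function.Bijective p₁ := by
    rw [Nat.bijective_iff_surjective_and_card]
    refine ⟨s₁, le_antisymm ?_ (Nat.card_le_card_of_surjective _ s₁)⟩
    rw [← hG₁]; exact hcardΓ
  have b₂ : Function.Bijective p₂ := by
    rw [Nat.bijective_iff_surjective_and_card]
    refine ⟨s₂, le_antisymm ?_ (Nat.card_le_card_of_surjective _ s₂)⟩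
    rw [← hG₂]; exact hcardΓ
  let e₁ : Γ ≃* G₁ := MulEquiv.ofBijective p₁ b₁
  let e₂ : Γ ≃* G₂ := MulEquiv.ofBijective p₂ b₂
  refine ⟨e₁.symm.trans e₂, fun u => ?_, fun i => ?_⟩
  · have h1 : e₁.symm (u : G₁) = ⟨δ u, hΔΓ ⟨u, rfl⟩⟩ := by
      rw [MulEquiv.symm_apply_eq]
      rfl
    rw [MulEquiv.trans_apply, h1]
    rfl
  · have h1 : e₁.symm (x₁ i) = ⟨y i, hyΓ i⟩ := by
      rw [MulEquiv.symm_apply_eq]
      rfl
    rw [MulEquiv.trans_apply, h1]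
    rfl

end Pool.Agent.IG
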