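import Pool.Agent.IG.Basic

/-!
# Equivariant alternating maps
-/

open Module

noncomputable section

namespace Pool.Agent.IG

/-! ### Auxiliary linear algebra over a field -/

section LinAux

variable {k V X : Type} [Field k] [AddCommGroup V] [Module k V] [AddCommGroup X] [Module k X]

/-- independence of an initial segment of a sequence -/
def LI (k : Type) {V : Type} [Field k] [AddCommGroup V] [Module k V] (w : ℕ → V) (n : ℕ) : Prop :=
  LinearIndependent k (fun i : Fin n => w i)

/-- span of an initial segment of a sequence -/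
def SP (k : Type) {V : Type} [Field k] [AddCommGroup V] [Module k V] (w : ℕ → V) (n : ℕ) :
    Submodule k V :=
  Submodule.span k (Set.range fun i : Fin n => w i)

theorem LI_zero (w : ℕ → V) : LI k w 0 := by
  unfold LI
  exact linearIndependent_empty_type

theorem LI_succ (w : ℕ → V) (n : ℕ) : LI k w (n + 1) ↔ LI k w n ∧ w n ∉ SP k w n := by
  unfold LI SP
  rw [linearIndependent_finSucc']
  rfl

theorem LI_congr {w w' : ℕ → V} {n : ℕ} (h : ∀ i < n, w i = w' i) : LI k w n ↔ LI k w' n := by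
  unfold LI
  rw [show (fun i : Fin n => w i) = fun i : Fin n => w' i from funext fun i => h i i.2]

theorem SP_congr {w w' : ℕ → V} {n : ℕ} (h : ∀ i < n, w i = w' i) : SP k w n = SP k w' n := by
  unfold SP
  rw [show (fun i : Fin n => w i) = fun i : Fin n => w' i from funext fun i => h i i.2]

theorem finrank_SP {w : ℕ → V} {n : ℕ} (h : LI k w n) : finrank k (SP k w n) = n := by
  unfold SP
  rw [finrank_span_eq_card h, Fintype.card_fin]

theorem SP_succ (w : ℕ → V) (n : ℕ) : SP k w (n + 1) = SP k w n ⊔ Submodule.span k {w n} := by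
  unfold SP
  rw [← Submodule.span_union]
  congr 1
  ext x
  simp only [Set.mem_range, Set.union_singleton, Set.mem_insert_iff]
  constructor
  · rintro ⟨i, rfl⟩
    rcases Fin.eq_castSucc_or_eq_last i with ⟨j, rfl⟩ | rfl
    · exact Or.inr ⟨j, rfl⟩
    · exact Or.inl rfl
  · rintro (rfl | ⟨i, rfl⟩)
    · exact ⟨Fin.last n, rfl⟩
    · exact ⟨i.castSucc, rfl⟩

variable [Module.Finite k V]

theorem LI_le {w : ℕ → V} {n : ℕ} (h : LI k w n) : n ≤ finrank k V := by
  rw [← finrank_SP h]
  exact Submodule.finrank_le _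

/-- extension of an independent sequence -/
theorem LI_extend {w : ℕ → V} {n m : ℕ} (h : LI k w n) (hnm : n ≤ m) (hm : m ≤ finrank k V) :
    ∃ w' : ℕ → V, (∀ i < n, w' i = w i) ∧ LI k w' m := by
  induction m, hnm using Nat.le_induction with
  | base => exact ⟨w, fun _ _ => rfl, h⟩
  | succ m hnm ih =>
    obtain ⟨w', h1, h2⟩ := ih (by omega)
    have h3 : SP k w' m ≠ ⊤ := by
      intro h3
      have h4 := finrank_SP h2
      rw [h3, finrank_top] at h4
      omega
    obtain ⟨x, hx⟩ : ∃ x, x ∉ SP k w' m := by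
      by_contra hcon
      push Not at hcon
      exact h3 (eq_top_iff.mpr fun x _ => hcon x)
    refine ⟨Function.update w' m x, fun i hi => ?_, ?_⟩
    · rw [Function.update_of_ne (by omega), h1 i hi]
    · have h5 : ∀ i < m, Function.update w' m x i = w' i := fun i hi =>
        Function.update_of_ne (by omega) _ _
      rw [LI_succ, LI_congr h5, SP_congr h5, Function.update_self]
      exact ⟨h2, hx⟩

/-- the basis given by a maximal independent sequence -/
theorem exists_LIbasis {w : ℕ → V} {d : ℕ} (h : LI k w d) (hd : d = finrank k V) :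
    ∃ b : Basis (Fin d) k V, ∀ i : Fin d, b i = w i := by
  have h0 : LinearIndependent k fun i : Fin d => w i := h
  refine ⟨basisOfLinearIndependentOfCardEqFinrank' (fun i : Fin d => w i) h0
    (by rw [Fintype.card_fin, hd]), fun i => ?_⟩
  simp

omit [Module.Finite k V] in
/-- an endomorphism which moves every vector outside `S` only along itself modulo `S` is scalar
modulo `S` -/
theorem scalar_mod (A : V →ₗ[k] V) (S : Submodule k V) {v v' : V} (hv : v ∉ S)
    (hv' : v' ∉ S ⊔ Submodule.span k {v})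
    (h : ∀ u, u ∉ S → A u ∈ S ⊔ Submodule.span k {u}) : ∃ μ : k, ∀ u, A u - μ • u ∈ S := by
  have hc : ∀ u, u ∉ S → ∃ c : k, A u - c • u ∈ S := by
    intro u hu
    obtain ⟨s, hs, t, ht, hst⟩ := Submodule.mem_sup.mp (h u hu)
    obtain ⟨c, rfl⟩ := Submodule.mem_span_singleton.mp ht
    refine ⟨c, ?_⟩
    rw [← hst, add_sub_cancel_right]
    exact hs
  have hv'S : v' ∉ S := fun h0 => hv' (Submodule.mem_sup_left h0)
  -- multiples
  have hmul : ∀ u, u ∉ S → ∀ c : k, c • u ∈ S → c = 0 := by
    intro u hu c hcu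
    by_contra hc0
    exact hu ((Submodule.smul_mem_iff S hc0).mp hcu)
  -- step 1
  have h1 : ∀ s ∈ S, A s ∈ S := by
    intro s hs
    have h2 : ∀ u, u ∉ S → ∃ c : k, A s - c • u ∈ S := by
      intro u hu
      have hus : u + s ∉ S := fun h0 => hu ((Submodule.add_mem_iff_left S hs).mp h0)
      obtain ⟨c1, hc1⟩ := hc u hu
      obtain ⟨c2, hc2⟩ := hc (u + s) hus
      refine ⟨c2 - c1, ?_⟩
      have h3 : A s - (c2 - c1) • u = (A (u + s) - c2 • (u + s)) - (A u - c1 • u) + c2 • s := by
        rw [map_add]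
        module
      rw [h3]
      exact S.add_mem (S.sub_mem hc2 hc1) (S.smul_mem _ hs)
    obtain ⟨c, hc'⟩ := h2 v hv
    obtain ⟨c', hc''⟩ := h2 v' hv'S
    have h3 : c' • v' - c • v ∈ S := by
      have : c' • v' - c • v = (A s - c • v) - (A s - c' • v') := by module
      rw [this]
      exact S.sub_mem hc' hc''
    have h4 : c' = 0 := by
      by_contra hne
      apply hv'
      rw [← Submodule.smul_mem_iff _ hne]
      have : c' • v' = (c' • v' - c • v) + c • v := by module
      rw [this]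
      exact Submodule.add_mem_sup h3 (Submodule.smul_mem _ _ (Submodule.mem_span_singleton_self v))
    rw [h4, zero_smul, sub_zero] at hc''
    exact hc''
  obtain ⟨c0, hc0⟩ := hc v hv
  refine ⟨c0, fun u => ?_⟩
  by_cases hu : u ∈ S ⊔ Submodule.span k {v}
  · obtain ⟨s, hs, t, ht, rfl⟩ := Submodule.mem_sup.mp hu
    obtain ⟨a, rfl⟩ := Submodule.mem_span_singleton.mp ht
    have : A (s + a • v) - c0 • (s + a • v) = A s - c0 • s + a • (A v - c0 • v) := by
      rw [map_add, map_smul]
      module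
    rw [this]
    exact S.add_mem (S.sub_mem (h1 s hs) (S.smul_mem _ hs)) (S.smul_mem _ hc0)
  · have huS : u ∉ S := fun h0 => hu (Submodule.mem_sup_left h0)
    have huv : u + v ∉ S := by
      intro h0
      apply hu
      have : u = (u + v) + (-1 : k) • v := by module
      rw [this]
      exact Submodule.add_mem_sup h0 (Submodule.smul_mem _ _ (Submodule.mem_span_singleton_self v))
    obtain ⟨cu, hcu⟩ := hc u huS
    obtain ⟨cuv, hcuv⟩ := hc (u + v) huv
    have h2 : (cuv - cu) • u + (cuv - c0) • v ∈ S := by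
      have : (cuv - cu) • u + (cuv - c0) • v =
          (A u - cu • u) + (A v - c0 • v) - (A (u + v) - cuv • (u + v)) := by
        rw [map_add]
        module
      rw [this]
      exact S.sub_mem (S.add_mem hcu hc0) hcuv
    have h3 : cuv - cu = 0 := by
      by_contra hne
      apply hu
      rw [← Submodule.smul_mem_iff _ hne]
      have : (cuv - cu) • u = ((cuv - cu) • u + (cuv - c0) • v) + (-(cuv - c0)) • v := by module
      rw [this]
      exact Submodule.add_mem_sup h2 (Submodule.smul_mem _ _ (Submodule.mem_span_singleton_self v))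
    rw [h3, zero_smul, zero_add] at h2
    have h4 := hmul v hv _ h2
    have h5 : c0 = cu := by
      rw [sub_eq_zero] at h3 h4
      rw [← h3, ← h4]
    rw [h5]
    exact hcu

theorem exists_new (A : V →ₗ[k] V) (S : Submodule k V) (hd : finrank k S + 2 ≤ finrank k V)
    (hA : ∀ μ : k, finrank k S < rk (A - μ • LinearMap.id)) :
    ∃ v, v ∉ S ∧ A v ∉ S ⊔ Submodule.span k {v} := by
  by_contra hcon
  push Not at hcon
  obtain ⟨v, hv⟩ : ∃ v, v ∉ S := by
    by_contra hc
    push Not at hc
    have : S = ⊤ := eq_top_iff.mpr fun x _ => hc x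
    rw [this, finrank_top] at hd
    omega
  obtain ⟨v', hv'⟩ : ∃ v', v' ∉ S ⊔ Submodule.span k {v} := by
    by_contra hc
    push Not at hc
    have h1 : S ⊔ Submodule.span k {v} = ⊤ := eq_top_iff.mpr fun x _ => hc x
    have h2 := Submodule.finrank_add_le_finrank_add_finrank S (Submodule.span k {v})
    rw [h1, finrank_top] at h2
    have h3 : finrank k (Submodule.span k {v}) = 1 :=
      finrank_span_singleton (fun h0 => hv (h0 ▸ S.zero_mem))
    omega
  obtain ⟨μ, hμ⟩ := scalar_mod A S hv hv' hcon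
  have h1 : LinearMap.range (A - μ • LinearMap.id) ≤ S := by
    rintro _ ⟨u, rfl⟩
    simpa using hμ u
  have h2 := Submodule.finrank_mono h1
  have h3 := hA μ
  unfold rk at h3
  omega

/-- an independent sequence `v₀, A v₀, v₁, A v₁, …` -/
theorem exists_seq (A : V →ₗ[k] V) {r : ℕ} (h : ∀ μ : k, r < rk (A - μ • LinearMap.id)) {j : ℕ}
    (hj : 2 * j ≤ r) (hj' : 2 * j + 1 ≤ finrank k V) :
    ∃ w : ℕ → V, LI k w (2 * j) ∧ ∀ i < j, w (2 * i + 1) = A (w (2 * i)) := by
  induction j with
  | zero => exact ⟨fun _ => 0, LI_zero _, fun i hi => absurd hi (by omega)⟩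
  | succ j ih =>
    obtain ⟨w, h1, h2⟩ := ih (by omega) (by omega)
    obtain ⟨v, hv, hAv⟩ := exists_new A (SP k w (2 * j)) (by rw [finrank_SP h1]; omega)
      (fun μ => by rw [finrank_SP h1]; have := h μ; omega)
    refine ⟨Function.update (Function.update w (2 * j) v) (2 * j + 1) (A v), ?_, ?_⟩
    · have e1 : ∀ i < 2 * j + 1, Function.update (Function.update w (2 * j) v) (2 * j + 1) (A v) i =
          Function.update w (2 * j) v i := fun i hi => Function.update_of_ne (by omega) _ _
      have e2 : ∀ i < 2 * j, Function.update w (2 * j) v i = w i := fun i hi =>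
        Function.update_of_ne (by omega) _ _
      rw [show 2 * (j + 1) = 2 * j + 1 + 1 by ring, LI_succ, LI_congr e1, SP_congr e1, LI_succ,
        LI_congr e2, SP_congr e2, SP_succ, SP_congr e2, Function.update_self, Function.update_self]
      exact ⟨⟨h1, hv⟩, hAv⟩
    · intro i hi
      by_cases hij : i = j
      · subst hij
        rw [Function.update_self, Function.update_of_ne (by omega), Function.update_self]
      · rw [Function.update_of_ne (by omega), Function.update_of_ne (by omega),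
          Function.update_of_ne (by omega), Function.update_of_ne (by omega)]
        exact h2 i (by omega)

omit [Module.Finite k V] in
/-- an alternating map vanishing on pairs of basis vectors is zero -/
theorem alt_eq_zero {d : ℕ} (b : Basis (Fin d) k V) (ψ : V →ₗ[k] V →ₗ[k] X)
    (hψ : ∀ x, ψ x x = 0) (h : ∀ s t : Fin d, s < t → ψ (b s) (b t) = 0) : ψ = 0 := by
  have hneg : ∀ x y, ψ x y = - ψ y x := by
    intro x y
    have h1 := hψ (x + y)
    simp only [map_add, LinearMap.add_apply, hψ x, hψ y, zero_add, add_zero] at h1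
    exact eq_neg_of_add_eq_zero_right h1
  refine b.ext fun s => b.ext fun t => ?_
  rw [LinearMap.zero_apply, LinearMap.zero_apply]
  rcases lt_trichotomy s t with hst | hst | hst
  · exact h s t hst
  · rw [hst, hψ]
  · rw [hneg, h t s hst, neg_zero]

end LinAux

/-! ### Pairs -/

/-- pairs `s < t < d` -/
def PP (d : ℕ) : Finset (ℕ × ℕ) :=
  ((Finset.range d) ×ˢ (Finset.range d)).filter fun q => q.1 < q.2

theorem mem_PP {d : ℕ} {q : ℕ × ℕ} : q ∈ PP d ↔ q.1 < q.2 ∧ q.2 < d := by
  unfold PP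
  rw [Finset.mem_filter, Finset.mem_product, Finset.mem_range, Finset.mem_range]
  omega

theorem card_PP (d : ℕ) : (PP d).card = d.choose 2 := by
  induction d with
  | zero => rfl
  | succ d ih =>
    have h1 : PP (d + 1) = PP d ∪ (Finset.range d).image fun s => (s, d) := by
      ext q
      rw [Finset.mem_union, mem_PP, mem_PP, Finset.mem_image]
      constructor
      · rintro ⟨h1, h2⟩
        by_cases hq : q.2 < d
        · exact Or.inl ⟨h1, hq⟩
        · refine Or.inr ⟨q.1, Finset.mem_range.mpr (by omega), ?_⟩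
          ext
          · rfl
          · simp only
            omega
      · rintro (⟨h1, h2⟩ | ⟨s, hs, rfl⟩)
        · exact ⟨h1, by omega⟩
        · rw [Finset.mem_range] at hs
          exact ⟨hs, by simp⟩
    have h2 : Disjoint (PP d) ((Finset.range d).image fun s => (s, d)) := by
      rw [Finset.disjoint_left]
      intro q hq hq'
      rw [mem_PP] at hq
      rw [Finset.mem_image] at hq'
      obtain ⟨s, hs, rfl⟩ := hq'
      simp at hq
    have h3 : (d + 1).choose 2 = d + d.choose 2 := by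
      rw [Nat.choose_succ_succ' d 1, Nat.choose_one_right]
    rw [h1, Finset.card_union_of_disjoint h2, ih, Finset.card_image_of_injective,
      Finset.card_range, h3, add_comm]
    intro a b hab
    simpa using hab

variable {p : ℕ} [Fact p.Prime] {V X : Type} [AddCommGroup V] [Module (ZMod p) V] [Finite V]
  [AddCommGroup X] [Module (ZMod p) X] [Finite X]

/-- alternating bilinear maps `ψ : V × V → X` with `B j (ψ x y) = ψ (A j x) (A j y)` -/
def Fix {c : ℕ} (A : Fin c → V →ₗ[ZMod p] V) (B : Fin c → X →ₗ[ZMod p] X) :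
    Submodule (ZMod p) (V →ₗ[ZMod p] V →ₗ[ZMod p] X) where
  carrier := {ψ | (∀ x, ψ x x = 0) ∧ ∀ j x y, B j (ψ x y) = ψ (A j x) (A j y)}
  add_mem' := by
    rintro ψ ψ' ⟨h1, h2⟩ ⟨h1', h2'⟩
    refine ⟨fun x => by simp [h1 x, h1' x], fun j x y => ?_⟩
    simp only [LinearMap.add_apply, map_add, h2, h2']
  zero_mem' := ⟨fun x => by simp, fun j x y => by simp⟩
  smul_mem' := by
    rintro c ψ ⟨h1, h2⟩
    refine ⟨fun x => by simp [h1 x], fun j x y => ?_⟩
    simp only [LinearMap.smul_apply, map_smul, h2]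

omit [Finite V] [Finite X] in
theorem mem_Fix {A : V →ₗ[ZMod p] V} {B : X →ₗ[ZMod p] X} {ψ : V →ₗ[ZMod p] V →ₗ[ZMod p] X} :
    ψ ∈ Fix (fun _ : Fin 1 => A) (fun _ => B) ↔
      (∀ x, ψ x x = 0) ∧ ∀ x y, B (ψ x y) = ψ (A x) (A y) :=
  ⟨fun h => ⟨h.1, fun x y => h.2 0 x y⟩, fun h => ⟨h.1, fun _ x y => h.2 x y⟩⟩

/-- (E1) -/
theorem fix_E1 (A : V →ₗ[ZMod p] V) (B : X →ₗ[ZMod p] X) {r : ℕ}
    (h : ∀ μ : ZMod p, r < rk (A - μ • LinearMap.id)) {j : ℕ} (hj : 2 * j ≤ r)
    (hj' : 2 * j + 1 ≤ finrank (ZMod p) V) :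
    Nat.card (Fix (fun _ : Fin 1 => A) (fun _ => B)) ≤
      p ^ (finrank (ZMod p) X * ((finrank (ZMod p) V).choose 2 - j.choose 2)) := by
  classical
  obtain ⟨w0, h1, h2⟩ := exists_seq A h hj hj'
  obtain ⟨w, h3, h4⟩ := LI_extend h1 (show 2 * j ≤ finrank (ZMod p) V by omega) le_rfl
  set d := finrank (ZMod p) V with hd
  obtain ⟨b, hb⟩ := exists_LIbasis h4 hd
  have hA : ∀ i < j, w (2 * i + 1) = A (w (2 * i)) := fun i hi => by
    rw [h3 _ (by omega), h3 _ (by omega), h2 i hi]
  set P : Finset (ℕ × ℕ) := (PP j).image (fun q => (2 * q.1 + 1, 2 * q.2 + 1)) with hP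
  have hPsub : P ⊆ PP d := by
    intro q hq
    rw [hP, Finset.mem_image] at hq
    obtain ⟨q, hq, rfl⟩ := hq
    rw [mem_PP] at hq ⊢
    simp only
    omega
  have hPcard : P.card = j.choose 2 := by
    rw [hP, Finset.card_image_of_injective, card_PP]
    intro q q' hqq
    simp only [Prod.mk.injEq] at hqq
    ext <;> omega
  let Φ : Fix (fun _ : Fin 1 => A) (fun _ => B) →ₗ[ZMod p] (↥(PP d \ P) → X) :=
    { toFun := fun ψ q => ψ.1 (w q.1.1) (w q.1.2)
      map_add' := fun ψ ψ' => by ext q; simp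
      map_smul' := fun c ψ => by ext q; simp }
  have hΦ : Function.Injective Φ := by
    rw [injective_iff_map_eq_zero]
    rintro ⟨ψ, hψ⟩ h0
    rw [mem_Fix] at hψ
    have h5 : ∀ q ∈ PP d \ P, ψ (w q.1) (w q.2) = 0 := fun q hq => congrFun h0 ⟨q, hq⟩
    have h6 : ψ = 0 := by
      refine alt_eq_zero b ψ hψ.1 fun s t hst => ?_
      rw [hb, hb]
      have hq : ((s : ℕ), (t : ℕ)) ∈ PP d := mem_PP.mpr ⟨hst, t.2⟩
      by_cases hqP : ((s : ℕ), (t : ℕ)) ∈ P
      · have hqP' := hqP
        rw [hP, Finset.mem_image] at hqP'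
        obtain ⟨⟨a, c⟩, hac, he⟩ := hqP'
        rw [mem_PP] at hac
        simp only [Prod.mk.injEq] at he hac
        rw [← he.1, ← he.2, hA a (by omega), hA c hac.2, ← hψ.2]
        have h7 : (2 * a, 2 * c) ∈ PP d \ P := by
          rw [Finset.mem_sdiff, mem_PP, hP, Finset.mem_image]
          refine ⟨⟨by simp only; omega, by simp only; omega⟩, ?_⟩
          rintro ⟨q, _, hq⟩
          simp only [Prod.mk.injEq] at hq
          omega
        have h8 := h5 _ h7
        simp only at h8
        rw [h8, map_zero]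
      · exact h5 _ (Finset.mem_sdiff.mpr ⟨hq, hqP⟩)
    exact Subtype.ext h6
  refine (Nat.card_le_card_of_injective Φ hΦ).trans ?_
  rw [Nat.card_fun, Module.natCard_eq_pow_finrank (K := ZMod p) (V := X), Nat.card_zmod,
    ← pow_mul, Nat.card_eq_fintype_card, Fintype.card_coe, Finset.card_sdiff_of_subset hPsub,
    card_PP, hPcard]

/-- (E2) -/
theorem fix_E2 (A : V →ₗ[ZMod p] V) (B : X →ₗ[ZMod p] X) {r r' : ℕ} {μ : ZMod p}
    (h : rk (A - μ • LinearMap.id) ≤ r) (h' : r' < rk (B - μ ^ 2 • LinearMap.id)) :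
    Nat.card (Fix (fun _ : Fin 1 => A) (fun _ => B)) ≤
      p ^ (finrank (ZMod p) X * (finrank (ZMod p) V).choose 2 -
        r' * (finrank (ZMod p) V - r).choose 2) := by
  classical
  set U := LinearMap.ker (A - μ • LinearMap.id) with hU
  set Y := LinearMap.ker (B - μ ^ 2 • LinearMap.id) with hY
  set m := finrank (ZMod p) U with hm
  have hmr : finrank (ZMod p) V - r ≤ m := by
    have := LinearMap.finrank_range_add_finrank_ker (A - μ • LinearMap.id)
    rw [← hU, ← hm] at this
    unfold rk at h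
    omega
  have hYr : finrank (ZMod p) Y + r' < finrank (ZMod p) X := by
    have := LinearMap.finrank_range_add_finrank_ker (B - μ ^ 2 • LinearMap.id)
    rw [← hY] at this
    unfold rk at h'
    omega
  obtain ⟨w0, hw0, hw0U⟩ : ∃ w0 : ℕ → V, LI (ZMod p) w0 m ∧ ∀ i < m, w0 i ∈ U := by
    let c : Basis (Fin m) (ZMod p) U := finBasis (ZMod p) U
    refine ⟨fun i => if hi : i < m then (c ⟨i, hi⟩ : V) else 0, ?_, fun i hi => ?_⟩
    · unfold LI
      have : (fun i : Fin m => if hi : (i : ℕ) < m then (c ⟨i, hi⟩ : V) else 0) =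
          U.subtype ∘ c := by
        funext i
        simp
      rw [this]
      exact c.linearIndependent.map' _ (Submodule.ker_subtype U)
    · change (if hi : i < m then (c ⟨i, hi⟩ : V) else 0) ∈ U
      rw [dif_pos hi]
      exact (c ⟨i, hi⟩).2
  have hmd : m ≤ finrank (ZMod p) V := Submodule.finrank_le U
  obtain ⟨w, h3, h4⟩ := LI_extend hw0 hmd le_rfl
  set d := finrank (ZMod p) V with hd
  obtain ⟨b, hb⟩ := exists_LIbasis h4 hd
  have hwU : ∀ i < m, A (w i) = μ • w i := by
    intro i hi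
    have := hw0U i hi
    rw [← h3 i hi, hU, LinearMap.mem_ker, LinearMap.sub_apply, LinearMap.smul_apply,
      LinearMap.id_apply, sub_eq_zero] at this
    exact this
  have hPsub : PP m ⊆ PP d := by
    intro q hq
    rw [mem_PP] at hq ⊢
    omega
  have hval : ∀ ψ ∈ Fix (fun _ : Fin 1 => A) (fun _ => B), ∀ q ∈ PP m,
      ψ (w q.1) (w q.2) ∈ Y := by
    intro ψ hψ q hq
    rw [mem_Fix] at hψ
    rw [mem_PP] at hq
    rw [hY, LinearMap.mem_ker, LinearMap.sub_apply, LinearMap.smul_apply, LinearMap.id_apply,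
      hψ.2, hwU _ (by omega), hwU _ hq.2, map_smul, map_smul, LinearMap.smul_apply, smul_smul,
      ← pow_two, sub_self]
  let Φ : Fix (fun _ : Fin 1 => A) (fun _ => B) → (↥(PP d \ PP m) → X) × (↥(PP m) → Y) :=
    fun ψ => (fun q => ψ.1 (w q.1.1) (w q.1.2), fun q => ⟨ψ.1 (w q.1.1) (w q.1.2),
      hval ψ.1 ψ.2 q.1 q.2⟩)
  have hΦ : Function.Injective Φ := by
    intro ψ ψ' hψψ
    have h5 : ∀ q ∈ PP d, (ψ - ψ').1 (w q.1) (w q.2) = 0 := by
      intro q hq
      have h6 : ψ.1 (w q.1) (w q.2) = ψ'.1 (w q.1) (w q.2) := by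
        by_cases hqm : q ∈ PP m
        · exact congrArg Subtype.val (congrFun (congrArg Prod.snd hψψ) ⟨q, hqm⟩)
        · exact congrFun (congrArg Prod.fst hψψ) ⟨q, Finset.mem_sdiff.mpr ⟨hq, hqm⟩⟩
      rw [Submodule.coe_sub, LinearMap.sub_apply, LinearMap.sub_apply, h6, sub_self]
    have h7 : (ψ - ψ').1 = 0 := by
      refine alt_eq_zero b _ (mem_Fix.mp (ψ - ψ').2).1 fun s t hst => ?_
      rw [hb, hb]
      exact h5 (s, t) (mem_PP.mpr ⟨hst, t.2⟩)
    exact sub_eq_zero.mp (Subtype.ext h7)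
  refine (Nat.card_le_card_of_injective Φ hΦ).trans ?_
  rw [Nat.card_prod, Nat.card_fun, Nat.card_fun,
    Module.natCard_eq_pow_finrank (K := ZMod p) (V := X),
    Module.natCard_eq_pow_finrank (K := ZMod p) (V := Y), Nat.card_zmod,
    ← pow_mul, ← pow_mul, Nat.card_eq_fintype_card, Nat.card_eq_fintype_card, Fintype.card_coe,
    Fintype.card_coe, Finset.card_sdiff_of_subset hPsub, card_PP, card_PP, ← pow_add]
  refine Nat.pow_le_pow_right (Fact.out : p.Prime).pos ?_
  have hc1 : m.choose 2 ≤ d.choose 2 := Nat.choose_le_choose 2 hmd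
  have hc2 : (d - r).choose 2 ≤ m.choose 2 := Nat.choose_le_choose 2 hmr
  obtain ⟨a, ha⟩ := Nat.exists_eq_add_of_le hc1
  obtain ⟨x, hx⟩ := Nat.exists_eq_add_of_le hYr.le
  obtain ⟨e, he⟩ := Nat.exists_eq_add_of_le hc2
  rw [hx, ha, Nat.add_sub_cancel_left]
  refine Nat.le_sub_of_add_le ?_
  rw [he]
  nlinarith [Nat.zero_le (x * ((d - r).choose 2 + e)), Nat.zero_le (r' * e)]

/-- number of linear maps of rank at most `r` -/
theorem card_rank_le (r : ℕ) : Nat.card {f : V →ₗ[ZMod p] X // rk f ≤ r} ≤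
    p ^ (r * (finrank (ZMod p) V + finrank (ZMod p) X)) := by
  classical
  have hfact : ∀ f : V →ₗ[ZMod p] X, rk f ≤ r → ∃ (g : V →ₗ[ZMod p] (Fin r → ZMod p))
      (h : (Fin r → ZMod p) →ₗ[ZMod p] X), f = h ∘ₗ g := by
    intro f hf
    unfold rk at hf
    have h1 : finrank (ZMod p) (LinearMap.range f) ≤ finrank (ZMod p) (Fin r → ZMod p) := by
      rw [finrank_fin_fun]
      exact hf
    obtain ⟨i, hi⟩ := finrank_le_iff_exists_linearMap.mp h1
    obtain ⟨l, hl⟩ := i.exists_leftInverse_of_injective (LinearMap.ker_eq_bot.mpr hi)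
    refine ⟨i ∘ₗ f.rangeRestrict, (LinearMap.range f).subtype ∘ₗ l, ?_⟩
    ext x
    have := LinearMap.congr_fun hl (f.rangeRestrict x)
    simp only [LinearMap.comp_apply, LinearMap.id_apply] at this ⊢
    rw [this]
    rfl
  choose g h hgh using hfact
  let Φ : {f : V →ₗ[ZMod p] X // rk f ≤ r} →
      (V →ₗ[ZMod p] (Fin r → ZMod p)) × ((Fin r → ZMod p) →ₗ[ZMod p] X) := fun f =>
    (g f.1 f.2, h f.1 f.2)
  have hΦ : Function.Injective Φ := by
    intro f f' hff
    apply Subtype.ext
    rw [hgh f.1 f.2, hgh f'.1 f'.2]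
    rw [show g f.1 f.2 = g f'.1 f'.2 from congrArg Prod.fst hff,
      show h f.1 f.2 = h f'.1 f'.2 from congrArg Prod.snd hff]
  have : Finite (V →ₗ[ZMod p] (Fin r → ZMod p)) := Module.finite_of_finite (ZMod p)
  have : Finite ((Fin r → ZMod p) →ₗ[ZMod p] X) := Module.finite_of_finite (ZMod p)
  refine (Nat.card_le_card_of_injective Φ hΦ).trans ?_
  rw [Nat.card_prod, Module.natCard_eq_pow_finrank (K := ZMod p)
    (V := V →ₗ[ZMod p] (Fin r → ZMod p)), Module.natCard_eq_pow_finrank (K := ZMod p)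
    (V := (Fin r → ZMod p) →ₗ[ZMod p] X), Nat.card_zmod, Module.finrank_linearMap,
    Module.finrank_linearMap, finrank_fin_fun, ← pow_add]
  refine le_of_eq ?_
  congr 1
  ring

end Pool.Agent.IG
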