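import Pool.Agent.IG.Fix

/-!
# Equivariant alternating maps under a `p`-group
-/

open Module

noncomputable section

namespace Pool.Agent.IG

variable {p : ℕ} [Fact p.Prime] {V X : Type} [AddCommGroup V] [Module (ZMod p) V] [Finite V]
  [AddCommGroup X] [Module (ZMod p) X] [Finite X]

section FixDAux

/-- a `p`-group acting linearly on a non-zero `F_p`-space has a non-zero fixed vector -/
theorem exists_fixed_vector {M Γ : Type} [AddCommGroup M] [Module (ZMod p) M] [Finite M]
    [Group Γ] [Finite Γ] (hΓ : IsPGroup p Γ) (ρ : Γ →* (M →ₗ[ZMod p] M))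
    (S : Submodule (ZMod p) M) (hS : ∀ g, ∀ s ∈ S, ρ g s ∈ S) (h0 : S ≠ ⊥) :
    ∃ s ∈ S, s ≠ 0 ∧ ∀ g, ρ g s = s := by
  letI : MulAction Γ S :=
    { smul := fun g s => ⟨ρ g s.1, hS g s.1 s.2⟩
      one_smul := fun s => Subtype.ext (by
        change ρ 1 s.1 = s.1
        rw [map_one]; rfl)
      mul_smul := fun g h s => Subtype.ext (by
        change ρ (g * h) s.1 = ρ g (ρ h s.1)
        rw [map_mul]; rfl) }
  have hcard : p ∣ Nat.card S := by
    haveI : Nontrivial S := (Submodule.nontrivial_iff_ne_bot).2 h0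
    haveI : Fintype S := Fintype.ofFinite S
    have h1 : Nat.card S = p ^ finrank (ZMod p) S := by
      rw [Nat.card_eq_fintype_card, Module.card_eq_pow_finrank (K := ZMod p), ZMod.card]
    rw [h1]
    exact dvd_pow_self p (Module.finrank_pos).ne'
  have hfix : (0 : S) ∈ MulAction.fixedPoints Γ S := fun g => Subtype.ext (map_zero (ρ g))
  obtain ⟨b, hb, hne⟩ := hΓ.exists_fixed_point_of_prime_dvd_card_of_fixed_point S hcard hfix
  refine ⟨b.1, b.2, fun h => hne (Subtype.ext h.symm), fun g => ?_⟩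
  exact congrArg Subtype.val (hb g)

/-- the equivariance for all elements of the group -/
theorem fix_equiv {Γ : Type} [Group Γ]
    (ρV : Γ →* (V →ₗ[ZMod p] V)) (ρX : Γ →* (X →ₗ[ZMod p] X)) {c : ℕ} (γ : Fin c → Γ)
    (hγ : Subgroup.closure (Set.range γ) = ⊤) {ψ : V →ₗ[ZMod p] V →ₗ[ZMod p] X}
    (hψ : ψ ∈ Fix (fun j => ρV (γ j)) (fun j => ρX (γ j))) (g : Γ) :
    ∀ x y, ρX g (ψ x y) = ψ (ρV g x) (ρV g y) := by
  have hg : g ∈ Subgroup.closure (Set.range γ) := by rw [hγ]; trivial
  induction hg using Subgroup.closure_induction with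
  | mem g h =>
    obtain ⟨j, rfl⟩ := h
    exact hψ.2 j
  | one => intro x y; simp
  | mul g h _ _ ihg ihh =>
    intro x y
    rw [map_mul, map_mul, Module.End.mul_apply, Module.End.mul_apply, Module.End.mul_apply,
      ihh, ihg]
  | inv g _ ih =>
    intro x y
    have h1 : ∀ v, ρV g (ρV g⁻¹ v) = v := by
      intro v
      rw [← Module.End.mul_apply, ← map_mul, mul_inv_cancel, map_one]; rfl
    have h2 : ∀ v, ρX g⁻¹ (ρX g v) = v := by
      intro v
      rw [← Module.End.mul_apply, ← map_mul, inv_mul_cancel, map_one]; rfl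
    have h := ih (ρV g⁻¹ x) (ρV g⁻¹ y)
    rw [h1, h1] at h
    rw [← h, h2]

theorem card_sigma_fin (m : ℕ) : Nat.card (Σ j : Fin m, Fin j.val) = m.choose 2 := by
  rw [Nat.card_eq_fintype_card, Fintype.card_sigma]
  simp only [Fintype.card_fin]
  rw [Fin.sum_univ_eq_sum_range (fun i => i) m, Finset.sum_range_id, Nat.choose_two_right]

theorem skew {ψ : V →ₗ[ZMod p] V →ₗ[ZMod p] X} (h : ∀ x, ψ x x = 0) (x y : V) :
    ψ y x = - ψ x y := by
  have h1 := h (x + y)
  simp only [map_add, LinearMap.add_apply, h x, h y, zero_add, add_zero] at h1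
  exact eq_neg_of_add_eq_zero_left h1

end FixDAux

/-- (D1) -/
theorem fix_D1 {Γ : Type} [Group Γ] [Finite Γ] (hΓ : IsPGroup p Γ)
    (ρV : Γ →* (V →ₗ[ZMod p] V)) (ρX : Γ →* (X →ₗ[ZMod p] X)) {c : ℕ} (γ : Fin c → Γ)
    (hγ : Subgroup.closure (Set.range γ) = ⊤) {f : ℕ}
    (hf : f ≤ finrank (ZMod p) (Submodule.span (ZMod p) {v | ∃ g x, v = ρV g x - x})) :
    Nat.card (Fix (fun j => ρV (γ j)) (fun j => ρX (γ j))) ≤
      p ^ (finrank (ZMod p) X * ((finrank (ZMod p) V ^ 2 - f ^ 2) / 2)) := by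
  set W := Submodule.span (ZMod p) {v | ∃ g x, v = ρV g x - x} with hW
  obtain ⟨U, hU⟩ := Submodule.exists_isCompl W
  haveI : Finite (V →ₗ[ZMod p] V →ₗ[ZMod p] X) := by
    haveI : Finite (V →ₗ[ZMod p] X) := DFunLike.finite _
    exact DFunLike.finite _
  -- the span of the translates of `U`
  have hspan : Submodule.span (ZMod p) {v | ∃ g, ∃ u ∈ U, v = ρV g u} = ⊤ := by
    by_contra hne
    set N := Submodule.span (ZMod p) {v | ∃ g, ∃ u ∈ U, v = ρV g u} with hN
    have hann : N.dualAnnihilator ≠ ⊥ := by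
      intro h
      apply hne
      have := congrArg Submodule.dualCoannihilator h
      rw [Subspace.dualAnnihilator_dualCoannihilator_eq, Submodule.dualCoannihilator_bot] at this
      exact this
    haveI : Finite (Module.Dual (ZMod p) V) := DFunLike.finite _
    let ρ : Γ →* (Module.Dual (ZMod p) V →ₗ[ZMod p] Module.Dual (ZMod p) V) :=
      { toFun := fun g => (ρV g⁻¹).dualMap
        map_one' := by
          rw [inv_one, map_one]
          rfl
        map_mul' := fun g h => by
          rw [mul_inv_rev, map_mul]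
          rfl }
    have hρ : ∀ g φ v, ρ g φ v = φ (ρV g⁻¹ v) := fun g φ v => rfl
    obtain ⟨φ, hφ, hφ0, hfix⟩ := exists_fixed_vector hΓ ρ N.dualAnnihilator (by
      intro g φ hφ
      rw [Submodule.mem_dualAnnihilator] at hφ ⊢
      intro v hv
      rw [hρ]
      apply hφ
      rw [hN] at hv ⊢
      induction hv using Submodule.span_induction with
      | mem v h =>
        obtain ⟨g', u, hu, rfl⟩ := h
        refine Submodule.subset_span ⟨g⁻¹ * g', u, hu, ?_⟩
        rw [map_mul, Module.End.mul_apply]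
      | zero => rw [map_zero]; exact Submodule.zero_mem _
      | add a b _ _ ha hb => rw [map_add]; exact Submodule.add_mem _ ha hb
      | smul a b _ hb => rw [map_smul]; exact Submodule.smul_mem _ a hb) hann
    apply hφ0
    ext v
    have hv : v ∈ W ⊔ U := by rw [hU.sup_eq_top]; trivial
    obtain ⟨w, hw, u, hu, rfl⟩ := Submodule.mem_sup.1 hv
    have h1 : φ w = 0 := by
      have hWk : W ≤ LinearMap.ker φ := by
        rw [hW, Submodule.span_le]
        rintro _ ⟨g, x, rfl⟩
        have h2 : φ (ρV g x) = φ x := by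
          have h3 := hfix g⁻¹
          have h4 := congrArg (fun f : Module.Dual (ZMod p) V => f x) h3
          simp only [hρ, inv_inv] at h4
          exact h4
        change φ (ρV g x - x) = 0
        rw [map_sub, h2, sub_self]
      exact hWk hw
    have h2 : φ u = 0 := by
      rw [Submodule.mem_dualAnnihilator] at hφ
      apply hφ
      refine Submodule.subset_span ⟨1, u, hu, ?_⟩
      rw [map_one]; rfl
    rw [map_add, h1, h2]
    simp
  -- bases
  set m := finrank (ZMod p) U with hm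
  set f' := finrank (ZMod p) W with hf'
  have hdim : f' + m = finrank (ZMod p) V := Submodule.finrank_add_eq_of_isCompl hU
  let bW : Basis (Fin f') (ZMod p) W := finBasis (ZMod p) W
  let bU : Basis (Fin m) (ZMod p) U := finBasis (ZMod p) U
  let F := Fix (fun j => ρV (γ j)) (fun j => ρX (γ j))
  let Ψ : F → ((Fin m × Fin f') → X) × ((Σ j : Fin m, Fin j.val) → X) := fun ψ =>
    (fun x => ψ.1 (bU x.1) (bW x.2), fun x => ψ.1 (bU ⟨x.2.val, x.2.2.trans x.1.2⟩) (bU x.1))
  have hΨ : Function.Injective Ψ := by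
    intro ψ₁ ψ₂ h
    have h1 : ∀ (i : Fin m) (j : Fin f'), (ψ₁ - ψ₂).1 (bU i) (bW j) = 0 := by
      intro i j
      have := congrFun (congrArg Prod.fst h) (i, j)
      change (ψ₁.1 - ψ₂.1) (bU i) (bW j) = 0
      rw [LinearMap.sub_apply, LinearMap.sub_apply, sub_eq_zero]
      exact this
    have h2 : ∀ i j : Fin m, i < j → (ψ₁ - ψ₂).1 (bU i) (bU j) = 0 := by
      intro i j hij
      have := congrFun (congrArg Prod.snd h) ⟨j, ⟨i.val, hij⟩⟩
      change (ψ₁.1 - ψ₂.1) (bU i) (bU j) = 0
      rw [LinearMap.sub_apply, LinearMap.sub_apply, sub_eq_zero]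
      exact this
    set ψ := ψ₁ - ψ₂ with hψ
    have halt := ψ.2.1
    have h3 : ∀ i j : Fin m, ψ.1 (bU i) (bU j) = 0 := by
      intro i j
      rcases lt_trichotomy i j with hij | hij | hij
      · exact h2 i j hij
      · rw [hij]; exact halt _
      · rw [skew halt, h2 j i hij, neg_zero]
    have h4 : ∀ (i : Fin m), ψ.1 (bU i) = 0 := by
      intro i
      have h5 : ∀ w : W, ψ.1 (bU i) w = 0 := by
        intro w
        have : (ψ.1 (bU i)) ∘ₗ W.subtype = 0 := bW.ext (fun j => h1 i j)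
        exact LinearMap.congr_fun this w
      have h6 : ∀ u : U, ψ.1 (bU i) u = 0 := by
        intro u
        have : (ψ.1 (bU i)) ∘ₗ U.subtype = 0 := bU.ext (fun j => h3 i j)
        exact LinearMap.congr_fun this u
      ext v
      have hv : v ∈ W ⊔ U := by rw [hU.sup_eq_top]; trivial
      obtain ⟨w, hw, u, hu, rfl⟩ := Submodule.mem_sup.1 hv
      rw [map_add, h5 ⟨w, hw⟩, h6 ⟨u, hu⟩]
      simp
    have h5 : ∀ u ∈ U, ψ.1 u = 0 := by
      intro u hu
      have : ψ.1 ∘ₗ U.subtype = 0 := bU.ext (fun j => h4 j)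
      exact LinearMap.congr_fun this ⟨u, hu⟩
    have h6 : ψ.1 = 0 := by
      ext x y
      have hx : x ∈ Submodule.span (ZMod p) {v | ∃ g, ∃ u ∈ U, v = ρV g u} := by
        rw [hspan]; trivial
      induction hx using Submodule.span_induction with
      | mem v h =>
        obtain ⟨g, u, hu, rfl⟩ := h
        have h7 := fix_equiv ρV ρX γ hγ ψ.2 g u (ρV g⁻¹ y)
        have h8 : ρV g (ρV g⁻¹ y) = y := by
          rw [← Module.End.mul_apply, ← map_mul, mul_inv_cancel, map_one]; rfl
        rw [h8, h5 u hu] at h7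
        rw [← h7]
        simp
      | zero => simp
      | add a b _ _ ha hb => rw [map_add, LinearMap.add_apply, ha, hb]; simp
      | smul a b _ hb => rw [map_smul, LinearMap.smul_apply, hb]; simp
    have h7 : ψ = 0 := Subtype.ext h6
    exact sub_eq_zero.1 h7
  have hcard : Nat.card X = p ^ finrank (ZMod p) X := by
    haveI : Fintype X := Fintype.ofFinite X
    rw [Nat.card_eq_fintype_card, Module.card_eq_pow_finrank (K := ZMod p), ZMod.card]
  have h1 := Nat.card_le_card_of_injective Ψ hΨ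
  refine h1.trans ?_
  rw [Nat.card_prod, Nat.card_fun, Nat.card_fun, card_sigma_fin, Nat.card_prod, Nat.card_fin,
    Nat.card_fin, ← pow_add, hcard, ← pow_mul]
  apply Nat.pow_le_pow_right (Fact.out : p.Prime).pos
  apply Nat.mul_le_mul_left
  rw [Nat.le_div_iff_mul_le (by norm_num), ← hdim]
  apply Nat.le_sub_of_add_le
  have h2 : m.choose 2 * 2 ≤ m * m := by
    rw [Nat.choose_two_right, Nat.div_mul_cancel]
    · exact Nat.mul_le_mul_left m (Nat.sub_le m 1)
    · exact (Nat.even_mul_pred_self m).two_dvd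
  nlinarith [Nat.mul_le_mul hf hf]

/-- (D2) -/
theorem fix_D2 {Γ : Type} [Group Γ] [Finite Γ] (hΓ : IsPGroup p Γ)
    (ρV : Γ →* (V →ₗ[ZMod p] V)) (ρX : Γ →* (X →ₗ[ZMod p] X)) {c : ℕ} (γ : Fin c → Γ)
    (hγ : Subgroup.closure (Set.range γ) = ⊤) {f : ℕ}
    (Z : Submodule (ZMod p) X) (hZ : ∀ z, z ∈ Z ↔ ∀ g, ρX g z = z)
    (hf : finrank (ZMod p) Z + f ≤ finrank (ZMod p) X) :
    Nat.card (Fix (fun j => ρV (γ j)) (fun j => ρX (γ j))) ≤
      p ^ ((finrank (ZMod p) X - f) * (finrank (ZMod p) V).choose 2) := by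
  obtain ⟨Z', hZ'⟩ := Submodule.exists_isCompl Z
  let pr : X →ₗ[ZMod p] Z := Submodule.linearProjOfIsCompl Z Z' hZ'
  have hpr : ∀ z ∈ Z, pr z = 0 → z = 0 := by
    intro z hz h
    have := Submodule.linearProjOfIsCompl_apply_left hZ' ⟨z, hz⟩
    have h2 : pr z = ⟨z, hz⟩ := this
    rw [h] at h2
    exact (congrArg Subtype.val h2).symm
  haveI : Finite (V →ₗ[ZMod p] V →ₗ[ZMod p] X) := by
    haveI : Finite (V →ₗ[ZMod p] X) := DFunLike.finite _
    exact DFunLike.finite _
  set d := finrank (ZMod p) V with hd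
  let b : Basis (Fin d) (ZMod p) V := finBasis (ZMod p) V
  let F := Fix (fun j => ρV (γ j)) (fun j => ρX (γ j))
  let Ψ : F → ((Σ j : Fin d, Fin j.val) → Z) := fun ψ =>
    fun x => pr (ψ.1 (b ⟨x.2.val, x.2.2.trans x.1.2⟩) (b x.1))
  have hΨ : Function.Injective Ψ := by
    intro ψ₁ ψ₂ h
    have h2 : ∀ i j : Fin d, i < j → pr ((ψ₁ - ψ₂).1 (b i) (b j)) = 0 := by
      intro i j hij
      have := congrFun h ⟨j, ⟨i.val, hij⟩⟩
      change pr ((ψ₁.1 - ψ₂.1) (b i) (b j)) = 0
      rw [LinearMap.sub_apply, LinearMap.sub_apply, map_sub, sub_eq_zero]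
      exact this
    set ψ := ψ₁ - ψ₂ with hψ
    have halt := ψ.2.1
    have h3 : ∀ i j : Fin d, pr (ψ.1 (b i) (b j)) = 0 := by
      intro i j
      rcases lt_trichotomy i j with hij | hij | hij
      · exact h2 i j hij
      · rw [hij, halt, map_zero]
      · rw [skew halt, map_neg, h2 j i hij, neg_zero]
    have h4 : ∀ x y, pr (ψ.1 x y) = 0 := by
      have h5 : ∀ i, pr ∘ₗ (ψ.1 (b i)) = 0 := fun i => b.ext (fun j => h3 i j)
      have h6 : (LinearMap.compRight (ZMod p) pr) ∘ₗ ψ.1 = 0 := b.ext (fun i => h5 i)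
      intro x y
      have := LinearMap.congr_fun (LinearMap.congr_fun h6 x) y
      exact this
    -- the span of the values
    set S := Submodule.span (ZMod p) {v | ∃ x y, v = ψ.1 x y} with hS
    have hS0 : S = ⊥ := by
      by_contra hne
      obtain ⟨s, hs, hs0, hfix⟩ := exists_fixed_vector hΓ ρX S (by
        intro g s hs
        rw [hS] at hs ⊢
        induction hs using Submodule.span_induction with
        | mem v h =>
          obtain ⟨x, y, rfl⟩ := h
          refine Submodule.subset_span ⟨ρV g x, ρV g y, ?_⟩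
          exact fix_equiv ρV ρX γ hγ ψ.2 g x y
        | zero => rw [map_zero]; exact Submodule.zero_mem _
        | add a b _ _ ha hb => rw [map_add]; exact Submodule.add_mem _ ha hb
        | smul a b _ hb => rw [map_smul]; exact Submodule.smul_mem _ a hb) hne
      apply hs0
      apply hpr s ((hZ s).2 hfix)
      have hSk : S ≤ LinearMap.ker pr := by
        rw [hS, Submodule.span_le]
        rintro _ ⟨x, y, rfl⟩
        exact h4 x y
      exact hSk hs
    have h7 : ψ = 0 := by
      apply Subtype.ext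
      ext x y
      have : ψ.1 x y ∈ S := Submodule.subset_span ⟨x, y, rfl⟩
      rw [hS0, Submodule.mem_bot] at this
      rw [this]
      simp
    exact sub_eq_zero.1 h7
  have hcard : Nat.card Z = p ^ finrank (ZMod p) Z := by
    haveI : Fintype Z := Fintype.ofFinite Z
    rw [Nat.card_eq_fintype_card, Module.card_eq_pow_finrank (K := ZMod p), ZMod.card]
  have h1 := Nat.card_le_card_of_injective Ψ hΨ
  refine h1.trans ?_
  rw [Nat.card_fun, card_sigma_fin, hcard, ← pow_mul]
  apply Nat.pow_le_pow_right (Fact.out : p.Prime).pos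
  apply Nat.mul_le_mul_right
  omega

end Pool.Agent.IG
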