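import Pool.Agent.IG.FreeCountA

/-!
# Normal subgroups of free groups of `p`-power index: counting
-/

open Subgroup
open scoped commutatorElement

noncomputable section

namespace Pool.Agent.IG

variable {p : ℕ} [Fact p.Prime]

/-- normal subgroups of index `p ^ n` -/
def NSub (p d n : ℕ) : Set (Subgroup (FG d)) := {N | N.Normal ∧ N.index = p ^ n}

/-- normal subgroups below `Phi` of relative index `p ^ k` -/
def PSub (p d k : ℕ) : Set (Subgroup (FG d)) :=
  {N | N.Normal ∧ N ≤ Phi p (FG d) ∧ N.relIndex (Phi p (FG d)) = p ^ k}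

/-- above a normal subgroup there is a normal subgroup of index `p`, with central quotient -/
theorem exists_above {G : Type} [Group G] {N P : Subgroup G} [N.Normal] [P.Normal] (hNP : N ≤ P)
    {m : ℕ} (hN : N.index = p ^ m) {k : ℕ} (hk : N.relIndex P = p ^ (k + 1)) :
    ∃ N1 : Subgroup G, N1.Normal ∧ N ≤ N1 ∧ N1 ≤ P ∧ N.relIndex N1 = p ∧ N1.relIndex P = p ^ k ∧
      EE p N1 ≤ N := by
  have hp : p.Prime := Fact.out
  have hQc : Nat.card (G ⧸ N) = p ^ m := hN
  have hfin : Finite (G ⧸ N) := Nat.finite_of_card_ne_zero (by rw [hQc]; exact (pow_pos hp.pos m).ne')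
  have hQ : IsPGroup p (G ⧸ N) := IsPGroup.of_card hQc
  set f := QuotientGroup.mk' N with hf
  have hfs : Function.Surjective f := QuotientGroup.mk'_surjective N
  have hker : f.ker = N := QuotientGroup.ker_mk' N
  set Pb := P.map f with hPb
  have hPbn : Pb.Normal := Subgroup.Normal.map inferInstance f hfs
  have hbot : (⊥ : Subgroup (G ⧸ N)).comap f = N := by
    rw [MonoidHom.comap_bot]; exact hker
  have hrelbot : ∀ X : Subgroup G, N.relIndex X = ((⊥ : Subgroup (G ⧸ N)).comap f).relIndex X := by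
    intro X
    rw [hbot]
  have hPbc : Nat.card Pb = p ^ (k + 1) := by
    rw [← relIndex_bot_left, ← hk, hrelbot, relIndex_comap]
  -- a central element of order `p` in `Pb`
  obtain ⟨z, hzP, hzc, hz⟩ : ∃ z ∈ Pb, z ∈ center (G ⧸ N) ∧ orderOf z = p := by
    letI : MulAction (G ⧸ N) Pb := MulAction.compHom Pb (MulAut.conjNormal (H := Pb))
    have hsmul : ∀ (g : G ⧸ N) (x : Pb), ((g • x : Pb) : G ⧸ N) = g * x * g⁻¹ := fun g x =>
      MulAut.conjNormal_apply g x
    have h1 : (1 : Pb) ∈ MulAction.fixedPoints (G ⧸ N) Pb := by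
      intro g
      apply Subtype.ext
      rw [hsmul]
      simp
    obtain ⟨b, hb, hb1⟩ := hQ.exists_fixed_point_of_prime_dvd_card_of_fixed_point Pb
      (by rw [hPbc]; exact dvd_pow_self p (by omega)) h1
    have hbc : (b : G ⧸ N) ∈ center (G ⧸ N) := by
      rw [mem_center_iff]
      intro g
      have h2 := congrArg Subtype.val (hb g)
      rw [hsmul] at h2
      exact mul_inv_eq_iff_eq_mul.1 h2
    have hbne : (b : G ⧸ N) ≠ 1 := fun h => hb1 (Subtype.ext h.symm)
    obtain ⟨j, hj⟩ := IsPGroup.iff_orderOf.1 hQ (b : G ⧸ N)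
    have hj0 : j ≠ 0 := by
      intro h
      rw [h, pow_zero, orderOf_eq_one_iff] at hj
      exact hbne hj
    refine ⟨(b : G ⧸ N) ^ p ^ (j - 1), pow_mem b.2 _, pow_mem hbc _, ?_⟩
    rw [orderOf_pow' _ (pow_pos hp.pos _).ne', hj]
    have h3 : p ^ j = p ^ (j - 1) * p := by rw [← pow_succ]; congr 1; omega
    rw [h3, Nat.gcd_eq_right (Dvd.intro _ rfl), Nat.mul_div_cancel_left _ (pow_pos hp.pos _)]
  have hzn : (zpowers z).Normal := by
    refine ⟨fun n hn g => ?_⟩
    have h1 : n ∈ center (G ⧸ N) := (zpowers_le.2 hzc) hn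
    rw [(mem_center_iff.1 h1 g), mul_inv_cancel_right]
    exact hn
  have hNle : N ≤ (zpowers z).comap f := by
    intro x hx
    have h1 : f x = 1 := (QuotientGroup.eq_one_iff x).2 hx
    rw [mem_comap, h1]
    exact one_mem _
  have hleP : (zpowers z).comap f ≤ P := by
    have h1 : (zpowers z).comap f ≤ Pb.comap f := comap_mono (zpowers_le.2 hzP)
    refine h1.trans ?_
    intro x hx
    obtain ⟨y, hy, hyx⟩ := (hx : f x ∈ P.map f)
    have h2 : y⁻¹ * x ∈ N := QuotientGroup.eq.1 hyx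
    have h3 : x = y * (y⁻¹ * x) := by group
    rw [h3]
    exact mul_mem hy (hNP h2)
  have hrel : N.relIndex ((zpowers z).comap f) = p := by
    rw [hrelbot, relIndex_comap, map_comap_eq_self_of_surjective hfs, relIndex_bot_left,
      Nat.card_zpowers, hz]
  refine ⟨(zpowers z).comap f, hzn.comap f, hNle, hleP, hrel, ?_, ?_⟩
  · have h1 := relIndex_mul_relIndex N ((zpowers z).comap f) P hNle hleP
    rw [hrel, hk, pow_succ, mul_comm (p ^ k) p] at h1
    exact Nat.eq_of_mul_eq_mul_left hp.pos h1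
  · rw [EE_le_iff]
    refine ⟨fun a ha g => ?_, fun a ha => ?_⟩
    · rw [← QuotientGroup.eq_one_iff]
      change ⁅(a : G ⧸ N), (g : G ⧸ N)⁆ = 1
      rw [commutatorElement_eq_one_iff_mul_comm]
      have h1 : (a : G ⧸ N) ∈ center (G ⧸ N) := (zpowers_le.2 hzc) ha
      exact ((mem_center_iff.1 h1) _).symm
    · rw [← QuotientGroup.eq_one_iff, QuotientGroup.mk_pow]
      obtain ⟨i, hi⟩ := mem_zpowers_iff.1 (show (a : G ⧸ N) ∈ zpowers z from ha)
      have h2 : z ^ p = 1 := by rw [← hz]; exact pow_orderOf_eq_one z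
      rw [← hi, ← zpow_natCast, ← zpow_mul, mul_comm, zpow_mul, zpow_natCast, h2, one_zpow]

/-- the counting step -/
theorem step_count {G : Type} [Group G] {A B : Set (Subgroup G)} (hB : B.Finite) (r : ℕ)
    (h : ∀ N ∈ A, N.Normal ∧ ∃ N1 ∈ B, N1.Normal ∧ NGen r N1 ∧ EE p N1 ≤ N ∧ N ≤ N1 ∧
      N.relIndex N1 = p) : A.Finite ∧ A.ncard ≤ B.ncard * p ^ r := by
  classical
  have hp : p.Prime := Fact.out
  -- the generators of a member of `B`
  let s : Subgroup G → Fin r → G := fun N1 => if h : NGen r N1 then h.choose else fun _ => 1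
  have hs : ∀ N1, NGen r N1 → normalClosure (Set.range (s N1)) = N1 := by
    intro N1 h1
    simp only [s, dif_pos h1]
    exact h1.choose_spec
  have hsm : ∀ N1, NGen r N1 → ∀ i, s N1 i ∈ N1 := by
    intro N1 h1 i
    have h2 : s N1 i ∈ normalClosure (Set.range (s N1)) := subset_normalClosure ⟨i, rfl⟩
    rwa [hs N1 h1] at h2
  -- the homomorphism with kernel `N`
  have hχ : ∀ N : A, ∃ N1 : Subgroup G, N1 ∈ B ∧ N1.Normal ∧ NGen r N1 ∧ EE p N1 ≤ N ∧ N ≤ N1 ∧
      ∃ χ : N1 →* Multiplicative (ZMod p), χ.ker = N.1.subgroupOf N1 := by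
    intro N
    obtain ⟨hNn, N1, hN1, h1, h2, h3, h4, h5⟩ := h N.1 N.2
    refine ⟨N1, hN1, h1, h2, h3, h4, ?_⟩
    have hn : (N.1.subgroupOf N1).Normal := inferInstance
    have hc : Nat.card (N1 ⧸ N.1.subgroupOf N1) = p := h5
    have hc2 : Nat.card (Multiplicative (ZMod p)) = p := by
      have : Nat.card (Multiplicative (ZMod p)) = Nat.card (ZMod p) := rfl
      rw [this, Nat.card_zmod]
    let e : (N1 ⧸ N.1.subgroupOf N1) ≃* Multiplicative (ZMod p) := mulEquivOfPrimeCardEq hc hc2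
    refine ⟨e.toMonoidHom.comp (QuotientGroup.mk' _), ?_⟩
    ext x
    rw [MonoidHom.mem_ker]
    simp
  choose T hTB hTn hTg hTE hTle χ hχk using hχ
  have hmem : ∀ (N : A) (x : G) (hx : x ∈ T N), χ N ⟨x, hx⟩ = 1 ↔ x ∈ N.1 := by
    intro N x hx
    rw [← MonoidHom.mem_ker, hχk, mem_subgroupOf]
  let F : A → B × (Fin r → ZMod p) := fun N => (⟨T N, hTB N⟩, fun i =>
    (χ N ⟨s (T N) i, hsm _ (hTg N) i⟩).toAdd)
  have hF : Function.Injective F := by
    intro N M hNM
    have e1 : T N = T M := congrArg (fun z => (z.1 : Subgroup G)) hNM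
    have e2 := congrArg Prod.snd hNM
    -- the two homomorphisms agree
    let K : Subgroup G :=
      { carrier := {x | ∃ (hx : x ∈ T N) (hx' : x ∈ T M), χ N ⟨x, hx⟩ = χ M ⟨x, hx'⟩}
        mul_mem' := by
          rintro x y ⟨hx, hx', h1⟩ ⟨hy, hy', h2⟩
          refine ⟨mul_mem hx hy, mul_mem hx' hy', ?_⟩
          have h3 : (⟨x * y, mul_mem hx hy⟩ : T N) = ⟨x, hx⟩ * ⟨y, hy⟩ := rfl
          have h4 : (⟨x * y, mul_mem hx' hy'⟩ : T M) = ⟨x, hx'⟩ * ⟨y, hy'⟩ := rfl
          rw [h3, h4, map_mul, map_mul, h1, h2]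
        one_mem' := by
          refine ⟨one_mem _, one_mem _, ?_⟩
          have h3 : (⟨1, one_mem _⟩ : T N) = 1 := rfl
          have h4 : (⟨1, one_mem _⟩ : T M) = 1 := rfl
          rw [h3, h4, map_one, map_one]
        inv_mem' := by
          rintro x ⟨hx, hx', h1⟩
          refine ⟨inv_mem hx, inv_mem hx', ?_⟩
          have h3 : (⟨x⁻¹, inv_mem hx⟩ : T N) = ⟨x, hx⟩⁻¹ := rfl
          have h4 : (⟨x⁻¹, inv_mem hx'⟩ : T M) = ⟨x, hx'⟩⁻¹ := rfl
          rw [h3, h4, map_inv, map_inv, h1] }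
    have hK : T N ≤ K := by
      haveI := hTn N
      rw [← EE_sup_closure (p := p) (hs _ (hTg N))]
      refine sup_le ?_ ?_
      · intro x hx
        have h1 : x ∈ N.1 := hTE N hx
        have h2 : x ∈ M.1 := hTE M (by rw [← e1]; exact hx)
        refine ⟨hTle N h1, hTle M h2, ?_⟩
        rw [(hmem N x _).2 h1, (hmem M x _).2 h2]
      · rw [closure_le]
        rintro x ⟨i, rfl⟩
        have h1 : s (T N) i ∈ T M := by rw [← e1]; exact hsm _ (hTg N) i
        refine ⟨hsm _ (hTg N) i, h1, ?_⟩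
        have h2 := congrFun e2 i
        have h3 : (⟨s (T N) i, h1⟩ : T M) = ⟨s (T M) i, hsm _ (hTg M) i⟩ :=
          Subtype.ext (congrArg (fun X => s X i) e1)
        rw [h3]
        exact Multiplicative.toAdd.injective h2
    apply Subtype.ext
    ext x
    constructor
    · intro hx
      obtain ⟨h1, h2, h3⟩ := hK (hTle N hx)
      rw [(hmem N x h1).2 hx] at h3
      exact (hmem M x h2).1 h3.symm
    · intro hx
      have hx' : x ∈ T N := by rw [e1]; exact hTle M hx
      obtain ⟨h1, h2, h3⟩ := hK hx'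
      rw [(hmem M x h2).2 hx] at h3
      exact (hmem N x h1).1 h3
  haveI : Finite B := hB.to_subtype
  haveI : Finite (Fin r → ZMod p) := Pi.finite
  have hfA : Finite A := Finite.of_injective F hF
  refine ⟨Set.toFinite A, ?_⟩
  have h1 := Nat.card_le_card_of_injective F hF
  rw [Nat.card_prod, Nat.card_fun, Nat.card_zmod, Nat.card_eq_fintype_card (α := Fin r),
    Fintype.card_fin, Nat.card_coe_set_eq, Nat.card_coe_set_eq] at h1
  exact h1

theorem NSub_zero (d : ℕ) : NSub p d 0 = {⊤} := by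
  ext N
  constructor
  · rintro ⟨_, h⟩
    rw [pow_zero, index_eq_one] at h
    exact h
  · intro h
    rw [Set.mem_singleton_iff] at h
    subst h
    exact ⟨inferInstance, by rw [index_top, pow_zero]⟩

theorem NSub_above {d n : ℕ} {N : Subgroup (FG d)} (h : N ∈ NSub p d (n + 1)) :
    ∃ N1 ∈ NSub p d n, N ≤ N1 ∧ EE p N1 ≤ N ∧ N.relIndex N1 = p := by
  obtain ⟨hn, hi⟩ := h
  obtain ⟨N1, h1, h2, h3, h4, h5, h6⟩ := exists_above (p := p) (le_top : N ≤ ⊤) hi (k := n)
    (by rw [relIndex_top_right]; exact hi)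
  rw [relIndex_top_right] at h5
  exact ⟨N1, ⟨h1, h5⟩, h2, h6, h4⟩

theorem NGen_NSub {d n : ℕ} {N : Subgroup (FG d)} (h : N ∈ NSub p d n) : NGen (d + d * n) N := by
  induction n generalizing N with
  | zero =>
    rw [NSub_zero, Set.mem_singleton_iff] at h
    subst h
    exact NGen_mono (by omega) (NGen_top d)
  | succ n ih =>
    obtain ⟨N1, h1, h2, h3, h4⟩ := NSub_above h
    haveI := h.1
    haveI := h1.1
    refine NGen_mono ?_ (NGen_step (ih h1) h3 h2 h4)
    rw [Nat.mul_succ]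
    omega

theorem NSub_count (d n : ℕ) : (NSub p d n).Finite ∧ (NSub p d n).ncard ≤ p ^ (d * n ^ 2) := by
  have hp : p.Prime := Fact.out
  induction n with
  | zero =>
    rw [NSub_zero]
    exact ⟨Set.finite_singleton _, by simp⟩
  | succ n ih =>
    obtain ⟨h1, h2⟩ := step_count (p := p) (A := NSub p d (n + 1)) ih.1 (d + d * n) (by
      intro N hN
      obtain ⟨N1, h1, h2, h3, h4⟩ := NSub_above hN
      exact ⟨hN.1, N1, h1, h1.1, NGen_NSub h1, h3, h2, h4⟩)
    refine ⟨h1, h2.trans ?_⟩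
    refine (Nat.mul_le_mul_right _ ih.2).trans ?_
    rw [← pow_add]
    apply Nat.pow_le_pow_right hp.pos
    nlinarith

theorem finite_NSub (d n : ℕ) : (NSub p d n).Finite := (NSub_count d n).1

theorem card_NSub_le (d n : ℕ) : (NSub p d n).ncard ≤ p ^ (d * n ^ 2) := (NSub_count d n).2

theorem index_Phi_FG_exists (d : ℕ) : ∃ m, (Phi p (FG d)).index = p ^ m := by
  refine card_pow_of_closure (Q := FG d ⧸ Phi p (FG d)) ?_
    (fun i : Fin d => ((FreeGroup.of i : FG d) : FG d ⧸ Phi p (FG d))) ?_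
  · intro x
    obtain ⟨a, rfl⟩ := QuotientGroup.mk_surjective x
    rw [← QuotientGroup.mk_pow, QuotientGroup.eq_one_iff]
    exact pow_mem_Phi p a
  · rw [eq_top_iff]
    intro x _
    obtain ⟨a, rfl⟩ := QuotientGroup.mk_surjective x
    have h1 : a ∈ closure (Set.range (FreeGroup.of : Fin d → FG d)) := by
      rw [FreeGroup.closure_range_of]
      exact mem_top a
    have h2 : closure (Set.range (FreeGroup.of : Fin d → FG d)) ≤
        (closure (Set.range fun i : Fin d => ((FreeGroup.of i : FG d) : FG d ⧸ Phi p (FG d)))).comap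
          (QuotientGroup.mk' (Phi p (FG d))) := by
      rw [closure_le]
      rintro x ⟨i, rfl⟩
      exact subset_closure ⟨i, rfl⟩
    exact h2 h1

theorem PSub_index {d k : ℕ} {N : Subgroup (FG d)} (h : N ∈ PSub p d k) :
    ∃ m, N.index = p ^ m := by
  obtain ⟨m, hm⟩ := index_Phi_FG_exists (p := p) d
  refine ⟨k + m, ?_⟩
  rw [← relIndex_mul_index h.2.1, h.2.2, hm, pow_add]

theorem PSub_zero (d : ℕ) : PSub p d 0 = {Phi p (FG d)} := by
  ext N
  constructor
  · rintro ⟨_, h1, h⟩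
    rw [pow_zero, relIndex_eq_one] at h
    exact le_antisymm h1 h
  · intro h
    rw [Set.mem_singleton_iff] at h
    subst h
    exact ⟨inferInstance, le_rfl, by rw [relIndex_self, pow_zero]⟩

theorem PSub_above {d k : ℕ} {N : Subgroup (FG d)} (h : N ∈ PSub p d (k + 1)) :
    ∃ N1 ∈ PSub p d k, N ≤ N1 ∧ EE p N1 ≤ N ∧ N.relIndex N1 = p := by
  obtain ⟨m, hm⟩ := PSub_index h
  obtain ⟨hn, hle, hi⟩ := h
  obtain ⟨N1, h1, h2, h3, h4, h5, h6⟩ := exists_above (p := p) hle hm hi
  exact ⟨N1, ⟨h1, h3, h5⟩, h2, h6, h4⟩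

theorem NGen_PSub {d k : ℕ} {N : Subgroup (FG d)} (h : N ∈ PSub p d k) :
    NGen (d * (d + 1) / 2 + d * k) N := by
  induction k generalizing N with
  | zero =>
    rw [PSub_zero, Set.mem_singleton_iff] at h
    subst h
    exact NGen_mono (by omega) (NGen_Phi d)
  | succ k ih =>
    obtain ⟨N1, h1, h2, h3, h4⟩ := PSub_above h
    haveI := h.1
    haveI := h1.1
    refine NGen_mono ?_ (NGen_step (ih h1) h3 h2 h4)
    have h5 : d * (k + 1) = d * k + d := Nat.mul_succ d k
    generalize d * (d + 1) / 2 = e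
    omega

theorem PSub_count (d k : ℕ) : (PSub p d k).Finite ∧
    (PSub p d k).ncard ≤ p ^ (k * (d * (d + 1) / 2 + d * k)) := by
  have hp : p.Prime := Fact.out
  induction k with
  | zero =>
    rw [PSub_zero]
    exact ⟨Set.finite_singleton _, by simp⟩
  | succ k ih =>
    obtain ⟨h1, h2⟩ := step_count (p := p) (A := PSub p d (k + 1)) ih.1
      (d * (d + 1) / 2 + d * k) (by
      intro N hN
      obtain ⟨N1, h1, h2, h3, h4⟩ := PSub_above hN
      exact ⟨hN.1, N1, h1, h1.1, NGen_PSub h1, h3, h2, h4⟩)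
    refine ⟨h1, h2.trans ?_⟩
    refine (Nat.mul_le_mul_right _ ih.2).trans ?_
    rw [← pow_add]
    apply Nat.pow_le_pow_right hp.pos
    generalize d * (d + 1) / 2 = e
    nlinarith

theorem finite_PSub (d k : ℕ) : (PSub p d k).Finite := (PSub_count d k).1

theorem card_PSub_le (d k : ℕ) :
    (PSub p d k).ncard ≤ p ^ (k * (d * (d + 1) / 2 + d * k)) := (PSub_count d k).2

end Pool.Agent.IG
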