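import Pool.Agent.IG.Inv

/-!
# Normal subgroups of free groups of `p`-power index
-/

open Subgroup
open scoped commutatorElement

set_option linter.unusedSectionVars false

noncomputable section

namespace Pool.Agent.IG

/-- the free group on `d` generators -/
abbrev FG (d : ℕ) : Type := FreeGroup (Fin d)

/-- `[N, G] N ^ p` -/
def EE (p : ℕ) {G : Type} [Group G] (N : Subgroup G) : Subgroup G :=
  ⁅N, (⊤ : Subgroup G)⁆ ⊔ closure {x | ∃ a ∈ N, x = a ^ p}

theorem EE_le (p : ℕ) {G : Type} [Group G] (N : Subgroup G) [N.Normal] : EE p N ≤ N := by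
  refine sup_le (commutator_le_left _ _) ?_
  rw [closure_le]
  rintro x ⟨a, ha, rfl⟩
  exact pow_mem ha _

theorem comm_mem_EE (p : ℕ) {G : Type} [Group G] {N : Subgroup G} {a : G} (ha : a ∈ N) (b : G) :
    ⁅a, b⁆ ∈ EE p N :=
  (le_sup_left : ⁅N, (⊤ : Subgroup G)⁆ ≤ EE p N) (commutator_mem_commutator ha (mem_top b))

theorem comm_mem_EE' (p : ℕ) {G : Type} [Group G] {N : Subgroup G} {a : G} (ha : a ∈ N) (b : G) :
    ⁅b, a⁆ ∈ EE p N := by
  rw [← commutatorElement_inv]
  exact inv_mem (comm_mem_EE p ha b)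

theorem pow_mem_EE (p : ℕ) {G : Type} [Group G] {N : Subgroup G} {a : G} (ha : a ∈ N) :
    a ^ p ∈ EE p N :=
  (le_sup_right : closure {x | ∃ a ∈ N, x = a ^ p} ≤ EE p N) (subset_closure ⟨a, ha, rfl⟩)

theorem EE_le_iff (p : ℕ) {G : Type} [Group G] {N M : Subgroup G} :
    EE p N ≤ M ↔ (∀ a ∈ N, ∀ b : G, ⁅a, b⁆ ∈ M) ∧ ∀ a ∈ N, a ^ p ∈ M := by
  constructor
  · intro h
    exact ⟨fun a ha b => h (comm_mem_EE p ha b), fun a ha => h (pow_mem_EE p ha)⟩
  · rintro ⟨h1, h2⟩
    refine sup_le ?_ ?_
    · rw [Subgroup.commutator_le]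
      exact fun a ha b _ => h1 a ha b
    · rw [closure_le]
      rintro x ⟨a, ha, rfl⟩
      exact h2 a ha

theorem EE_mono (p : ℕ) {G : Type} [Group G] {N M : Subgroup G} (h : N ≤ M) : EE p N ≤ EE p M := by
  rw [EE_le_iff]
  exact ⟨fun a ha b => comm_mem_EE p (h ha) b, fun a ha => pow_mem_EE p (h ha)⟩

instance EE_normal (p : ℕ) {G : Type} [Group G] (N : Subgroup G) [N.Normal] :
    (EE p N).Normal := by
  refine ⟨fun n hn g => ?_⟩
  have h : g * n * g⁻¹ = ⁅g, n⁆ * n := by rw [commutatorElement_def]; group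
  rw [h]
  exact mul_mem (comm_mem_EE' p (EE_le p N hn) g) hn

/-- `N` is generated by `r` elements as a normal subgroup -/
def NGen {G : Type} [Group G] (r : ℕ) (N : Subgroup G) : Prop :=
  ∃ s : Fin r → G, normalClosure (Set.range s) = N

theorem NGen_mono {G : Type} [Group G] {r r' : ℕ} (h : r ≤ r') {N : Subgroup G} (hN : NGen r N) :
    NGen r' N := by
  obtain ⟨s, hs⟩ := hN
  refine ⟨fun i => if hi : (i : ℕ) < r then s ⟨i, hi⟩ else 1, le_antisymm ?_ ?_⟩
  · rw [← hs]
    refine normalClosure_le_normal ?_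
    rintro _ ⟨i, rfl⟩
    dsimp only
    split_ifs with hi
    · exact subset_normalClosure ⟨_, rfl⟩
    · exact one_mem _
  · rw [← hs]
    refine normalClosure_le_normal ?_
    rintro _ ⟨i, rfl⟩
    refine subset_normalClosure ⟨⟨i, i.2.trans_le h⟩, ?_⟩
    exact dif_pos i.2

/-- a union of generators -/
theorem NGen_of_fintype {G : Type} [Group G] {ι : Type} [Fintype ι] {r : ℕ}
    (hr : Fintype.card ι ≤ r) {N : Subgroup G} (s : ι → G)
    (hs : normalClosure (Set.range s) = N) : NGen r N := by
  refine NGen_mono hr ⟨s ∘ (Fintype.equivFin ι).symm, ?_⟩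
  rw [EquivLike.range_comp]
  exact hs

variable {p : ℕ} [Fact p.Prime]

/-- a finite product of powers of generators: a commutative group of exponent `p` generated by
`r` elements has at most `p ^ r` elements -/
theorem card_le_of_closure {A : Type} [CommGroup A] (hA : ∀ a : A, a ^ p = 1) {r : ℕ}
    (y : Fin r → A) (hy : closure (Set.range y) = ⊤) :
    Finite A ∧ Nat.card A ≤ p ^ r := by
  have hp : p.Prime := Fact.out
  have hsurj : Function.Surjective (fun (c : Fin r → Fin p) => ∏ i, y i ^ (c i : ℕ)) := by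
    intro a
    have ha : a ∈ closure (Set.range y) := by rw [hy]; exact mem_top a
    induction ha using Subgroup.closure_induction with
    | mem a ha =>
      obtain ⟨i, rfl⟩ := ha
      refine ⟨Pi.single i ⟨1, hp.one_lt⟩, ?_⟩
      dsimp only
      rw [Finset.prod_eq_single i]
      · rw [Pi.single_eq_same, pow_one]
      · intro j _ hj
        rw [Pi.single_eq_of_ne hj]
        exact pow_zero _
      · intro h; exact absurd (Finset.mem_univ i) h
    | one =>
      refine ⟨fun _ => ⟨0, hp.pos⟩, ?_⟩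
      simp
    | mul a b _ _ ha hb =>
      obtain ⟨c, rfl⟩ := ha
      obtain ⟨c', rfl⟩ := hb
      refine ⟨fun i => ⟨((c i : ℕ) + c' i) % p, Nat.mod_lt _ hp.pos⟩, ?_⟩
      dsimp only
      rw [← Finset.prod_mul_distrib]
      refine Finset.prod_congr rfl fun i _ => ?_
      rw [← pow_add, ← Nat.mod_add_div ((c i : ℕ) + c' i) p, pow_add, pow_mul, hA, one_pow, mul_one,
        Nat.mod_add_div]
    | inv a _ ha =>
      obtain ⟨c, rfl⟩ := ha
      refine ⟨fun i => ⟨(p - (c i : ℕ)) % p, Nat.mod_lt _ hp.pos⟩, ?_⟩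
      dsimp only
      rw [← Finset.prod_inv_distrib]
      refine Finset.prod_congr rfl fun i _ => ?_
      rw [eq_inv_iff_mul_eq_one, ← pow_add]
      have h1 : y i ^ ((p - (c i : ℕ)) % p) = y i ^ (p - (c i : ℕ)) := by
        conv_rhs => rw [← Nat.mod_add_div (p - (c i : ℕ)) p]
        rw [pow_add, pow_mul, hA, one_pow, mul_one]
      rw [pow_add, h1, ← pow_add, Nat.sub_add_cancel (c i).2.le, hA]
  have hfin : Finite A := Finite.of_surjective _ hsurj
  refine ⟨hfin, ?_⟩
  have h1 := Nat.card_le_card_of_surjective _ hsurj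
  rw [Nat.card_fun, Nat.card_eq_fintype_card (α := Fin p), Fintype.card_fin,
    Nat.card_eq_fintype_card (α := Fin r), Fintype.card_fin] at h1
  exact h1

/-- the quotient `N / [N, G] N ^ p` is commutative -/
instance quotEECommGroup (p : ℕ) {G : Type} [Group G] (N : Subgroup G) [N.Normal] :
    CommGroup (N ⧸ (EE p N).subgroupOf N) :=
  { (inferInstance : Group (N ⧸ (EE p N).subgroupOf N)) with
    mul_comm := by
      intro a b
      induction a using QuotientGroup.induction_on with | _ a => ?_
      induction b using QuotientGroup.induction_on with | _ b => ?_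
      rw [← QuotientGroup.mk_mul, ← QuotientGroup.mk_mul, QuotientGroup.eq]
      have h : (a * b)⁻¹ * (b * a) = ⁅b⁻¹, a⁻¹⁆ := by rw [commutatorElement_def]; group
      rw [h, mem_subgroupOf]
      exact comm_mem_EE p (inv_mem b.2) _ }

theorem quotEE_pow {G : Type} [Group G] (N : Subgroup G) [N.Normal]
    (a : N ⧸ (EE p N).subgroupOf N) : a ^ p = 1 := by
  induction a using QuotientGroup.induction_on with | _ a => ?_
  rw [← QuotientGroup.mk_pow, QuotientGroup.eq_one_iff, mem_subgroupOf]
  exact pow_mem_EE p a.2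

/-- normal generators generate the quotient `N / [N, G] N ^ p` -/
theorem closure_quotEE {G : Type} [Group G] {N : Subgroup G} [N.Normal] {ι : Type} (s : ι → G)
    (hs : normalClosure (Set.range s) = N) (hsN : ∀ i, s i ∈ N) :
    closure (Set.range fun i => ((⟨s i, hsN i⟩ : N) : N ⧸ (EE p N).subgroupOf N)) = ⊤ := by
  rw [eq_top_iff]
  rintro a -
  induction a using QuotientGroup.induction_on with | _ a => ?_
  obtain ⟨a, ha⟩ := a
  have key : ∀ x ∈ normalClosure (Set.range s), ∀ hx : x ∈ N,
      (((⟨x, hx⟩ : N) : N ⧸ (EE p N).subgroupOf N)) ∈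
        closure (Set.range fun i => ((⟨s i, hsN i⟩ : N) : N ⧸ (EE p N).subgroupOf N)) := by
    intro x hx
    refine closure_induction (p := fun x _ => ∀ hx : x ∈ N,
      (((⟨x, hx⟩ : N) : N ⧸ (EE p N).subgroupOf N)) ∈
        closure (Set.range fun i => ((⟨s i, hsN i⟩ : N) : N ⧸ (EE p N).subgroupOf N)))
      ?_ ?_ ?_ ?_ hx
    · intro x hx hxN
      rw [Group.mem_conjugatesOfSet_iff] at hx
      obtain ⟨_, ⟨i, rfl⟩, hconj⟩ := hx
      rw [isConj_iff] at hconj
      obtain ⟨c, rfl⟩ := hconj
      have h1 : ((⟨c * s i * c⁻¹, hxN⟩ : N) : N ⧸ (EE p N).subgroupOf N) =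
          ((⟨s i, hsN i⟩ : N) : N ⧸ (EE p N).subgroupOf N) := by
        rw [eq_comm, QuotientGroup.eq, mem_subgroupOf]
        change (s i)⁻¹ * (c * s i * c⁻¹) ∈ EE p N
        have h2 : (s i)⁻¹ * (c * s i * c⁻¹) = ⁅(s i)⁻¹, c⁆ := by
          rw [commutatorElement_def]; group
        rw [h2]
        exact comm_mem_EE p (inv_mem (hsN i)) c
      rw [h1]
      exact subset_closure ⟨i, rfl⟩
    · intro h1
      have h2 : (⟨1, h1⟩ : N) = 1 := rfl
      rw [h2, QuotientGroup.mk_one]
      exact one_mem _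
    · intro x y hx' hy' hx hy hxy
      have hxN : x ∈ N := by rw [← hs]; exact hx'
      have hyN : y ∈ N := by rw [← hs]; exact hy'
      have h2 : (⟨x * y, hxy⟩ : N) = ⟨x, hxN⟩ * ⟨y, hyN⟩ := rfl
      rw [h2, QuotientGroup.mk_mul]
      exact mul_mem (hx hxN) (hy hyN)
    · intro x hx' hx hxi
      have hxN : x ∈ N := by rw [← hs]; exact hx'
      have h2 : (⟨x⁻¹, hxi⟩ : N) = (⟨x, hxN⟩ : N)⁻¹ := rfl
      rw [h2, QuotientGroup.mk_inv]
      exact inv_mem (hx hxN)
  exact key a (by rw [hs]; exact ha) ha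

/-- `|N / [N,G] N ^ p| ≤ p ^ r` -/
theorem relIndex_EE_le {G : Type} [Group G] {N : Subgroup G} [N.Normal] {r : ℕ} (h : NGen r N) :
    (EE p N).relIndex N ≤ p ^ r ∧ (EE p N).relIndex N ≠ 0 := by
  obtain ⟨s, hs⟩ := h
  have hsN : ∀ i, s i ∈ N := fun i => by rw [← hs]; exact subset_normalClosure ⟨i, rfl⟩
  obtain ⟨hfin, hcard⟩ := card_le_of_closure (p := p) (quotEE_pow N) _
    (closure_quotEE (p := p) s hs hsN)
  refine ⟨hcard, ?_⟩
  change Nat.card (N ⧸ (EE p N).subgroupOf N) ≠ 0
  exact Nat.card_pos.ne'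

/-- `N` is generated by `EE p N` and the normal generators -/
theorem EE_sup_closure {G : Type} [Group G] {N : Subgroup G} [N.Normal] {r : ℕ} {s : Fin r → G}
    (h : normalClosure (Set.range s) = N) : EE p N ⊔ closure (Set.range s) = N := by
  have hs : Set.range s ⊆ N := by rw [← h]; exact subset_normalClosure
  apply le_antisymm
  · exact sup_le (EE_le p N) ((closure_le N).2 hs)
  · have hle : EE p N ⊔ closure (Set.range s) ≤ N := sup_le (EE_le p N) ((closure_le N).2 hs)
    have hn : (EE p N ⊔ closure (Set.range s)).Normal := by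
      refine ⟨fun n hn g => ?_⟩
      have h1 : g * n * g⁻¹ = ⁅n, g⁆⁻¹ * n := by rw [commutatorElement_def]; group
      rw [h1]
      exact mul_mem (mem_sup_left (inv_mem (comm_mem_EE p (hle hn) g))) hn
    conv_lhs => rw [← h]
    exact normalClosure_le_normal (fun x hx => mem_sup_right (subset_closure hx))

/-- the order of an `F_p`-space with finitely many generators is a power of `p` -/
theorem card_pow_of_closure {Q : Type} [CommGroup Q] (hp : ∀ x : Q, x ^ p = 1) {r : ℕ}
    (y : Fin r → Q) (hy : closure (Set.range y) = ⊤) : ∃ m, Nat.card Q = p ^ m := by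
  have hF : Finite Q := (card_le_of_closure hp y hy).1
  have h1 : IsPGroup p Q := fun x => ⟨1, by rw [pow_one]; exact hp x⟩
  exact IsPGroup.iff_card.1 h1

/-- passing to a normal subgroup of index `p` costs `d` generators -/
theorem NGen_step {d r : ℕ} {N N' : Subgroup (FG d)} [N.Normal] [N'.Normal] (h : NGen r N)
    (h1 : EE p N ≤ N') (h2 : N' ≤ N) (h3 : N'.relIndex N = p) : NGen (r + d) N' := by
  have hp : p.Prime := Fact.out
  obtain ⟨s, hs⟩ := h
  have hsN : ∀ i, s i ∈ N := fun i => by rw [← hs]; exact subset_normalClosure ⟨i, rfl⟩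
  -- a generator outside `N'`
  obtain ⟨i0, hi0⟩ : ∃ i0, s i0 ∉ N' := by
    by_contra hcon
    push Not at hcon
    have h4 : N ≤ N' := by
      rw [← hs]
      apply normalClosure_le_normal
      rintro x ⟨i, rfl⟩
      exact hcon i
    have h5 : N' = N := le_antisymm h2 h4
    rw [h5, relIndex_self] at h3
    exact hp.one_lt.ne h3
  set t := s i0 with ht
  have htN : t ∈ N := hsN i0
  have htp : t ^ p ∈ N' := h1 (pow_mem_EE p htN)
  -- powers of `t` in `N'`
  have hdvd : ∀ k : ℤ, t ^ k ∈ N' → (p : ℤ) ∣ k := by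
    intro k hk
    by_contra hnd
    have hcop : IsCoprime (p : ℤ) k := by
      rw [Int.isCoprime_iff_gcd_eq_one]
      have h4 : Nat.Coprime p k.natAbs := by
        rw [Nat.Prime.coprime_iff_not_dvd hp]
        intro h5
        exact hnd (Int.natCast_dvd.2 h5)
      simpa [Int.gcd] using h4
    obtain ⟨a, b, hab⟩ := hcop
    apply hi0
    have h4 : t = (t ^ p) ^ a * (t ^ k) ^ b := by
      rw [← zpow_natCast t p, ← zpow_mul, ← zpow_mul, ← zpow_add]
      have : (p : ℤ) * a + k * b = 1 := by linarith [hab, mul_comm a (p : ℤ), mul_comm b k]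
      rw [this, zpow_one]
    rw [h4]
    exact mul_mem (zpow_mem htp a) (zpow_mem hk b)
  -- the other generators
  have hc : ∀ x ∈ N, ∃ c : ℤ, x * t ^ (-c) ∈ N' := by
    intro x hx
    let Q := N ⧸ N'.subgroupOf N
    have hQ : Nat.card Q = p := h3
    have hne : (((⟨t, htN⟩ : N) : Q)) ≠ 1 := by
      intro h4
      rw [QuotientGroup.eq_one_iff, mem_subgroupOf] at h4
      exact hi0 h4
    have h5 : ((⟨x, hx⟩ : N) : Q) ∈ zpowers (((⟨t, htN⟩ : N) : Q)) :=
      mem_zpowers_of_prime_card hQ hne
    obtain ⟨c, hc⟩ := mem_zpowers_iff.1 h5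
    refine ⟨c, ?_⟩
    have h6 : (((⟨x, hx⟩ : N) * (⟨t, htN⟩ : N) ^ (-c) : N) : Q) = 1 := by
      rw [QuotientGroup.mk_mul, QuotientGroup.mk_zpow, ← hc, ← zpow_add, add_neg_cancel, zpow_zero]
    rw [QuotientGroup.eq_one_iff, mem_subgroupOf] at h6
    simpa using h6
  choose! c hc using hc
  let s' : Fin r ⊕ Fin d → FG d := fun z => match z with
    | Sum.inl i => if i = i0 then t ^ p else s i * t ^ (-(c (s i)))
    | Sum.inr l => ⁅t, FreeGroup.of l⁆
  refine NGen_of_fintype (by simp) s' ?_
  set L := normalClosure (Set.range s') with hL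
  have hLn : L.Normal := normalClosure_normal
  have hLmem : ∀ z, s' z ∈ L := fun z => subset_normalClosure ⟨z, rfl⟩
  have htpL : t ^ p ∈ L := by
    have h4 := hLmem (Sum.inl i0)
    simp only [s', if_true] at h4
    exact h4
  have hsL : ∀ i, i ≠ i0 → s i * t ^ (-(c (s i))) ∈ L := by
    intro i hi
    have h4 := hLmem (Sum.inl i)
    simp only [s', if_neg hi] at h4
    exact h4
  have htL : ∀ l, ⁅t, FreeGroup.of l⁆ ∈ L := fun l => hLmem (Sum.inr l)
  apply le_antisymm
  · apply normalClosure_le_normal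
    rintro x ⟨z, rfl⟩
    rcases z with i | l
    · by_cases hi : i = i0
      · simp only [s', if_pos hi]
        exact htp
      · simp only [s', if_neg hi]
        exact hc (s i) (hsN i)
    · exact h1 (comm_mem_EE p htN _)
  · -- `t` is central modulo `L`
    have hcent : ∀ g : FG d, ⁅t, g⁆ ∈ L := by
      have h4 : ∀ g : FG d, g ∈ (centralizer {QuotientGroup.mk' L t}).comap (QuotientGroup.mk' L) := by
        intro g
        have h5 : g ∈ closure (Set.range (FreeGroup.of : Fin d → FG d)) := by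
          rw [FreeGroup.closure_range_of]
          exact mem_top g
        refine (closure_le _).2 ?_ h5
        rintro x ⟨l, rfl⟩
        rw [SetLike.mem_coe, mem_comap, mem_centralizer_singleton_iff]
        have h6 := htL l
        rw [← QuotientGroup.eq_one_iff] at h6
        change ⁅(t : FG d ⧸ L), ((FreeGroup.of l : FG d) : FG d ⧸ L)⁆ = 1 at h6
        rw [commutatorElement_eq_one_iff_mul_comm] at h6
        exact h6.symm
      intro g
      have h7 := h4 g
      rw [mem_comap, mem_centralizer_singleton_iff] at h7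
      rw [← QuotientGroup.eq_one_iff]
      change ⁅(t : FG d ⧸ L), (g : FG d ⧸ L)⁆ = 1
      rw [commutatorElement_eq_one_iff_mul_comm]
      exact h7.symm
    have hLt : (L ⊔ zpowers t).Normal := by
      refine ⟨fun n hn g => ?_⟩
      rw [mem_sup_of_normal_left] at hn
      obtain ⟨l, hl, z, hz, rfl⟩ := hn
      obtain ⟨k, rfl⟩ := mem_zpowers_iff.1 hz
      have h4 : g * (l * t ^ k) * g⁻¹ = (g * l * g⁻¹) * ((g * t * g⁻¹) ^ k) := by
        rw [conj_zpow]
        group
      rw [h4]
      refine mul_mem (mem_sup_left (hLn.conj_mem l hl g)) (zpow_mem ?_ k)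
      have h5 : g * t * g⁻¹ = ⁅t, g⁆⁻¹ * t := by rw [commutatorElement_def]; group
      rw [h5]
      exact mul_mem (mem_sup_left (inv_mem (hcent g))) (mem_sup_right (mem_zpowers t))
    have hNL : N ≤ L ⊔ zpowers t := by
      rw [← hs]
      apply normalClosure_le_normal
      rintro x ⟨i, rfl⟩
      by_cases hi : i = i0
      · rw [hi]
        exact mem_sup_right (mem_zpowers t)
      · have h4 : s i = (s i * t ^ (-(c (s i)))) * t ^ (c (s i)) := by
          rw [mul_assoc, ← zpow_add, neg_add_cancel, zpow_zero, mul_one]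
        rw [h4]
        exact mul_mem (mem_sup_left (hsL i hi)) (mem_sup_right (zpow_mem (mem_zpowers t) _))
    have hLN' : L ≤ N' := by
      apply normalClosure_le_normal
      rintro x ⟨z, rfl⟩
      rcases z with i | l
      · by_cases hi : i = i0
        · simp only [s', if_pos hi]
          exact htp
        · simp only [s', if_neg hi]
          exact hc (s i) (hsN i)
      · exact h1 (comm_mem_EE p htN _)
    intro x hx
    have h4 := hNL (h2 hx)
    rw [mem_sup_of_normal_left] at h4
    obtain ⟨l, hl, z, hz, rfl⟩ := h4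
    obtain ⟨k, rfl⟩ := mem_zpowers_iff.1 hz
    have h5 : t ^ k ∈ N' := by
      have h6 := mul_mem (inv_mem (hLN' hl)) hx
      rwa [inv_mul_cancel_left] at h6
    obtain ⟨m, rfl⟩ := hdvd k h5
    rw [zpow_mul, zpow_natCast]
    exact mul_mem hl (zpow_mem htpL m)

theorem NGen_top (d : ℕ) : NGen d (⊤ : Subgroup (FG d)) := by
  refine ⟨FreeGroup.of, ?_⟩
  rw [eq_top_iff, ← FreeGroup.closure_range_of]
  exact closure_le_normalClosure

open Classical in
/-- the generators of `Phi` -/
def phiGen (p d : ℕ) (z : Sym2 (Fin d)) : FG d :=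
  if z.out.1 = z.out.2 then (FreeGroup.of z.out.1 : FG d) ^ p
  else ⁅(FreeGroup.of z.out.1 : FG d), FreeGroup.of z.out.2⁆

theorem NGen_Phi (d : ℕ) : NGen (d * (d + 1) / 2) (Phi p (FG d)) := by
  refine NGen_of_fintype (by
    rw [Sym2.card, Fintype.card_fin, Nat.choose_two_right, Nat.add_sub_cancel, mul_comm])
    (phiGen p d) ?_
  set L := normalClosure (Set.range (phiGen p d)) with hL
  have hLn : L.Normal := normalClosure_normal
  apply le_antisymm
  · apply normalClosure_le_normal
    rintro x ⟨z, rfl⟩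
    unfold phiGen
    split_ifs
    · exact pow_mem_Phi p _
    · exact comm_mem_Phi p _ _
  · -- the quotient is commutative of exponent `p`
    have hpow : ∀ i : Fin d, ((FreeGroup.of i : FG d) : FG d ⧸ L) ^ p = 1 := by
      intro i
      have h1 : phiGen p d s(i, i) ∈ L := subset_normalClosure ⟨_, rfl⟩
      have h2 : (s(i, i) : Sym2 (Fin d)).out = (i, i) := by
        have h3 : s((s(i, i) : Sym2 (Fin d)).out.1, (s(i, i) : Sym2 (Fin d)).out.2) = s(i, i) :=
          Quot.out_eq _
        rw [Sym2.eq_iff] at h3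
        rcases h3 with h3 | h3
        · exact Prod.ext h3.1 h3.2
        · exact Prod.ext h3.1 h3.2
      unfold phiGen at h1
      rw [h2, if_pos rfl] at h1
      rw [← QuotientGroup.mk_pow, QuotientGroup.eq_one_iff]
      exact h1
    have hcomm : ∀ i j : Fin d, ((FreeGroup.of i : FG d) : FG d ⧸ L) * (FreeGroup.of j : FG d) =
        (FreeGroup.of j : FG d) * (FreeGroup.of i : FG d) := by
      intro i j
      by_cases hij : i = j
      · rw [hij]
      have h1 : phiGen p d s(i, j) ∈ L := subset_normalClosure ⟨_, rfl⟩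
      have h3 : s((s(i, j) : Sym2 (Fin d)).out.1, (s(i, j) : Sym2 (Fin d)).out.2) = s(i, j) :=
        Quot.out_eq _
      rw [Sym2.eq_iff] at h3
      unfold phiGen at h1
      rcases h3 with ⟨h4, h5⟩ | ⟨h4, h5⟩
      · rw [h4, h5, if_neg hij, ← QuotientGroup.eq_one_iff] at h1
        change ⁅((FreeGroup.of i : FG d) : FG d ⧸ L), ((FreeGroup.of j : FG d) : FG d ⧸ L)⁆ = 1 at h1
        rwa [commutatorElement_eq_one_iff_mul_comm] at h1
      · rw [h4, h5, if_neg (fun h => hij h.symm), ← QuotientGroup.eq_one_iff] at h1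
        change ⁅((FreeGroup.of j : FG d) : FG d ⧸ L), ((FreeGroup.of i : FG d) : FG d ⧸ L)⁆ = 1 at h1
        rw [commutatorElement_eq_one_iff_mul_comm] at h1
        exact h1.symm
    have hgen : ∀ (M : Subgroup (FG d ⧸ L)),
        (∀ i : Fin d, ((FreeGroup.of i : FG d) : FG d ⧸ L) ∈ M) → ∀ g : FG d, (g : FG d ⧸ L) ∈ M := by
      intro M hM g
      have h5 : g ∈ closure (Set.range (FreeGroup.of : Fin d → FG d)) := by
        rw [FreeGroup.closure_range_of]
        exact mem_top g
      have h6 : closure (Set.range (FreeGroup.of : Fin d → FG d)) ≤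
          M.comap (QuotientGroup.mk' L) := by
        rw [closure_le]
        rintro x ⟨l, rfl⟩
        exact hM l
      exact h6 h5
    have hc1 : ∀ (i : Fin d) (g : FG d), (g : FG d ⧸ L) ∈
        centralizer {((FreeGroup.of i : FG d) : FG d ⧸ L)} := by
      intro i
      apply hgen
      intro j
      rw [mem_centralizer_singleton_iff]
      exact hcomm j i
    have hc2 : ∀ (h g : FG d), (g : FG d ⧸ L) ∈ centralizer {(h : FG d ⧸ L)} := by
      intro h
      apply hgen
      intro j
      rw [mem_centralizer_singleton_iff]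
      have h1 := hc1 j h
      rw [mem_centralizer_singleton_iff] at h1
      exact h1.symm
    rw [Phi_le_iff]
    have hab : ∀ a b : FG d, (a : FG d ⧸ L) * b = b * a := by
      intro a b
      have h1 := hc2 b a
      rw [mem_centralizer_singleton_iff] at h1
      exact h1
    refine ⟨fun a b => ?_, fun a => ?_⟩
    · rw [← QuotientGroup.eq_one_iff]
      change ⁅(a : FG d ⧸ L), (b : FG d ⧸ L)⁆ = 1
      rw [commutatorElement_eq_one_iff_mul_comm]
      exact hab a b
    · let K : Subgroup (FG d ⧸ L) :=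
        { carrier := {x | x ^ p = 1}
          mul_mem' := by
            intro x y hx hy
            obtain ⟨a, rfl⟩ := QuotientGroup.mk_surjective x
            obtain ⟨b, rfl⟩ := QuotientGroup.mk_surjective y
            rw [Set.mem_ofPred_eq] at hx hy ⊢
            rw [(show Commute (a : FG d ⧸ L) (b : FG d ⧸ L) from hab a b).mul_pow, hx, hy, mul_one]
          one_mem' := one_pow p
          inv_mem' := by
            intro x hx
            rw [Set.mem_ofPred_eq] at hx ⊢
            rw [inv_pow, hx, inv_one] }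
      have h1 : (a : FG d ⧸ L) ∈ K := hgen K hpow a
      rw [← QuotientGroup.eq_one_iff, QuotientGroup.mk_pow]
      exact h1

end Pool.Agent.IG
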