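import Pool.Agent.IG.Count

/-!
# Basic facts on `V p G` and `Om p G` for finite `p`-groups
-/

open Subgroup
open scoped commutatorElement

set_option linter.unusedSectionVars false

noncomputable section

namespace Pool.Agent.IG

variable {p : ℕ} [Fact p.Prime] {G H : Type} [Group G] [Group H]

theorem card_V [Finite G] : Nat.card (V p G) = p ^ dd p G := by
  rw [dd, Module.natCard_eq_pow_finrank (K := ZMod p), Nat.card_zmod]

theorem card_OV [Finite G] : Nat.card (Om p G) = p ^ om p G := by
  change Nat.card (OV p G) = _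
  rw [om, Module.natCard_eq_pow_finrank (K := ZMod p), Nat.card_zmod]

theorem index_Phi [Finite G] : (Phi p G).index = p ^ dd p G := by
  rw [← card_V]; rfl

theorem Phi_le_coatom [Finite G] (hG : IsPGroup p G) {M : Subgroup G} (hM : IsCoatom M) :
    Phi p G ≤ M := by
  have hp : p.Prime := Fact.out
  have hnil : Group.IsNilpotent G := hG.isNilpotent
  have hn : M.Normal := (Group.normalizerCondition_of_isNilpotent).normal_of_coatom M hM
  have hQ : IsPGroup p (G ⧸ M) := hG.to_quotient M
  have hnt : Nontrivial (G ⧸ M) := by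
    rw [QuotientGroup.nontrivial_iff]
    exact hM.1
  obtain ⟨k, hk, hcard⟩ := hQ.nontrivial_iff_card.1 hnt
  obtain ⟨x, hx⟩ := exists_prime_orderOf_dvd_card' (G := G ⧸ M) p
    (by rw [hcard]; exact dvd_pow_self p (by omega))
  have hle : M < (zpowers x).comap (QuotientGroup.mk' M) := by
    refine lt_of_le_of_ne ?_ ?_
    · intro g hg
      rw [mem_comap, QuotientGroup.mk'_apply, (QuotientGroup.eq_one_iff g).2 hg]
      exact one_mem _
    · intro heq
      obtain ⟨g, rfl⟩ := QuotientGroup.mk_surjective x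
      have h1 : g ∈ (zpowers (g : G ⧸ M)).comap (QuotientGroup.mk' M) := mem_zpowers _
      rw [← heq] at h1
      rw [(QuotientGroup.eq_one_iff g).2 h1, orderOf_one] at hx
      exact hp.one_lt.ne hx
  have htop := hM.2 _ hle
  have hz : ∀ g : G, ∃ i : ℤ, x ^ i = (g : G ⧸ M) := fun g => by
    have h1 : g ∈ (zpowers x).comap (QuotientGroup.mk' M) := by rw [htop]; exact mem_top g
    exact mem_zpowers_iff.1 h1
  rw [Phi_le_iff]
  constructor
  · intro a b
    obtain ⟨i, hi⟩ := hz a
    obtain ⟨j, hj⟩ := hz b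
    rw [← QuotientGroup.eq_one_iff]
    change ⁅(a : G ⧸ M), (b : G ⧸ M)⁆ = 1
    rw [← hi, ← hj, commutatorElement_eq_one_iff_mul_comm]
    exact (zpow_mul_comm x i j)
  · intro a
    obtain ⟨i, hi⟩ := hz a
    rw [← QuotientGroup.eq_one_iff]
    change (a : G ⧸ M) ^ p = 1
    rw [← hi, ← zpow_natCast, ← zpow_mul, mul_comm, zpow_mul, zpow_natCast, ← hx, pow_orderOf_eq_one,
      one_zpow]

/-- Burnside basis theorem -/
theorem closure_sup_Phi [Finite G] (hG : IsPGroup p G) {T : Subgroup G} (h : T ⊔ Phi p G = ⊤) :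
    T = ⊤ := by
  rcases eq_top_or_exists_le_coatom T with h1 | ⟨M, hM, hTM⟩
  · exact h1
  · exfalso
    have h2 : T ⊔ Phi p G ≤ M := sup_le hTM (Phi_le_coatom hG hM)
    rw [h, top_le_iff] at h2
    exact hM.1 h2

/-- the elements of the span of the classes of a tuple are the classes of the elements of the
subgroup generated by the tuple -/
theorem exists_mem_closure_of_mem_span {ι : Type} (x : ι → G) (v : V p G)
    (hv : v ∈ Submodule.span (ZMod p) (Set.range fun i => mkV p (x i))) :
    ∃ t ∈ closure (Set.range x), mkV p t = v := by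
  induction hv using Submodule.span_induction with
  | mem v hv =>
    obtain ⟨i, rfl⟩ := hv
    exact ⟨x i, subset_closure ⟨i, rfl⟩, rfl⟩
  | zero => exact ⟨1, one_mem _, mkV_one p⟩
  | add u v _ _ hu hv =>
    obtain ⟨s, hs, rfl⟩ := hu
    obtain ⟨t, ht, rfl⟩ := hv
    exact ⟨s * t, mul_mem hs ht, mkV_mul p s t⟩
  | smul c v _ hv =>
    obtain ⟨t, ht, rfl⟩ := hv
    refine ⟨t ^ c.val, pow_mem ht _, ?_⟩
    rw [mkV_pow, ← Nat.cast_smul_eq_nsmul (ZMod p), ZMod.natCast_zmod_val]

/-- classes of elements of the closure belong to the span -/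
theorem mkV_mem_span_of_mem_closure {ι : Type} (x : ι → G) (g : G)
    (hg : g ∈ closure (Set.range x)) :
    mkV p g ∈ Submodule.span (ZMod p) (Set.range fun i => mkV p (x i)) := by
  induction hg using Subgroup.closure_induction with
  | mem g hg =>
    obtain ⟨i, rfl⟩ := hg
    exact Submodule.subset_span ⟨i, rfl⟩
  | one => exact Submodule.zero_mem _
  | mul a b _ _ ha hb => rw [mkV_mul]; exact Submodule.add_mem _ ha hb
  | inv a _ ha => rw [mkV_inv]; exact Submodule.neg_mem _ ha

/-- a tuple generates `G` iff its image spans `V` -/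
theorem closure_eq_top_iff [Finite G] (hG : IsPGroup p G) {t : ℕ} (x : Fin t → G) :
    closure (Set.range x) = ⊤ ↔
      Submodule.span (ZMod p) (Set.range fun i => mkV p (x i)) = ⊤ := by
  constructor
  · intro h
    rw [eq_top_iff]
    intro v _
    obtain ⟨g, rfl⟩ := mkV_surjective p v
    exact mkV_mem_span_of_mem_closure x g (by rw [h]; exact mem_top g)
  · intro h
    refine closure_sup_Phi hG (eq_top_iff.2 fun g _ => ?_)
    obtain ⟨t, ht, htg⟩ := exists_mem_closure_of_mem_span x (mkV p g)
      (by rw [h]; exact Submodule.mem_top)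
    rw [mkV_eq_iff] at htg
    have h1 : g = t * (t⁻¹ * g) := by group
    rw [h1]
    exact mul_mem (mem_sup_left ht) (mem_sup_right htg)

theorem dd_add_om_le [Finite G] {n : ℕ} (hG : Nat.card G = p ^ n) : dd p G + om p G ≤ n := by
  have hp : p.Prime := Fact.out
  have h1 : Nat.card (Phi p G) * (Phi p G).index = Nat.card G := card_mul_index _
  have h2 : Nat.card (Om p G) ≤ Nat.card (Phi p G) :=
    Nat.card_le_card_of_injective _ (inclusion_injective (Om_le_Phi p))
  rw [index_Phi, hG] at h1
  rw [card_OV] at h2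
  have h3 : p ^ (dd p G + om p G) ≤ p ^ n := by
    rw [← h1, pow_add, mul_comm]
    exact Nat.mul_le_mul_right _ h2
  exact (Nat.pow_le_pow_iff_right hp.one_lt).1 h3

theorem vmap_comp {K : Type} [Group K] (f : G →* H) (g : H →* K) :
    vmap p (g.comp f) = (vmap p g).comp (vmap p f) := by
  refine LinearMap.ext fun v => ?_
  obtain ⟨x, rfl⟩ := mkV_surjective p v
  rfl

theorem vmap_id : vmap p (MonoidHom.id G) = LinearMap.id := by
  refine LinearMap.ext fun v => ?_
  obtain ⟨x, rfl⟩ := mkV_surjective p v
  rfl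

theorem omap_trans {K : Type} [Group K] (e : G ≃* H) (e' : H ≃* K) :
    omap p (e.trans e') = (omap p e').comp (omap p e) := rfl

theorem omap_refl : omap p (MulEquiv.refl G) = LinearMap.id := rfl

/-- the linear equivalence of Frattini quotients induced by an isomorphism -/
def vequiv (p : ℕ) [Fact p.Prime] (e : G ≃* H) : V p G ≃ₗ[ZMod p] V p H :=
  LinearEquiv.ofLinearMap (vmap p e.toMonoidHom) (vmap p e.symm.toMonoidHom)
    (by
      rw [← vmap_comp, ← vmap_id]
      congr 1
      exact MonoidHom.ext fun x => e.apply_symm_apply x)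
    (by
      rw [← vmap_comp, ← vmap_id]
      congr 1
      exact MonoidHom.ext fun x => e.symm_apply_apply x)

/-- the linear equivalence of `OV` induced by an isomorphism -/
def oequiv (p : ℕ) [Fact p.Prime] (e : G ≃* H) : OV p G ≃ₗ[ZMod p] OV p H :=
  LinearEquiv.ofLinearMap (omap p e) (omap p e.symm)
    (by
      rw [← omap_trans, ← omap_refl]
      congr 1
      exact MulEquiv.ext fun x => e.apply_symm_apply x)
    (by
      rw [← omap_trans, ← omap_refl]
      congr 1
      exact MulEquiv.ext fun x => e.symm_apply_apply x)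

theorem dd_congr (e : G ≃* H) : dd p G = dd p H := (vequiv p e).finrank_eq

theorem om_congr (e : G ≃* H) : om p G = om p H := (oequiv p e).finrank_eq

theorem Good_congr (e' : ℝ) (n : ℕ) (e : G ≃* H) (h : Good p e' n G) : Good p e' n H := by
  rw [Good, ← dd_congr e, ← om_congr e]
  exact h

/-- quotients have smaller Frattini quotients -/
theorem dd_le_of_surjective [Finite G] (f : G →* H) (hf : Function.Surjective f) :
    dd p H ≤ dd p G := by
  refine LinearMap.finrank_le_finrank_of_surjective (f := vmap p f) ?_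
  intro v
  obtain ⟨y, rfl⟩ := mkV_surjective p v
  obtain ⟨x, rfl⟩ := hf y
  exact ⟨mkV p x, vmap_mkV p f x⟩

/-- conjugation acts trivially on `V` -/
theorem vmap_conj (g : G) : vmap p (MulAut.conj g).toMonoidHom = LinearMap.id := by
  refine LinearMap.ext fun v => ?_
  obtain ⟨x, rfl⟩ := mkV_surjective p v
  rw [vmap_mkV]
  change mkV p (g * x * g⁻¹) = mkV p x
  rw [mkV_mul, mkV_mul, mkV_inv]
  abel

end Pool.Agent.IG
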