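import Pool.Agent.IG.Basic

/-!
# Linear algebra: random subspaces and bounded rank spaces of alternating forms
-/

open Module

noncomputable section

namespace Pool.Agent.IG

/-- a union bound: independent choices avoid all bad events -/
theorem exists_avoid {X W : Type} [Finite X] [Nonempty X] [Finite W] (bad : X → W → Prop)
    (N k : ℕ) (h : ∀ w, N * Nat.card {x // bad x w} ≤ Nat.card X) (hS : Nat.card W < N ^ k) :
    ∃ x : Fin k → X, ∀ w, ∃ i, ¬ bad (x i) w := by
  classical
  have := Fintype.ofFinite X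
  have := Fintype.ofFinite W
  by_contra hcon
  push Not at hcon
  have h1 : (Finset.univ : Finset (Fin k → X)) ⊆
      (Finset.univ : Finset W).biUnion fun w =>
        Fintype.piFinset fun _ : Fin k => Finset.univ.filter fun x => bad x w := by
    intro x _
    obtain ⟨w, hw⟩ := hcon x
    simp only [Finset.mem_biUnion, Finset.mem_univ, true_and, Fintype.mem_piFinset,
      Finset.mem_filter]
    exact ⟨w, hw⟩
  have h2 := (Finset.card_le_card h1).trans Finset.card_biUnion_le
  simp only [Finset.card_univ, Fintype.card_pi, Fintype.card_piFinset, Finset.prod_const,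
    Fintype.card_fin] at h2
  have h3 : ∀ w : W, N ^ k * (Finset.univ.filter fun x => bad x w).card ^ k ≤
      Fintype.card X ^ k := by
    intro w
    rw [← mul_pow]
    have := h w
    rw [Nat.card_eq_fintype_card, Nat.card_eq_fintype_card, Fintype.card_subtype] at this
    exact Nat.pow_le_pow_left this k
  have h4 : N ^ k * Fintype.card X ^ k ≤ Fintype.card W * Fintype.card X ^ k := by
    calc N ^ k * Fintype.card X ^ k
        ≤ N ^ k * ∑ w : W, (Finset.univ.filter fun x => bad x w).card ^ k :=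
          Nat.mul_le_mul_left _ h2
      _ = ∑ w : W, N ^ k * (Finset.univ.filter fun x => bad x w).card ^ k := Finset.mul_sum ..
      _ ≤ ∑ _w : W, Fintype.card X ^ k := Finset.sum_le_sum fun w _ => h3 w
      _ = Fintype.card W * Fintype.card X ^ k := by simp
  have h5 : 0 < Fintype.card X ^ k := pow_pos Fintype.card_pos k
  have h6 := Nat.le_of_mul_le_mul_right h4 h5
  rw [Nat.card_eq_fintype_card] at hS
  omega

variable {p : ℕ} [Fact p.Prime] {V : Type} [AddCommGroup V] [Module (ZMod p) V] [Finite V]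

theorem card_ker_mul {M : Type} [AddCommGroup M] [Module (ZMod p) M] {X : Type} [AddCommGroup X]
    [Module (ZMod p) X] [Finite X] (f : X →ₗ[ZMod p] M) :
    Nat.card (LinearMap.ker f) * p ^ rk f = Nat.card X := by
  have h1 : Nat.card (LinearMap.range f) = p ^ rk f := by
    have : Finite (LinearMap.range f) := by
      have := Set.finite_range f
      exact this
    rw [rk, Module.natCard_eq_pow_finrank (K := ZMod p), Nat.card_zmod]
  rw [← h1]
  have h2 := Nat.card_congr f.quotKerEquivRange.toEquiv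
  rw [← h2, ← Submodule.card_eq_card_quotient_mul_card]

/-- few tuples are dependent under a map of large rank -/
theorem card_dependent_le {M : Type} [AddCommGroup M] [Module (ZMod p) M] (f : V →ₗ[ZMod p] M)
    {a r : ℕ} (hr : r + a ≤ rk f) :
    p ^ r * Nat.card {u : Fin a → V // ¬ LinearIndependent (ZMod p) fun i => f (u i)} ≤
      Nat.card (Fin a → V) := by
  classical
  have := Fintype.ofFinite V
  have hp : 0 < p := (Fact.out : p.Prime).pos
  -- the linear maps attached to coefficient vectors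
  let L : (Fin a → ZMod p) → ((Fin a → V) →ₗ[ZMod p] M) := fun c =>
    f ∘ₗ (∑ i, c i • LinearMap.proj i)
  have hL : ∀ c u, L c u = ∑ i, c i • f (u i) := by
    intro c u
    simp [L, map_sum]
  have hrk : ∀ c ≠ 0, rk (L c) = rk f := by
    intro c hc
    obtain ⟨i, hi⟩ := Function.ne_iff.1 hc
    have : LinearMap.range (L c) = LinearMap.range f := by
      apply le_antisymm
      · exact LinearMap.range_comp_le_range _ _
      · rintro _ ⟨v, rfl⟩
        refine ⟨Pi.single i ((c i)⁻¹ • v), ?_⟩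
        rw [hL, Finset.sum_eq_single i]
        · simp only [Pi.single_eq_same, map_smul]
          rw [smul_smul, mul_inv_cancel₀ hi, one_smul]
        · intro j _ hj
          rw [Pi.single_eq_of_ne hj, map_zero, smul_zero]
        · intro h
          exact absurd (Finset.mem_univ i) h
    rw [rk, rk, this]
  have hcount : ∀ c ≠ 0, Nat.card (LinearMap.ker (L c)) * p ^ rk f = Nat.card (Fin a → V) := by
    intro c hc
    rw [← hrk c hc]
    exact card_ker_mul (L c)
  have hsub : (Finset.univ.filter fun u : Fin a → V =>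
      ¬ LinearIndependent (ZMod p) fun i => f (u i)) ⊆
      (Finset.univ.filter fun c : Fin a → ZMod p => c ≠ 0).biUnion fun c =>
        Finset.univ.filter fun u : Fin a → V => u ∈ LinearMap.ker (L c) := by
    intro u hu
    simp only [Finset.mem_filter, Finset.mem_univ, true_and] at hu
    rw [Fintype.not_linearIndependent_iff] at hu
    obtain ⟨c, hc, i, hi⟩ := hu
    simp only [Finset.mem_biUnion, Finset.mem_filter, Finset.mem_univ, true_and]
    refine ⟨c, Function.ne_iff.2 ⟨i, hi⟩, ?_⟩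
    rw [LinearMap.mem_ker, hL]
    exact hc
  have h1 := (Finset.card_le_card hsub).trans Finset.card_biUnion_le
  have h2 : ∀ c : Fin a → ZMod p, c ≠ 0 →
      p ^ (r + a) * (Finset.univ.filter fun u : Fin a → V => u ∈ LinearMap.ker (L c)).card ≤
        Nat.card (Fin a → V) := by
    intro c hc
    have h3 := hcount c hc
    have h4 : Nat.card (LinearMap.ker (L c)) =
        (Finset.univ.filter fun u : Fin a → V => u ∈ LinearMap.ker (L c)).card := by
      rw [← Fintype.card_subtype, Nat.card_eq_fintype_card]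
    rw [← h3, h4, mul_comm]
    exact Nat.mul_le_mul_left _ (Nat.pow_le_pow_right hp hr)
  rw [Nat.card_eq_fintype_card, Fintype.card_subtype]
  have h5 : p ^ a * (p ^ r * (Finset.univ.filter fun u : Fin a → V =>
      ¬ LinearIndependent (ZMod p) fun i => f (u i)).card) ≤ p ^ a * Nat.card (Fin a → V) := by
    calc p ^ a * (p ^ r * _) = p ^ (r + a) * (Finset.univ.filter fun u : Fin a → V =>
          ¬ LinearIndependent (ZMod p) fun i => f (u i)).card := by rw [pow_add]; ring
      _ ≤ p ^ (r + a) * ∑ c ∈ Finset.univ.filter (fun c : Fin a → ZMod p => c ≠ 0),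
          (Finset.univ.filter fun u : Fin a → V => u ∈ LinearMap.ker (L c)).card :=
          Nat.mul_le_mul_left _ h1
      _ = ∑ c ∈ Finset.univ.filter (fun c : Fin a → ZMod p => c ≠ 0), p ^ (r + a) *
          (Finset.univ.filter fun u : Fin a → V => u ∈ LinearMap.ker (L c)).card :=
          Finset.mul_sum ..
      _ ≤ ∑ _c ∈ Finset.univ.filter (fun c : Fin a → ZMod p => c ≠ 0),
          Nat.card (Fin a → V) := by
          refine Finset.sum_le_sum fun c hc => h2 c ?_
          simpa using hc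
      _ = (Finset.univ.filter (fun c : Fin a → ZMod p => c ≠ 0)).card * Nat.card (Fin a → V) := by
          rw [Finset.sum_const, smul_eq_mul]
      _ ≤ p ^ a * Nat.card (Fin a → V) := by
          refine Nat.mul_le_mul_right _ ?_
          refine (Finset.card_filter_le _ _).trans ?_
          simp [ZMod.card]
  exact Nat.le_of_mul_le_mul_left h5 (pow_pos hp a)

/-- few vectors are killed by `a` independent functionals -/
theorem card_killed_le {a : ℕ} (g : Fin a → (V →ₗ[ZMod p] ZMod p))
    (hg : LinearIndependent (ZMod p) g) :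
    p ^ a * Nat.card {v : V // ∀ i, g i v = 0} ≤ Nat.card V := by
  set W : Submodule (ZMod p) (Dual (ZMod p) V) := Submodule.span (ZMod p) (Set.range g) with hW
  have h1 : finrank (ZMod p) W = a := by
    rw [hW, finrank_span_eq_card hg, Fintype.card_fin]
  have h2 : Nat.card {v : V // ∀ i, g i v = 0} = Nat.card W.dualCoannihilator := by
    refine Nat.card_congr (Equiv.subtypeEquivRight fun v => ?_)
    rw [Submodule.mem_dualCoannihilator]
    constructor
    · intro h φ hφ
      induction hφ using Submodule.span_induction with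
      | mem x hx => obtain ⟨i, rfl⟩ := hx; exact h i
      | zero => rfl
      | add x y _ _ hx hy => rw [LinearMap.add_apply, hx, hy, add_zero]
      | smul c x _ hx => rw [LinearMap.smul_apply, hx, smul_zero]
    · intro h i
      exact h _ (Submodule.subset_span ⟨i, rfl⟩)
  have h3 := Subspace.finrank_add_finrank_dualCoannihilator_eq W
  rw [h2, Module.natCard_eq_pow_finrank (K := ZMod p), Nat.card_zmod,
    Module.natCard_eq_pow_finrank (K := ZMod p) (V := V), Nat.card_zmod, ← pow_add, ← h3, h1]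

variable {E : Type} [AddCommGroup E] [Module (ZMod p) E] [Finite E]

/-- (A1) few vectors detect all the elements whose form has large rank -/
theorem linA1 (b : E →ₗ[ZMod p] V →ₗ[ZMod p] V →ₗ[ZMod p] ZMod p) {a n : ℕ} (ha : 0 < a)
    (hE : finrank (ZMod p) E ≤ n) :
    ∃ (u : Fin (n / a ^ 2 + 1) → Fin a → V) (v : Fin (n / a + 1) → V),
      ∀ χ : E, a ^ 2 + a ≤ rk (b χ) → ∃ i j k, b χ (u i j) (v k) ≠ 0 := by
  classical
  have hp : 1 < p := (Fact.out : p.Prime).one_lt
  have hcard : Nat.card E ≤ p ^ n := by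
    rw [Module.natCard_eq_pow_finrank (K := ZMod p), Nat.card_zmod]
    exact Nat.pow_le_pow_right hp.le hE
  have hcard1 : ∀ (W : E → Prop), Nat.card {χ // W χ} ≤ p ^ n := fun W =>
    (Nat.card_le_card_of_injective _ Subtype.val_injective).trans hcard
  -- stage one
  obtain ⟨u, hu⟩ := exists_avoid (X := Fin a → V) (W := {χ : E // a ^ 2 + a ≤ rk (b χ)})
    (fun u χ => ¬ LinearIndependent (ZMod p) fun i => b χ.1 (u i)) (p ^ (a ^ 2))
    (n / a ^ 2 + 1) (fun χ => card_dependent_le (b χ.1) χ.2) (by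
      refine (hcard1 _).trans_lt ?_
      rw [← pow_mul]
      refine Nat.pow_lt_pow_right hp ?_
      have := Nat.lt_mul_div_succ n (pow_pos ha 2)
      exact this)
  -- stage two
  obtain ⟨v, hv⟩ := exists_avoid (X := V) (W := {χ : E // a ^ 2 + a ≤ rk (b χ)})
    (fun v χ => ∀ i j, b χ.1 (u i j) v = 0) (p ^ a) (n / a + 1) (fun χ => by
      obtain ⟨i, hi⟩ := hu χ
      rw [not_not] at hi
      refine le_trans (Nat.mul_le_mul_left _ ?_) (card_killed_le _ hi)
      refine Nat.card_le_card_of_injective (fun v => ⟨v.1, fun j => v.2 i j⟩) ?_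
      intro v w h
      exact Subtype.ext (congrArg (fun x => x.1) h)) (by
      refine (hcard1 _).trans_lt ?_
      rw [← pow_mul]
      exact Nat.pow_lt_pow_right hp (Nat.lt_mul_div_succ n ha))
  refine ⟨u, v, fun χ hχ => ?_⟩
  obtain ⟨k, hk⟩ := hv ⟨χ, hχ⟩
  push Not at hk
  obtain ⟨i, j, h⟩ := hk
  exact ⟨i, j, k, h⟩

/-! ### Bounded rank spaces of alternating forms -/

section Alt

/-- the radical of a form on a subspace -/
def radOn (b : V →ₗ[ZMod p] V →ₗ[ZMod p] ZMod p) (A : Submodule (ZMod p) V) :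
    Submodule (ZMod p) V := A ⊓ A.dualAnnihilator.comap b

omit [Finite V] in
theorem mem_radOn {b : V →ₗ[ZMod p] V →ₗ[ZMod p] ZMod p} {A : Submodule (ZMod p) V} {x : V} :
    x ∈ radOn b A ↔ x ∈ A ∧ ∀ y ∈ A, b x y = 0 := by
  rw [radOn, Submodule.mem_inf, Submodule.mem_comap, Submodule.mem_dualAnnihilator]

omit [Finite V] in
theorem radOn_le (b : V →ₗ[ZMod p] V →ₗ[ZMod p] ZMod p) (A : Submodule (ZMod p) V) :
    radOn b A ≤ A := inf_le_left

theorem finrank_le_radOn (b : V →ₗ[ZMod p] V →ₗ[ZMod p] ZMod p) (A : Submodule (ZMod p) V) :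
    finrank (ZMod p) A ≤ finrank (ZMod p) (radOn b A) + rk b := by
  set g : A →ₗ[ZMod p] Dual (ZMod p) A := (A.dualRestrict ∘ₗ b) ∘ₗ A.subtype with hg
  have h1 := LinearMap.finrank_range_add_finrank_ker g
  have h2 : finrank (ZMod p) (LinearMap.range g) ≤ rk b := by
    rw [rk]
    have h3 : LinearMap.range g ≤ (LinearMap.range b).map A.dualRestrict := by
      rw [hg, ← LinearMap.range_comp]
      exact LinearMap.range_comp_le_range _ _
    exact (Submodule.finrank_mono h3).trans (Submodule.finrank_map_le _ _)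
  have h4 : finrank (ZMod p) (LinearMap.ker g) ≤ finrank (ZMod p) (radOn b A) := by
    have h5 : (LinearMap.ker g).map A.subtype ≤ radOn b A := by
      rintro _ ⟨x, hx, rfl⟩
      rw [mem_radOn]
      refine ⟨x.2, fun y hy => ?_⟩
      have := LinearMap.congr_fun (LinearMap.mem_ker.1 hx) ⟨y, hy⟩
      exact this
    have h6 := Submodule.finrank_mono h5
    rwa [Submodule.finrank_map_subtype_eq] at h6
  omega

theorem sup_radOn_eq {b : V →ₗ[ZMod p] V →ₗ[ZMod p] ZMod p} {S S' : Submodule (ZMod p) V}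
    (hS : S ≤ S') (h : finrank (ZMod p) S' + finrank (ZMod p) (radOn b S) ≤
      finrank (ZMod p) S + finrank (ZMod p) (radOn b S')) : S ⊔ radOn b S' = S' := by
  have h1 : S ⊓ radOn b S' ≤ radOn b S := by
    intro x hx
    rw [mem_radOn]
    exact ⟨hx.1, fun y hy => (mem_radOn.1 hx.2).2 y (hS hy)⟩
  have h2 := Submodule.finrank_sup_add_finrank_inf_eq S (radOn b S')
  have h3 := Submodule.finrank_mono h1
  exact Submodule.eq_of_le_of_finrank_le (sup_le hS (radOn_le b S')) (by omega)

theorem alt_step {b c : V →ₗ[ZMod p] V →ₗ[ZMod p] ZMod p} (hb : ∀ x, b x x = 0)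
    (hc : ∀ x, c x x = 0) {S S' : Submodule (ZMod p) V} (hS : S ≤ S')
    (hcS : ∀ x ∈ S', ∀ y ∈ S, c x y = 0) {x y : V} (hx : x ∈ S') (hy : y ∈ S')
    (hxy : c x y ≠ 0) :
    finrank (ZMod p) S + finrank (ZMod p) (radOn b S') <
      finrank (ZMod p) S' + finrank (ZMod p) (radOn b S) ∨
    finrank (ZMod p) S + finrank (ZMod p) (radOn (b + c) S') <
      finrank (ZMod p) S' + finrank (ZMod p) (radOn b S) := by
  by_contra hcon
  push Not at hcon
  obtain ⟨h1, h2⟩ := hcon
  have hskew : ∀ d : V →ₗ[ZMod p] V →ₗ[ZMod p] ZMod p, (∀ x, d x x = 0) →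
      ∀ x y, d x y = 0 → d y x = 0 := by
    intro d hd x y h
    have := hd (x + y)
    simp only [map_add, LinearMap.add_apply, hd, h, zero_add, add_zero] at this
    exact this
  have hbc : ∀ x, (b + c) x x = 0 := by
    intro x
    rw [LinearMap.add_apply, LinearMap.add_apply, hb, hc, add_zero]
  have hrad : radOn (b + c) S = radOn b S := by
    ext z
    rw [mem_radOn, mem_radOn]
    refine and_congr_right fun hz => forall₂_congr fun w hw => ?_
    rw [LinearMap.add_apply, LinearMap.add_apply, hcS z (hS hz) w hw, add_zero]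
  have e1 := sup_radOn_eq hS h1
  have e2 : S ⊔ radOn (b + c) S' = S' := sup_radOn_eq hS (by rw [hrad]; exact h2)
  obtain ⟨s, hs, z, hz, hsz⟩ := Submodule.mem_sup.1 (e1.symm ▸ hx : x ∈ S ⊔ radOn b S')
  obtain ⟨s', hs', z', hz', hsz'⟩ := Submodule.mem_sup.1 (e1.symm ▸ hy : y ∈ S ⊔ radOn b S')
  obtain ⟨hz1, hz2⟩ := mem_radOn.1 hz
  obtain ⟨hz1', hz2'⟩ := mem_radOn.1 hz'
  have h3 : ∀ t ∈ S, (b + c) z t = 0 := by
    intro t ht
    rw [LinearMap.add_apply, LinearMap.add_apply, hz2 t (hS ht), hcS z hz1 t ht, add_zero]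
  have h4 : (b + c) z z' = 0 := by
    obtain ⟨t, ht, r, hr, htr⟩ := Submodule.mem_sup.1 (e2.symm ▸ hz1' : z' ∈ S ⊔ _)
    obtain ⟨hr1, hr2⟩ := mem_radOn.1 hr
    rw [← htr, map_add, h3 t ht, zero_add]
    exact hskew _ hbc _ _ (hr2 z hz1)
  rw [LinearMap.add_apply, LinearMap.add_apply, hz2 z' hz1', zero_add] at h4
  apply hxy
  have hx' : x = s + z := hsz.symm
  have hy' : y = s' + z' := hsz'.symm
  have h5 : c s z' = 0 := hskew c hc _ _ (hcS z' hz1' s hs)
  rw [hx', hy']
  simp only [map_add, LinearMap.add_apply, h4, h5, hcS s (hS hs) s' hs', hcS z hz1 s' hs',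
    add_zero]

theorem alt_main {ρ : ℕ} (E : Submodule (ZMod p) (V →ₗ[ZMod p] V →ₗ[ZMod p] ZMod p))
    (halt : ∀ b ∈ E, ∀ x, b x x = 0) (hr : ∀ b ∈ E, rk b ≤ ρ) (m : ℕ) :
    ∀ A : Submodule (ZMod p) V,
    (∃ A' : Submodule (ZMod p) V, finrank (ZMod p) A ≤ finrank (ZMod p) A' + m * ρ ∧
      ∀ b ∈ E, ∀ x ∈ A', ∀ y ∈ A', b x y = 0) ∨
    ∃ b ∈ E, m + 1 + finrank (ZMod p) (radOn b A) ≤ finrank (ZMod p) A := by
  induction m with
  | zero =>
    intro A
    by_cases h : ∀ b ∈ E, ∀ x ∈ A, ∀ y ∈ A, b x y = 0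
    · exact Or.inl ⟨A, by omega, h⟩
    · push Not at h
      obtain ⟨b, hb, x, hx, y, hy, hxy⟩ := h
      refine Or.inr ⟨b, hb, ?_⟩
      have h1 : radOn b A < A := by
        refine lt_of_le_of_ne (radOn_le b A) fun h => hxy ?_
        exact (mem_radOn.1 (h.symm ▸ hx : x ∈ radOn b A)).2 y hy
      have := Submodule.finrank_lt_finrank_of_lt h1
      omega
  | succ m ih =>
    intro A
    by_cases h : ∀ b ∈ E, ∀ x ∈ A, ∀ y ∈ A, b x y = 0
    · exact Or.inl ⟨A, by omega, h⟩
    · push Not at h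
      obtain ⟨c, hc, x, hx, y, hy, hxy⟩ := h
      rcases ih (radOn c A) with ⟨A', hA', hv⟩ | ⟨b, hb, hbr⟩
      · refine Or.inl ⟨A', ?_, hv⟩
        have := finrank_le_radOn c A
        have := hr c hc
        rw [add_mul, one_mul]
        omega
      · right
        have hcS : ∀ x ∈ A, ∀ y ∈ radOn c A, c x y = 0 := by
          intro x hx y hy
          have h1 := (mem_radOn.1 hy).2 x hx
          have := halt c hc (x + y)
          simp only [map_add, LinearMap.add_apply, halt c hc, h1, zero_add, add_zero] at this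
          exact this
        rcases alt_step (halt b hb) (halt c hc) (radOn_le c A) hcS hx hy hxy with h1 | h1
        · exact ⟨b, hb, by omega⟩
        · exact ⟨b + c, E.add_mem hb hc, by omega⟩

/-- (A2) a linear space of alternating forms of rank at most `ρ` vanishes on a subspace of
codimension at most `ρ ^ 2` -/
theorem linA2 {ρ : ℕ} (E : Submodule (ZMod p) (V →ₗ[ZMod p] V →ₗ[ZMod p] ZMod p))
    (halt : ∀ b ∈ E, ∀ x, b x x = 0) (hr : ∀ b ∈ E, rk b ≤ ρ) :
    ∃ A : Submodule (ZMod p) V, finrank (ZMod p) V ≤ finrank (ZMod p) A + ρ ^ 2 ∧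
      ∀ b ∈ E, ∀ x ∈ A, ∀ y ∈ A, b x y = 0 := by
  rcases alt_main E halt hr ρ ⊤ with ⟨A, h1, h2⟩ | ⟨b, hb, h⟩
  · refine ⟨A, ?_, h2⟩
    rw [finrank_top] at h1
    rw [sq]
    exact h1
  · exfalso
    have := finrank_le_radOn b ⊤
    have := hr b hb
    omega

end Alt

/-- the elements of `E` whose form vanishes on a finite set -/
def annOn (b : E →ₗ[ZMod p] V →ₗ[ZMod p] V →ₗ[ZMod p] ZMod p) (s : Set V) :
    Submodule (ZMod p) E where
  carrier := {χ | ∀ x ∈ s, ∀ y ∈ s, b χ x y = 0}
  add_mem' := by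
    intro χ χ' h h' x hx y hy
    rw [map_add, LinearMap.add_apply, LinearMap.add_apply, h x hx y hy, h' x hx y hy, add_zero]
  zero_mem' := by
    intro x _ y _
    rw [map_zero, LinearMap.zero_apply, LinearMap.zero_apply]
  smul_mem' := by
    intro c χ h x hx y hy
    rw [map_smul, LinearMap.smul_apply, LinearMap.smul_apply, h x hx y hy, smul_zero]

omit [Finite V] [Finite E] in
theorem mem_annOn {b : E →ₗ[ZMod p] V →ₗ[ZMod p] V →ₗ[ZMod p] ZMod p} {s : Set V} {χ : E} :
    χ ∈ annOn b s ↔ ∀ x ∈ s, ∀ y ∈ s, b χ x y = 0 := Iff.rfl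

omit [Finite V] in
theorem exists_ann_bot (b : E →ₗ[ZMod p] V →ₗ[ZMod p] V →ₗ[ZMod p] ZMod p)
    (hinj : ∀ χ, b χ = 0 → χ = 0) (m : ℕ) : ∀ s : Finset V,
    finrank (ZMod p) (annOn b (s : Set V)) ≤ m →
      ∃ s' : Finset V, s'.card ≤ s.card + 2 * m ∧ annOn b (s' : Set V) = ⊥ := by
  classical
  induction m with
  | zero =>
    intro s hs
    exact ⟨s, by omega, Submodule.finrank_eq_zero.1 (by omega)⟩
  | succ m ih =>
    intro s hs
    by_cases h : annOn b (s : Set V) = ⊥
    · exact ⟨s, by omega, h⟩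
    · obtain ⟨χ, hχ, hχ0⟩ := Submodule.exists_mem_ne_zero_of_ne_bot h
      have h1 : b χ ≠ 0 := fun h => hχ0 (hinj χ h)
      have h2 : ∃ x y, b χ x y ≠ 0 := by
        by_contra hcon
        push Not at hcon
        exact h1 (LinearMap.ext fun x => LinearMap.ext fun y => hcon x y)
      obtain ⟨x, y, hxy⟩ := h2
      have hsub : (s : Set V) ⊆ ((insert x (insert y s) : Finset V) : Set V) := by
        intro z hz
        simp only [Finset.coe_insert]
        exact Or.inr (Or.inr hz)
      have h3 : annOn b ((insert x (insert y s) : Finset V) : Set V) < annOn b (s : Set V) := by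
        refine lt_of_le_of_ne (fun ψ hψ z hz w hw => hψ z (hsub hz) w (hsub hw)) fun heq => ?_
        have h4 : χ ∈ annOn b ((insert x (insert y s) : Finset V) : Set V) := heq ▸ hχ
        exact hxy (h4 x (by simp) y (by simp))
      have h5 := Submodule.finrank_lt_finrank_of_lt h3
      obtain ⟨s', hs', h6⟩ := ih (insert x (insert y s)) (by omega)
      refine ⟨s', ?_, h6⟩
      have := Finset.card_insert_le x (insert y s)
      have := Finset.card_insert_le y s
      omega

/-- (A12) the alternative: few vectors detect all of `E`, or a large subspace of `E` vanishes on a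
subspace of bounded codimension. -/
theorem linA12 (b : E →ₗ[ZMod p] V →ₗ[ZMod p] V →ₗ[ZMod p] ZMod p) (halt : ∀ χ x, b χ x x = 0)
    (hinj : ∀ χ, b χ = 0 → χ = 0) {a n : ℕ} (ha : 0 < a) (hE : finrank (ZMod p) E ≤ n)
    (e₀ : ℕ) :
    (∃ s : Finset V, s.card ≤ (n / a ^ 2 + 1) * a + (n / a + 1) + 2 * e₀ ∧
      ∀ χ, (∀ x ∈ s, ∀ y ∈ s, b χ x y = 0) → χ = 0) ∨
    ∃ (A : Submodule (ZMod p) V) (E' : Submodule (ZMod p) E),
      finrank (ZMod p) V ≤ finrank (ZMod p) A + (a ^ 2 + a) ^ 2 ∧
      e₀ < finrank (ZMod p) E' ∧ ∀ χ ∈ E', ∀ x ∈ A, ∀ y ∈ A, b χ x y = 0 := by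
  classical
  obtain ⟨u, v, huv⟩ := linA1 b ha hE
  set s₀ : Finset V := (Finset.univ.image fun x : Fin (n / a ^ 2 + 1) × Fin a => u x.1 x.2) ∪
    Finset.univ.image v with hs₀
  have hcard : s₀.card ≤ (n / a ^ 2 + 1) * a + (n / a + 1) := by
    refine (Finset.card_union_le _ _).trans (add_le_add ?_ ?_)
    · refine Finset.card_image_le.trans ?_
      simp
    · refine Finset.card_image_le.trans ?_
      simp
  have hrk : ∀ χ ∈ annOn b (s₀ : Set V), rk (b χ) ≤ a ^ 2 + a := by
    intro χ hχ
    by_contra hcon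
    obtain ⟨i, j, k, h⟩ := huv χ (by omega)
    refine h (hχ _ ?_ _ ?_)
    · rw [hs₀]
      exact Finset.mem_coe.2 (Finset.mem_union_left _ (Finset.mem_image.2
        ⟨(i, j), Finset.mem_univ _, rfl⟩))
    · rw [hs₀]
      exact Finset.mem_coe.2 (Finset.mem_union_right _ (Finset.mem_image.2
        ⟨k, Finset.mem_univ _, rfl⟩))
  by_cases hdim : finrank (ZMod p) (annOn b (s₀ : Set V)) ≤ e₀
  · left
    obtain ⟨s', hs', hbot⟩ := exists_ann_bot b hinj e₀ s₀ hdim
    refine ⟨s', by omega, fun χ hχ => ?_⟩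
    have : χ ∈ annOn b (s' : Set V) := fun x hx y hy => hχ x hx y hy
    rw [hbot] at this
    exact (Submodule.mem_bot _).1 this
  · right
    obtain ⟨A, hA, hv⟩ := linA2 (ρ := a ^ 2 + a) ((annOn b (s₀ : Set V)).map b) (by
      rintro _ ⟨χ, _, rfl⟩ x
      exact halt χ x) (by
      rintro _ ⟨χ, hχ, rfl⟩
      exact hrk χ hχ)
    exact ⟨A, annOn b (s₀ : Set V), hA, by omega, fun χ hχ x hx y hy =>
      hv _ ⟨χ, hχ, rfl⟩ x hx y hy⟩

end Pool.Agent.IG
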