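import Pool.Agent.IG.Mult

/-!
# Higman's lower bound
-/

open Subgroup Module Filter
open scoped commutatorElement

noncomputable section

namespace Pool.Agent.IG

variable {p : ℕ} [Fact p.Prime]

namespace Low

theorem index_Phi_FG_low (d : ℕ) : (Phi p (FG d)).index = p ^ d := by
  obtain ⟨b, -⟩ := basis_V_FG p d
  have h : Nat.card (V p (FG d)) = p ^ d := by
    rw [Nat.card_congr b.equivFun.toEquiv, Nat.card_fun, Nat.card_zmod, Nat.card_eq_fintype_card,
      Fintype.card_fin]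
  rw [← h]
  rfl

section

omit [Fact p.Prime]

variable (p) {G : Type} [Group G] (N : Subgroup G) [N.Normal]

/-- the quotient `N / [N, G] N ^ p` -/
abbrev EQ : Type := N ⧸ (EE p N).subgroupOf N

theorem conj_mem_EE {N : Subgroup G} {a : G} (ha : a ∈ N) (g : G) : ⁅a, g⁆ ∈ EE p N :=
  (le_sup_left : ⁅N, (⊤ : Subgroup G)⁆ ≤ EE p N) (commutator_mem_commutator ha (mem_top g))

theorem pow_mem_EE {N : Subgroup G} {a : G} (ha : a ∈ N) : a ^ p ∈ EE p N :=
  (le_sup_right : closure {x | ∃ a ∈ N, x = a ^ p} ≤ EE p N) (subset_closure ⟨a, ha, rfl⟩)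

/-- the quotient is commutative -/
instance instCommEQ : CommGroup (EQ p N) :=
  { (inferInstance : Group (EQ p N)) with
    mul_comm := by
      intro a b
      induction a using QuotientGroup.induction_on with | _ a => ?_
      induction b using QuotientGroup.induction_on with | _ b => ?_
      rw [← QuotientGroup.mk_mul, ← QuotientGroup.mk_mul, QuotientGroup.eq, mem_subgroupOf]
      have h : (((a * b)⁻¹ * (b * a) : N) : G) = ⁅(b : G)⁻¹, (a : G)⁻¹⁆ := by
        rw [commutatorElement_def]; push_cast; group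
      rw [h]
      exact conj_mem_EE p (inv_mem b.2) _ }

theorem nsmul_EQ (x : Additive (EQ p N)) : p • x = 0 := by
  obtain ⟨a, ha⟩ := QuotientGroup.mk_surjective (Additive.toMul x)
  refine Additive.toMul.injective ?_
  rw [toMul_nsmul, toMul_zero, ← ha, ← QuotientGroup.mk_pow, QuotientGroup.eq_one_iff,
    mem_subgroupOf]
  push_cast
  exact pow_mem_EE p a.2

instance instModEQ : Module (ZMod p) (Additive (EQ p N)) := AddCommGroup.zmodModule (nsmul_EQ p N)

end

/-- the universal invariant homomorphism on `Phi` -/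
theorem exists_pi (d : ℕ) : ∃ π ∈ IHom (Phi p (FG d)) (Fin (d * (d + 1) / 2) → ZMod p),
    Function.Surjective π := by
  have hp : p.Prime := Fact.out
  have hcard : Nat.card (Additive (EQ p (Phi p (FG d)))) = p ^ (d * (d + 1) / 2) :=
    relIndex_EE_Phi p d
  have hfin : Finite (Additive (EQ p (Phi p (FG d)))) :=
    Nat.finite_of_card_ne_zero (by rw [hcard]; exact pow_ne_zero _ hp.ne_zero)
  have hrank : finrank (ZMod p) (Additive (EQ p (Phi p (FG d)))) = d * (d + 1) / 2 := by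
    have h := Module.natCard_eq_pow_finrank (K := ZMod p) (V := Additive (EQ p (Phi p (FG d))))
    rw [hcard, Nat.card_zmod] at h
    exact (Nat.pow_right_injective hp.two_le h).symm
  have e : Additive (EQ p (Phi p (FG d))) ≃ₗ[ZMod p] (Fin (d * (d + 1) / 2) → ZMod p) :=
    LinearEquiv.ofFinrankEq _ _ (by rw [hrank, finrank_fin_fun])
  refine ⟨fun u => e (Additive.ofMul (u : EQ p (Phi p (FG d)))), ⟨fun a b => ?_, fun g a b h => ?_⟩,
    ?_⟩
  · change e (Additive.ofMul ((a * b : Phi p (FG d)) : EQ p (Phi p (FG d)))) =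
      e (Additive.ofMul (a : EQ p (Phi p (FG d)))) + e (Additive.ofMul (b : EQ p (Phi p (FG d))))
    rw [QuotientGroup.mk_mul, ofMul_mul, map_add]
  · have h1 : (b : EQ p (Phi p (FG d))) = (a : EQ p (Phi p (FG d))) := by
      refine Eq.symm ?_
      rw [QuotientGroup.eq, mem_subgroupOf]
      have h2 : ((a⁻¹ * b : Phi p (FG d)) : FG d) = ⁅(a : FG d)⁻¹, g⁆ := by
        rw [commutatorElement_def]; push_cast; rw [h]; group
      rw [h2]
      exact conj_mem_EE p (inv_mem a.2) g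
    change e (Additive.ofMul (b : EQ p (Phi p (FG d)))) =
      e (Additive.ofMul (a : EQ p (Phi p (FG d))))
    rw [h1]
  · intro v
    obtain ⟨x, rfl⟩ := e.surjective v
    obtain ⟨a, ha⟩ := QuotientGroup.mk_surjective (Additive.toMul x)
    refine ⟨a, ?_⟩
    change e (Additive.ofMul (a : EQ p (Phi p (FG d)))) = e x
    rw [ha]
    rfl

/-- the index of the kernel of a surjective invariant homomorphism -/
theorem index_kerS {d m : ℕ} (l : IHom (Phi p (FG d)) (Fin m → ZMod p))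
    (hl : Function.Surjective l.1) : (kerS l).index = p ^ (d + m) := by
  have h1 : (kerS l).relIndex (Phi p (FG d)) = p ^ m := by
    let f : Phi p (FG d) →* Multiplicative (Fin m → ZMod p) :=
      { toFun := fun u => Multiplicative.ofAdd (l.1 u)
        map_one' := by rw [IHom_one l.2]; rfl
        map_mul' := fun a b => by rw [l.2.1 a b]; rfl }
    have hf : Function.Surjective f := fun v => by
      obtain ⟨u, hu⟩ := hl (Multiplicative.toAdd v)
      exact ⟨u, by change Multiplicative.ofAdd (l.1 u) = v; rw [hu]; rfl⟩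
    have hk : f.ker = (kerS l).subgroupOf (Phi p (FG d)) := by
      ext u
      rw [MonoidHom.mem_ker, mem_subgroupOf, mem_kerS]
      constructor
      · intro h
        exact ⟨u.2, h⟩
      · rintro ⟨_, h⟩
        exact h
    rw [relIndex, ← hk, index_ker, MonoidHom.range_eq_top.2 hf, card_top]
    change Nat.card (Fin m → ZMod p) = _
    rw [Nat.card_fun, Nat.card_zmod, Nat.card_eq_fintype_card, Fintype.card_fin]
  rw [← relIndex_mul_index (kerS_le l), h1, index_Phi_FG_low, ← pow_add, add_comm]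

theorem exists_ab {d m k : ℕ} (h : m + k = d * (d + 1) / 2) :
    ∃ a ∈ IHom (Phi p (FG d)) (Fin m → ZMod p), ∃ b ∈ IHom (Phi p (FG d)) (Fin k → ZMod p),
      ∀ v w, ∃ u, a u = v ∧ b u = w := by
  obtain ⟨π, hπ, hs⟩ := exists_pi (p := p) d
  refine ⟨fun u i => π u (Fin.cast h (Fin.castAdd k i)), ⟨fun a b => ?_, fun g a b hab => ?_⟩,
    fun u i => π u (Fin.cast h (Fin.natAdd m i)), ⟨fun a b => ?_, fun g a b hab => ?_⟩,
    fun v w => ?_⟩
  · funext i
    exact congrFun (hπ.1 a b) _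
  · funext i
    exact congrFun (hπ.2 g a b hab) _
  · funext i
    exact congrFun (hπ.1 a b) _
  · funext i
    exact congrFun (hπ.2 g a b hab) _
  · obtain ⟨u, hu⟩ := hs (fun i => Fin.append v w (Fin.cast h.symm i))
    refine ⟨u, ?_, ?_⟩
    · funext i
      change π u _ = v i
      rw [hu]
      change Fin.append v w (Fin.castAdd k i) = v i
      rw [Fin.append_left]
    · funext i
      change π u _ = w i
      rw [hu]
      change Fin.append v w (Fin.natAdd m i) = w i
      rw [Fin.append_right]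

/-- the invariant homomorphism of a matrix -/
def lT {d m k : ℕ} (a : IHom (Phi p (FG d)) (Fin m → ZMod p))
    (b : IHom (Phi p (FG d)) (Fin k → ZMod p)) (T : Matrix (Fin m) (Fin k) (ZMod p)) :
    IHom (Phi p (FG d)) (Fin m → ZMod p) :=
  ⟨fun u => a.1 u + T.mulVec (b.1 u), fun x y => by
    change a.1 (x * y) + T.mulVec (b.1 (x * y)) = a.1 x + T.mulVec (b.1 x) +
      (a.1 y + T.mulVec (b.1 y))
    rw [a.2.1 x y, b.2.1 x y, Matrix.mulVec_add]
    abel, fun g x y h => by
    change a.1 y + T.mulVec (b.1 y) = a.1 x + T.mulVec (b.1 x)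
    rw [a.2.2 g x y h, b.2.2 g x y h]⟩

theorem lower_nat' {d m k : ℕ} (h : m + k = d * (d + 1) / 2) :
    p ^ (m * k) ≤ gp p (d + m) * p ^ ((d + m) * d) := by
  have hp : p.Prime := Fact.out
  obtain ⟨a, ha, b, hb, hab⟩ := exists_ab (p := p) h
  let l : Matrix (Fin m) (Fin k) (ZMod p) → IHom (Phi p (FG d)) (Fin m → ZMod p) :=
    lT ⟨a, ha⟩ ⟨b, hb⟩
  have hl : ∀ T u, (l T).1 u = a u + T.mulVec (b u) := fun T u => rfl
  have hls : ∀ T, Function.Surjective (l T).1 := fun T v => by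
    obtain ⟨u, hu, hu'⟩ := hab v 0
    exact ⟨u, by rw [hl, hu, hu', Matrix.mulVec_zero, add_zero]⟩
  have hinj : ∀ T T', kerS (l T) = kerS (l T') → T = T' := by
    intro T T' hTT
    have h1 : ∀ w, T.mulVec w = T'.mulVec w := fun w => by
      obtain ⟨u, hu, hu'⟩ := hab (-T.mulVec w) w
      have h2 : (u : FG d) ∈ kerS (l T) := ⟨u.2, by
        change (l T).1 u = 0
        rw [hl, hu, hu', neg_add_cancel]⟩
      rw [hTT] at h2
      obtain ⟨_, h3⟩ := h2
      change (l T').1 u = 0 at h3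
      rw [hl, hu, hu', neg_add_eq_zero] at h3
      exact h3
    exact Matrix.ext_of_mulVec_single fun j => h1 _
  have hcard : ∀ T, Nat.card (FG d ⧸ kerS (l T)) = p ^ (d + m) := fun T => index_kerS (l T) (hls T)
  have hY : Nat.card (Matrix (Fin m) (Fin k) (ZMod p)) = p ^ (m * k) := by
    change Nat.card (Fin m → Fin k → ZMod p) = _
    rw [Nat.card_fun, Nat.card_fun, Nat.card_zmod, Nat.card_eq_fintype_card,
      Nat.card_eq_fintype_card, Fintype.card_fin, Fintype.card_fin, ← pow_mul, mul_comm]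
  have hfib : ∀ T, Nat.card {T' // Nonempty (FG d ⧸ kerS (l T) ≃* FG d ⧸ kerS (l T'))} ≤
      p ^ ((d + m) * d) := by
    intro T
    have hfin : Finite (FG d ⧸ kerS (l T)) :=
      Nat.finite_of_card_ne_zero (by rw [hcard]; exact pow_ne_zero _ hp.ne_zero)
    let φ : ∀ T' : {T' // Nonempty (FG d ⧸ kerS (l T) ≃* FG d ⧸ kerS (l T'))},
        FG d →* FG d ⧸ kerS (l T) := fun T' =>
      (T'.2.some.symm.toMonoidHom).comp (QuotientGroup.mk' (kerS (l T'.1)))
    have hφ : ∀ T', (φ T').ker = kerS (l T'.1) := by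
      intro T'
      ext x
      rw [MonoidHom.mem_ker]
      change T'.2.some.symm (x : FG d ⧸ kerS (l T'.1)) = 1 ↔ _
      rw [MulEquiv.map_eq_one_iff, QuotientGroup.eq_one_iff]
    have hφi : Function.Injective fun T' => fun i : Fin d => φ T' (FreeGroup.of i) := by
      intro T1 T2 h12
      have h3 : φ T1 = φ T2 := FreeGroup.ext_hom _ _ (fun i => congrFun h12 i)
      refine Subtype.ext (hinj _ _ ?_)
      rw [← hφ, ← hφ, h3]
    have h4 := Nat.card_le_card_of_injective _ hφi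
    rwa [Nat.card_fun, hcard, Nat.card_eq_fintype_card (α := Fin d), Fintype.card_fin,
      ← pow_mul] at h4
  have hmain := le_num_of_fibers (N := p ^ (d + m)) (K := p ^ ((d + m) * d))
    (P := fun _ _ => True) (pow_pos hp.pos _) (fun _ _ _ _ _ _ => trivial)
    (fun T => FG d ⧸ kerS (l T)) hcard (fun _ => trivial) hfib
  rw [hY] at hmain
  rw [mul_comm (gp p (d + m))]
  exact hmain

end Low

theorem lower_nat (d m : ℕ) (hm : m ≤ d * (d + 1) / 2) :
    p ^ (m * (d * (d + 1) / 2 - m)) ≤ gp p (d + m) * p ^ ((d + m) * d) :=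
  Low.lower_nat' (by omega)

/-- Higman's lower bound for the number of groups of order `p ^ n` -/
theorem lower_bound (p : ℕ) [Fact p.Prime] : ∃ C : ℝ, ∀ᶠ n : ℕ in atTop,
    (p : ℝ) ^ (2 / 27 * (n : ℝ) ^ 3 - C * (n : ℝ) ^ 2) ≤ gp p n := by
  have hp : p.Prime := Fact.out
  have hp1 : (1 : ℝ) ≤ p := by exact_mod_cast hp.one_le
  have hp0 : (0 : ℝ) < p := by exact_mod_cast hp.pos
  refine ⟨2, ?_⟩
  filter_upwards [eventually_ge_atTop 10] with n hn
  have hmn : n / 3 ≤ n := Nat.div_le_self n 3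
  have h1 := lower_nat (p := p) (n - n / 3) (n / 3)
  have hd : 2 * n ≤ 3 * (n - n / 3) := by omega
  obtain ⟨D, hD⟩ : ∃ D, (n - n / 3) * (n - n / 3 + 1) / 2 = D := ⟨_, rfl⟩
  have h2 : (n - n / 3) * (n - n / 3 + 1) = 2 * D := by
    rw [← hD]
    exact (Nat.mul_div_cancel' (Nat.even_mul_succ_self _).two_dvd).symm
  rw [hD] at h1
  have h3 : 2 * n * (2 * n) ≤ 18 * D := by
    have := Nat.mul_le_mul hd hd
    nlinarith
  have h4 : n / 3 ≤ D := by nlinarith [Nat.div_mul_le_self n 3]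
  have h5 := h1 h4
  have h6 : n - n / 3 + n / 3 = n := Nat.sub_add_cancel hmn
  rw [h6] at h5
  have h7 : ((p : ℝ) ^ (n / 3 * (D - n / 3)) : ℝ) ≤ gp p n * (p : ℝ) ^ (n * (n - n / 3)) := by
    exact_mod_cast h5
  have h8 : (2 / 27 * (n : ℝ) ^ 3 - 2 * (n : ℝ) ^ 2) + ((n * (n - n / 3) : ℕ) : ℝ) ≤
      ((n / 3 * (D - n / 3) : ℕ) : ℝ) := by
    have h9 : ((n - n / 3 : ℕ) : ℝ) ≤ n := by exact_mod_cast Nat.sub_le _ _
    have h10 : ((D - n / 3 : ℕ) : ℝ) = (D : ℝ) - ((n / 3 : ℕ) : ℝ) := Nat.cast_sub h4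
    have h11 : (2 : ℝ) * n * (2 * n) ≤ 18 * D := by exact_mod_cast h3
    have h12 : ((n : ℝ) - 2) / 3 ≤ ((n / 3 : ℕ) : ℝ) := by
      have : n ≤ 3 * (n / 3) + 2 := by omega
      have h13 : (n : ℝ) ≤ 3 * ((n / 3 : ℕ) : ℝ) + 2 := by exact_mod_cast this
      linarith
    have h14 : ((n / 3 : ℕ) : ℝ) ≤ n / 3 := by
      have : 3 * (n / 3) ≤ n := Nat.mul_div_le n 3
      have h15 : 3 * ((n / 3 : ℕ) : ℝ) ≤ n := by exact_mod_cast this
      linarith
    have hn' : (10 : ℝ) ≤ n := by exact_mod_cast hn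
    push_cast
    rw [h10]
    have h16 : (n : ℝ) * ((n - n / 3 : ℕ) : ℝ) ≤ n * n :=
      mul_le_mul_of_nonneg_left h9 (by linarith)
    have h17 : (2 / 9 * (n : ℝ) ^ 2 - n / 3) ≤ (D : ℝ) - ((n / 3 : ℕ) : ℝ) := by nlinarith
    have h18 : 0 ≤ 2 / 9 * (n : ℝ) ^ 2 - n / 3 := by nlinarith
    have h19 : ((n : ℝ) - 2) / 3 * (2 / 9 * (n : ℝ) ^ 2 - n / 3) ≤
        ((n / 3 : ℕ) : ℝ) * ((D : ℝ) - ((n / 3 : ℕ) : ℝ)) :=
      mul_le_mul h12 h17 h18 (by positivity)
    nlinarith
  have h20 : (p : ℝ) ^ (2 / 27 * (n : ℝ) ^ 3 - 2 * (n : ℝ) ^ 2) * (p : ℝ) ^ (n * (n - n / 3)) ≤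
      gp p n * (p : ℝ) ^ (n * (n - n / 3)) := by
    refine le_trans ?_ h7
    rw [← Real.rpow_natCast (p : ℝ) (n * (n - n / 3)),
      ← Real.rpow_natCast (p : ℝ) (n / 3 * (D - n / 3)), ← Real.rpow_add hp0]
    exact Real.rpow_le_rpow_of_exponent_le hp1 h8
  exact le_of_mul_le_mul_right h20 (by positivity)

end Pool.Agent.IG
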