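import Mathlib

/-!
# Elementary inequalities
-/

namespace Pool.Agent.IG

/-- `t ^ 2 μ / 2 ≤ 2 / 27` -/
theorem opt_le {t μ n : ℝ} (ht : 0 ≤ t) (hμ : 0 ≤ μ) (h : t + μ ≤ n) :
    t ^ 2 * μ / 2 ≤ 2 / 27 * n ^ 3 := by
  have hn : 0 ≤ n := by linarith
  have h1 : t ^ 2 * μ ≤ t ^ 2 * (n - t) := by
    apply mul_le_mul_of_nonneg_left (by linarith) (sq_nonneg t)
  have h2 : t ^ 2 * (n - t) ≤ 4 / 27 * n ^ 3 := by
    have h3 : 4 / 27 * n ^ 3 - t ^ 2 * (n - t) = (t - 2 / 3 * n) ^ 2 * (t + 1 / 3 * n) := by ring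
    have h4 : 0 ≤ (t - 2 / 3 * n) ^ 2 * (t + 1 / 3 * n) := by positivity
    linarith
  linarith

/-- stability -/
theorem opt_stab {t μ n x : ℝ} (hn : 0 ≤ n) (ht : 0 ≤ t) (hμ : 0 ≤ μ) (h : t + μ ≤ n) (hx : 0 ≤ x)
    (hx' : x ≤ 1 / 10) (hb : t ≤ (2 / 3 - x) * n ∨ μ ≤ (1 / 3 - x) * n) :
    t ^ 2 * μ / 2 ≤ (2 / 27 - x ^ 2 / 4) * n ^ 3 := by
  rcases hb with hb | hb
  · -- `4/27 n^3 - t^2 (n - t) = (t - 2/3 n)^2 (t + n/3)`
    have h1 : t ^ 2 * μ ≤ t ^ 2 * (n - t) := by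
      apply mul_le_mul_of_nonneg_left (by linarith) (sq_nonneg t)
    have h3 : 4 / 27 * n ^ 3 - t ^ 2 * (n - t) = (2 / 3 * n - t) ^ 2 * (t + 1 / 3 * n) := by ring
    have h4 : (x * n) ^ 2 ≤ (2 / 3 * n - t) ^ 2 := by
      apply pow_le_pow_left₀ (by positivity)
      linarith
    by_cases hc : 1 / 6 * n ≤ t
    · have h5 : (x * n) ^ 2 * (1 / 2 * n) ≤ (2 / 3 * n - t) ^ 2 * (t + 1 / 3 * n) := by
        apply mul_le_mul h4 (by linarith) (by positivity) (by positivity)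
      have h6 : (x * n) ^ 2 * (1 / 2 * n) = 1 / 2 * x ^ 2 * n ^ 3 := by ring
      linarith
    · push Not at hc
      have h5 : (1 / 2 * n) ^ 2 * (1 / 3 * n) ≤ (2 / 3 * n - t) ^ 2 * (t + 1 / 3 * n) := by
        apply mul_le_mul _ (by linarith) (by positivity) (by positivity)
        apply pow_le_pow_left₀ (by positivity)
        linarith
      have h6 : 1 / 2 * x ^ 2 * n ^ 3 ≤ (1 / 2 * n) ^ 2 * (1 / 3 * n) := by
        have h7 : x ^ 2 ≤ 1 / 100 := by nlinarith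
        have h8 : 0 ≤ n ^ 3 := by positivity
        nlinarith
      linarith
  · -- `μ ≤ (1/3 - x) n`: `t ≤ n - μ`
    have h1 : t ^ 2 * μ ≤ (n - μ) ^ 2 * μ := by
      apply mul_le_mul_of_nonneg_right _ hμ
      apply pow_le_pow_left₀ ht
      linarith
    have h3 : 4 / 27 * n ^ 3 - (n - μ) ^ 2 * μ = (1 / 3 * n - μ) ^ 2 * (4 / 3 * n - μ) := by ring
    have h4 : (x * n) ^ 2 ≤ (1 / 3 * n - μ) ^ 2 := by
      apply pow_le_pow_left₀ (by positivity)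
      linarith
    have h5 : (x * n) ^ 2 * (1 / 2 * n) ≤ (1 / 3 * n - μ) ^ 2 * (4 / 3 * n - μ) := by
      apply mul_le_mul h4 (by nlinarith) (by positivity) (by positivity)
    have h6 : (x * n) ^ 2 * (1 / 2 * n) = 1 / 2 * x ^ 2 * n ^ 3 := by ring
    linarith

end Pool.Agent.IG
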