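import Pool.Agent.IG.StepEA
import Pool.Agent.IG.Opt

/-!
# Step E
-/

open Subgroup Module Filter
open scoped commutatorElement

noncomputable section

namespace Pool.Agent.IG

lemma choose_two_real (m : ℕ) : ((m.choose 2 : ℕ) : ℝ) = (m : ℝ) * (m - 1) / 2 :=
  Nat.cast_choose_two ℝ m

/-- the exponent in `num_exc` -/
def excExp (d k w r : ℕ) : ℕ :=
  k * (d * (d + 1) / 2 + d * k) + ((d + k) * d + w ^ 2) +
        w * (d * k + 3 * k + d) +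
        max (w * (d.choose 2 - (r / 2).choose 2)) (w * d.choose 2 - r * (d - r).choose 2)

lemma excExp_le {γ e : ℝ} (hγ : 0 < γ) (hγ' : γ ≤ 1 / 100) (he : 0 < e) (he' : e ≤ γ ^ 2 / 768)
    {n d k w : ℕ} (hn : 2048 / γ ^ 2 ≤ (n : ℝ)) (h : d + k + w = n) (hd : (2 / 3 - e) * n ≤ d)
    (hw : (1 / 3 - e) * n ≤ w) :
    4 ≤ ⌊γ * n⌋₊ ∧ 2 * ⌊γ * n⌋₊ < d ∧
      ((excExp d k w ⌊γ * n⌋₊ : ℕ) : ℝ) + 2 * n ≤ (2 / 27 - γ ^ 2 / 256) * (n : ℝ) ^ 3 := by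
  have hγ2 : 0 < γ ^ 2 := by positivity
  have hγ3 : γ ^ 2 ≤ 1 / 10000 := by nlinarith
  have hγ4 : γ ^ 2 ≤ γ / 100 := by nlinarith
  have hN0 : 2048 ≤ γ ^ 2 * n := by
    rw [div_le_iff₀ hγ2] at hn
    linarith
  have hN1 : (2048 : ℝ) ≤ n := by nlinarith
  have hN2 : 204800 ≤ γ * n := by nlinarith
  have hNpos : (0 : ℝ) < n := by linarith
  set r : ℕ := ⌊γ * n⌋₊ with hr
  have hr1 : (r : ℝ) ≤ γ * n := Nat.floor_le (by positivity)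
  have hr2 : γ * n < r + 1 := Nat.lt_floor_add_one _
  have he1 : e ≤ 1 / 1000000 := by nlinarith
  have hdn : (d : ℝ) + k + w = n := by exact_mod_cast h
  have hd0 : (0 : ℝ) ≤ d := Nat.cast_nonneg _
  have hk0 : (0 : ℝ) ≤ k := Nat.cast_nonneg _
  have hw0 : (0 : ℝ) ≤ w := Nat.cast_nonneg _
  have hk : (k : ℝ) ≤ 2 * e * n := by linarith
  have hrd : (r : ℝ) ≤ d := by nlinarith
  have hrd' : r ≤ d := by exact_mod_cast hrd
  have hrw : (r : ℝ) ≤ w := by nlinarith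
  have hrw' : r ≤ w := by exact_mod_cast hrw
  have h4 : (4 : ℝ) ≤ r := by linarith
  have h4' : 4 ≤ r := by exact_mod_cast h4
  have h5 : (2 * r : ℝ) < d := by nlinarith
  have h5' : 2 * r < d := by exact_mod_cast h5
  refine ⟨h4', h5', ?_⟩
  -- first term
  have hT1 : ((k * (d * (d + 1) / 2 + d * k) : ℕ) : ℝ) ≤ 4 * e * (n : ℝ) ^ 3 := by
    have h1 : ((d * (d + 1) / 2 : ℕ) : ℝ) ≤ (d : ℝ) * (d + 1) / 2 := by
      have := @Nat.cast_div_le ℝ _ _ _ (d * (d + 1)) 2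
      push_cast at this
      exact this
    push_cast
    have h2 : (d : ℝ) ≤ n := by linarith
    have h3 : (k : ℝ) ≤ n := by linarith
    have h6 : ((d * (d + 1) / 2 : ℕ) : ℝ) + d * k ≤ 2 * (n : ℝ) ^ 2 := by
      have h7 : (d : ℝ) * (d + 1) / 2 ≤ n * (n + 1) / 2 := by gcongr
      have h8 : (d : ℝ) * k ≤ n * n := by gcongr
      nlinarith
    calc (k : ℝ) * (((d * (d + 1) / 2 : ℕ) : ℝ) + d * k) ≤ (2 * e * n) * (2 * (n : ℝ) ^ 2) := by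
          gcongr
      _ = _ := by ring
  have hT2 : (((d + k) * d + w ^ 2 : ℕ) : ℝ) ≤ 2 * (n : ℝ) ^ 2 := by
    push_cast
    have h2 : (d : ℝ) ≤ n := by linarith
    have h3 : (d : ℝ) + k ≤ n := by linarith
    have h4 : (w : ℝ) ≤ n := by linarith
    have h6 : ((d : ℝ) + k) * d ≤ n * n := by gcongr
    have h7 : (w : ℝ) ^ 2 ≤ n ^ 2 := by gcongr
    nlinarith
  have hT3 : ((w * (d * k + 3 * k + d) : ℕ) : ℝ) ≤ 2 * e * (n : ℝ) ^ 3 + 4 * (n : ℝ) ^ 2 := by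
    push_cast
    have h2 : (d : ℝ) ≤ n := by linarith
    have h3 : (k : ℝ) ≤ n := by linarith
    have h4 : (w : ℝ) ≤ n := by linarith
    have h6 : (d : ℝ) * k ≤ n * (2 * e * n) := by gcongr
    have h7 : (d : ℝ) * k + 3 * k + d ≤ n * (2 * e * n) + 4 * n := by linarith
    calc (w : ℝ) * (d * k + 3 * k + d) ≤ n * (n * (2 * e * n) + 4 * n) := by gcongr
      _ = _ := by ring
  have hopt : (d : ℝ) ^ 2 * w / 2 ≤ 2 / 27 * (n : ℝ) ^ 3 := opt_le hd0 hw0 (by linarith)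
  have hcd : ((d.choose 2 : ℕ) : ℝ) ≤ (d : ℝ) ^ 2 / 2 := by
    rw [choose_two_real]; nlinarith
  have hwcd : (w : ℝ) * ((d.choose 2 : ℕ) : ℝ) ≤ 2 / 27 * (n : ℝ) ^ 3 := by
    calc (w : ℝ) * ((d.choose 2 : ℕ) : ℝ) ≤ w * ((d : ℝ) ^ 2 / 2) := by gcongr
      _ = (d : ℝ) ^ 2 * w / 2 := by ring
      _ ≤ _ := hopt
  have hw4 : (n : ℝ) / 4 ≤ w := by nlinarith
  have hM1 : ((w * (d.choose 2 - (r / 2).choose 2) : ℕ) : ℝ) ≤
      (2 / 27 - γ ^ 2 / 64) * (n : ℝ) ^ 3 := by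
    have hj : (γ * n / 2 - 1 : ℝ) ≤ ((r / 2 : ℕ) : ℝ) := by
      have h1 : r ≤ 2 * (r / 2) + 1 := by omega
      have h2 : (r : ℝ) ≤ 2 * ((r / 2 : ℕ) : ℝ) + 1 := by exact_mod_cast h1
      linarith
    have hjd : (r / 2).choose 2 ≤ d.choose 2 := Nat.choose_le_choose 2 (by omega)
    rw [Nat.cast_mul, Nat.cast_sub hjd]
    have hcj : γ ^ 2 * (n : ℝ) ^ 2 / 16 ≤ (((r / 2).choose 2 : ℕ) : ℝ) := by
      rw [choose_two_real]
      have h1 : (γ * n / 2 - 1 : ℝ) * (γ * n / 2 - 2) ≤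
          ((r / 2 : ℕ) : ℝ) * (((r / 2 : ℕ) : ℝ) - 1) := by
        apply mul_le_mul hj (by linarith) (by linarith) (by linarith)
      nlinarith
    have h2 : γ ^ 2 * (n : ℝ) ^ 3 / 64 ≤ (w : ℝ) * (((r / 2).choose 2 : ℕ) : ℝ) := by
      calc γ ^ 2 * (n : ℝ) ^ 3 / 64 = (n : ℝ) / 4 * (γ ^ 2 * (n : ℝ) ^ 2 / 16) := by ring
        _ ≤ _ := by gcongr
    linarith
  have hM2 : ((w * d.choose 2 - r * (d - r).choose 2 : ℕ) : ℝ) ≤
      (2 / 27 - γ ^ 2 / 64) * (n : ℝ) ^ 3 := by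
    have hle : r * (d - r).choose 2 ≤ w * d.choose 2 :=
      Nat.mul_le_mul hrw' (Nat.choose_le_choose 2 (by omega))
    rw [Nat.cast_sub hle, Nat.cast_mul, Nat.cast_mul]
    have hc : (n : ℝ) ^ 2 / 16 ≤ (((d - r).choose 2 : ℕ) : ℝ) := by
      rw [choose_two_real, Nat.cast_sub hrd']
      have h1 : (n : ℝ) / 2 ≤ (d : ℝ) - r := by nlinarith
      have h2 : (n : ℝ) / 2 * (n / 4) ≤ ((d : ℝ) - r) * ((d : ℝ) - r - 1) := by
        apply mul_le_mul h1 (by linarith) (by linarith) (by linarith)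
      nlinarith
    have h3 : γ * n / 2 ≤ r := by linarith
    have h2 : γ ^ 2 * (n : ℝ) ^ 3 / 64 ≤ (r : ℝ) * (((d - r).choose 2 : ℕ) : ℝ) := by
      calc γ ^ 2 * (n : ℝ) ^ 3 / 64 ≤ γ * n / 2 * ((n : ℝ) ^ 2 / 16) := by
            have h4 : 0 ≤ (n : ℝ) ^ 3 := by positivity
            nlinarith
        _ ≤ _ := by gcongr
    linarith
  have hM : ((max (w * (d.choose 2 - (r / 2).choose 2)) (w * d.choose 2 - r * (d - r).choose 2) : ℕ)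
      : ℝ) ≤ (2 / 27 - γ ^ 2 / 64) * (n : ℝ) ^ 3 := by
    rw [Nat.cast_max]
    exact max_le hM1 hM2
  rw [excExp, Nat.cast_add, Nat.cast_add, Nat.cast_add]
  have hfin : 6 * e * (n : ℝ) ^ 3 ≤ γ ^ 2 / 128 * (n : ℝ) ^ 3 := by
    have : 6 * e ≤ γ ^ 2 / 128 := by linarith
    gcongr
  have hfin2 : 6 * (n : ℝ) ^ 2 + 2 * n ≤ γ ^ 2 / 256 * (n : ℝ) ^ 3 := by
    have h1 : 8 * (n : ℝ) ^ 2 ≤ γ ^ 2 / 256 * (n : ℝ) ^ 3 := by
      have : 8 * (n : ℝ) ^ 2 ≤ (γ ^ 2 * n) * (n : ℝ) ^ 2 / 256 := by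
        have : (2048 : ℝ) * (n : ℝ) ^ 2 ≤ (γ ^ 2 * n) * (n : ℝ) ^ 2 := by gcongr
        linarith
      calc _ ≤ _ := this
        _ = _ := by ring
    nlinarith
  linarith

variable {p : ℕ} [Fact p.Prime]

/-- **Step E** -/
theorem thmE (γ : ℝ) (hγ : 0 < γ) (hγ' : γ ≤ 1 / 100) : ∃ e₀ > 0, ∀ e, 0 < e → e ≤ e₀ →
    ∃ δ > 0, ∀ᶠ n : ℕ in atTop,
    (num (p ^ n) (fun G _ => Good p e n G ∧ ¬ AllNS p ⌊γ * n⌋₊ G) : ℝ) ≤
      (p : ℝ) ^ ((2 / 27 - δ) * (n : ℝ) ^ 3) := by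
  have hp : p.Prime := Fact.out
  refine ⟨γ ^ 2 / 768, by positivity, fun e he he' => ⟨γ ^ 2 / 256, by positivity, ?_⟩⟩
  filter_upwards [eventually_ge_atTop ⌈2048 / γ ^ 2⌉₊] with n hn
  have hn' : 2048 / γ ^ 2 ≤ (n : ℝ) := Nat.ceil_le.1 hn
  set r : ℕ := ⌊γ * n⌋₊ with hr
  have hN : 0 < p ^ n := pow_pos hp.pos n
  -- split according to the ranks
  let Q : Fin (n + 1) × Fin (n + 1) → ∀ (G : Type) [Group G], Prop := fun x G _ =>
    (Good p e n G ∧ ¬ AllNS p r G) ∧ dd p G = x.1 ∧ om p G = x.2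
  have hsplit : num (p ^ n) (fun G _ => Good p e n G ∧ ¬ AllNS p r G) ≤
      ∑ x : Fin (n + 1) × Fin (n + 1), num (p ^ n) (Q x) := by
    refine num_le_sum hN Q ?_
    intro G _ hG hP
    have : Finite G := Nat.finite_of_card_ne_zero (by rw [hG]; omega)
    have h1 := dd_add_om_le (p := p) (G := G) hG
    exact ⟨(⟨dd p G, by omega⟩, ⟨om p G, by omega⟩), hP, rfl, rfl⟩
  have hterm : ∀ x : Fin (n + 1) × Fin (n + 1), (num (p ^ n) (Q x) : ℝ) ≤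
      (p : ℝ) ^ ((2 / 27 - γ ^ 2 / 256) * (n : ℝ) ^ 3 - 2 * n) := by
    rintro ⟨⟨d, hd⟩, ⟨w, hw⟩⟩
    by_cases hgood : (2 / 3 - e) * n ≤ d ∧ (1 / 3 - e) * n ≤ w ∧ d + w ≤ n
    · obtain ⟨hg1, hg2, hg3⟩ := hgood
      obtain ⟨k, hk⟩ : ∃ k, d + k + w = n := ⟨n - d - w, by omega⟩
      obtain ⟨h4, h5, h6⟩ := excExp_le hγ hγ' he he' hn' hk hg1 hg2
      have h7 : num (p ^ n) (Q (⟨d, hd⟩, ⟨w, hw⟩)) ≤ p ^ excExp d k w r := by
        have h8 := num_exc (p := p) (d := d) (k := k) (w := w) h4 h5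
        rw [hk] at h8
        refine le_trans (num_mono hN ?_) h8
        rintro G _ hG ⟨⟨hA, hB⟩, hC, hD⟩
        exact ⟨hC, hD, hB⟩
      calc (num (p ^ n) (Q (⟨d, hd⟩, ⟨w, hw⟩)) : ℝ) ≤ ((p ^ excExp d k w r : ℕ) : ℝ) := by
            exact_mod_cast h7
        _ = (p : ℝ) ^ ((excExp d k w r : ℕ) : ℝ) := by
            rw [Nat.cast_pow, Real.rpow_natCast]
        _ ≤ _ := by
            apply Real.rpow_le_rpow_of_exponent_le
            · exact_mod_cast hp.one_lt.le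
            · linarith
    · have h0 : num (p ^ n) (Q (⟨d, hd⟩, ⟨w, hw⟩)) = 0 := by
        rw [num, Nat.card_eq_zero]
        left
        refine ⟨?_⟩
        rintro ⟨c, G, hG, ⟨⟨hA, hB⟩, hC, hD⟩⟩
        apply hgood
        have h1 := @dd_add_om_le p _ (Fin (p ^ n)) G _ n (by simp)
        have hC' : @dd p (Fin (p ^ n)) G = d := hC
        have hD' : @om p (Fin (p ^ n)) G = w := hD
        rw [hC', hD'] at h1
        have hA1 := hA.1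
        have hA2 := hA.2
        rw [hC'] at hA1
        rw [hD'] at hA2
        exact ⟨hA1, hA2, h1⟩
      rw [h0, Nat.cast_zero]
      positivity
  have hcast : (num (p ^ n) (fun G _ => Good p e n G ∧ ¬ AllNS p r G) : ℝ) ≤
      ∑ x : Fin (n + 1) × Fin (n + 1), (num (p ^ n) (Q x) : ℝ) := by
    exact_mod_cast hsplit
  refine hcast.trans ((Finset.sum_le_sum fun x _ => hterm x).trans ?_)
  rw [Finset.sum_const, Finset.card_univ, Fintype.card_prod, Fintype.card_fin, nsmul_eq_mul]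
  have h1 : ((n + 1 : ℕ) : ℝ) ≤ (p : ℝ) ^ (n : ℝ) := by
    rw [Real.rpow_natCast]
    have h2 : n + 1 ≤ p ^ n := Nat.lt_pow_self hp.one_lt
    exact_mod_cast h2
  have hp0 : (0 : ℝ) < p := by exact_mod_cast hp.pos
  calc (((n + 1) * (n + 1) : ℕ) : ℝ) * (p : ℝ) ^ ((2 / 27 - γ ^ 2 / 256) * (n : ℝ) ^ 3 - 2 * n)
      ≤ ((p : ℝ) ^ (n : ℝ) * (p : ℝ) ^ (n : ℝ)) *
        (p : ℝ) ^ ((2 / 27 - γ ^ 2 / 256) * (n : ℝ) ^ 3 - 2 * n) := by
        rw [Nat.cast_mul]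
        gcongr
    _ = _ := by
        rw [← Real.rpow_add hp0, ← Real.rpow_add hp0]
        congr 1
        ring

end Pool.Agent.IG
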