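import Pool.Agent.IG.StepFB
import Pool.Agent.IG.Opt

/-!
# Step F
-/

open Subgroup Module Filter
open scoped commutatorElement

noncomputable section

namespace Pool.Agent.IG

universe v

variable {p : ℕ} [Fact p.Prime]

/-- summing over the values of `dd` and `om` -/
theorem num_triples {n : ℕ} {P : ∀ (G : Type) [Group G], Prop} (cond : ℕ → ℕ → Prop)
    (Q : ℕ → ℕ → ∀ (G : Type) [Group G], Prop) (B : ℝ)
    (h : ∀ (G : Type) [Group G], Nat.card G = p ^ n → P G →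
      cond (dd p G) (om p G) ∧ Q (dd p G) (om p G) G)
    (hb : ∀ d w, cond d w → d + w ≤ n →
      (num (p ^ n) (fun G _ => dd p G = d ∧ om p G = w ∧ Q d w G) : ℝ) ≤ (p : ℝ) ^ B) :
    (num (p ^ n) P : ℝ) ≤ (p : ℝ) ^ (B + 2 * n) := by
  have hp : p.Prime := Fact.out
  have hp2 : (2 : ℝ) ≤ p := by exact_mod_cast hp.two_le
  have hp0 : (0 : ℝ) < p := by linarith
  have hN : 0 < p ^ n := pow_pos hp.pos n
  have h1 := num_le_sum (N := p ^ n) hN (ι := Fin (n + 1) × Fin (n + 1)) (P := P)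
    (fun i G _ => cond i.1 i.2 ∧ (i.1 : ℕ) + i.2 ≤ n ∧ dd p G = i.1 ∧ om p G = i.2 ∧ Q i.1 i.2 G)
    (by
      intro G _ hG hP
      have hfin : Finite G := Nat.finite_of_card_ne_zero (by rw [hG]; exact hN.ne')
      have hle := dd_add_om_le hG
      obtain ⟨hc, hQ⟩ := h G hG hP
      exact ⟨(⟨dd p G, by omega⟩, ⟨om p G, by omega⟩), hc, hle, rfl, rfl, hQ⟩)
  have h2 : ∀ i : Fin (n + 1) × Fin (n + 1), (num (p ^ n) (fun G _ => cond i.1 i.2 ∧
      (i.1 : ℕ) + i.2 ≤ n ∧ dd p G = i.1 ∧ om p G = i.2 ∧ Q i.1 i.2 G) : ℝ) ≤ (p : ℝ) ^ B := by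
    intro i
    by_cases hc : cond i.1 i.2 ∧ (i.1 : ℕ) + i.2 ≤ n
    · refine le_trans ?_ (hb i.1 i.2 hc.1 hc.2)
      have h4 := num_mono (N := p ^ n) hN
        (P := fun G _ => cond i.1 i.2 ∧
          (i.1 : ℕ) + i.2 ≤ n ∧ dd p G = i.1 ∧ om p G = i.2 ∧ Q i.1 i.2 G)
        (Q := fun G _ => dd p G = i.1 ∧ om p G = i.2 ∧ Q i.1 i.2 G) (fun G _ _ hG => hG.2.2)
      exact_mod_cast h4
    · have h3 : num (p ^ n) (fun G _ => cond i.1 i.2 ∧
          (i.1 : ℕ) + i.2 ≤ n ∧ dd p G = i.1 ∧ om p G = i.2 ∧ Q i.1 i.2 G) = 0 := by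
        unfold num
        have : IsEmpty {c : Cl (p ^ n) // ∃ G : GS (p ^ n), Quotient.mk (gsSetoid (p ^ n)) G = c ∧
            (cond i.1 i.2 ∧ (i.1 : ℕ) + i.2 ≤ n ∧ @dd p (Fin (p ^ n)) G = i.1 ∧
              @om p (Fin (p ^ n)) G = i.2 ∧ @Q i.1 i.2 (Fin (p ^ n)) G)} := by
          refine ⟨?_⟩
          rintro ⟨c, G, -, h1, h2, -⟩
          exact hc ⟨h1, h2⟩
        exact Nat.card_of_isEmpty
      rw [h3, Nat.cast_zero]
      positivity
  have h3 : (num (p ^ n) P : ℝ) ≤ ((n : ℝ) + 1) ^ 2 * (p : ℝ) ^ B := by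
    calc (num (p ^ n) P : ℝ) ≤ ∑ i : Fin (n + 1) × Fin (n + 1), (num (p ^ n) (fun G _ =>
          cond i.1 i.2 ∧ (i.1 : ℕ) + i.2 ≤ n ∧ dd p G = i.1 ∧ om p G = i.2 ∧ Q i.1 i.2 G) : ℝ) := by
          exact_mod_cast h1
      _ ≤ ∑ _i : Fin (n + 1) × Fin (n + 1), (p : ℝ) ^ B := Finset.sum_le_sum (fun i _ => h2 i)
      _ = ((n : ℝ) + 1) ^ 2 * (p : ℝ) ^ B := by
          rw [Finset.sum_const, Finset.card_univ, Fintype.card_prod, Fintype.card_fin, nsmul_eq_mul]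
          push_cast
          ring
  refine h3.trans ?_
  rw [Real.rpow_add hp0, mul_comm ((p : ℝ) ^ B)]
  refine mul_le_mul_of_nonneg_right ?_ (Real.rpow_nonneg hp0.le _)
  have h4 : ((n : ℝ) + 1) ≤ (p : ℝ) ^ n := by
    have h5 : n + 1 ≤ 2 ^ n := n.lt_two_pow_self
    calc ((n : ℝ) + 1) ≤ (2 : ℝ) ^ n := by exact_mod_cast h5
      _ ≤ (p : ℝ) ^ n := pow_le_pow_left₀ (by norm_num) hp2 n
  calc ((n : ℝ) + 1) ^ 2 ≤ ((p : ℝ) ^ n) ^ 2 := pow_le_pow_left₀ (by positivity) h4 2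
    _ = (p : ℝ) ^ (2 * (n : ℝ)) := by
        rw [← pow_mul, ← Real.rpow_natCast]
        push_cast
        ring_nf

theorem exponentF {n d w r : ℕ} {e γ : ℝ} (he : 0 < e) (he' : e ≤ 1 / 1000)
    (hγ' : γ ≤ 1 / 1000) (hr : (r : ℝ) ≤ γ * n) (h1 : (2 / 3 - e) * n ≤ d)
    (h2 : (1 / 3 - e) * n ≤ w) (hdw : d + w ≤ n) :
    (((n - d - w) * (d * (d + 1) / 2 + d * (n - d - w)) + w * (d * (n - d - w) +
      2 * (n - d - w) + d) +
        d * ((2 * (2 * (r + (n - d - w)) + 2 * r) + (n - d - w)) * (d + w)) : ℕ) : ℝ) ≤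
      23 / 1000 * (n : ℝ) ^ 3 + 2 * (n : ℝ) ^ 2 := by
  obtain ⟨k, rfl⟩ : ∃ k, n = d + k + w := ⟨n - d - w, by omega⟩
  have hk : d + k + w - d - w = k := by omega
  rw [hk]
  have hn0 : (0 : ℝ) ≤ ((d + k + w : ℕ) : ℝ) := Nat.cast_nonneg _
  generalize hN : ((d + k + w : ℕ) : ℝ) = N at *
  have hN' : N = d + k + w := by rw [← hN]; push_cast; ring
  have hd0 : (0 : ℝ) ≤ d := Nat.cast_nonneg _
  have hk0 : (0 : ℝ) ≤ k := Nat.cast_nonneg _
  have hw0 : (0 : ℝ) ≤ w := Nat.cast_nonneg _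
  have hr0 : (0 : ℝ) ≤ r := Nat.cast_nonneg _
  have hkN : (k : ℝ) ≤ N / 500 := by
    have h3 : (k : ℝ) ≤ 2 * e * N := by
      have : (k : ℝ) = N - d - w := by rw [hN']; ring
      rw [this]
      nlinarith
    nlinarith
  have hrN : (r : ℝ) ≤ N / 1000 := by nlinarith
  have hdN : (d : ℝ) ≤ N := by linarith
  have hwN : (w : ℝ) ≤ N := by linarith
  have hdwN : (d : ℝ) + w ≤ N := by linarith
  have hdiv : ((d * (d + 1) / 2 : ℕ) : ℝ) ≤ N * (N + 1) / 2 := by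
    refine Nat.cast_div_le.trans ?_
    push_cast
    gcongr
  push_cast
  calc (k : ℝ) * (((d * (d + 1) / 2 : ℕ) : ℝ) + d * k) + w * (d * k + 2 * k + d) +
        d * ((2 * (2 * (r + k) + 2 * r) + k) * (d + w))
      ≤ (N / 500) * (N * (N + 1) / 2 + N * (N / 500)) + N * (N * (N / 500) + 2 * (N / 500) + N) +
        N * ((2 * (2 * (N / 1000 + N / 500) + 2 * (N / 1000)) + N / 500) * N) := by
        gcongr
    _ ≤ 23 / 1000 * N ^ 3 + 2 * N ^ 2 := by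
        have h5 : 0 ≤ N ^ 2 := by positivity
        have h6 : 0 ≤ N ^ 3 := by positivity
        ring_nf
        nlinarith

/-- **Step F** -/
theorem thmF (γ : ℝ) (hγ : 0 < γ) (hγ' : γ ≤ 1 / 1000) : ∃ e₀ > 0, ∀ e, 0 < e → e ≤ e₀ →
    ∃ δ > 0, ∀ᶠ n : ℕ in atTop,
    (num (p ^ n) (fun G _ => Good p e n G ∧ ∃ (H : Type v) (_ : Group H)
      (i : commutator H ≃* G), ∀ h : H, NSc p ⌊γ * n⌋₊ (autOf i h) 1) : ℝ) ≤
      (p : ℝ) ^ ((2 / 27 - δ) * (n : ℝ) ^ 3) := by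
  refine ⟨1 / 1000, by norm_num, fun e he he' => ⟨1 / 100, by norm_num, ?_⟩⟩
  have hp : p.Prime := Fact.out
  have hp1 : (1 : ℝ) ≤ p := by exact_mod_cast hp.one_le
  filter_upwards [eventually_ge_atTop 100] with n hn
  have hn' : (100 : ℝ) ≤ n := by exact_mod_cast hn
  set r := ⌊γ * (n : ℝ)⌋₊ with hr
  have hrle : (r : ℝ) ≤ γ * n := Nat.floor_le (by positivity)
  have h1 := num_triples (p := p) (n := n)
    (P := fun G _ => Good p e n G ∧ ∃ (H : Type v) (_ : Group H)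
      (i : commutator H ≃* G), ∀ h : H, NSc p r (autOf i h) 1)
    (cond := fun d w => (2 / 3 - e) * n ≤ d ∧ (1 / 3 - e) * n ≤ w)
    (Q := fun d w G _ => BigCent p (2 * (r + (n - d - w)) + 2 * r) G)
    (B := 23 / 1000 * (n : ℝ) ^ 3 + 2 * (n : ℝ) ^ 2)
    (by
      rintro G _ hG ⟨hgood, H, _, i, hi⟩
      exact ⟨hgood, bigCent_of_integrable hG i hi⟩)
    (by
      rintro d w ⟨hd, hw⟩ hdw
      have h2 := num_bigCent (p := p) (d := d) (k := n - d - w) (w := w)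
        (s := 2 * (r + (n - d - w)) + 2 * r)
      have h3 : d + (n - d - w) + w = n := by omega
      rw [h3] at h2
      have h4 := exponentF (n := n) (d := d) (w := w) (r := r) he he' hγ' hrle hd hw hdw
      calc (num (p ^ n) (fun G _ => dd p G = d ∧ om p G = w ∧
            BigCent p (2 * (r + (n - d - w)) + 2 * r) G) : ℝ)
          ≤ ((p ^ ((n - d - w) * (d * (d + 1) / 2 + d * (n - d - w)) +
            w * (d * (n - d - w) + 2 * (n - d - w) + d) +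
            d * ((2 * (2 * (r + (n - d - w)) + 2 * r) + (n - d - w)) * (d + w))) : ℕ) : ℝ) := by
            exact_mod_cast h2
        _ = (p : ℝ) ^ (((n - d - w) * (d * (d + 1) / 2 + d * (n - d - w)) +
            w * (d * (n - d - w) + 2 * (n - d - w) + d) +
            d * ((2 * (2 * (r + (n - d - w)) + 2 * r) + (n - d - w)) * (d + w)) : ℕ) : ℝ) := by
            rw [Nat.cast_pow, Real.rpow_natCast]
        _ ≤ _ := Real.rpow_le_rpow_of_exponent_le hp1 h4)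
  refine h1.trans (Real.rpow_le_rpow_of_exponent_le hp1 ?_)
  have h5 : 0 ≤ (n : ℝ) ^ 2 := by positivity
  have h6 : (n : ℝ) ^ 3 = n * (n : ℝ) ^ 2 := by ring
  rw [h6]
  nlinarith

end Pool.Agent.IG
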