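import Pool.Agent.IG.StepG

/-!
# Step G: the real bound
-/

open Subgroup Module Filter Topology

noncomputable section

namespace Pool.Agent.IG

theorem gr_num_zero {N : ℕ} {P : ∀ (G : Type) [Group G], Prop}
    (h : ∀ (G : Type) [Group G], ¬ P G) : num N P = 0 := by
  unfold num
  rw [Nat.card_eq_zero]
  left
  refine ⟨fun c => ?_⟩
  obtain ⟨G, -, hP⟩ := c.2
  exact @h (Fin N) G hP

/-- arithmetic of the exponents -/
theorem gr_exp {n d k w r : ℕ} {γ e : ℝ} (hn : n = d + k + w) (hn20 : 20 ≤ n)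
    (hγ' : γ ≤ 1 / 1000) (he' : e ≤ 1 / 1000) (hr : (r : ℝ) ≤ γ * n)
    (hd : (2 / 3 - e) * n ≤ d) (hw : (1 / 3 - e) * n ≤ w) :
    (((1 + 2 * d * r + 2 * w * r) +
        (2 + 2 * d * r + k * d + 2 * w * r + r * d + w * (r + k)) : ℕ) : ℝ) - (d * w : ℕ) ≤
      -(1 / 5) * (n : ℝ) ^ 2 := by
  have hnR : (n : ℝ) = d + k + w := by exact_mod_cast hn
  have hn20' : (20 : ℝ) ≤ n := by exact_mod_cast hn20
  have hn0 : (0 : ℝ) ≤ n := by linarith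
  have hd0 : (0 : ℝ) ≤ d := Nat.cast_nonneg d
  have hk0 : (0 : ℝ) ≤ k := Nat.cast_nonneg k
  have hw0 : (0 : ℝ) ≤ w := Nat.cast_nonneg w
  have hr0 : (0 : ℝ) ≤ r := Nat.cast_nonneg r
  have hr' : (r : ℝ) ≤ 1 / 1000 * n := hr.trans (by gcongr)
  have hd' : (6656 / 10000 : ℝ) * n ≤ d := by nlinarith
  have hw' : (3323 / 10000 : ℝ) * n ≤ w := by nlinarith
  have hk' : (k : ℝ) ≤ 21 / 10000 * n := by nlinarith
  have hdw : (6656 / 10000 : ℝ) * n * ((3323 / 10000 : ℝ) * n) ≤ d * w := by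
    apply mul_le_mul hd' hw' (by positivity) hd0
  have h1 : (r : ℝ) * (d + w) ≤ 1 / 1000 * n * n := by
    apply mul_le_mul hr' (by linarith) (by positivity) (by positivity)
  have h2 : (k : ℝ) * (d + w) ≤ 21 / 10000 * n * n := by
    apply mul_le_mul hk' (by linarith) (by positivity) (by positivity)
  push_cast
  nlinarith

/-- the real bound for the class `S` -/
theorem thmG (p : ℕ) [Fact p.Prime] (γ : ℝ) (hγ : 0 < γ) (hγ' : γ ≤ 1 / 1000) :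
    ∃ e₀ > 0, ∀ e, 0 < e → e ≤ e₀ → ∀ᶠ n : ℕ in atTop,
    (num (p ^ n) (fun G _ => Good p e n G ∧ ClS p ⌊γ * (n : ℝ)⌋₊ G) : ℝ) ≤
      (p : ℝ) ^ (-(1 / 10 : ℝ) * (n : ℝ) ^ 2) * gp p n := by
  have hp : p.Prime := Fact.out
  have hp2 : (2 : ℝ) ≤ p := by exact_mod_cast hp.two_le
  have hp0 : (0 : ℝ) < p := by linarith
  have hp1 : (1 : ℝ) ≤ p := by linarith
  refine ⟨1 / 1000, by norm_num, fun e he he' => ?_⟩
  filter_upwards [eventually_ge_atTop 20] with n hn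
  have hn20' : (20 : ℝ) ≤ n := by exact_mod_cast hn
  set r : ℕ := ⌊γ * (n : ℝ)⌋₊ with hrdef
  have hr : (r : ℝ) ≤ γ * n := Nat.floor_le (by positivity)
  have hN : 0 < p ^ n := pow_pos hp.pos n
  let Q : Fin (n + 1) × Fin (n + 1) → ∀ (G : Type) [Group G], Prop := fun i G _ =>
    (i.1.1 + i.2.1 ≤ n ∧ (2 / 3 - e) * n ≤ (i.1.1 : ℝ) ∧ (1 / 3 - e) * n ≤ (i.2.1 : ℝ)) ∧
      (dd p G = i.1.1 ∧ om p G = i.2.1 ∧ ClS p r G)
  have h1 : num (p ^ n) (fun G _ => Good p e n G ∧ ClS p r G) ≤ ∑ i, num (p ^ n) (Q i) := by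
    refine num_le_sum hN Q fun G _ hG hP => ?_
    have hfin : Finite G := Nat.finite_of_card_ne_zero (by rw [hG]; exact hN.ne')
    have h2 := dd_add_om_le (p := p) hG
    refine ⟨⟨⟨dd p G, by omega⟩, ⟨om p G, by omega⟩⟩, ⟨h2, hP.1.1, hP.1.2⟩, rfl, rfl, hP.2⟩
  have h2 : ∀ i, (num (p ^ n) (Q i) : ℝ) ≤ (p : ℝ) ^ (-(1 / 5 : ℝ) * (n : ℝ) ^ 2) * gp p n := by
    intro i
    by_cases hc : i.1.1 + i.2.1 ≤ n ∧ (2 / 3 - e) * n ≤ (i.1.1 : ℝ) ∧
        (1 / 3 - e) * n ≤ (i.2.1 : ℝ)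
    · obtain ⟨hle, hd, hw⟩ := hc
      set d := i.1.1
      set w := i.2.1
      obtain ⟨k, hk⟩ : ∃ k, n = d + k + w := ⟨n - d - w, by omega⟩
      have h3 : num (p ^ n) (Q i) ≤
          num (p ^ (d + k + w)) (fun G _ => dd p G = d ∧ om p G = w ∧ ClS p r G) := by
        rw [← hk]
        exact num_mono hN fun G _ _ hP => hP.2
      have h4 := num_ClS (p := p) (d := d) (k := k) (w := w) (r := r)
      have h5 := (Nat.mul_le_mul_right (p ^ (d * w)) h3).trans h4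
      rw [← hk] at h5
      set E : ℕ := (1 + 2 * d * r + 2 * w * r) +
        (2 + 2 * d * r + k * d + 2 * w * r + r * d + w * (r + k)) with hE
      have h6 : (num (p ^ n) (Q i) : ℝ) * (p : ℝ) ^ (d * w) ≤ gp p n * (p : ℝ) ^ E := by
        exact_mod_cast h5
      have h7 := gr_exp hk hn hγ' he' hr hd hw
      have h8 : (num (p ^ n) (Q i) : ℝ) ≤ gp p n * (p : ℝ) ^ ((E : ℝ) - (d * w : ℕ)) := by
        rw [Real.rpow_sub hp0, Real.rpow_natCast, Real.rpow_natCast, ← mul_div_assoc,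
          le_div_iff₀ (by positivity)]
        exact h6
      refine h8.trans ?_
      rw [mul_comm]
      refine mul_le_mul_of_nonneg_right ?_ (Nat.cast_nonneg _)
      exact Real.rpow_le_rpow_of_exponent_le hp1 h7
    · have h3 : num (p ^ n) (Q i) = 0 := gr_num_zero fun G _ hP => hc hP.1
      rw [h3, Nat.cast_zero]
      positivity
  have h3 : (num (p ^ n) (fun G _ => Good p e n G ∧ ClS p r G) : ℝ) ≤
      ((n + 1 : ℕ) : ℝ) ^ 2 * ((p : ℝ) ^ (-(1 / 5 : ℝ) * (n : ℝ) ^ 2) * gp p n) := by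
    have h4 : (num (p ^ n) (fun G _ => Good p e n G ∧ ClS p r G) : ℝ) ≤
        ∑ i, (num (p ^ n) (Q i) : ℝ) := by exact_mod_cast h1
    refine h4.trans ((Finset.sum_le_sum fun i _ => h2 i).trans (le_of_eq ?_))
    rw [Finset.sum_const, Finset.card_univ, Fintype.card_prod, Fintype.card_fin, nsmul_eq_mul]
    push_cast
    ring
  refine h3.trans ?_
  have h4 : ((n + 1 : ℕ) : ℝ) ^ 2 ≤ (p : ℝ) ^ ((1 / 10 : ℝ) * (n : ℝ) ^ 2) := by
    have h5 : ((n + 1 : ℕ) : ℝ) ≤ (2 : ℝ) ^ n := by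
      have : n + 1 ≤ 2 ^ n := Nat.lt_two_pow_self
      exact_mod_cast this
    calc ((n + 1 : ℕ) : ℝ) ^ 2 ≤ ((2 : ℝ) ^ n) ^ 2 := by gcongr
      _ = (2 : ℝ) ^ ((n * 2 : ℕ) : ℝ) := by rw [Real.rpow_natCast, pow_mul]
      _ ≤ (2 : ℝ) ^ ((1 / 10 : ℝ) * (n : ℝ) ^ 2) := by
        apply Real.rpow_le_rpow_of_exponent_le (by norm_num)
        push_cast
        nlinarith
      _ ≤ (p : ℝ) ^ ((1 / 10 : ℝ) * (n : ℝ) ^ 2) :=
        Real.rpow_le_rpow (by norm_num) hp2 (by positivity)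
  have h5 : (p : ℝ) ^ (-(1 / 10 : ℝ) * (n : ℝ) ^ 2) =
      (p : ℝ) ^ ((1 / 10 : ℝ) * (n : ℝ) ^ 2) * (p : ℝ) ^ (-(1 / 5 : ℝ) * (n : ℝ) ^ 2) := by
    rw [← Real.rpow_add hp0]
    congr 1
    ring
  rw [h5, mul_assoc]
  exact mul_le_mul_of_nonneg_right h4 (by positivity)

end Pool.Agent.IG
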