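import Pool.Agent.IG.StepD
import Pool.Agent.IG.StepE
import Pool.Agent.IG.StepF
import Pool.Agent.IG.StepGR
import Pool.Agent.IG.Lower

/-!
# Almost all groups of prime-power order are not integrable
-/

open Subgroup Module Filter Topology

noncomputable section

namespace Pool.Agent.IG

universe v

theorem ip_le_gp (p n : ℕ) [Fact p.Prime] : ip.{v} p n ≤ gp p n :=
  num_mono (pow_pos (Fact.out : p.Prime).pos n) fun _ _ _ _ => trivial

/-- the four classes containing the integrable groups -/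
theorem ip_le (p : ℕ) [Fact p.Prime] (n : ℕ) (e : ℝ) (r : ℕ) :
    ip.{v} p n ≤ num (p ^ n) (fun G _ => ¬ Good p e n G) +
      (num (p ^ n) (fun G _ => Good p e n G ∧ ¬ AllNS p r G) +
      (num (p ^ n) (fun G _ => Good p e n G ∧ ∃ (H : Type v) (_ : Group H)
        (i : commutator H ≃* G), ∀ h : H, NSc p r (autOf i h) 1) +
      num (p ^ n) (fun G _ => Good p e n G ∧ ClS p r G))) := by
  refine le_trans (num_mono (Q := fun G _ => ¬ Good p e n G ∨ ((Good p e n G ∧ ¬ AllNS p r G) ∨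
    ((Good p e n G ∧ ∃ (H : Type v) (_ : Group H)
        (i : commutator H ≃* G), ∀ h : H, NSc p r (autOf i h) 1) ∨
      (Good p e n G ∧ ClS p r G)))) (pow_pos (Fact.out : p.Prime).pos n) ?_) ?_
  · rintro G _ _ ⟨H, hH, ⟨i⟩⟩
    by_cases h1 : Good p e n G
    · refine Or.inr ?_
      by_cases h2 : AllNS p r G
      · refine Or.inr ?_
        by_cases h3 : ∀ h : H, NSc p r (autOf i h) 1
        · exact Or.inl ⟨h1, H, hH, i, h3⟩
        · refine Or.inr ⟨h1, h2, ?_⟩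
          push Not at h3
          obtain ⟨h, hh⟩ := h3
          obtain ⟨μ, hμ, hμ'⟩ := h2 (autOf i h)
          refine ⟨autOf i h, μ, hμ, ?_, hμ'⟩
          rintro rfl
          exact hh hμ'
      · exact Or.inl ⟨h1, h2⟩
    · exact Or.inl h1
  · refine le_trans num_or (Nat.add_le_add_left ?_ _)
    refine le_trans num_or (Nat.add_le_add_left ?_ _)
    exact num_or

/-- the proportion of integrable groups among the groups of order `p ^ n` tends to `0` -/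
theorem main (p : ℕ) (hp : p.Prime) :
    Tendsto (fun n : ℕ => (ip.{v} p n : ℝ) / gp p n) atTop (𝓝 0) := by
  have : Fact p.Prime := ⟨hp⟩
  have hp1 : (1 : ℝ) < p := by exact_mod_cast hp.one_lt
  have hp0 : (0 : ℝ) < p := by linarith
  obtain ⟨e1, he1, H1⟩ := thmE (p := p) (1 / 1000) (by norm_num) (by norm_num)
  obtain ⟨e2, he2, H2⟩ := thmF.{v} (p := p) (1 / 1000) (by norm_num) (by norm_num)
  obtain ⟨e3, he3, H3⟩ := thmG p (1 / 1000) (by norm_num) (by norm_num)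
  obtain ⟨e, he, hee1, hee2, hee3⟩ : ∃ e : ℝ, 0 < e ∧ e ≤ e1 ∧ e ≤ e2 ∧ e ≤ e3 :=
    ⟨min e1 (min e2 e3), lt_min he1 (lt_min he2 he3), min_le_left _ _,
      (min_le_right _ _).trans (min_le_left _ _), (min_le_right _ _).trans (min_le_right _ _)⟩
  obtain ⟨δ0, hδ0, K0⟩ := thmA (p := p) e he
  obtain ⟨δ1, hδ1, K1⟩ := H1 e he hee1
  obtain ⟨δ2, hδ2, K2⟩ := H2 e he hee2
  have K3 := H3 e he hee3
  obtain ⟨C, K4⟩ := lower_bound p
  obtain ⟨δ, hδ, hδ0', hδ1', hδ2'⟩ : ∃ δ : ℝ, 0 < δ ∧ δ ≤ δ0 ∧ δ ≤ δ1 ∧ δ ≤ δ2 :=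
    ⟨min δ0 (min δ1 δ2), lt_min hδ0 (lt_min hδ1 hδ2), min_le_left _ _,
      (min_le_right _ _).trans (min_le_left _ _), (min_le_right _ _).trans (min_le_right _ _)⟩
  have hlim : Tendsto (fun n : ℕ => 4 * ((p : ℝ) ^ (-(1 / 10) : ℝ)) ^ n) atTop (𝓝 0) := by
    have h1 : Tendsto (fun n : ℕ => ((p : ℝ) ^ (-(1 / 10) : ℝ)) ^ n) atTop (𝓝 0) := by
      refine tendsto_pow_atTop_nhds_zero_of_lt_one (Real.rpow_nonneg hp0.le _) ?_
      exact Real.rpow_lt_one_of_one_lt_of_neg hp1 (by norm_num)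
    simpa using h1.const_mul 4
  refine squeeze_zero' (Eventually.of_forall fun n => by positivity) ?_ hlim
  filter_upwards [K0, K1, K2, K3, K4, eventually_ge_atTop ⌈(C + 1) / δ⌉₊, eventually_ge_atTop 1]
    with n k0 k1 k2 k3 k4 k5 k6
  have hn1 : (1 : ℝ) ≤ n := by exact_mod_cast k6
  have hn0 : (0 : ℝ) ≤ n := by linarith
  have hgp : (0 : ℝ) < gp p n := lt_of_lt_of_le (Real.rpow_pos_of_pos hp0 _) k4
  have hmono : ∀ δ' : ℝ, δ ≤ δ' →
      (p : ℝ) ^ ((2 / 27 - δ') * (n : ℝ) ^ 3) ≤ (p : ℝ) ^ ((2 / 27 - δ) * (n : ℝ) ^ 3) := by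
    intro δ' h
    refine Real.rpow_le_rpow_of_exponent_le hp1.le ?_
    have h3 : (0 : ℝ) ≤ (n : ℝ) ^ 3 := by positivity
    nlinarith
  have hip : (ip.{v} p n : ℝ) ≤ 3 * (p : ℝ) ^ ((2 / 27 - δ) * (n : ℝ) ^ 3) +
      (p : ℝ) ^ (-(1 / 10 : ℝ) * (n : ℝ) ^ 2) * gp p n := by
    have h1 := ip_le.{v} p n e ⌊(1 / 1000 : ℝ) * (n : ℝ)⌋₊
    have h2 : (ip.{v} p n : ℝ) ≤ (num (p ^ n) (fun G _ => ¬ Good p e n G) : ℝ) +
      ((num (p ^ n) (fun G _ => Good p e n G ∧ ¬ AllNS p ⌊(1 / 1000 : ℝ) * (n : ℝ)⌋₊ G) : ℝ) +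
      ((num (p ^ n) (fun G _ => Good p e n G ∧ ∃ (H : Type v) (_ : Group H)
        (i : commutator H ≃* G), ∀ h : H, NSc p ⌊(1 / 1000 : ℝ) * (n : ℝ)⌋₊ (autOf i h) 1) : ℝ) +
      (num (p ^ n) (fun G _ => Good p e n G ∧ ClS p ⌊(1 / 1000 : ℝ) * (n : ℝ)⌋₊ G) : ℝ))) := by
      exact_mod_cast h1
    have h3 := hmono δ0 hδ0'
    have h4 := hmono δ1 hδ1'
    have h5 := hmono δ2 hδ2'
    linarith
  have hkey : (p : ℝ) ^ ((2 / 27 - δ) * (n : ℝ) ^ 3) ≤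
      (p : ℝ) ^ (-(1 / 10 : ℝ) * (n : ℝ) ^ 2) * gp p n := by
    have h1 : (p : ℝ) ^ (-(1 / 10 : ℝ) * (n : ℝ) ^ 2) *
        (p : ℝ) ^ (2 / 27 * (n : ℝ) ^ 3 - C * (n : ℝ) ^ 2) ≤
        (p : ℝ) ^ (-(1 / 10 : ℝ) * (n : ℝ) ^ 2) * gp p n :=
      mul_le_mul_of_nonneg_left k4 (Real.rpow_nonneg hp0.le _)
    refine le_trans ?_ h1
    rw [← Real.rpow_add hp0]
    refine Real.rpow_le_rpow_of_exponent_le hp1.le ?_
    have h2 : (C + 1) / δ ≤ n := (Nat.le_ceil _).trans (by exact_mod_cast k5)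
    have h3 : C + 1 ≤ n * δ := (div_le_iff₀ hδ).1 h2
    have h4 : (C + 1) * (n : ℝ) ^ 2 ≤ (n * δ) * (n : ℝ) ^ 2 :=
      mul_le_mul_of_nonneg_right h3 (by positivity)
    have h5 : (0 : ℝ) ≤ (n : ℝ) ^ 2 := by positivity
    nlinarith
  have hfin : (ip.{v} p n : ℝ) / gp p n ≤ 4 * (p : ℝ) ^ (-(1 / 10 : ℝ) * (n : ℝ) ^ 2) := by
    rw [div_le_iff₀ hgp]
    linarith
  refine hfin.trans ?_
  refine mul_le_mul_of_nonneg_left ?_ (by norm_num)
  rw [← Real.rpow_mul_natCast hp0.le]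
  refine Real.rpow_le_rpow_of_exponent_le hp1.le ?_
  have h6 : (n : ℝ) ≤ (n : ℝ) ^ 2 := by nlinarith
  nlinarith

end Pool.Agent.IG
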