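import Pool.Agent.IG.MarkA

/-!
# Marked groups: induced maps
-/

open Subgroup Module
open scoped commutatorElement

noncomputable section

namespace Pool.Agent.IG

namespace Mark

variable {p d k w : ℕ} [Fact p.Prime]

/-- the maps `A`, `B` are induced by the isomorphism `θ` -/
def Ind {m m' : Mark p d k w} (θ : m.grp ≃* m'.grp) (A : V p (FG d) →ₗ[ZMod p] V p (FG d))
    (B : XW p w →ₗ[ZMod p] XW p w) : Prop :=
  ∃ φ : FG d →* FG d, (∀ f : FG d, θ (f : m.grp) = (φ f : m'.grp)) ∧ vmap p φ = A ∧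
    ∀ (g : FG d) (hg : g ∈ m.N), ∃ h : φ g ∈ m'.N, m'.l.1 ⟨φ g, h⟩ = B (m.l.1 ⟨g, hg⟩)

theorem exists_ind {m m' : Mark p d k w} (θ : m.grp ≃* m'.grp) : ∃ A B, Ind θ A B := by
  choose out hout using (QuotientGroup.mk_surjective : Function.Surjective
    (QuotientGroup.mk : FG d → m'.grp))
  let φ : FG d →* FG d := FreeGroup.lift (fun i => out (θ ((FreeGroup.of i : FG d) : m.grp)))
  have hφ : ∀ f : FG d, θ (f : m.grp) = (φ f : m'.grp) := by
    intro f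
    have h : (θ.toMonoidHom.comp (QuotientGroup.mk' (kerS m.l))) =
        (QuotientGroup.mk' (kerS m'.l)).comp φ := by
      refine FreeGroup.ext_hom _ _ fun i => ?_
      simp only [MonoidHom.comp_apply, QuotientGroup.mk'_apply]
      rw [show φ (FreeGroup.of i) = out (θ ((FreeGroup.of i : FG d) : m.grp)) from
        FreeGroup.lift_apply_of, hout]
      rfl
    exact DFunLike.congr_fun h f
  obtain ⟨e, he⟩ := m.exists_eO
  obtain ⟨e', he'⟩ := m'.exists_eO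
  have hN : ∀ g : FG d, g ∈ m.N → φ g ∈ m'.N := by
    intro g hg
    rw [← m'.mem_Om_iff, ← hφ]
    exact Om_map p θ ((m.mem_Om_iff g).2 hg)
  refine ⟨vmap p φ, e'.toLinearMap ∘ₗ omap p θ ∘ₗ e.symm.toLinearMap, φ, hφ, rfl, ?_⟩
  intro g hg
  refine ⟨hN g hg, ?_⟩
  have hg' : (g : m.grp) ∈ Om p m.grp := (m.mem_Om_iff g).2 hg
  have h1 : e (mkO p (g : m.grp) hg') = m.l.1 ⟨g, hg⟩ := he _ g hg rfl
  rw [← h1]
  simp only [LinearMap.comp_apply, LinearEquiv.coe_coe, LinearEquiv.symm_apply_apply]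
  refine (he' _ (φ g) (hN g hg) ?_).symm
  rw [omap_val]
  exact hφ g

theorem ind_unique {m m' : Mark p d k w} {θ : m.grp ≃* m'.grp} {A A' : _} {B B' : _}
    (h : Ind θ A B) (h' : Ind θ A' B') : A = A' ∧ B = B' := by
  obtain ⟨φ, h1, rfl, h3⟩ := h
  obtain ⟨φ', h1', rfl, h3'⟩ := h'
  have key : ∀ f, (φ f)⁻¹ * φ' f ∈ kerS m'.l := by
    intro f
    rw [← QuotientGroup.eq, ← h1, ← h1']
  constructor
  · refine LinearMap.ext fun v => ?_
    obtain ⟨f, rfl⟩ := mkV_surjective p v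
    rw [vmap_mkV, vmap_mkV, mkV_eq_iff]
    exact m'.hN.2.1 (kerS_le _ (key f))
  · refine LinearMap.ext fun x => ?_
    obtain ⟨⟨g, hg⟩, rfl⟩ := m.surj x
    obtain ⟨h4, h5⟩ := h3 g hg
    obtain ⟨h4', h5'⟩ := h3' g hg
    rw [← h5, ← h5']
    obtain ⟨h6, h7⟩ := key g
    have h8 : (⟨φ' g, h4'⟩ : m'.N) = ⟨φ g, h4⟩ * ⟨(φ g)⁻¹ * φ' g, h6⟩ :=
      Subtype.ext (mul_inv_cancel_left _ _).symm
    rw [h8, m'.l.2.1, h7, add_zero]

theorem ind_trans {m m' m'' : Mark p d k w} {θ : m.grp ≃* m'.grp} {θ' : m'.grp ≃* m''.grp}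
    {A A' : _} {B B' : _} (h : Ind θ A B) (h' : Ind θ' A' B') :
    Ind (θ.trans θ') (A' ∘ₗ A) (B' ∘ₗ B) := by
  obtain ⟨φ, h1, rfl, h3⟩ := h
  obtain ⟨φ', h1', rfl, h3'⟩ := h'
  refine ⟨φ'.comp φ, ?_, ?_, ?_⟩
  · intro f
    rw [MulEquiv.trans_apply, h1, h1']
    rfl
  · refine LinearMap.ext fun v => ?_
    obtain ⟨f, rfl⟩ := mkV_surjective p v
    rfl
  · intro g hg
    obtain ⟨h4, h5⟩ := h3 g hg
    obtain ⟨h4', h5'⟩ := h3' (φ g) h4
    refine ⟨h4', ?_⟩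
    rw [LinearMap.comp_apply, ← h5, ← h5']
    rfl

theorem ind_refl (m : Mark p d k w) : Ind (MulEquiv.refl m.grp) LinearMap.id LinearMap.id := by
  refine ⟨MonoidHom.id _, fun f => rfl, ?_, fun g hg => ⟨hg, rfl⟩⟩
  refine LinearMap.ext fun v => ?_
  obtain ⟨f, rfl⟩ := mkV_surjective p v
  rfl

theorem ind_symm {m m' : Mark p d k w} {θ : m.grp ≃* m'.grp} {A : _} {B : _} (h : Ind θ A B) :
    ∃ A' B', Ind θ.symm A' B' ∧ A ∘ₗ A' = LinearMap.id ∧ A' ∘ₗ A = LinearMap.id ∧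
      B ∘ₗ B' = LinearMap.id ∧ B' ∘ₗ B = LinearMap.id := by
  obtain ⟨A', B', h'⟩ := exists_ind θ.symm
  have h1 := ind_trans h h'
  have h2 := ind_trans h' h
  rw [MulEquiv.self_trans_symm] at h1
  rw [MulEquiv.symm_trans_self] at h2
  obtain ⟨h3, h4⟩ := ind_unique h1 (ind_refl m)
  obtain ⟨h5, h6⟩ := ind_unique h2 (ind_refl m')
  exact ⟨A', B', h', h5, h3, h6, h4⟩

private theorem rk_conj {V W : Type} [AddCommGroup V] [Module (ZMod p) V] [AddCommGroup W]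
    [Module (ZMod p) W] (e : V ≃ₗ[ZMod p] W) (f : W →ₗ[ZMod p] W) (g : V →ₗ[ZMod p] V)
    (h : ∀ v, f (e v) = e (g v)) (μ : ZMod p) :
    rk (f - μ • LinearMap.id) = rk (g - μ • LinearMap.id) := by
  have h1 : (f - μ • LinearMap.id) = (e.toLinearMap ∘ₗ (g - μ • LinearMap.id)) ∘ₗ
      e.symm.toLinearMap := by
    refine LinearMap.ext fun v => ?_
    obtain ⟨v, rfl⟩ := e.surjective v
    simp only [LinearMap.sub_apply, LinearMap.smul_apply, LinearMap.id_apply, LinearMap.comp_apply,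
      LinearEquiv.coe_coe, LinearEquiv.symm_apply_apply, map_sub, map_smul, h]
  unfold rk
  rw [h1, LinearMap.range_comp_of_range_eq_top _ (LinearEquiv.range _), LinearMap.range_comp]
  exact (LinearEquiv.finrank_map_eq e _)

/-- ranks of `vmap α - μ`, `omap α - ν` can be computed with `A`, `B` -/
theorem rk_ind {m : Mark p d k w} {α : m.grp ≃* m.grp} {A : _} {B : _} (h : Ind α A B)
    (μ ν : ZMod p) : rk (vmap p α.toMonoidHom - μ • LinearMap.id) = rk (A - μ • LinearMap.id) ∧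
      rk (omap p α - ν • LinearMap.id) = rk (B - ν • LinearMap.id) := by
  obtain ⟨φ, h1, rfl, h3⟩ := h
  constructor
  · obtain ⟨e, he⟩ := m.exists_eV
    refine rk_conj e _ _ (fun v => ?_) μ
    obtain ⟨f, rfl⟩ := mkV_surjective p v
    rw [he, vmap_mkV, vmap_mkV, he]
    exact congrArg _ (h1 f)
  · obtain ⟨e, he⟩ := m.exists_eO
    refine (rk_conj e _ _ (fun z => ?_) ν).symm
    obtain ⟨g, hg⟩ := QuotientGroup.mk_surjective z.val
    have hg' : g ∈ m.N := by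
      rw [← m.mem_Om_iff, hg]
      exact z.val_mem
    obtain ⟨h4, h5⟩ := h3 g hg'
    rw [he z g hg' hg.symm, ← h5]
    refine (he _ _ h4 ?_).symm
    rw [omap_val, ← hg]
    exact h1 g

end Mark

end Pool.Agent.IG
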