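import Pool.Agent.IG.Mult

/-!
# Marked groups: `G = F / ker l` with `l : N → F_p ^ w` invariant and `N / ker l = Om (F / ker l)`
-/

open Subgroup Module
open scoped commutatorElement

noncomputable section

namespace Pool.Agent.IG

/-- the model of `Om` -/
abbrev XW (p w : ℕ) : Type := Fin w → ZMod p

section Aux

variable {p : ℕ}

/-- the Frattini subgroup of the free group has index `p ^ d` -/
theorem index_Phi_FG (p d : ℕ) [Fact p.Prime] : (Phi p (FG d)).index = p ^ d := by
  obtain ⟨b, -⟩ := basis_V_FG p d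
  have hfin : Module.Finite (ZMod p) (V p (FG d)) := Module.Finite.of_basis b
  have h : Nat.card (V p (FG d)) = p ^ d := by
    rw [Module.natCard_eq_pow_finrank (K := ZMod p), finrank_V_FG, Nat.card_zmod]
  rw [← h]; rfl

/-- an invariant homomorphism as a homomorphism -/
def IHom.toHom {G : Type} [Group G] {N : Subgroup G} {X : Type} [AddCommGroup X]
    (l : IHom N X) : N →* Multiplicative X where
  toFun u := Multiplicative.ofAdd (l.1 u)
  map_one' := by rw [IHom_one l.2]; rfl
  map_mul' a b := by rw [l.2.1 a b]; rfl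

theorem IHom.toHom_ker {G : Type} [Group G] {N : Subgroup G} {X : Type} [AddCommGroup X]
    (l : IHom N X) : (IHom.toHom l).ker = (kerS l).subgroupOf N := by
  ext u
  rw [MonoidHom.mem_ker, mem_subgroupOf, mem_kerS]
  constructor
  · intro h
    exact ⟨u.2, h⟩
  · rintro ⟨_, h⟩
    exact h

theorem IHom.relIndex_kerS {G : Type} [Group G] {N : Subgroup G} {X : Type} [AddCommGroup X]
    (l : IHom N X) (hs : Function.Surjective l.1) : (kerS l).relIndex N = Nat.card X := by
  rw [relIndex, ← IHom.toHom_ker, index_ker]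
  have h : (IHom.toHom l).range = ⊤ := by
    rw [MonoidHom.range_eq_top]
    intro x
    obtain ⟨u, hu⟩ := hs (Multiplicative.toAdd x)
    exact ⟨u, by change Multiplicative.ofAdd (l.1 u) = x; rw [hu]; rfl⟩
  rw [h]
  exact Nat.card_congr (Subgroup.topEquiv.toEquiv.trans Multiplicative.toAdd)

/-- elements of a normal subgroup whose class is a Frattini element -/
theorem mk_mem_Phi_iff {G : Type} [Group G] {K : Subgroup G} [K.Normal] (hK : K ≤ Phi p G) (g : G) :
    (g : G ⧸ K) ∈ Phi p (G ⧸ K) ↔ g ∈ Phi p G := by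
  constructor
  · intro h
    have h1 : Phi p (G ⧸ K) ≤ (Phi p G).map (QuotientGroup.mk' K) := by
      rw [Phi_le_iff]
      constructor
      · intro a b
        obtain ⟨a, rfl⟩ := QuotientGroup.mk'_surjective K a
        obtain ⟨b, rfl⟩ := QuotientGroup.mk'_surjective K b
        rw [← map_commutatorElement]
        exact mem_map_of_mem _ (comm_mem_Phi p a b)
      · intro a
        obtain ⟨a, rfl⟩ := QuotientGroup.mk'_surjective K a
        rw [← map_pow]
        exact mem_map_of_mem _ (pow_mem_Phi p a)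
    have h2 : g ∈ ((Phi p G).map (QuotientGroup.mk' K)).comap (QuotientGroup.mk' K) := h1 h
    rw [QuotientGroup.comap_map_mk', sup_eq_right.2 hK] at h2
    exact h2
  · intro h
    exact Phi_map_le p (QuotientGroup.mk' K) h

/-- elements of the quotient in the derived subgroup -/
theorem mk_mem_commutator_iff {G : Type} [Group G] (K : Subgroup G) [K.Normal] (g : G) :
    (g : G ⧸ K) ∈ commutator (G ⧸ K) ↔ g ∈ commutator G ⊔ K := by
  have h1 : commutator (G ⧸ K) = (commutator G).map (QuotientGroup.mk' K) := by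
    rw [_root_.commutator_def, _root_.commutator_def, Subgroup.map_commutator,
      ← MonoidHom.range_eq_map, MonoidHom.range_eq_top.2 (QuotientGroup.mk'_surjective K)]
  rw [h1, sup_comm, ← QuotientGroup.comap_map_mk']
  rfl

/-- membership in `Om` of a quotient -/
theorem mk_mem_Om_iff {G : Type} [Group G] (K : Subgroup G) [K.Normal] (g : G) :
    (g : G ⧸ K) ∈ Om p (G ⧸ K) ↔ (∀ f : G, ⁅g, f⁆ ∈ K) ∧ g ∈ commutator G ⊔ K ∧ g ^ p ∈ K := by
  rw [mem_Om, mk_mem_commutator_iff, ← QuotientGroup.mk_pow, QuotientGroup.eq_one_iff,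
    mem_center_iff]
  refine and_congr ⟨fun h f => ?_, fun h x => ?_⟩ Iff.rfl
  · have h1 := h (f : G ⧸ K)
    rw [← QuotientGroup.eq_one_iff]
    change ⁅(g : G ⧸ K), (f : G ⧸ K)⁆ = 1
    rw [commutatorElement_eq_one_iff_mul_comm]
    exact h1.symm
  · obtain ⟨f, rfl⟩ := QuotientGroup.mk_surjective x
    have h1 := (QuotientGroup.eq_one_iff _).2 (h f)
    change ⁅(g : G ⧸ K), (f : G ⧸ K)⁆ = 1 at h1
    rw [commutatorElement_eq_one_iff_mul_comm] at h1
    exact h1.symm

end Aux

/-- a marked group with `d` generators, `dim Om = w`, `|Phi / Om| = p ^ k` -/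
structure Mark (p d k w : ℕ) [Fact p.Prime] where
  N : Subgroup (FG d)
  hN : N ∈ PSub p d k
  l : IHom N (XW p w)
  surj : Function.Surjective l.1
  hOm : ∀ g : FG d, g ∈ N ↔ (∀ f : FG d, ⁅g, f⁆ ∈ kerS l) ∧
    g ∈ commutator (FG d) ⊔ kerS l ∧ g ^ p ∈ kerS l

namespace Mark

variable {p d k w : ℕ} [Fact p.Prime]

instance (m : Mark p d k w) : m.N.Normal := m.hN.1

/-- the group of a marking -/
abbrev grp (m : Mark p d k w) : Type := FG d ⧸ kerS m.l

theorem kerS_le_Phi (m : Mark p d k w) : kerS m.l ≤ Phi p (FG d) := (kerS_le m.l).trans m.hN.2.1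

theorem card_grp (m : Mark p d k w) : Nat.card m.grp = p ^ (d + k + w) := by
  have h0 : Nat.card m.grp = (kerS m.l).index := rfl
  have h1 : (kerS m.l).relIndex m.N = p ^ w := by
    rw [IHom.relIndex_kerS m.l m.surj, Nat.card_fun, Nat.card_zmod, Nat.card_eq_fintype_card,
      Fintype.card_fin]
  rw [h0, ← relIndex_mul_index (kerS_le m.l), ← relIndex_mul_index m.hN.2.1, h1, m.hN.2.2,
    index_Phi_FG]
  ring

theorem finite_grp (m : Mark p d k w) : Finite m.grp :=
  Nat.finite_of_card_ne_zero (by rw [m.card_grp]; exact pow_ne_zero _ (Fact.out : p.Prime).ne_zero)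

theorem mem_Om_iff (m : Mark p d k w) (g : FG d) :
    (g : m.grp) ∈ Om p m.grp ↔ g ∈ m.N := by
  rw [mk_mem_Om_iff, m.hOm g]

/-- the Frattini quotient of the group of a marking -/
theorem exists_eV (m : Mark p d k w) : ∃ e : V p (FG d) ≃ₗ[ZMod p] V p m.grp,
    ∀ g : FG d, e (mkV p g) = mkV p (g : m.grp) := by
  refine ⟨LinearEquiv.ofBijective (vmap p (QuotientGroup.mk' (kerS m.l))) ⟨?_, ?_⟩, fun g => rfl⟩
  · rw [← LinearMap.ker_eq_bot, LinearMap.ker_eq_bot']
    intro v hv
    obtain ⟨g, rfl⟩ := mkV_surjective p v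
    rw [vmap_mkV, mkV_eq_zero_iff] at hv
    rw [mkV_eq_zero_iff]
    exact (mk_mem_Phi_iff m.kerS_le_Phi g).1 hv
  · intro v
    obtain ⟨x, rfl⟩ := mkV_surjective p v
    obtain ⟨g, rfl⟩ := QuotientGroup.mk'_surjective _ x
    exact ⟨mkV p g, rfl⟩

/-- `Om` of the group of a marking -/
theorem exists_eO (m : Mark p d k w) : ∃ e : OV p m.grp ≃ₗ[ZMod p] XW p w,
    ∀ (z : OV p m.grp) (g : FG d) (hg : g ∈ m.N), z.val = (g : m.grp) → e z = m.l.1 ⟨g, hg⟩ := by
  classical
  have hrep : ∀ z : OV p m.grp, ∃ g : FG d, (g : m.grp) = z.val := fun z =>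
    QuotientGroup.mk_surjective _
  choose r hr using hrep
  have hrN : ∀ z, r z ∈ m.N := fun z => by
    rw [← m.mem_Om_iff, hr]; exact z.val_mem
  have hwd : ∀ (z : OV p m.grp) (g : FG d) (hg : g ∈ m.N), z.val = (g : m.grp) →
      m.l.1 ⟨r z, hrN z⟩ = m.l.1 ⟨g, hg⟩ := by
    intro z g hg h
    rw [← hr z, QuotientGroup.eq, mem_kerS] at h
    obtain ⟨h1, h2⟩ := h
    have h3 := m.l.2.1 ⟨r z, hrN z⟩ ⟨(r z)⁻¹ * g, h1⟩
    have h4 : (⟨r z, hrN z⟩ : m.N) * ⟨(r z)⁻¹ * g, h1⟩ = ⟨g, hg⟩ :=
      Subtype.ext (mul_inv_cancel_left _ _)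
    rw [h4, h2, add_zero] at h3
    exact h3.symm
  have hadd : ∀ z z' : OV p m.grp, m.l.1 ⟨r (z + z'), hrN _⟩ =
      m.l.1 ⟨r z, hrN z⟩ + m.l.1 ⟨r z', hrN z'⟩ := by
    intro z z'
    rw [← m.l.2.1]
    refine hwd _ (r z * r z') (mul_mem (hrN z) (hrN z')) ?_
    rw [QuotientGroup.mk_mul, hr, hr]
    rfl
  let e0 : OV p m.grp →+ XW p w :=
    { toFun := fun z => m.l.1 ⟨r z, hrN z⟩
      map_zero' := by
        have h := hadd 0 0
        rw [add_zero] at h
        simpa using h.symm
      map_add' := hadd }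
  refine ⟨LinearEquiv.ofBijective (AddMonoidHom.toZModLinearMap p e0) ⟨?_, ?_⟩, fun z g hg h =>
    hwd z g hg h⟩
  · rw [← LinearMap.ker_eq_bot, LinearMap.ker_eq_bot']
    intro z hz
    have h1 : m.l.1 ⟨r z, hrN z⟩ = 0 := hz
    have h2 : r z ∈ kerS m.l := ⟨hrN z, h1⟩
    have h3 : z.val = 1 := by
      rw [← hr z]
      exact (QuotientGroup.eq_one_iff _).2 h2
    exact Additive.toMul.injective (Subtype.ext h3)
  · intro v
    obtain ⟨u, hu⟩ := m.surj v
    refine ⟨mkO p (u.1 : m.grp) ((m.mem_Om_iff _).2 u.2), ?_⟩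
    rw [← hu]
    exact hwd _ u.1 u.2 rfl

theorem dd_grp (m : Mark p d k w) : dd p m.grp = d := by
  obtain ⟨e, -⟩ := m.exists_eV
  rw [dd, ← e.finrank_eq, finrank_V_FG]

theorem om_grp (m : Mark p d k w) : om p m.grp = w := by
  obtain ⟨e, -⟩ := m.exists_eO
  rw [om, e.finrank_eq, Module.finrank_fin_fun]

/-- a generating tuple gives a marking -/
theorem exists_mark {G : Type} [Group G] {n : ℕ} (hG : Nat.card G = p ^ n)
    (x : Fin (dd p G) → G) (hx : closure (Set.range x) = ⊤) :
    ∃ k, dd p G + k + om p G = n ∧ ∃ (m : Mark p (dd p G) k (om p G)) (e : G ≃* m.grp),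
      ∀ i, e (x i) = (FreeGroup.of i : FG (dd p G)) := by
  have hp : p.Prime := Fact.out
  have hfin : Finite G := Nat.finite_of_card_ne_zero (by rw [hG]; exact pow_ne_zero _ hp.ne_zero)
  set f : FG (dd p G) →* G := FreeGroup.lift x with hf
  have hfs : Function.Surjective f := by
    rw [← MonoidHom.range_eq_top, hf, FreeGroup.range_lift_eq_closure, hx]
  -- the map on Frattini quotients is bijective
  obtain ⟨b, -⟩ := basis_V_FG p (dd p G)
  have hfinV : Module.Finite (ZMod p) (V p (FG (dd p G))) := Module.Finite.of_basis b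
  have hvs : Function.Surjective (vmap p f) := by
    intro v
    obtain ⟨y, rfl⟩ := mkV_surjective p v
    obtain ⟨g, rfl⟩ := hfs y
    exact ⟨mkV p g, rfl⟩
  have hvi : Function.Injective (vmap p f) := by
    refine (LinearMap.injective_iff_surjective_of_finrank_eq_finrank ?_).2 hvs
    rw [finrank_V_FG]; rfl
  have hPhi : ∀ g, f g ∈ Phi p G → g ∈ Phi p (FG (dd p G)) := by
    intro g hg
    rw [← mkV_eq_zero_iff] at hg ⊢
    exact hvi (by rw [vmap_mkV, hg, map_zero])
  set N : Subgroup (FG (dd p G)) := (Om p G).comap f with hN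
  have hNn : N.Normal := (Om_normal p).comap f
  have hNPhi : N ≤ Phi p (FG (dd p G)) := fun g hg => hPhi g (Om_le_Phi p hg)
  -- indices
  have hle : dd p G + om p G ≤ n := dd_add_om_le hG
  have hind : N.relIndex (Phi p (FG (dd p G))) = p ^ (n - dd p G - om p G) := by
    have h1 : N.relIndex (Phi p (FG (dd p G))) * (Phi p (FG (dd p G))).index = N.index :=
      relIndex_mul_index hNPhi
    have h2 : N.index = (Om p G).index := index_comap_of_surjective _ hfs
    have h3 : Nat.card (Om p G) * (Om p G).index = Nat.card G := card_mul_index _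
    rw [card_OV, hG] at h3
    rw [index_Phi_FG, h2] at h1
    rw [← h1] at h3
    have h4 : p ^ n = p ^ om p G * (p ^ (n - dd p G - om p G) * p ^ dd p G) := by
      rw [← pow_add, ← pow_add]
      congr 1
      omega
    rw [h4] at h3
    have h5 := Nat.eq_of_mul_eq_mul_left (pow_pos hp.pos _) h3
    exact Nat.eq_of_mul_eq_mul_right (pow_pos hp.pos _) h5
  have hPS : N ∈ PSub p (dd p G) (n - dd p G - om p G) := ⟨hNn, hNPhi, hind⟩
  -- the invariant homomorphism
  let bO : Basis (Fin (om p G)) (ZMod p) (OV p G) := Module.finBasis (ZMod p) (OV p G)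
  have hmem : ∀ u : N, f u.1 ∈ Om p G := fun u => u.2
  let l0 : N → XW p (om p G) := fun u => bO.equivFun (mkO p (f u.1) (hmem u))
  have hl0 : l0 ∈ IHom N (XW p (om p G)) := by
    constructor
    · intro u v
      change bO.equivFun _ = bO.equivFun _ + bO.equivFun _
      rw [← map_add]
      congr 1
      refine Additive.toMul.injective (Subtype.ext ?_)
      change f (u.1 * v.1) = f u.1 * f v.1
      exact map_mul f _ _
    · intro g a b' hab
      change bO.equivFun _ = bO.equivFun _
      congr 1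
      refine Additive.toMul.injective (Subtype.ext ?_)
      change f b'.1 = f a.1
      rw [hab, map_mul, map_mul, map_inv]
      have h1 := mem_center_iff.1 (hmem a).1 (f g)
      rw [h1, mul_inv_cancel_right]
  let l : IHom N (XW p (om p G)) := ⟨l0, hl0⟩
  have hsurj : Function.Surjective l.1 := by
    intro v
    obtain ⟨g, hg⟩ := hfs (bO.equivFun.symm v).val
    have hgN : g ∈ N := by
      rw [hN, mem_comap, hg]
      exact OV.val_mem p _
    refine ⟨⟨g, hgN⟩, ?_⟩
    change bO.equivFun _ = v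
    rw [← LinearEquiv.eq_symm_apply]
    exact Additive.toMul.injective (Subtype.ext hg)
  have hker : kerS l = f.ker := by
    ext g
    rw [mem_kerS, MonoidHom.mem_ker]
    constructor
    · rintro ⟨h1, h2⟩
      change bO.equivFun _ = 0 at h2
      rw [LinearEquiv.map_eq_zero_iff] at h2
      exact congrArg (OV.val p) h2
    · intro h
      have h1 : g ∈ N := by
        rw [hN, mem_comap, h]; exact one_mem _
      refine ⟨h1, ?_⟩
      change bO.equivFun _ = 0
      rw [LinearEquiv.map_eq_zero_iff]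
      exact Additive.toMul.injective (Subtype.ext h)
  let e0 : FG (dd p G) ⧸ kerS l ≃* G :=
    (QuotientGroup.quotientMulEquivOfEq hker).trans
      (QuotientGroup.quotientKerEquivOfSurjective f hfs)
  have he0 : ∀ g : FG (dd p G), e0 (g : FG (dd p G) ⧸ kerS l) = f g := fun g => rfl
  have hOm : ∀ g : FG (dd p G), g ∈ N ↔ (∀ f : FG (dd p G), ⁅g, f⁆ ∈ kerS l) ∧
      g ∈ commutator (FG (dd p G)) ⊔ kerS l ∧ g ^ p ∈ kerS l := by
    intro g
    rw [← mk_mem_Om_iff]
    constructor
    · intro h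
      have h1 : (g : FG (dd p G) ⧸ kerS l) = e0.symm (f g) := by
        rw [← he0, MulEquiv.symm_apply_apply]
      rw [h1]
      exact Om_map p e0.symm h
    · intro h
      have h1 := Om_map p e0 h
      rw [he0] at h1
      exact h1
  refine ⟨n - dd p G - om p G, by omega, ⟨N, hPS, l, hsurj, hOm⟩, e0.symm, ?_⟩
  intro i
  rw [MulEquiv.symm_apply_eq, he0, hf, FreeGroup.lift_apply_of]

theorem exists_gen {G : Type} [Group G] [Finite G] (hG : IsPGroup p G) :
    ∃ x : Fin (dd p G) → G, closure (Set.range x) = ⊤ := by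
  let b : Basis (Fin (dd p G)) (ZMod p) (V p G) := Module.finBasis (ZMod p) (V p G)
  choose x hx using fun i => mkV_surjective p (b i)
  refine ⟨x, (closure_eq_top_iff hG x).2 ?_⟩
  have h : (fun i => mkV p (x i)) = b := funext hx
  rw [h, b.span_eq]

end Mark

end Pool.Agent.IG
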