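import Pool.Agent.IG.MultA

/-!
# Invariant homomorphisms on `Phi` of the free group
-/

open Subgroup Module
open scoped commutatorElement

set_option linter.unusedSectionVars false

noncomputable section

namespace Pool.Agent.IG

variable {p : ℕ} [Fact p.Prime] {d : ℕ}

/-! ### auxiliary constructions -/

section Aux

/-- homomorphisms to `F_p`-spaces factor through the Frattini quotient -/
def vlift {G X : Type} [Group G] [AddCommGroup X] [Module (ZMod p) X]
    (f : G →* Multiplicative X) : V p G →ₗ[ZMod p] X :=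
  AddMonoidHom.toZModLinearMap p
    (MonoidHom.toAdditiveLeft (QuotientGroup.lift (Phi p G) f (by
      intro x hx
      have h : Phi p G ≤ f.ker := by
        rw [Phi_le_iff]
        refine ⟨fun a b => ?_, fun a => ?_⟩
        · rw [MonoidHom.mem_ker, map_commutatorElement, commutatorElement_eq_one_iff_mul_comm,
            mul_comm]
        · rw [MonoidHom.mem_ker, map_pow]
          change Multiplicative.ofAdd (p • Multiplicative.toAdd (f a)) = 1
          rw [← Nat.cast_smul_eq_nsmul (ZMod p), CharP.cast_eq_zero, zero_smul]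
          rfl
      exact h hx)))

theorem vlift_mkV {G X : Type} [Group G] [AddCommGroup X] [Module (ZMod p) X]
    (f : G →* Multiplicative X) (x : G) : vlift (p := p) f (mkV p x) =
      Multiplicative.toAdd (f x) := rfl

/-- the class map as a homomorphism -/
def mkVhom (p : ℕ) [Fact p.Prime] (G : Type) [Group G] : G →* Multiplicative (V p G) where
  toFun x := Multiplicative.ofAdd (mkV p x)
  map_one' := rfl
  map_mul' _ _ := rfl

theorem exists_equiv_FG (p d : ℕ) [Fact p.Prime] :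
    ∃ e : V p (FG d) ≃ₗ[ZMod p] (Fin d → ZMod p),
      ∀ i, e (mkV p (FreeGroup.of i)) = Pi.single i 1 := by
  classical
  let f : FG d →* Multiplicative (Fin d → ZMod p) :=
    FreeGroup.lift fun i => Multiplicative.ofAdd (Pi.single i 1)
  have hf : ∀ i, vlift (p := p) f (mkV p (FreeGroup.of i)) = Pi.single i 1 := by
    intro i
    rw [vlift_mkV]
    simp [f]
  let g : (Fin d → ZMod p) →ₗ[ZMod p] V p (FG d) :=
    Fintype.linearCombination (ZMod p) fun i => mkV p (FreeGroup.of i)
  have hg : ∀ i, g (Pi.single i 1) = mkV p (FreeGroup.of i) := by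
    intro i
    simp [g, Fintype.linearCombination_apply_single]
  have h1 : vlift (p := p) f ∘ₗ g = LinearMap.id := by
    refine LinearMap.pi_ext' fun i => LinearMap.ext_ring ?_
    simp only [LinearMap.comp_apply, LinearMap.single_apply, LinearMap.id_apply]
    rw [hg, hf]
  have h2 : g ∘ₗ vlift (p := p) f = LinearMap.id := by
    refine LinearMap.ext fun v => ?_
    obtain ⟨x, rfl⟩ := mkV_surjective p v
    have h3 : (AddMonoidHom.toMultiplicative g.toAddMonoidHom).comp f = mkVhom p (FG d) := by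
      refine FreeGroup.ext_hom _ _ fun i => ?_
      change Multiplicative.ofAdd (g (Multiplicative.toAdd (f (FreeGroup.of i)))) = _
      have : Multiplicative.toAdd (f (FreeGroup.of i)) = Pi.single i 1 := by simp [f]
      rw [this, hg]
      rfl
    have h4 := DFunLike.congr_fun h3 x
    exact congrArg Multiplicative.toAdd h4
  exact ⟨LinearEquiv.ofLinearMap (vlift f) g h1 h2, hf⟩

end Aux

/-! ### invariant homomorphisms on `Phi` -/

theorem finrank_V_FG (p d : ℕ) [Fact p.Prime] : finrank (ZMod p) (V p (FG d)) = d := by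
  obtain ⟨e, -⟩ := exists_equiv_FG p d
  rw [e.finrank_eq, Module.finrank_fin_fun]

theorem basis_V_FG (p d : ℕ) [Fact p.Prime] : ∃ b : Basis (Fin d) (ZMod p) (V p (FG d)),
    ∀ i, b i = mkV p (FreeGroup.of i) := by
  obtain ⟨e, he⟩ := exists_equiv_FG p d
  refine ⟨Basis.ofEquivFun e, fun i => ?_⟩
  rw [Basis.coe_ofEquivFun]
  change e.symm (Pi.single i 1) = _
  rw [← he i, LinearEquiv.symm_apply_apply]

/-- additive functions on `Phi` which agree on commutators and `p`-th powers are equal -/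
theorem ext_Phi {G X : Type} [Group G] [AddCommGroup X] {l l' : Phi p G → X}
    (hl : ∀ a b, l (a * b) = l a + l b) (hl' : ∀ a b, l' (a * b) = l' a + l' b)
    (h1 : ∀ f g, l ⟨⁅f, g⁆, comm_mem_Phi p f g⟩ = l' ⟨⁅f, g⁆, comm_mem_Phi p f g⟩)
    (h2 : ∀ f, l ⟨f ^ p, pow_mem_Phi p f⟩ = l' ⟨f ^ p, pow_mem_Phi p f⟩) : l = l' := by
  let L : Phi p G →* Multiplicative X :=
    { toFun := fun a => Multiplicative.ofAdd (l a)
      map_one' := by
        have h := hl 1 1
        rw [mul_one] at h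
        have h' : l 1 = 0 := by simpa using h.symm
        rw [h']; rfl
      map_mul' := fun a b => by rw [hl]; rfl }
  let L' : Phi p G →* Multiplicative X :=
    { toFun := fun a => Multiplicative.ofAdd (l' a)
      map_one' := by
        have h := hl' 1 1
        rw [mul_one] at h
        have h' : l' 1 = 0 := by simpa using h.symm
        rw [h']; rfl
      map_mul' := fun a b => by rw [hl']; rfl }
  have h3 : Phi p G ≤ (L.eqLocus L').map (Phi p G).subtype := by
    rw [Phi_le_iff]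
    exact ⟨fun a b => ⟨⟨⁅a, b⁆, comm_mem_Phi p a b⟩, congrArg Multiplicative.ofAdd (h1 a b), rfl⟩,
      fun a => ⟨⟨a ^ p, pow_mem_Phi p a⟩, congrArg Multiplicative.ofAdd (h2 a), rfl⟩⟩
  funext u
  obtain ⟨u', hu', h4⟩ := h3 u.2
  have h5 : u' = u := Subtype.ext h4
  rw [← h5]
  exact congrArg Multiplicative.toAdd hu'

section Form

/-- the group `V × X` with the multiplication twisted by a bilinear map -/
structure HGr {V X : Type} [AddCommGroup V] [Module (ZMod p) V] [AddCommGroup X] [Module (ZMod p) X]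
    (b : V →ₗ[ZMod p] V →ₗ[ZMod p] X) : Type where
  fst : V
  snd : X

namespace HGr

variable {V X : Type} [AddCommGroup V] [Module (ZMod p) V] [AddCommGroup X] [Module (ZMod p) X]
    {b : V →ₗ[ZMod p] V →ₗ[ZMod p] X}

@[ext] theorem ext' {x y : HGr b} (h1 : x.fst = y.fst) (h2 : x.snd = y.snd) : x = y := by
  cases x; cases y; cases h1; cases h2; rfl

instance : Mul (HGr b) := ⟨fun x y => ⟨x.fst + y.fst, x.snd + y.snd + b x.fst y.fst⟩⟩
instance : One (HGr b) := ⟨⟨0, 0⟩⟩
instance : Inv (HGr b) := ⟨fun x => ⟨-x.fst, -x.snd + b x.fst x.fst⟩⟩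

theorem mul_fst (x y : HGr b) : (x * y).fst = x.fst + y.fst := rfl
theorem mul_snd (x y : HGr b) : (x * y).snd = x.snd + y.snd + b x.fst y.fst := rfl
theorem one_fst : (1 : HGr b).fst = 0 := rfl
theorem one_snd : (1 : HGr b).snd = 0 := rfl
theorem inv_fst (x : HGr b) : (x⁻¹).fst = -x.fst := rfl
theorem inv_snd (x : HGr b) : (x⁻¹).snd = -x.snd + b x.fst x.fst := rfl

instance : Group (HGr b) :=
  Group.ofLeftAxioms
    (by
      intro x y z
      refine ext' ?_ ?_
      · simp only [mul_fst, add_assoc]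
      · simp only [mul_snd, mul_fst, map_add, LinearMap.add_apply]; abel)
    (by
      intro x
      refine ext' ?_ ?_
      · simp only [mul_fst, one_fst, zero_add]
      · simp only [mul_snd, one_fst, one_snd, map_zero, LinearMap.zero_apply, add_zero, zero_add])
    (by
      intro x
      refine ext' ?_ ?_
      · simp only [mul_fst, inv_fst, one_fst]; abel
      · simp only [mul_snd, inv_snd, inv_fst, one_snd, map_neg, LinearMap.neg_apply]; abel)

end HGr

end Form

/-- the invariant homomorphism of a bilinear map -/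
theorem exists_formHom {X : Type} [AddCommGroup X] [Module (ZMod p) X]
    (b : V p (FG d) →ₗ[ZMod p] V p (FG d) →ₗ[ZMod p] X) :
    ∃ l ∈ IHom (Phi p (FG d)) X, ∀ (f g : FG d),
      l ⟨⁅f, g⁆, comm_mem_Phi p f g⟩ = b (mkV p f) (mkV p g) - b (mkV p g) (mkV p f) := by
  let Φ : FG d →* HGr b := FreeGroup.lift fun i => ⟨mkV p (FreeGroup.of i), 0⟩
  have hfst : ∀ g, (Φ g).fst = mkV p g := by
    let π : HGr b →* Multiplicative (V p (FG d)) :=
      { toFun := fun x => Multiplicative.ofAdd x.fst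
        map_one' := rfl
        map_mul' := fun _ _ => rfl }
    have h : π.comp Φ = mkVhom p (FG d) := by
      refine FreeGroup.ext_hom _ _ fun i => ?_
      simp only [MonoidHom.comp_apply, Φ, FreeGroup.lift_apply_of]
      rfl
    intro g
    exact congrArg Multiplicative.toAdd (DFunLike.congr_fun h g)
  have hsnd : ∀ f g, (Φ (f * g)).snd = (Φ f).snd + (Φ g).snd + b (mkV p f) (mkV p g) := by
    intro f g
    rw [map_mul, HGr.mul_snd, hfst, hfst]
  have hzero : ∀ g ∈ Phi p (FG d), mkV p g = 0 := fun g hg => (mkV_eq_zero_iff p g).2 hg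
  refine ⟨fun u => (Φ u.1).snd, ⟨fun u v => ?_, fun g u v h => ?_⟩, fun f g => ?_⟩
  · change (Φ (u.1 * v.1)).snd = (Φ u.1).snd + (Φ v.1).snd
    rw [hsnd, hzero _ u.2]
    simp
  · have h1 : v.1 * g = g * u.1 := by rw [h]; group
    have h2 := hsnd v.1 g
    rw [h1, hsnd, hzero _ u.2, hzero _ v.2] at h2
    simp only [map_zero, LinearMap.zero_apply, add_zero] at h2
    rw [add_comm] at h2
    exact (add_right_cancel h2).symm
  · have h1 : ⁅f, g⁆ * (g * f) = f * g := by rw [commutatorElement_def]; group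
    have h2 := hsnd ⁅f, g⁆ (g * f)
    rw [h1, hsnd f g, hsnd g f, hzero _ (comm_mem_Phi p f g)] at h2
    simp only [map_zero, LinearMap.zero_apply, add_zero] at h2
    change (Φ ⁅f, g⁆).snd = _
    have h3 : (Φ ⁅f, g⁆).snd = ((Φ f).snd + (Φ g).snd + b (mkV p f) (mkV p g)) -
        ((Φ g).snd + (Φ f).snd + b (mkV p g) (mkV p f)) := by
      rw [h2]; abel
    rw [h3]; abel

/-- the invariant homomorphism `f ^ p ↦ f` -/
theorem exists_piHom (p d : ℕ) [Fact p.Prime] : ∃ l ∈ IHom (Phi p (FG d)) (V p (FG d)),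
    (∀ f : FG d, l ⟨f ^ p, pow_mem_Phi p f⟩ = mkV p f) ∧
    ∀ (f : FG d) (hf : f ∈ commutator (FG d)), l ⟨f, commutator_le_Phi p hf⟩ = 0 := by
  classical
  have hp : p.Prime := Fact.out
  have hp0 : (p : ℤ) ≠ 0 := by exact_mod_cast hp.ne_zero
  let a : FG d →* Multiplicative (Fin d → ℤ) :=
    FreeGroup.lift fun i => Multiplicative.ofAdd (Pi.single i 1)
  let A : FG d → Fin d → ℤ := fun f => Multiplicative.toAdd (a f)
  have hA : ∀ f g, A (f * g) = A f + A g := fun f g => by
    change Multiplicative.toAdd (a (f * g)) = _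
    rw [map_mul]; rfl
  have hA1 : A 1 = 0 := by
    change Multiplicative.toAdd (a 1) = _
    rw [map_one]; rfl
  have hApow : ∀ f (n : ℕ), A (f ^ n) = n • A f := fun f n => by
    change Multiplicative.toAdd (a (f ^ n)) = _
    rw [map_pow]; rfl
  have hAinv : ∀ f, A (f⁻¹) = - A f := fun f => by
    change Multiplicative.toAdd (a (f⁻¹)) = _
    rw [map_inv]; rfl
  have hAcomm : ∀ f ∈ commutator (FG d), A f = 0 := by
    intro f hf
    have h : commutator (FG d) ≤ a.ker := by
      rw [_root_.commutator_def, Subgroup.commutator_le]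
      intro x _ y _
      rw [MonoidHom.mem_ker, map_commutatorElement, commutatorElement_eq_one_iff_mul_comm, mul_comm]
    exact congrArg Multiplicative.toAdd (MonoidHom.mem_ker.1 (h hf))
  -- divisibility
  have hdiv : ∀ u ∈ Phi p (FG d), ∀ i, (p : ℤ) ∣ A u i := by
    let S : Subgroup (FG d) :=
      { carrier := {u | ∀ i, (p : ℤ) ∣ A u i}
        mul_mem' := fun {x y} hx hy i => by
          rw [hA]; exact dvd_add (hx i) (hy i)
        one_mem' := fun i => by rw [hA1]; exact dvd_zero _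
        inv_mem' := fun {x} hx i => by
          rw [hAinv]; exact (dvd_neg).2 (hx i) }
    have hS : Phi p (FG d) ≤ S := by
      rw [Phi_le_iff]
      refine ⟨fun x y i => ?_, fun x i => ?_⟩
      · rw [hAcomm _ (commutator_mem_commutator (mem_top x) (mem_top y))]
        exact dvd_zero _
      · rw [hApow, Pi.smul_apply, nsmul_eq_mul]
        exact dvd_mul_right _ _
    exact fun u hu => hS hu
  -- the sum
  let S : (Fin d → ℤ) → V p (FG d) := fun z => ∑ i, z i • mkV p (FreeGroup.of i)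
  have hSadd : ∀ z z', S (z + z') = S z + S z' := by
    intro z z'
    simp only [S, Pi.add_apply, add_smul, Finset.sum_add_distrib]
  have hS0 : S 0 = 0 := by simp [S]
  have hSA : ∀ f, S (A f) = mkV p f := by
    let σ : Multiplicative (Fin d → ℤ) →* Multiplicative (V p (FG d)) :=
      { toFun := fun z => Multiplicative.ofAdd (S (Multiplicative.toAdd z))
        map_one' := by
          change Multiplicative.ofAdd (S 0) = _
          rw [hS0]; rfl
        map_mul' := fun z z' => by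
          change Multiplicative.ofAdd (S (Multiplicative.toAdd z + Multiplicative.toAdd z')) = _
          rw [hSadd]; rfl }
    have h : σ.comp a = mkVhom p (FG d) := by
      refine FreeGroup.ext_hom _ _ fun i => ?_
      have h1 : a (FreeGroup.of i) = Multiplicative.ofAdd (Pi.single i 1) := by simp [a]
      rw [MonoidHom.comp_apply, h1]
      change Multiplicative.ofAdd (S (Pi.single i 1)) = _
      have h2 : S (Pi.single i 1) = mkV p (FreeGroup.of i) := by
        simp only [S]
        rw [Finset.sum_eq_single i]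
        · simp
        · intro j _ hj
          rw [Pi.single_eq_of_ne hj, zero_smul]
        · intro h; exact absurd (Finset.mem_univ i) h
      rw [h2]; rfl
    intro f
    exact congrArg Multiplicative.toAdd (DFunLike.congr_fun h f)
  have hdivadd : ∀ u ∈ Phi p (FG d), ∀ v ∈ Phi p (FG d),
      (fun i => A (u * v) i / (p : ℤ)) = (fun i => A u i / (p : ℤ)) + fun i => A v i / (p : ℤ) := by
    intro u hu v hv
    funext i
    rw [hA, Pi.add_apply, Pi.add_apply, Int.add_ediv_of_dvd_left (hdiv u hu i)]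
  refine ⟨fun u => S (fun i => A u.1 i / (p : ℤ)), ⟨fun u v => ?_, fun g u v h => ?_⟩,
    fun f => ?_, fun f hf => ?_⟩
  · change S (fun i => A (u.1 * v.1) i / (p : ℤ)) = _
    rw [hdivadd _ u.2 _ v.2, hSadd]
  · have : A v.1 = A u.1 := by rw [h, hA, hA, hAinv]; abel
    change S (fun i => A v.1 i / (p : ℤ)) = S (fun i => A u.1 i / (p : ℤ))
    rw [this]
  · change S (fun i => A (f ^ p) i / (p : ℤ)) = _
    have : (fun i => A (f ^ p) i / (p : ℤ)) = A f := by
      funext i
      rw [hApow, Pi.smul_apply, nsmul_eq_mul, Int.mul_ediv_cancel_left _ hp0]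
    rw [this, hSA]
  · change S (fun i => A f i / (p : ℤ)) = _
    rw [hAcomm f hf]
    have : (fun i => (0 : Fin d → ℤ) i / (p : ℤ)) = 0 := by
      funext i; simp
    rw [this, hS0]

/-- the invariant homomorphism `f ^ p ↦ f` -/
def piH (p d : ℕ) [Fact p.Prime] : IHom (Phi p (FG d)) (V p (FG d)) :=
  ⟨(exists_piHom p d).choose, (exists_piHom p d).choose_spec.1⟩

theorem piH_pow (f : FG d) : (piH p d).1 ⟨f ^ p, pow_mem_Phi p f⟩ = mkV p f :=
  (exists_piHom p d).choose_spec.2.1 f

theorem piH_comm (f : FG d) (hf : f ∈ commutator (FG d)) :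
    (piH p d).1 ⟨f, commutator_le_Phi p hf⟩ = 0 := (exists_piHom p d).choose_spec.2.2 f hf

theorem piH_natural {d' : ℕ} (φ : FG d →* FG d') (u : FG d) (hu : u ∈ Phi p (FG d)) :
    (piH p d').1 ⟨φ u, Phi_map_le p φ hu⟩ = vmap p φ ((piH p d).1 ⟨u, hu⟩) := by
  have h : (fun u : Phi p (FG d) => (piH p d').1 ⟨φ u.1, Phi_map_le p φ u.2⟩) =
      fun u : Phi p (FG d) => vmap p φ ((piH p d).1 u) := by
    refine ext_Phi (fun a b => ?_) (fun a b => ?_) (fun f g => ?_) (fun f => ?_)
    · have h1 := (piH p d').2.1 ⟨φ a.1, Phi_map_le p φ a.2⟩ ⟨φ b.1, Phi_map_le p φ b.2⟩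
      have e1 : (⟨φ (a * b).1, Phi_map_le p φ (a * b).2⟩ : Phi p (FG d')) =
        ⟨φ a.1, Phi_map_le p φ a.2⟩ * ⟨φ b.1, Phi_map_le p φ b.2⟩ :=
        Subtype.ext (map_mul φ a.1 b.1)
      exact (congrArg (piH p d').1 e1).trans h1
    · rw [(piH p d).2.1, map_add]
    · have h1 := piH_comm (p := p) ⁅f, g⁆ (commutator_mem_commutator (mem_top f) (mem_top g))
      have h2 := piH_comm (p := p) ⁅φ f, φ g⁆ (commutator_mem_commutator (mem_top _) (mem_top _))
      rw [h1, map_zero, ← h2]
      have e1 : (⟨φ ⁅f, g⁆, Phi_map_le p φ (comm_mem_Phi p f g)⟩ : Phi p (FG d')) =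
        ⟨⁅φ f, φ g⁆, comm_mem_Phi p _ _⟩ := Subtype.ext (map_commutatorElement φ f g)
      exact congrArg (piH p d').1 e1
    · rw [piH_pow, vmap_mkV, ← piH_pow (p := p) (φ f)]
      have e1 : (⟨φ (f ^ p), Phi_map_le p φ (pow_mem_Phi p f)⟩ : Phi p (FG d')) =
        ⟨(φ f) ^ p, pow_mem_Phi p _⟩ := Subtype.ext (map_pow φ f p)
      exact congrArg (piH p d').1 e1
  exact congrFun h ⟨u, hu⟩

theorem piH_surjective : Function.Surjective (piH p d).1 := by
  intro v
  obtain ⟨x, rfl⟩ := mkV_surjective p v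
  exact ⟨_, piH_pow x⟩

theorem relIndex_EE_Phi (p d : ℕ) [Fact p.Prime] :
    (EE p (Phi p (FG d))).relIndex (Phi p (FG d)) = p ^ (d * (d + 1) / 2) := by
  classical
  have hp : p.Prime := Fact.out
  obtain ⟨r', hr', hrel⟩ := exists_relIndex (p := p) (NGen_Phi (p := p) d)
  rw [hrel]
  congr 1
  refine le_antisymm hr' ?_
  have hcard := card_IHom (p := p) (d := d) hrel (ZMod p)
  rw [Nat.card_zmod] at hcard
  obtain ⟨e, he⟩ := basis_V_FG p d
  -- the bilinear map of a strictly triangular matrix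
  let B : ((Σ j : Fin d, Fin j.val) → ZMod p) →
      (V p (FG d) →ₗ[ZMod p] V p (FG d) →ₗ[ZMod p] ZMod p) := fun c =>
    e.constr (ZMod p) fun i => e.constr (ZMod p) fun j =>
      if h : i.val < j.val then c ⟨j, ⟨i.val, h⟩⟩ else 0
  have hB : ∀ c i j, B c (e i) (e j) = if h : i.val < j.val then c ⟨j, ⟨i.val, h⟩⟩ else 0 := by
    intro c i j
    simp only [B, Basis.constr_basis]
  let L : ((Σ j : Fin d, Fin j.val) → ZMod p) × (Fin d → ZMod p) →
      IHom (Phi p (FG d)) (ZMod p) := fun c =>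
    ⟨(exists_formHom (B c.1)).choose, (exists_formHom (B c.1)).choose_spec.1⟩ +
      ⟨fun u => (e.constr (ZMod p) c.2 : V p (FG d) →ₗ[ZMod p] ZMod p) ((piH p d).1 u), by
        refine ⟨fun a b => ?_, fun g a b h => ?_⟩
        · exact (congrArg (e.constr (ZMod p) c.2 : V p (FG d) →ₗ[ZMod p] ZMod p)
            ((piH p d).2.1 a b)).trans (map_add _ _ _)
        · exact congrArg (e.constr (ZMod p) c.2 : V p (FG d) →ₗ[ZMod p] ZMod p)
            ((piH p d).2.2 g a b h)⟩
  have hL : ∀ c f g, (L c).1 ⟨⁅f, g⁆, comm_mem_Phi p f g⟩ =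
      B c.1 (mkV p f) (mkV p g) - B c.1 (mkV p g) (mkV p f) := by
    intro c f g
    change (exists_formHom (B c.1)).choose _ +
      (e.constr (ZMod p) c.2 : V p (FG d) →ₗ[ZMod p] ZMod p) ((piH p d).1 _) = _
    rw [piH_comm _ (commutator_mem_commutator (mem_top f) (mem_top g)), map_zero, add_zero,
      (exists_formHom (B c.1)).choose_spec.2]
  have hL2 : ∀ c f, (L c).1 ⟨f ^ p, pow_mem_Phi p f⟩ =
      (exists_formHom (B c.1)).choose ⟨f ^ p, pow_mem_Phi p f⟩ +
      (e.constr (ZMod p) c.2 : V p (FG d) →ₗ[ZMod p] ZMod p) (mkV p f) := by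
    intro c f
    change (exists_formHom (B c.1)).choose _ +
      (e.constr (ZMod p) c.2 : V p (FG d) →ₗ[ZMod p] ZMod p) ((piH p d).1 _) = _
    rw [piH_pow]
  have hinj : Function.Injective L := by
    rintro ⟨c, t⟩ ⟨c', t'⟩ h
    have h1 : c = c' := by
      funext ⟨j, i⟩
      have h2 := congrArg (fun l : IHom (Phi p (FG d)) (ZMod p) =>
        l.1 ⟨⁅(FreeGroup.of ⟨i.val, i.2.trans j.2⟩ : FG d), FreeGroup.of j⁆,
          comm_mem_Phi p _ _⟩) h
      simp only [hL, ← he, hB] at h2
      have h3 : i.val < j.val := i.2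
      have h4 : ¬ j.val < i.val := by omega
      simpa [h3, h4] using h2
    subst h1
    have h2 : t = t' := by
      funext i
      have h2 := congrArg (fun l : IHom (Phi p (FG d)) (ZMod p) =>
        l.1 ⟨(FreeGroup.of i : FG d) ^ p, pow_mem_Phi p _⟩) h
      simp only [hL2, ← he, Basis.constr_basis] at h2
      exact add_left_cancel h2
    rw [h2]
  haveI : Finite (IHom (Phi p (FG d)) (ZMod p)) :=
    Nat.finite_of_card_ne_zero (by rw [hcard]; exact pow_ne_zero _ hp.ne_zero)
  have hle := Nat.card_le_card_of_injective L hinj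
  rw [hcard, Nat.card_prod, Nat.card_fun, Nat.card_fun, Nat.card_zmod, Nat.card_fin,
    ← pow_add] at hle
  have h5 : Nat.card (Σ j : Fin d, Fin j.val) = d.choose 2 := by
    rw [Nat.card_eq_fintype_card, Fintype.card_sigma]
    simp only [Fintype.card_fin]
    rw [Fin.sum_univ_eq_sum_range (fun i => i) d, Finset.sum_range_id, Nat.choose_two_right]
  rw [h5] at hle
  have h6 := (Nat.pow_le_pow_iff_right hp.one_lt).1 hle
  have h7 : d * (d + 1) / 2 = d.choose 2 + d := by
    have := Nat.choose_two_right (d + 1)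
    rw [Nat.add_sub_cancel, mul_comm] at this
    rw [← this, Nat.choose_succ_succ' d 1, Nat.choose_one_right, add_comm]
  rw [h7]
  exact h6

/-- an invariant homomorphism on `Phi` gives an alternating bilinear map -/
theorem exists_form_of_IHom {X : Type} [AddCommGroup X] [Module (ZMod p) X]
    (l : IHom (Phi p (FG d)) X) : ∃ ψ : V p (FG d) →ₗ[ZMod p] V p (FG d) →ₗ[ZMod p] X,
      (∀ x, ψ x x = 0) ∧ ∀ f g, l.1 ⟨⁅f, g⁆, comm_mem_Phi p f g⟩ = ψ (mkV p f) (mkV p g) := by
  have hleft : ∀ f g h : FG d, l.1 ⟨⁅f * g, h⁆, comm_mem_Phi p _ _⟩ =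
      l.1 ⟨⁅f, h⁆, comm_mem_Phi p _ _⟩ + l.1 ⟨⁅g, h⁆, comm_mem_Phi p _ _⟩ := by
    intro f g h
    have h1 : (⟨⁅f * g, h⁆, comm_mem_Phi p _ _⟩ : Phi p (FG d)) =
        ⟨f * ⁅g, h⁆ * f⁻¹, (Phi_normal p).conj_mem _ (comm_mem_Phi p _ _) _⟩ *
          ⟨⁅f, h⁆, comm_mem_Phi p _ _⟩ := by
      refine Subtype.ext ?_
      change ⁅f * g, h⁆ = f * ⁅g, h⁆ * f⁻¹ * ⁅f, h⁆
      simp only [commutatorElement_def]; group
    rw [h1, l.2.1, l.2.2 f ⟨⁅g, h⁆, comm_mem_Phi p _ _⟩ ⟨f * ⁅g, h⁆ * f⁻¹, _⟩ rfl, add_comm]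
  have hright : ∀ f g h : FG d, l.1 ⟨⁅f, g * h⁆, comm_mem_Phi p _ _⟩ =
      l.1 ⟨⁅f, g⁆, comm_mem_Phi p _ _⟩ + l.1 ⟨⁅f, h⁆, comm_mem_Phi p _ _⟩ := by
    intro f g h
    have h1 : (⟨⁅f, g * h⁆, comm_mem_Phi p _ _⟩ : Phi p (FG d)) =
        ⟨⁅f, g⁆, comm_mem_Phi p _ _⟩ *
        ⟨g * ⁅f, h⁆ * g⁻¹, (Phi_normal p).conj_mem _ (comm_mem_Phi p _ _) _⟩ := by
      refine Subtype.ext ?_
      change ⁅f, g * h⁆ = ⁅f, g⁆ * (g * ⁅f, h⁆ * g⁻¹)
      simp only [commutatorElement_def]; group
    rw [h1, l.2.1, l.2.2 g ⟨⁅f, h⁆, comm_mem_Phi p _ _⟩ ⟨g * ⁅f, h⁆ * g⁻¹, _⟩ rfl]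
  have hone : ∀ g : FG d, l.1 ⟨⁅(1 : FG d), g⁆, comm_mem_Phi p _ _⟩ = 0 := by
    intro g
    have := hleft 1 1 g
    rw [mul_one] at this
    simpa using this.symm
  have hone' : ∀ g : FG d, l.1 ⟨⁅g, (1 : FG d)⁆, comm_mem_Phi p _ _⟩ = 0 := by
    intro g
    have := hright g 1 1
    rw [mul_one] at this
    simpa using this.symm
  let H : FG d → (FG d →* Multiplicative X) := fun f =>
    { toFun := fun g => Multiplicative.ofAdd (l.1 ⟨⁅f, g⁆, comm_mem_Phi p _ _⟩)
      map_one' := by rw [hone']; rfl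
      map_mul' := fun g h => by rw [hright]; rfl }
  have hH : ∀ f g, vlift (p := p) (H f) (mkV p g) = l.1 ⟨⁅f, g⁆, comm_mem_Phi p _ _⟩ := by
    intro f g
    rw [vlift_mkV]; rfl
  let K : FG d →* Multiplicative (V p (FG d) →ₗ[ZMod p] X) :=
    { toFun := fun f => Multiplicative.ofAdd (vlift (p := p) (H f))
      map_one' := by
        have : vlift (p := p) (H 1) = 0 := by
          refine LinearMap.ext fun v => ?_
          obtain ⟨g, rfl⟩ := mkV_surjective p v
          rw [hH, hone]; rfl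
        rw [this]; rfl
      map_mul' := fun f g => by
        have : vlift (p := p) (H (f * g)) = vlift (p := p) (H f) + vlift (p := p) (H g) := by
          refine LinearMap.ext fun v => ?_
          obtain ⟨h, rfl⟩ := mkV_surjective p v
          rw [LinearMap.add_apply, hH, hH, hH, hleft]
        rw [this]; rfl }
  have hK : ∀ f g, vlift (p := p) K (mkV p f) (mkV p g) = l.1 ⟨⁅f, g⁆, comm_mem_Phi p _ _⟩ := by
    intro f g
    rw [vlift_mkV]
    exact hH f g
  refine ⟨vlift K, fun x => ?_, fun f g => (hK f g).symm⟩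
  obtain ⟨f, rfl⟩ := mkV_surjective p x
  rw [hK]
  have : (⟨⁅f, f⁆, comm_mem_Phi p f f⟩ : Phi p (FG d)) = 1 := Subtype.ext (commutatorElement_self f)
  rw [this, IHom_one l.2]

/-- an invariant homomorphism on `Phi` whose bilinear map is zero factors through `piH` -/
theorem IHom_of_form_zero {X : Type} [AddCommGroup X] [Module (ZMod p) X]
    (l : IHom (Phi p (FG d)) X) (h : ∀ f g, l.1 ⟨⁅f, g⁆, comm_mem_Phi p f g⟩ = 0) :
    ∃ τ : V p (FG d) →ₗ[ZMod p] X, ∀ u, l.1 u = τ ((piH p d).1 u) := by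
  have hcomm : ∀ (f : FG d) (hf : f ∈ commutator (FG d)), l.1 ⟨f, commutator_le_Phi p hf⟩ = 0 := by
    have : commutator (FG d) ≤ kerS l := by
      rw [_root_.commutator_def, Subgroup.commutator_le]
      intro x _ y _
      exact ⟨comm_mem_Phi p x y, h x y⟩
    intro f hf
    obtain ⟨_, h2⟩ := this hf
    exact h2
  let H : FG d →* Multiplicative X :=
    { toFun := fun f => Multiplicative.ofAdd (l.1 ⟨f ^ p, pow_mem_Phi p f⟩)
      map_one' := by
        have : (⟨(1 : FG d) ^ p, pow_mem_Phi p 1⟩ : Phi p (FG d)) = 1 := Subtype.ext (one_pow p)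
        rw [this, IHom_one l.2]; rfl
      map_mul' := fun f g => by
        have h1 : (f ^ p * g ^ p)⁻¹ * (f * g) ^ p ∈ commutator (FG d) := by
          have h2 : Abelianization.of ((f ^ p * g ^ p)⁻¹ * (f * g) ^ p) = 1 := by
            simp only [map_mul, map_inv, map_pow, mul_pow, inv_mul_cancel]
          rw [← Abelianization.ker_of]
          exact h2
        have h3 : (⟨(f * g) ^ p, pow_mem_Phi p _⟩ : Phi p (FG d)) =
            (⟨f ^ p, pow_mem_Phi p f⟩ * ⟨g ^ p, pow_mem_Phi p g⟩) *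
              ⟨(f ^ p * g ^ p)⁻¹ * (f * g) ^ p, commutator_le_Phi p h1⟩ := by
          refine Subtype.ext ?_
          change (f * g) ^ p = (f ^ p * g ^ p) * ((f ^ p * g ^ p)⁻¹ * (f * g) ^ p)
          rw [mul_inv_cancel_left]
        rw [h3, l.2.1, l.2.1, hcomm _ h1, add_zero]; rfl }
  refine ⟨vlift H, fun u => ?_⟩
  have h1 : l.1 = fun u => vlift (p := p) H ((piH p d).1 u) := by
    refine ext_Phi l.2.1 (fun a b => ?_) (fun f g => ?_) (fun f => ?_)
    · rw [(piH p d).2.1, map_add]
    · rw [h, piH_comm _ (commutator_mem_commutator (mem_top f) (mem_top g)), map_zero]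
    · rw [piH_pow, vlift_mkV]; rfl
  exact congrFun h1 u

end Pool.Agent.IG
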