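import Pool.Agent.IG.FreeCount

/-!
# Invariant homomorphisms on normal subgroups of the free group
-/

open Subgroup Module
open scoped commutatorElement

set_option linter.unusedSectionVars false

noncomputable section

namespace Pool.Agent.IG

section IHom

variable {G : Type} [Group G]

/-- homomorphisms `N → X` invariant under conjugation by `G` -/
def IHom (N : Subgroup G) (X : Type) [AddCommGroup X] : AddSubgroup (N → X) where
  carrier := {l | (∀ a b : N, l (a * b) = l a + l b) ∧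
    ∀ (g : G) (a b : N), (b : G) = g * a * g⁻¹ → l b = l a}
  add_mem' := by
    rintro l l' ⟨h1, h2⟩ ⟨h1', h2'⟩
    refine ⟨fun a b => ?_, fun g a b h => ?_⟩
    · rw [Pi.add_apply, Pi.add_apply, Pi.add_apply, h1, h1']; abel
    · rw [Pi.add_apply, Pi.add_apply, h2 g a b h, h2' g a b h]
  zero_mem' := ⟨fun a b => by simp, fun g a b h => rfl⟩
  neg_mem' := by
    rintro l ⟨h1, h2⟩
    refine ⟨fun a b => ?_, fun g a b h => ?_⟩
    · rw [Pi.neg_apply, Pi.neg_apply, Pi.neg_apply, h1]; abel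
    · rw [Pi.neg_apply, Pi.neg_apply, h2 g a b h]

variable {X : Type} [AddCommGroup X]

theorem IHom_one {N : Subgroup G} {l : N → X} (hl : l ∈ IHom N X) : l 1 = 0 := by
  have h := hl.1 1 1
  rw [mul_one] at h
  simpa using h.symm

/-- the kernel of an invariant homomorphism, as a subgroup of `G` -/
def kerS {N : Subgroup G} (l : IHom N X) : Subgroup G where
  carrier := {g | ∃ h : g ∈ N, l.1 ⟨g, h⟩ = 0}
  mul_mem' := by
    rintro a b ⟨ha, ha'⟩ ⟨hb, hb'⟩
    refine ⟨mul_mem ha hb, ?_⟩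
    have h := l.2.1 ⟨a, ha⟩ ⟨b, hb⟩
    rw [ha', hb', add_zero] at h
    exact h
  one_mem' := ⟨one_mem _, IHom_one l.2⟩
  inv_mem' := by
    rintro a ⟨ha, ha'⟩
    refine ⟨inv_mem ha, ?_⟩
    have h := l.2.1 ⟨a, ha⟩ ⟨a⁻¹, inv_mem ha⟩
    have h1 : (⟨a, ha⟩ : N) * ⟨a⁻¹, inv_mem ha⟩ = 1 := Subtype.ext (mul_inv_cancel a)
    rw [h1, IHom_one l.2, ha', zero_add] at h
    exact h.symm

theorem mem_kerS {N : Subgroup G} (l : IHom N X) {g : G} :
    g ∈ kerS l ↔ ∃ h : g ∈ N, l.1 ⟨g, h⟩ = 0 := Iff.rfl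

theorem kerS_le {N : Subgroup G} (l : IHom N X) : kerS l ≤ N := fun _ h => h.1

instance kerS_normal {N : Subgroup G} [hN : N.Normal] (l : IHom N X) : (kerS l).Normal := by
  refine ⟨fun n hn g => ?_⟩
  obtain ⟨h, h'⟩ := hn
  refine ⟨hN.conj_mem n h g, ?_⟩
  rw [l.2.2 g ⟨n, h⟩ ⟨g * n * g⁻¹, hN.conj_mem n h g⟩ rfl, h']

end IHom

variable {p : ℕ} [Fact p.Prime] {d : ℕ}

theorem IHom_pow {G : Type} [Group G] {N : Subgroup G} {X : Type} [AddCommGroup X]
    {l : N → X} (hl : l ∈ IHom N X) (a : N) (m : ℕ) : l (a ^ m) = m • l a := by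
  induction m with
  | zero => rw [pow_zero, zero_smul]; exact IHom_one hl
  | succ m ih => rw [pow_succ, hl.1, ih, succ_nsmul]

theorem IHom_inv {G : Type} [Group G] {N : Subgroup G} {X : Type} [AddCommGroup X]
    {l : N → X} (hl : l ∈ IHom N X) (a : N) : l a⁻¹ = -l a := by
  have h := hl.1 a a⁻¹
  rw [mul_inv_cancel, IHom_one hl] at h
  exact (neg_eq_of_add_eq_zero_right h.symm).symm

theorem nsmul_eq_zero_zmod {X : Type} [AddCommGroup X] [Module (ZMod p) X] (x : X) :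
    p • x = 0 := by
  rw [← Nat.cast_smul_eq_nsmul (ZMod p), CharP.cast_eq_zero, zero_smul]

/-- invariant homomorphisms vanish on `[N, G] N ^ p` if `X` has exponent `p` -/
theorem IHom_EE {G : Type} [Group G] {N : Subgroup G} [hN : N.Normal] {X : Type}
    [AddCommGroup X] [Module (ZMod p) X] {l : N → X} (hl : l ∈ IHom N X) (a : N) (ha : (a : G) ∈ EE p N) :
    l a = 0 := by
  have key : EE p N ≤ kerS ⟨l, hl⟩ := by
    rw [EE_le_iff]
    refine ⟨fun a ha b => ?_, fun a ha => ?_⟩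
    · have hb : b * a⁻¹ * b⁻¹ ∈ N := hN.conj_mem _ (inv_mem ha) _
      have hab : ⁅a, b⁆ ∈ N := by
        have h1 : ⁅a, b⁆ = a * (b * a⁻¹ * b⁻¹) := by rw [commutatorElement_def]; group
        rw [h1]
        exact mul_mem ha hb
      refine ⟨hab, ?_⟩
      have h1 : (⟨⁅a, b⁆, hab⟩ : N) = ⟨a, ha⟩ * ⟨b * a⁻¹ * b⁻¹, hb⟩ :=
        Subtype.ext (by change ⁅a, b⁆ = a * (b * a⁻¹ * b⁻¹); rw [commutatorElement_def]; group)
      change l _ = 0
      rw [h1, hl.1, hl.2 b ⟨a⁻¹, inv_mem ha⟩ ⟨b * a⁻¹ * b⁻¹, hb⟩ rfl]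
      have h2 : (⟨a⁻¹, inv_mem ha⟩ : N) = (⟨a, ha⟩ : N)⁻¹ := rfl
      rw [h2, IHom_inv hl, add_neg_cancel]
    · refine ⟨pow_mem ha p, ?_⟩
      have h2 : (⟨a ^ p, pow_mem ha p⟩ : N) = (⟨a, ha⟩ : N) ^ p := rfl
      change l _ = 0
      rw [h2, IHom_pow hl, nsmul_eq_zero_zmod (p := p)]
  obtain ⟨_, h⟩ := key ha
  exact h

/-- the `F_p`-space `N / [N, G] N ^ p` -/
def EV (p : ℕ) {G : Type} [Group G] (N : Subgroup G) [N.Normal] : Type :=
  Additive (N ⧸ (EE p N).subgroupOf N)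

section EV

variable {G : Type} [Group G] (N : Subgroup G) [N.Normal]

instance : AddCommGroup (EV p N) :=
  inferInstanceAs (AddCommGroup (Additive (N ⧸ (EE p N).subgroupOf N)))

theorem nsmul_EV (v : EV p N) : p • v = 0 :=
  Additive.toMul.injective (quotEE_pow (p := p) N (Additive.toMul v))

instance : Module (ZMod p) (EV p N) := AddCommGroup.zmodModule (nsmul_EV N)

variable {N}

/-- the class of an element of `N` -/
def mkE (p : ℕ) [Fact p.Prime] (a : N) : EV p N :=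
  Additive.ofMul (a : N ⧸ (EE p N).subgroupOf N)

theorem mkE_mul (a b : N) : mkE p (a * b) = mkE p a + mkE p b := rfl

theorem mkE_one : mkE p (1 : N) = 0 := rfl

theorem mkE_inv (a : N) : mkE p a⁻¹ = -mkE p a := rfl

theorem mkE_eq_zero_iff (a : N) : mkE p a = 0 ↔ (a : G) ∈ EE p N := by
  change (a : N ⧸ (EE p N).subgroupOf N) = 1 ↔ _
  rw [QuotientGroup.eq_one_iff, mem_subgroupOf]

theorem mkE_eq_iff (a b : N) : mkE p a = mkE p b ↔ (a : G)⁻¹ * b ∈ EE p N := by
  change (a : N ⧸ (EE p N).subgroupOf N) = (b : N ⧸ (EE p N).subgroupOf N) ↔ _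
  rw [QuotientGroup.eq, mem_subgroupOf]
  rfl

theorem mkE_surjective : Function.Surjective (mkE p : N → EV p N) := fun v => by
  obtain ⟨x, hx⟩ := QuotientGroup.mk_surjective (Additive.toMul v)
  exact ⟨x, hx⟩

theorem mkE_conj (g : G) (a b : N) (h : (b : G) = g * a * g⁻¹) : mkE p b = mkE p a := by
  rw [eq_comm, mkE_eq_iff, h]
  have h2 : (a : G)⁻¹ * (g * a * g⁻¹) = ⁅(a : G)⁻¹, g⁆ := by
    rw [commutatorElement_def]; group
  rw [h2]
  exact comm_mem_EE p (inv_mem a.2) g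

/-- the additive homomorphism on `EV` of a homomorphism on `N` which vanishes on `EE p N` -/
theorem exists_linear_of_hom {X : Type} [AddCommGroup X] [Module (ZMod p) X] (l : N → X)
    (hl : ∀ a b, l (a * b) = l a + l b) (h : ∀ a : N, (a : G) ∈ EE p N → l a = 0) :
    ∃ f : EV p N →ₗ[ZMod p] X, ∀ a, f (mkE p a) = l a := by
  let φ : (N ⧸ (EE p N).subgroupOf N) →* Multiplicative X :=
    QuotientGroup.lift ((EE p N).subgroupOf N)
      ({ toFun := fun a => Multiplicative.ofAdd (l a)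
         map_one' := by
          have h1 := hl 1 1
          rw [mul_one] at h1
          have h2 : l 1 = 0 := by simpa using h1.symm
          rw [h2]; rfl
         map_mul' := fun a b => by rw [hl]; rfl } : N →* Multiplicative X)
      (fun a ha => by
        change Multiplicative.ofAdd (l a) = 1
        rw [h a (mem_subgroupOf.1 ha)]; rfl)
  refine ⟨AddMonoidHom.toZModLinearMap p (MonoidHom.toAdditiveLeft φ), fun a => rfl⟩

/-- an invariant homomorphism on `N` gives a linear map on `EV` -/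
theorem exists_linear {X : Type} [AddCommGroup X] [Module (ZMod p) X] {l : N → X}
    (hl : l ∈ IHom N X) : ∃ f : EV p N →ₗ[ZMod p] X, ∀ a, f (mkE p a) = l a :=
  exists_linear_of_hom l hl.1 (IHom_EE hl)

/-- a linear map on `EV` gives an invariant homomorphism -/
theorem linear_mem_IHom {X : Type} [AddCommGroup X] [Module (ZMod p) X]
    (f : EV p N →ₗ[ZMod p] X) : (fun a => f (mkE p a)) ∈ IHom N X := by
  refine ⟨fun a b => ?_, fun g a b h => ?_⟩
  · dsimp only
    rw [mkE_mul, map_add]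
  · dsimp only
    rw [mkE_conj g a b h]

variable (N)

/-- invariant homomorphisms and linear maps -/
def IHomEquiv (p : ℕ) [Fact p.Prime] (X : Type) [AddCommGroup X] [Module (ZMod p) X] :
    IHom N X ≃ (EV p N →ₗ[ZMod p] X) where
  toFun l := (exists_linear (p := p) l.2).choose
  invFun f := ⟨_, linear_mem_IHom f⟩
  left_inv l := Subtype.ext (funext fun a => (exists_linear (p := p) l.2).choose_spec a)
  right_inv f := by
    refine LinearMap.ext fun v => ?_
    obtain ⟨a, rfl⟩ := mkE_surjective (p := p) v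
    exact (exists_linear (p := p) (linear_mem_IHom f)).choose_spec a

end EV

/-- there are as many invariant homomorphisms as linear maps from `N / [N, G] N ^ p` -/
theorem card_IHom {N : Subgroup (FG d)} [N.Normal] {r : ℕ}
    (hr : (EE p N).relIndex N = p ^ r) (X : Type) [AddCommGroup X] [Module (ZMod p) X] [Finite X] :
    Nat.card (IHom N X) = Nat.card X ^ r := by
  have hp : p.Prime := Fact.out
  have hcard : Nat.card (EV p N) = p ^ r := hr
  have hfin : Finite (EV p N) := Nat.finite_of_card_ne_zero (by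
    rw [hcard]; exact pow_ne_zero _ hp.ne_zero)
  have h1 : finrank (ZMod p) (EV p N) = r := by
    rw [Module.natCard_eq_pow_finrank (K := ZMod p), Nat.card_zmod] at hcard
    exact Nat.pow_right_injective hp.two_le hcard
  have b : Basis (Fin r) (ZMod p) (EV p N) := by
    rw [← h1]
    exact Module.finBasis (ZMod p) (EV p N)
  rw [Nat.card_congr (IHomEquiv N p X), ← Nat.card_congr (b.constr (ZMod p)).toEquiv, Nat.card_fun,
    Nat.card_eq_fintype_card (α := Fin r), Fintype.card_fin]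

/-- elements of `N` which are independent modulo `EE p N` can be separated by invariant
homomorphisms: an invariant homomorphism on `M ≤ N` which vanishes on `M ⊓ EE p N` extends to `N` -/
theorem IHom_extend {G : Type} [Group G] {N M : Subgroup G} [N.Normal] [M.Normal] (hMN : M ≤ N)
    {X : Type} [AddCommGroup X] [Module (ZMod p) X] (l : M → X) (hl : ∀ a b, l (a * b) = l a + l b)
    (h : ∀ a : M, (a : G) ∈ EE p N → l a = 0) :
    ∃ l' ∈ IHom N X, ∀ (a : M), l' ⟨a, hMN a.2⟩ = l a := by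
  have hl1 : l 1 = 0 := by
    have h1 := hl 1 1
    rw [mul_one] at h1
    simpa using h1.symm
  have hli : ∀ a, l a⁻¹ = -l a := fun a => by
    have h1 := hl a a⁻¹
    rw [mul_inv_cancel, hl1] at h1
    exact (neg_eq_of_add_eq_zero_right h1.symm).symm
  have hwd : ∀ a b : M, mkE p (⟨a, hMN a.2⟩ : N) = mkE p (⟨b, hMN b.2⟩ : N) → l a = l b := by
    intro a b hab
    rw [mkE_eq_iff] at hab
    have h1 := h (a⁻¹ * b) hab
    rw [hl, hli] at h1
    exact (neg_add_eq_zero.1 h1)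
  -- the image of `M`
  let S : AddSubgroup (EV p N) :=
    { carrier := {v | ∃ a : M, mkE p (⟨a, hMN a.2⟩ : N) = v}
      add_mem' := by
        rintro _ _ ⟨a, rfl⟩ ⟨b, rfl⟩
        exact ⟨a * b, rfl⟩
      zero_mem' := ⟨1, rfl⟩
      neg_mem' := by
        rintro _ ⟨a, rfl⟩
        exact ⟨a⁻¹, rfl⟩ }
  let W : Submodule (ZMod p) (EV p N) := AddSubgroup.toZModSubmodule p S
  let φ : W →+ X :=
    { toFun := fun v => l (v.2.choose)
      map_zero' := by
        rw [← hl1]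
        refine hwd _ _ ?_
        rw [(0 : W).2.choose_spec]
        rfl
      map_add' := fun u v => by
        rw [← hl]
        refine hwd _ _ ?_
        rw [(u + v : W).2.choose_spec]
        change (u : EV p N) + v = _
        conv_lhs => rw [← u.2.choose_spec, ← v.2.choose_spec]
        rfl }
  obtain ⟨g, hg⟩ := LinearMap.exists_extend (AddMonoidHom.toZModLinearMap p φ)
  refine ⟨_, linear_mem_IHom g, fun a => ?_⟩
  have hv : mkE p (⟨a, hMN a.2⟩ : N) ∈ W := ⟨a, rfl⟩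
  have h1 := LinearMap.congr_fun hg ⟨mkE p (⟨a, hMN a.2⟩ : N), hv⟩
  have h2 : g (mkE p (⟨a, hMN a.2⟩ : N)) = l hv.choose := h1
  rw [h2]
  exact hwd _ _ hv.choose_spec

/-- the rank of `N / [N, F] N ^ p` is a natural number -/
theorem exists_relIndex {N : Subgroup (FG d)} [N.Normal] {r : ℕ} (h : NGen r N) :
    ∃ r' ≤ r, (EE p N).relIndex N = p ^ r' := by
  have hp : p.Prime := Fact.out
  obtain ⟨h1, h2⟩ := relIndex_EE_le (p := p) h
  have hfin : Finite (EV p N) := Nat.finite_of_card_ne_zero h2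
  have h3 : (EE p N).relIndex N = p ^ finrank (ZMod p) (EV p N) := by
    change Nat.card (EV p N) = _
    rw [Module.natCard_eq_pow_finrank (K := ZMod p), Nat.card_zmod]
  refine ⟨_, ?_, h3⟩
  rw [h3] at h1
  exact (Nat.pow_le_pow_iff_right hp.one_lt).1 h1

/-- the action of a lift on an invariant homomorphism only depends on its class modulo `N` -/
theorem IHom_lift_indep {N N' : Subgroup (FG d)} [N'.Normal] (hN : N ≤ Phi p (FG d))
    {X : Type} [AddCommGroup X] [Module (ZMod p) X] (l : IHom N' X) (φ φ' : FG d →* FG d)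
    (h : ∀ f, (φ f)⁻¹ * φ' f ∈ N') (h' : ∀ f ∈ N, φ f ∈ N') (h'' : ∀ f ∈ N, φ' f ∈ N')
    (u : FG d) (hu : u ∈ N) : l.1 ⟨φ u, h' u hu⟩ = l.1 ⟨φ' u, h'' u hu⟩ := by
  have hmul : ∀ f g : FG d, l.1 ⟨(φ (f * g))⁻¹ * φ' (f * g), h (f * g)⟩ =
      l.1 ⟨(φ f)⁻¹ * φ' f, h f⟩ + l.1 ⟨(φ g)⁻¹ * φ' g, h g⟩ := by
    intro f g
    have hc : (φ g)⁻¹ * ((φ f)⁻¹ * φ' f) * ((φ g)⁻¹)⁻¹ ∈ N' :=
      Normal.conj_mem inferInstance _ (h f) _
    have h1 : (⟨(φ (f * g))⁻¹ * φ' (f * g), h (f * g)⟩ : N') =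
        ⟨(φ g)⁻¹ * ((φ f)⁻¹ * φ' f) * ((φ g)⁻¹)⁻¹, hc⟩ * ⟨(φ g)⁻¹ * φ' g, h g⟩ := by
      refine Subtype.ext ?_
      change (φ (f * g))⁻¹ * φ' (f * g) =
        (φ g)⁻¹ * ((φ f)⁻¹ * φ' f) * ((φ g)⁻¹)⁻¹ * ((φ g)⁻¹ * φ' g)
      rw [map_mul, map_mul]
      group
    rw [h1, l.2.1, l.2.2 (φ g)⁻¹ ⟨(φ f)⁻¹ * φ' f, h f⟩ _ rfl]
  let ψ : FG d →* Multiplicative X :=
    { toFun := fun f => Multiplicative.ofAdd (l.1 ⟨(φ f)⁻¹ * φ' f, h f⟩)
      map_one' := by
        have h1 : (⟨(φ 1)⁻¹ * φ' 1, h 1⟩ : N') = 1 := Subtype.ext (by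
          change (φ 1)⁻¹ * φ' 1 = 1
          rw [map_one, map_one, inv_one, mul_one])
        rw [h1, IHom_one l.2]; rfl
      map_mul' := fun f g => by rw [hmul]; rfl }
  have hker : Phi p (FG d) ≤ ψ.ker := by
    rw [Phi_le_iff]
    refine ⟨fun a b => ?_, fun a => ?_⟩
    · rw [MonoidHom.mem_ker, map_commutatorElement, commutatorElement_eq_one_iff_mul_comm, mul_comm]
    · rw [MonoidHom.mem_ker, map_pow]
      exact nsmul_eq_zero_zmod (p := p) (X := X) (Multiplicative.toAdd (ψ a))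
  have h0 : l.1 ⟨(φ u)⁻¹ * φ' u, h u⟩ = 0 := by
    have h1 := hker (hN hu)
    rw [MonoidHom.mem_ker] at h1
    exact h1
  have h1 : (⟨φ' u, h'' u hu⟩ : N') = ⟨φ u, h' u hu⟩ * ⟨(φ u)⁻¹ * φ' u, h u⟩ :=
    Subtype.ext (by change φ' u = φ u * ((φ u)⁻¹ * φ' u); group)
  rw [h1, l.2.1, h0, add_zero]

end Pool.Agent.IG
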