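import Pool.Agent.IG.TransferA

/-!
# The family count
-/

open Subgroup Module
open scoped commutatorElement

noncomputable section

namespace Pool.Agent.IG

variable {p : ℕ} [Fact p.Prime] {d k w c : ℕ}

/-- the kernel of a function on a subgroup -/
def kerF {N : Subgroup (FG d)} (l : N → XW p w) : Set (FG d) := {g | ∃ h : g ∈ N, l ⟨g, h⟩ = 0}

/-- endomorphisms of the free group given by classes modulo `N` -/
def lifts (N : Subgroup (FG d)) (q : Fin c → Fin d → FG d ⧸ N) (j : Fin c) : FG d →* FG d :=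
  FreeGroup.lift (fun i => (q j i).out)

/-- kernels of the data `N`, `q`, `B` -/
def famS (𝒜 : (Fin c → V p (FG d) →ₗ[ZMod p] V p (FG d)) →
      (Fin c → XW p w →ₗ[ZMod p] XW p w) → Prop) (N : Subgroup (FG d))
    (q : Fin c → Fin d → FG d ⧸ N) (B : Fin c → XW p w →ₗ[ZMod p] XW p w) : Set (Set (FG d)) :=
  {K | ((∀ j, N ≤ N.comap (lifts N q j)) ∧ 𝒜 (fun j => vmap p (lifts N q j)) B) ∧
    K ∈ kerF '' EqHom N (lifts N q) B}

theorem famS_bound {M : ℕ} {𝒜 : (Fin c → V p (FG d) →ₗ[ZMod p] V p (FG d)) →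
      (Fin c → XW p w →ₗ[ZMod p] XW p w) → Prop}
    (h𝒜 : ∀ A B, 𝒜 A B → Nat.card (Fix A B) ≤ p ^ M) {N : Subgroup (FG d)} (hN : N ∈ PSub p d k)
    (q : Fin c → Fin d → FG d ⧸ N) (B : Fin c → XW p w →ₗ[ZMod p] XW p w) :
    (famS 𝒜 N q B).Finite ∧
      (famS 𝒜 N q B).ncard ≤ p ^ (w * (d * k + 2 * k + c * k + d) + M) := by
  by_cases h : (∀ j, N ≤ N.comap (lifts N q j)) ∧ 𝒜 (fun j => vmap p (lifts N q j)) B
  · obtain ⟨h1, h2⟩ := card_EqHom_le hN (lifts N q) h.1 B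
    have h3 : famS 𝒜 N q B = kerF '' EqHom N (lifts N q) B := by
      ext K
      exact ⟨fun hK => hK.2, fun hK => ⟨h, hK⟩⟩
    rw [h3]
    refine ⟨h1.image _, (Set.ncard_image_le h1).trans (h2.trans ?_)⟩
    rw [pow_add]
    exact Nat.mul_le_mul_left _ (h𝒜 _ _ h.2)
  · have h3 : famS 𝒜 N q B = ∅ := by
      ext K
      exact ⟨fun hK => (h hK.1).elim, fun hK => hK.elim⟩
    rw [h3]
    simp

theorem index_PSub {N : Subgroup (FG d)} (hN : N ∈ PSub p d k) : N.index = p ^ (d + k) := by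
  have h1 := relIndex_mul_index hN.2.1
  have h2 : (Phi p (FG d)).index = p ^ d := by
    have h3 : Nat.card (V p (FG d)) = p ^ d := by
      have hfin : Module.Finite (ZMod p) (V p (FG d)) := by
        obtain ⟨b, -⟩ := basis_V_FG p d
        exact Module.Finite.of_basis b
      rw [Module.natCard_eq_pow_finrank (K := ZMod p), Nat.card_zmod, finrank_V_FG]
    exact h3
  rw [← h1, hN.2.2, h2, ← pow_add, add_comm]

/-- all kernels for `N` -/
def famT (𝒜 : (Fin c → V p (FG d) →ₗ[ZMod p] V p (FG d)) →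
      (Fin c → XW p w →ₗ[ZMod p] XW p w) → Prop) (N : Subgroup (FG d)) : Set (Set (FG d)) :=
  ⋃ x : (Fin c → Fin d → FG d ⧸ N) × (Fin c → XW p w →ₗ[ZMod p] XW p w), famS 𝒜 N x.1 x.2

theorem famT_bound {M : ℕ} {𝒜 : (Fin c → V p (FG d) →ₗ[ZMod p] V p (FG d)) →
      (Fin c → XW p w →ₗ[ZMod p] XW p w) → Prop}
    (h𝒜 : ∀ A B, 𝒜 A B → Nat.card (Fix A B) ≤ p ^ M) {N : Subgroup (FG d)} (hN : N ∈ PSub p d k) :
    (famT 𝒜 N).Finite ∧ (famT 𝒜 N).ncard ≤ p ^ (c * ((d + k) * d + w ^ 2) +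
      (w * (d * k + 2 * k + c * k + d) + M)) := by
  have hp : p.Prime := Fact.out
  have hidx : Nat.card (FG d ⧸ N) = p ^ (d + k) := index_PSub hN
  have hfin : Finite (FG d ⧸ N) := Nat.finite_of_card_ne_zero (by
    rw [hidx]; exact pow_ne_zero _ hp.ne_zero)
  have hB : Nat.card (XW p w →ₗ[ZMod p] XW p w) = p ^ (w ^ 2) := by
    rw [Module.natCard_eq_pow_finrank (K := ZMod p), Nat.card_zmod, Module.finrank_linearMap,
      Module.finrank_fin_fun, sq]
  have hfinB : Finite (XW p w →ₗ[ZMod p] XW p w) := Nat.finite_of_card_ne_zero (by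
    rw [hB]; exact pow_ne_zero _ hp.ne_zero)
  have := Fintype.ofFinite ((Fin c → Fin d → FG d ⧸ N) × (Fin c → XW p w →ₗ[ZMod p] XW p w))
  have hcard : Fintype.card ((Fin c → Fin d → FG d ⧸ N) × (Fin c → XW p w →ₗ[ZMod p] XW p w)) =
      p ^ (c * ((d + k) * d + w ^ 2)) := by
    rw [← Nat.card_eq_fintype_card, Nat.card_prod, Nat.card_fun, Nat.card_fun, Nat.card_fun, hB,
      hidx, Nat.card_eq_fintype_card (α := Fin c), Nat.card_eq_fintype_card (α := Fin d),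
      Fintype.card_fin, Fintype.card_fin, ← pow_mul, ← pow_mul, ← pow_mul, ← pow_add]
    congr 1
    ring
  refine ⟨Set.finite_iUnion fun x => (famS_bound h𝒜 hN x.1 x.2).1, ?_⟩
  refine (Set.ncard_iUnion_le_of_fintype _).trans ?_
  refine (Finset.sum_le_card_nsmul _ _ _ fun x _ => (famS_bound h𝒜 hN x.1 x.2).2).trans ?_
  rw [smul_eq_mul, Finset.card_univ, hcard, ← pow_add]

theorem lifts_congr {N : Subgroup (FG d)} [N.Normal] (φ : Fin c → FG d →* FG d) (j : Fin c)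
    (f : FG d) : (φ j f)⁻¹ * lifts N (fun j i => (φ j (FreeGroup.of i) : FG d ⧸ N)) j f ∈ N := by
  rw [← QuotientGroup.eq]
  have h : (QuotientGroup.mk' N).comp (φ j) =
      (QuotientGroup.mk' N).comp (lifts N (fun j i => (φ j (FreeGroup.of i) : FG d ⧸ N)) j) := by
    apply FreeGroup.ext_hom
    intro i
    simp only [MonoidHom.comp_apply, lifts, FreeGroup.lift_apply_of, QuotientGroup.mk'_apply]
    exact (Quotient.out_eq _).symm
  exact DFunLike.congr_fun h f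

/-- the kernel of a marking with induced maps in `𝒜` belongs to `famT` -/
theorem mem_famT {𝒜 : (Fin c → V p (FG d) →ₗ[ZMod p] V p (FG d)) →
      (Fin c → XW p w →ₗ[ZMod p] XW p w) → Prop} (m : Mark p d k w)
    (α : Fin c → m.grp ≃* m.grp) (A : Fin c → V p (FG d) →ₗ[ZMod p] V p (FG d))
    (B : Fin c → XW p w →ₗ[ZMod p] XW p w) (hI : ∀ j, Mark.Ind (α j) (A j) (B j))
    (hA : 𝒜 A B) : ((kerS m.l : Subgroup (FG d)) : Set (FG d)) ∈ famT 𝒜 m.N := by
  choose φ h1 h2 h3 using hI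
  have hN := m.hN
  set q : Fin c → Fin d → FG d ⧸ m.N := fun j i => (φ j (FreeGroup.of i) : FG d ⧸ m.N) with hq
  have hcong : ∀ j f, (φ j f)⁻¹ * lifts m.N q j f ∈ m.N := fun j f => lifts_congr φ j f
  have hmap : ∀ j, ∀ f ∈ m.N, φ j f ∈ m.N := fun j f hf => (h3 j f hf).1
  have hmap' : ∀ j, ∀ f ∈ m.N, lifts m.N q j f ∈ m.N := by
    intro j f hf
    have e : lifts m.N q j f = φ j f * ((φ j f)⁻¹ * lifts m.N q j f) := by group
    rw [e]
    exact mul_mem (hmap j f hf) (hcong j f)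
  have hv : (fun j => vmap p (lifts m.N q j)) = A := by
    funext j
    rw [← h2 j]
    apply LinearMap.ext
    intro v
    obtain ⟨x, rfl⟩ := mkV_surjective p v
    rw [vmap_mkV, vmap_mkV]
    exact ((mkV_eq_iff p _ _).2 (hN.2.1 (hcong j x))).symm
  refine Set.mem_iUnion.2 ⟨(q, B), ⟨⟨fun j f hf => hmap' j f hf, ?_⟩, ⟨m.l.1, ⟨m.l.2, ?_⟩, rfl⟩⟩⟩
  · show 𝒜 (fun j => vmap p (lifts m.N q j)) B
    rw [hv]
    exact hA
  · intro j u u' huu
    have h4 := IHom_lift_indep hN.2.1 m.l (φ j) (lifts m.N q j) (hcong j) (hmap j) (hmap' j) u.1 u.2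
    obtain ⟨h5, h6⟩ := h3 j u.1 u.2
    have h7 : u' = ⟨lifts m.N q j u.1, hmap' j u.1 u.2⟩ := Subtype.ext huu
    rw [h7, ← h4]
    exact h6

/-- **Family count** (FAM): groups having automorphisms whose induced maps belong to `𝒜` -/
theorem num_fam (M : ℕ) (𝒜 : (Fin c → V p (FG d) →ₗ[ZMod p] V p (FG d)) →
      (Fin c → XW p w →ₗ[ZMod p] XW p w) → Prop)
    (h𝒜 : ∀ A B, 𝒜 A B → Nat.card (Fix A B) ≤ p ^ M) :
    num (p ^ (d + k + w)) (fun G _ => ∃ (m : Mark p d k w) (_ : G ≃* m.grp)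
      (α : Fin c → m.grp ≃* m.grp) (A : _) (B : _), (∀ j, Mark.Ind (α j) (A j) (B j)) ∧ 𝒜 A B) ≤
    p ^ (k * (d * (d + 1) / 2 + d * k) + c * ((d + k) * d + w ^ 2) +
      w * (d * k + 2 * k + c * k + d) + M) := by
  classical
  have hp : p.Prime := Fact.out
  have hfinP := finite_PSub (p := p) d k
  set 𝒦 : Set (Set (FG d)) := ⋃ N ∈ hfinP.toFinset, famT 𝒜 N with h𝒦
  have hfin𝒦 : 𝒦.Finite := by
    refine Set.Finite.biUnion (Finset.finite_toSet _) fun N hN => ?_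
    exact (famT_bound h𝒜 (hfinP.mem_toFinset.1 hN)).1
  have hcard : 𝒦.ncard ≤ p ^ (k * (d * (d + 1) / 2 + d * k) + c * ((d + k) * d + w ^ 2) +
      w * (d * k + 2 * k + c * k + d) + M) := by
    refine (Finset.set_ncard_biUnion_le _ _).trans ?_
    refine (Finset.sum_le_card_nsmul _ _ _ fun N hN =>
      (famT_bound h𝒜 (hfinP.mem_toFinset.1 hN)).2).trans ?_
    rw [smul_eq_mul, ← Set.ncard_eq_toFinset_card _ hfinP]
    calc (PSub p d k).ncard * p ^ (c * ((d + k) * d + w ^ 2) +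
          (w * (d * k + 2 * k + c * k + d) + M)) ≤
        p ^ (k * (d * (d + 1) / 2 + d * k)) * p ^ (c * ((d + k) * d + w ^ 2) +
          (w * (d * k + 2 * k + c * k + d) + M)) := Nat.mul_le_mul_right _ (card_PSub_le d k)
      _ = _ := by rw [← pow_add]; congr 1; ring
  have := hfin𝒦.to_subtype
  refine le_trans (num_le_of_rel (X := 𝒦) (pow_pos hp.pos _)
    (fun G _ K => ∃ m : Mark p d k w, ((kerS m.l : Subgroup (FG d)) : Set (FG d)) = K.1 ∧
      Nonempty (G ≃* m.grp)) ?_ ?_) hcard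
  · rintro G _ - ⟨m, e, α, A, B, hI, hA⟩
    have hmem : ((kerS m.l : Subgroup (FG d)) : Set (FG d)) ∈ 𝒦 := by
      rw [h𝒦]
      exact Set.mem_biUnion (hfinP.mem_toFinset.2 m.hN) (mem_famT m α A B hI hA)
    exact ⟨⟨_, hmem⟩, m, rfl, ⟨e⟩⟩
  · rintro G H _ _ K - - - - ⟨m, hm, ⟨e⟩⟩ ⟨m', hm', ⟨e'⟩⟩
    have hK : kerS m.l = kerS m'.l := SetLike.coe_injective (hm.trans hm'.symm)
    exact ⟨(e.trans (QuotientGroup.quotientMulEquivOfEq hK)).trans e'.symm⟩

end Pool.Agent.IG
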