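import Pool.Agent.IG.StepDA
import Pool.Agent.IG.Transfer
import Pool.Agent.IG.FixD
import Pool.Agent.IG.Opt

/-!
# Few good groups have moving automorphisms
-/

open Subgroup Module Filter
open scoped commutatorElement

noncomputable section

namespace Pool.Agent.IG

variable {p : ℕ} [Fact p.Prime]

theorem stepDC_finite_V (p d : ℕ) [Fact p.Prime] : Finite (V p (FG d)) := by
  obtain ⟨b, -⟩ := basis_V_FG p d
  have : Module.Finite (ZMod p) (V p (FG d)) := Module.Finite.of_basis b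
  exact Module.finite_of_finite (ZMod p)

section Rep

variable {d k w : ℕ} (m : Mark p d k w)

/-- the map on `V` induced by an automorphism -/
def indA (g : MulAut m.grp) : V p (FG d) →ₗ[ZMod p] V p (FG d) := (Mark.exists_ind (m := m) g).choose

/-- the map on `Om` induced by an automorphism -/
def indB (g : MulAut m.grp) : XW p w →ₗ[ZMod p] XW p w :=
  (Mark.exists_ind (m := m) g).choose_spec.choose

theorem ind_indA (g : MulAut m.grp) : Mark.Ind (m := m) (m' := m) g (indA m g) (indB m g) :=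
  (Mark.exists_ind (m := m) g).choose_spec.choose_spec

theorem indA_one : indA m 1 = LinearMap.id :=
  (Mark.ind_unique (ind_indA m 1) (Mark.ind_refl m)).1

theorem indB_one : indB m 1 = LinearMap.id :=
  (Mark.ind_unique (ind_indA m 1) (Mark.ind_refl m)).2

theorem indA_mul (g h : MulAut m.grp) : indA m (g * h) = indA m g ∘ₗ indA m h :=
  (Mark.ind_unique (ind_indA m (g * h)) (Mark.ind_trans (ind_indA m h) (ind_indA m g))).1

theorem indB_mul (g h : MulAut m.grp) : indB m (g * h) = indB m g ∘ₗ indB m h :=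
  (Mark.ind_unique (ind_indA m (g * h)) (Mark.ind_trans (ind_indA m h) (ind_indA m g))).2

/-- the representation on `V` -/
def repV (Γ : Subgroup (MulAut m.grp)) : Γ →* (V p (FG d) →ₗ[ZMod p] V p (FG d)) where
  toFun g := indA m g.1
  map_one' := indA_one m
  map_mul' g h := indA_mul m g.1 h.1

/-- the representation on `Om` -/
def repX (Γ : Subgroup (MulAut m.grp)) : Γ →* (XW p w →ₗ[ZMod p] XW p w) where
  toFun g := indB m g.1
  map_one' := indB_one m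
  map_mul' g h := indB_mul m g.1 h.1

/-- the Frattini quotient of the group of a marking -/
theorem exists_eV_equiv : ∃ e : V p (FG d) ≃ₗ[ZMod p] V p m.grp,
    ∀ (g : MulAut m.grp) (v : V p (FG d)),
      e (indA m g v) = vmap p (g : m.grp ≃* m.grp).toMonoidHom (e v) := by
  obtain ⟨e, he⟩ := m.exists_eV
  refine ⟨e, fun g v => ?_⟩
  obtain ⟨φ, h1, h2, -⟩ := ind_indA m g
  obtain ⟨x, rfl⟩ := mkV_surjective p v
  rw [← h2, vmap_mkV, he, he, vmap_mkV]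
  congr 1
  exact (h1 x).symm

/-- `Om` of the group of a marking -/
theorem exists_eO_equiv : ∃ e : OV p m.grp ≃ₗ[ZMod p] XW p w,
    ∀ (g : MulAut m.grp) (z : OV p m.grp), e (omap p (g : m.grp ≃* m.grp) z) = indB m g (e z) := by
  obtain ⟨e, he⟩ := m.exists_eO
  refine ⟨e, fun g z => ?_⟩
  obtain ⟨φ, h1, -, h3⟩ := ind_indA m g
  obtain ⟨x, hx⟩ := QuotientGroup.mk_surjective z.val
  have hxN : x ∈ m.N := by
    rw [← m.mem_Om_iff, hx]
    exact z.val_mem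
  obtain ⟨h4, h5⟩ := h3 x hxN
  rw [he z x hxN hx.symm, ← h5]
  apply he
  rw [omap_val, ← hx]
  exact h1 x

end Rep

/-- few good groups have many moving automorphisms -/
theorem num_moves {d k w c f : ℕ} :
    num (p ^ (d + k + w)) (fun G _ => dd p G = d ∧ om p G = w ∧ Moves p c f G) ≤
      p ^ (k * (d * (d + 1) / 2 + d * k) + c * ((d + k) * d + w ^ 2) +
        w * (d * k + 2 * k + c * k + d) +
        max (w * ((d ^ 2 - f ^ 2) / 2)) ((w - f) * d.choose 2)) := by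
  have hp : p.Prime := Fact.out
  set M := max (w * ((d ^ 2 - f ^ 2) / 2)) ((w - f) * d.choose 2) with hM
  have h1 := num_fam (p := p) (d := d) (k := k) (w := w) (c := c) M
    (fun A B => Nat.card (Fix A B) ≤ p ^ M) (fun A B h => h)
  refine le_trans (num_mono (pow_pos hp.pos _) ?_) h1
  rintro G _ hcard ⟨hdd, hom, hmv⟩
  have hfin : Finite G := Nat.finite_of_card_ne_zero (by
    rw [hcard]; exact pow_ne_zero _ hp.ne_zero)
  have hG : IsPGroup p G := IsPGroup.of_card hcard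
  obtain ⟨x, hx⟩ := Mark.exists_gen hG
  obtain ⟨k', hk', m, e, -⟩ := Mark.exists_mark hcard x hx
  subst hdd hom
  obtain rfl : k' = k := by omega
  obtain ⟨α, hα, hcase⟩ := Moves_isoInv c f G m.grp e hmv
  set Γ : Subgroup (MulAut m.grp) := closure (Set.range α) with hΓ
  have hfm : Finite m.grp := m.finite_grp
  have hfA : Finite (MulAut m.grp) :=
    Finite.of_injective (fun g : MulAut m.grp => (g : m.grp → m.grp)) DFunLike.coe_injective
  have hfV := stepDC_finite_V p (dd p G)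
  let γ : Fin c → Γ := fun j => ⟨α j, subset_closure ⟨j, rfl⟩⟩
  have hγ : closure (Set.range γ) = ⊤ := by
    have h2 : ((↑) : Γ → MulAut m.grp) ⁻¹' (Set.range α) = Set.range γ := by
      ext y
      constructor
      · rintro ⟨j, hj⟩
        exact ⟨j, Subtype.ext hj⟩
      · rintro ⟨j, rfl⟩
        exact ⟨j, rfl⟩
    rw [← h2]
    exact closure_closure_coe_preimage
  refine ⟨m, e, α, fun j => repV m Γ (γ j), fun j => repX m Γ (γ j), fun j => ind_indA m (α j), ?_⟩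
  have hX : finrank (ZMod p) (XW p (om p G)) = om p G := Module.finrank_fin_fun _
  rcases hcase with hf | ⟨Z, hZ, hf⟩
  · obtain ⟨eV, heV⟩ := exists_eV_equiv m
    have h2 := fix_D1 hα (repV m Γ) (repX m Γ) γ hγ (f := f) ?_
    · rw [hX, finrank_V_FG] at h2
      exact h2.trans (Nat.pow_le_pow_right hp.pos (le_max_left _ _))
    · refine hf.trans (le_of_eq ?_)
      have h3 : {v : V p m.grp | ∃ g ∈ Γ, ∃ x,
          v = vmap p (g : m.grp ≃* m.grp).toMonoidHom x - x} =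
          eV '' {v | ∃ (g : Γ) (x : _), v = repV m Γ g x - x} := by
        ext v
        constructor
        · rintro ⟨g, hg, y, rfl⟩
          obtain ⟨x, rfl⟩ := eV.surjective y
          refine ⟨_, ⟨⟨g, hg⟩, x, rfl⟩, ?_⟩
          rw [map_sub]
          exact congrArg (fun z => z - eV x) (heV g x)
        · rintro ⟨_, ⟨g, x, rfl⟩, rfl⟩
          refine ⟨g.1, g.2, eV x, ?_⟩
          rw [map_sub]
          exact congrArg (fun z => z - eV x) (heV g.1 x)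
      have h4 : Submodule.span (ZMod p) (eV '' {v | ∃ (g : Γ) (x : _), v = repV m Γ g x - x}) =
          (Submodule.span (ZMod p) {v | ∃ (g : Γ) (x : _), v = repV m Γ g x - x}).map
            eV.toLinearMap := by
        rw [Submodule.map_span]
        rfl
      rw [h3, h4]
      exact LinearEquiv.finrank_map_eq eV _
  · obtain ⟨eO, heO⟩ := exists_eO_equiv m
    have h2 := fix_D2 hα (repV m Γ) (repX m Γ) γ hγ (f := f) (Z.map eO.toLinearMap) ?_ ?_
    · rw [hX, finrank_V_FG] at h2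
      exact h2.trans (Nat.pow_le_pow_right hp.pos (le_max_right _ _))
    · intro z
      constructor
      · rintro ⟨y, hy, rfl⟩ g
        have h3 := (hZ y).1 hy g.1 g.2
        have h4 := heO g.1 y
        rw [h3] at h4
        exact h4.symm
      · intro h
        refine ⟨eO.symm z, (hZ _).2 fun g hg => ?_, eO.apply_symm_apply z⟩
        apply eO.injective
        rw [heO, eO.apply_symm_apply]
        exact h ⟨g, hg⟩
    · have h3 : finrank (ZMod p) (Z.map eO.toLinearMap) = finrank (ZMod p) Z :=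
        LinearEquiv.finrank_map_eq eO Z
      rw [h3, hX]
      rw [m.om_grp] at hf
      exact hf

theorem stepDC_moves_mono {c f f' : ℕ} (h : f ≤ f') {K : Type} [Group K] (hK : Moves p c f' K) :
    Moves p c f K := by
  obtain ⟨α, hα, h1⟩ := hK
  refine ⟨α, hα, ?_⟩
  rcases h1 with h1 | ⟨Z, hZ, h1⟩
  · exact Or.inl (h.trans h1)
  · exact Or.inr ⟨Z, hZ, by omega⟩

theorem stepDC_num_false (N : ℕ) : num N (fun _ _ => False) = 0 := by
  unfold num
  have : IsEmpty {c : Cl N // ∃ G : GS N, Quotient.mk (gsSetoid N) G = c ∧ False} :=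
    ⟨fun x => by obtain ⟨_, _, h⟩ := x.2; exact h⟩
  exact Nat.card_of_isEmpty

/-- the exponent in `num_moves` -/
theorem stepDC_exp {e : ℝ} (he : 0 < e) (he' : e ≤ 1 / 4) (c n d k w : ℕ) (hn : 2 / e ≤ n)
    (hsum : d + k + w = n) (hd : (2 / 3 - e ^ 2 / 512) * n ≤ d)
    (hw : (1 / 3 - e ^ 2 / 512) * n ≤ w) :
    ((k * (d * (d + 1) / 2 + d * k) + c * ((d + k) * d + w ^ 2) +
        w * (d * k + 2 * k + c * k + d) +
        max (w * ((d ^ 2 - ⌊e * n⌋₊ ^ 2) / 2)) ((w - ⌊e * n⌋₊) * d.choose 2) : ℕ) : ℝ) ≤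
      (2 / 27 - e ^ 2 / 64) * (n : ℝ) ^ 3 + (3 * c + 3) * (n : ℝ) ^ 2 := by
  have hn0 : (0 : ℝ) < n := lt_of_lt_of_le (by positivity) hn
  have hn8 : (8 : ℝ) ≤ n := by
    have h1 : (8 : ℝ) ≤ 2 / e := by
      rw [le_div_iff₀ he]; linarith
    linarith
  have hsumR : (d : ℝ) + k + w = n := by exact_mod_cast hsum
  have hd0 : (0 : ℝ) ≤ d := Nat.cast_nonneg _
  have hk0 : (0 : ℝ) ≤ k := Nat.cast_nonneg _
  have hw0 : (0 : ℝ) ≤ w := Nat.cast_nonneg _
  have hc0 : (0 : ℝ) ≤ c := Nat.cast_nonneg _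
  have he2 : e ^ 2 ≤ 1 / 16 := by nlinarith
  have he20 : 0 < e ^ 2 := by positivity
  have hk : (k : ℝ) ≤ e ^ 2 / 256 * n := by nlinarith
  have hdn : (d : ℝ) ≤ n := by linarith
  have hwn : (w : ℝ) ≤ n := by linarith
  have hkn : (k : ℝ) ≤ n := by linarith
  have hdk : (d : ℝ) + k ≤ n := by linarith
  have hd' : 1 / 2 * (n : ℝ) ≤ d := by nlinarith
  have hw' : 1 / 4 * (n : ℝ) ≤ w := by nlinarith
  -- the floor
  set f := ⌊e * n⌋₊ with hf
  have hf1 : (f : ℝ) ≤ e * n := Nat.floor_le (by positivity)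
  have hf2 : e * n < f + 1 := Nat.lt_floor_add_one _
  have hen : 2 ≤ e * n := by
    rw [div_le_iff₀ he] at hn
    linarith
  have hf3 : e * n / 2 ≤ f := by linarith
  have hf4 : (f : ℝ) ≤ 1 / 4 * n := by nlinarith
  have hfd : f ≤ d := by
    have : (f : ℝ) ≤ d := by linarith
    exact_mod_cast this
  have hfw : f ≤ w := by
    have : (f : ℝ) ≤ w := by linarith
    exact_mod_cast this
  -- first terms
  have h1 : ((k * (d * (d + 1) / 2 + d * k) : ℕ) : ℝ) ≤ e ^ 2 / 128 * (n : ℝ) ^ 3 := by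
    have h2 : ((d * (d + 1) / 2 : ℕ) : ℝ) ≤ (n : ℝ) ^ 2 := by
      have h3 : ((d * (d + 1) / 2 : ℕ) : ℝ) ≤ ((d * (d + 1) : ℕ) : ℝ) / ((2 : ℕ) : ℝ) :=
        Nat.cast_div_le
      push_cast at h3
      nlinarith
    push_cast
    have h4 : (d : ℝ) * k ≤ (n : ℝ) ^ 2 := by nlinarith
    calc (k : ℝ) * (((d * (d + 1) / 2 : ℕ) : ℝ) + d * k) ≤ k * ((n : ℝ) ^ 2 + (n : ℝ) ^ 2) := by
          apply mul_le_mul_of_nonneg_left _ hk0
          linarith
      _ ≤ (e ^ 2 / 256 * n) * ((n : ℝ) ^ 2 + (n : ℝ) ^ 2) :=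
          mul_le_mul_of_nonneg_right hk (by positivity)
      _ = e ^ 2 / 128 * (n : ℝ) ^ 3 := by ring
  have h2 : ((c * ((d + k) * d + w ^ 2) : ℕ) : ℝ) ≤ 2 * c * (n : ℝ) ^ 2 := by
    push_cast
    have h3 : ((d : ℝ) + k) * d ≤ (n : ℝ) ^ 2 := by nlinarith
    have h4 : (w : ℝ) ^ 2 ≤ (n : ℝ) ^ 2 := by nlinarith
    calc (c : ℝ) * (((d : ℝ) + k) * d + (w : ℝ) ^ 2) ≤ c * ((n : ℝ) ^ 2 + (n : ℝ) ^ 2) :=
          mul_le_mul_of_nonneg_left (by linarith) hc0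
      _ = _ := by ring
  have h3 : ((w * (d * k + 2 * k + c * k + d) : ℕ) : ℝ) ≤ e ^ 2 / 256 * (n : ℝ) ^ 3 +
      (c + 3) * (n : ℝ) ^ 2 := by
    push_cast
    have a1 : (w : ℝ) * (d * k) ≤ e ^ 2 / 256 * (n : ℝ) ^ 3 := by
      calc (w : ℝ) * (d * k) ≤ n * (n * (e ^ 2 / 256 * n)) := by gcongr
        _ = _ := by ring
    have a2 : (w : ℝ) * k ≤ (n : ℝ) ^ 2 := by
      calc (w : ℝ) * k ≤ n * n := by gcongr
        _ = _ := by ring
    have a3 : (w : ℝ) * d ≤ (n : ℝ) ^ 2 := by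
      calc (w : ℝ) * d ≤ n * n := by gcongr
        _ = _ := by ring
    have a4 : (c : ℝ) * ((w : ℝ) * k) ≤ c * (n : ℝ) ^ 2 := mul_le_mul_of_nonneg_left a2 hc0
    calc (w : ℝ) * (d * k + 2 * k + c * k + d) = w * (d * k) + 2 * (w * k) + c * (w * k) + w * d := by
          ring
      _ ≤ e ^ 2 / 256 * (n : ℝ) ^ 3 + 2 * (n : ℝ) ^ 2 + c * (n : ℝ) ^ 2 + (n : ℝ) ^ 2 := by linarith
      _ = _ := by ring
  have hopt : (d : ℝ) ^ 2 * w / 2 ≤ 2 / 27 * (n : ℝ) ^ 3 := opt_le hd0 hw0 (by linarith)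
  have h4 : ((w * ((d ^ 2 - f ^ 2) / 2) : ℕ) : ℝ) ≤ (2 / 27 - e ^ 2 / 32) * (n : ℝ) ^ 3 := by
    have b1 : (((d ^ 2 - f ^ 2) / 2 : ℕ) : ℝ) ≤ ((d : ℝ) ^ 2 - (f : ℝ) ^ 2) / 2 := by
      have b2 : (((d ^ 2 - f ^ 2) / 2 : ℕ) : ℝ) ≤ ((d ^ 2 - f ^ 2 : ℕ) : ℝ) / ((2 : ℕ) : ℝ) :=
        Nat.cast_div_le
      rw [Nat.cast_sub (Nat.pow_le_pow_left hfd 2)] at b2
      push_cast at b2
      exact b2
    push_cast
    have b3 : (w : ℝ) * (((d ^ 2 - f ^ 2) / 2 : ℕ) : ℝ) ≤ w * (((d : ℝ) ^ 2 - (f : ℝ) ^ 2) / 2) :=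
      mul_le_mul_of_nonneg_left b1 hw0
    have b4 : e ^ 2 / 32 * (n : ℝ) ^ 3 ≤ w * ((f : ℝ) ^ 2 / 2) := by
      calc e ^ 2 / 32 * (n : ℝ) ^ 3 = (1 / 4 * n) * ((e * n / 2) ^ 2 / 2) := by ring
        _ ≤ w * ((f : ℝ) ^ 2 / 2) := by gcongr
    calc (w : ℝ) * (((d ^ 2 - f ^ 2) / 2 : ℕ) : ℝ) ≤ w * (((d : ℝ) ^ 2 - (f : ℝ) ^ 2) / 2) := b3
      _ = (d : ℝ) ^ 2 * w / 2 - w * ((f : ℝ) ^ 2 / 2) := by ring
      _ ≤ _ := by linarith
  have h5 : (((w - f) * d.choose 2 : ℕ) : ℝ) ≤ (2 / 27 - e ^ 2 / 32) * (n : ℝ) ^ 3 := by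
    rw [Nat.cast_mul, Nat.cast_sub hfw, Nat.cast_choose_two]
    have b1 : (0 : ℝ) ≤ (w : ℝ) - f := by
      have : (f : ℝ) ≤ w := by exact_mod_cast hfw
      linarith
    have b2 : (d : ℝ) * (d - 1) / 2 ≤ (d : ℝ) ^ 2 / 2 := by nlinarith
    have b3 : ((w : ℝ) - f) * ((d : ℝ) * (d - 1) / 2) ≤ (w - f) * ((d : ℝ) ^ 2 / 2) :=
      mul_le_mul_of_nonneg_left b2 b1
    have b4 : e ^ 2 / 32 * (n : ℝ) ^ 3 ≤ f * ((d : ℝ) ^ 2 / 2) := by
      calc e ^ 2 / 32 * (n : ℝ) ^ 3 ≤ e / 16 * (n : ℝ) ^ 3 := by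
            apply mul_le_mul_of_nonneg_right _ (by positivity)
            nlinarith
        _ = (e * n / 2) * ((1 / 2 * n) ^ 2 / 2) := by ring
        _ ≤ f * ((d : ℝ) ^ 2 / 2) := by gcongr
    calc ((w : ℝ) - f) * ((d : ℝ) * (d - 1) / 2) ≤ (w - f) * ((d : ℝ) ^ 2 / 2) := b3
      _ = (d : ℝ) ^ 2 * w / 2 - f * ((d : ℝ) ^ 2 / 2) := by ring
      _ ≤ _ := by linarith
  rw [Nat.cast_add, Nat.cast_add, Nat.cast_add, Nat.cast_max]
  have h6 := max_le h4 h5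
  nlinarith [pow_pos hn0 3]

/-- for large `n`, few good groups move -/
theorem few_moves (e : ℝ) (he : 0 < e) : ∃ e₁ > 0, ∃ δ > 0, ∀ c : ℕ, ∀ᶠ n : ℕ in atTop,
    (num (p ^ n) (fun G _ => Good p e₁ n G ∧ Moves p c ⌊e * n⌋₊ G) : ℝ) ≤
      (p : ℝ) ^ ((2 / 27 - δ) * (n : ℝ) ^ 3) := by
  have hp : p.Prime := Fact.out
  have hp1 : (1 : ℝ) ≤ p := by exact_mod_cast hp.one_le
  have hp2 : (2 : ℝ) ≤ p := by exact_mod_cast hp.two_le
  set e' := min e (1 / 4) with he'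
  have he'0 : 0 < e' := lt_min he (by norm_num)
  have he'1 : e' ≤ 1 / 4 := min_le_right _ _
  refine ⟨e' ^ 2 / 512, by positivity, e' ^ 2 / 128, by positivity, fun c => ?_⟩
  have hev : ∀ᶠ n : ℕ in atTop, max (2 / e') (128 * (3 * c + 5) / e' ^ 2) ≤ (n : ℝ) :=
    tendsto_natCast_atTop_atTop.eventually_ge_atTop _
  filter_upwards [hev] with n hn
  have hn1 : 2 / e' ≤ (n : ℝ) := (le_max_left _ _).trans hn
  have hn2 : 128 * (3 * c + 5) / e' ^ 2 ≤ (n : ℝ) := (le_max_right _ _).trans hn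
  have hn0 : (0 : ℝ) < n := lt_of_lt_of_le (by positivity) hn1
  set R : ℝ := (2 / 27 - e' ^ 2 / 64) * (n : ℝ) ^ 3 + (3 * c + 3) * (n : ℝ) ^ 2 with hR
  -- split according to the invariants
  have hsplit := num_le_sum (N := p ^ n) (pow_pos hp.pos _) (ι := Fin (n + 1) × Fin (n + 1))
    (P := fun G _ => Good p (e' ^ 2 / 512) n G ∧ Moves p c ⌊e * n⌋₊ G)
    (fun i G _ => (dd p G = i.1.val ∧ om p G = i.2.val) ∧ i.1.val + i.2.val ≤ n ∧
      Good p (e' ^ 2 / 512) n G ∧ Moves p c ⌊e' * n⌋₊ G) (by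
        rintro G _ hcard ⟨hg, hm⟩
        have hfin : Finite G := Nat.finite_of_card_ne_zero (by
          rw [hcard]; exact pow_ne_zero _ hp.ne_zero)
        have h1 := dd_add_om_le (p := p) hcard
        refine ⟨(⟨dd p G, by omega⟩, ⟨om p G, by omega⟩), ⟨rfl, rfl⟩, h1, hg, ?_⟩
        refine stepDC_moves_mono (Nat.floor_mono ?_) hm
        exact mul_le_mul_of_nonneg_right (min_le_left _ _) hn0.le)
  have hterm : ∀ i : Fin (n + 1) × Fin (n + 1),
      (num (p ^ n) (fun G _ => (dd p G = i.1.val ∧ om p G = i.2.val) ∧ i.1.val + i.2.val ≤ n ∧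
        Good p (e' ^ 2 / 512) n G ∧ Moves p c ⌊e' * n⌋₊ G) : ℝ) ≤ (p : ℝ) ^ R := by
    rintro ⟨⟨d, hd⟩, ⟨w, hw⟩⟩
    simp only
    by_cases hc : d + w ≤ n ∧ (2 / 3 - e' ^ 2 / 512) * n ≤ d ∧ (1 / 3 - e' ^ 2 / 512) * n ≤ w
    · obtain ⟨hc1, hc2, hc3⟩ := hc
      obtain ⟨k, hk⟩ : ∃ k, d + k + w = n := ⟨n - d - w, by omega⟩
      have h1 := num_moves (p := p) (d := d) (k := k) (w := w) (c := c) (f := ⌊e' * n⌋₊)
      rw [hk] at h1
      have h2 : num (p ^ n) (fun G _ => (dd p G = d ∧ om p G = w) ∧ d + w ≤ n ∧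
        Good p (e' ^ 2 / 512) n G ∧ Moves p c ⌊e' * n⌋₊ G) ≤
          num (p ^ n) (fun G _ => dd p G = d ∧ om p G = w ∧ Moves p c ⌊e' * n⌋₊ G) :=
        num_mono (pow_pos hp.pos _) fun G _ _ h => ⟨h.1.1, h.1.2, h.2.2.2⟩
      have h3 := stepDC_exp he'0 he'1 c n d k w hn1 hk hc2 hc3
      calc _ ≤ (((p ^ _ : ℕ)) : ℝ) := Nat.cast_le.2 (h2.trans h1)
        _ = (p : ℝ) ^ ((_ : ℕ) : ℝ) := by rw [Nat.cast_pow, Real.rpow_natCast]
        _ ≤ (p : ℝ) ^ R := Real.rpow_le_rpow_of_exponent_le hp1 h3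
    · have h2 : num (p ^ n) (fun G _ => (dd p G = d ∧ om p G = w) ∧ d + w ≤ n ∧
        Good p (e' ^ 2 / 512) n G ∧ Moves p c ⌊e' * n⌋₊ G) ≤ num (p ^ n) (fun _ _ => False) := by
        refine num_mono (pow_pos hp.pos _) fun G _ _ h => hc ⟨h.2.1, ?_, ?_⟩
        · have := h.2.2.1.1
          rwa [h.1.1] at this
        · have := h.2.2.1.2
          rwa [h.1.2] at this
      rw [stepDC_num_false] at h2
      have h3 := Nat.le_zero.1 h2
      rw [h3]
      simp only [Nat.cast_zero]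
      positivity
  have hsum : (num (p ^ n) (fun G _ => Good p (e' ^ 2 / 512) n G ∧ Moves p c ⌊e * n⌋₊ G) : ℝ) ≤
      ((n : ℝ) + 1) ^ 2 * (p : ℝ) ^ R := by
    have h1 : (num (p ^ n) (fun G _ => Good p (e' ^ 2 / 512) n G ∧ Moves p c ⌊e * n⌋₊ G) : ℝ) ≤ _ :=
      Nat.cast_le.2 hsplit
    refine h1.trans ?_
    rw [Nat.cast_sum]
    refine (Finset.sum_le_card_nsmul _ _ _ fun i _ => hterm i).trans (le_of_eq ?_)
    rw [Finset.card_univ, Fintype.card_prod, Fintype.card_fin, nsmul_eq_mul]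
    push_cast
    ring
  have hpow : ((n : ℝ) + 1) ^ 2 ≤ (p : ℝ) ^ ((2 * n : ℕ) : ℝ) := by
    rw [Real.rpow_natCast, mul_comm, pow_mul]
    apply pow_le_pow_left₀ (by positivity)
    have h1 : n + 1 ≤ 2 ^ n := Nat.lt_two_pow_self
    have h2 : ((n : ℝ) + 1) ≤ 2 ^ n := by exact_mod_cast h1
    exact h2.trans (pow_le_pow_left₀ (by norm_num) hp2 n)
  calc _ ≤ ((n : ℝ) + 1) ^ 2 * (p : ℝ) ^ R := hsum
    _ ≤ (p : ℝ) ^ ((2 * n : ℕ) : ℝ) * (p : ℝ) ^ R :=
        mul_le_mul_of_nonneg_right hpow (by positivity)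
    _ = (p : ℝ) ^ (((2 * n : ℕ) : ℝ) + R) := by
        rw [← Real.rpow_add (by linarith)]
    _ ≤ _ := by
        apply Real.rpow_le_rpow_of_exponent_le hp1
        rw [hR]
        push_cast
        rw [div_le_iff₀ (by positivity)] at hn2
        have h1 : (3 * (c : ℝ) + 5) * (n : ℝ) ^ 2 ≤ e' ^ 2 / 128 * (n : ℝ) ^ 3 := by
          have h2 : (3 * (c : ℝ) + 5) ≤ e' ^ 2 / 128 * n := by linarith
          calc (3 * (c : ℝ) + 5) * (n : ℝ) ^ 2 ≤ (e' ^ 2 / 128 * n) * (n : ℝ) ^ 2 :=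
                mul_le_mul_of_nonneg_right h2 (by positivity)
            _ = _ := by ring
        have h3 : (n : ℝ) ≤ (n : ℝ) ^ 2 := by
          have h4 : (8 : ℝ) ≤ 2 / e' := by
            rw [le_div_iff₀ he'0]; linarith
          nlinarith
        nlinarith

end Pool.Agent.IG
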