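import Pool.Agent.IG.TypeIC

/-!
# Type I groups: counting the data except the commutators
-/

open Subgroup Filter
open scoped commutatorElement

noncomputable section

namespace Pool.Agent.IG

variable {p : ℕ} [Fact p.Prime]

/-! ### B5 -/

theorem tie_exists_inj {α : Type} [Finite α] {N : ℕ} (h : Nat.card α ≤ N) :
    ∃ f : α → Fin N, Function.Injective f :=
  ⟨fun a => Fin.castLE h (Finite.equivFin α a), fun _ _ hab =>
    (Finite.equivFin α).injective (Fin.castLE_injective h hab)⟩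

theorem tie_exists_N (n s : ℕ) : ∃ f : ∀ τ : ℕ, NSub p s τ → Fin (p ^ (s * n ^ 2)),
    ∀ τ ≤ n, Function.Injective (f τ) := by
  classical
  have hp : 0 < p := (Fact.out : p.Prime).pos
  have h : ∀ τ : ℕ, ∃ f : NSub p s τ → Fin (p ^ (s * n ^ 2)), τ ≤ n → Function.Injective f := by
    intro τ
    by_cases hτ : τ ≤ n
    · have := (finite_NSub (p := p) s τ).to_subtype
      have hc : Nat.card (NSub p s τ) ≤ p ^ (s * n ^ 2) := by
        rw [Nat.card_coe_set_eq]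
        exact (card_NSub_le s τ).trans (Nat.pow_le_pow_right hp
          (Nat.mul_le_mul_left _ (Nat.pow_le_pow_left hτ 2)))
      obtain ⟨f, hf⟩ := tie_exists_inj hc
      exact ⟨f, fun _ => hf⟩
    · exact ⟨fun _ => ⟨0, by positivity⟩, fun h => absurd h hτ⟩
  choose f hf using h
  exact ⟨f, hf⟩

theorem tie_exists_T (n s : ℕ) : ∃ f : ∀ R : Subgroup (FG s), FG s ⧸ R → Fin (p ^ n),
    ∀ τ ≤ n, ∀ R ∈ NSub p s τ, Function.Injective (f R) := by
  classical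
  have hp : 0 < p := (Fact.out : p.Prime).pos
  have h : ∀ R : Subgroup (FG s), ∃ f : FG s ⧸ R → Fin (p ^ n),
      ∀ τ ≤ n, R ∈ NSub p s τ → Function.Injective f := by
    intro R
    by_cases hR : ∃ τ ≤ n, R ∈ NSub p s τ
    · obtain ⟨τ, hτ, hR1, hR2⟩ := hR
      have h0 : R.index ≠ 0 := by rw [hR2]; positivity
      have : R.FiniteIndex := ⟨h0⟩
      have : Finite (FG s ⧸ R) := Subgroup.finite_quotient_of_finiteIndex
      have hc : Nat.card (FG s ⧸ R) ≤ p ^ n := by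
        have h1 : Nat.card (FG s ⧸ R) = R.index := rfl
        rw [h1, hR2]
        exact Nat.pow_le_pow_right hp hτ
      obtain ⟨f, hf⟩ := tie_exists_inj hc
      exact ⟨f, fun _ _ _ => hf⟩
    · exact ⟨fun _ => ⟨0, by positivity⟩, fun τ hτ h => absurd ⟨τ, hτ, h⟩ hR⟩
  choose f hf using h
  exact ⟨f, fun τ hτ R hR => hf R τ hτ hR⟩

/-- the target of the injection -/
abbrev TieTgt (p n s : ℕ) : Type :=
  Fin (n + 1) × Fin (n + 1) × (Fin n → Fin (n + 1)) × Fin (p ^ (s * n ^ 2)) ×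
    (Fin n → Fin s → Fin (p ^ n)) × (Fin n → Fin (p ^ n))

omit [Fact p.Prime] in
theorem tie_k_le {n s : ℕ} (D : IData p n s) (i : Fin D.t) : D.k i ≤ n := by
  have h1 : D.k i ≤ ∑ i, D.k i := Finset.single_le_sum (fun _ _ => Nat.zero_le _)
    (Finset.mem_univ i)
  have := D.hkn
  omega

theorem tie_inj (n s : ℕ) : ∃ Φ : (Σ D : IData p n s, (Fin D.t → Fin s → FG s ⧸ D.R) ×
    (Fin D.t → FG s ⧸ D.R)) → TieTgt p n s, Function.Injective Φ := by
  classical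
  have hp : 0 < p := (Fact.out : p.Prime).pos
  obtain ⟨eN, hN⟩ := tie_exists_N (p := p) n s
  obtain ⟨eT, hT⟩ := tie_exists_T (p := p) n s
  have z : Fin (p ^ n) := ⟨0, by positivity⟩
  refine ⟨fun x => (⟨x.1.t, Nat.lt_succ_of_le x.1.ht⟩, ⟨x.1.τ, Nat.lt_succ_of_le x.1.hτ⟩,
    fun i => if h : (i : ℕ) < x.1.t then ⟨x.1.k ⟨i, h⟩, Nat.lt_succ_of_le (tie_k_le x.1 _)⟩ else 0,
    eN x.1.τ ⟨x.1.R, x.1.hR⟩,
    fun i j => if h : (i : ℕ) < x.1.t then eT x.1.R (x.2.1 ⟨i, h⟩ j) else z,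
    fun i => if h : (i : ℕ) < x.1.t then eT x.1.R (x.2.2 ⟨i, h⟩) else z), ?_⟩
  rintro ⟨⟨t, ht, τ, hτ, R, hR, k, hk, hkn⟩, a, q⟩ ⟨⟨t', ht', τ', hτ', R', hR', k', hk', hkn'⟩,
    a', q'⟩ h
  simp only [Prod.mk.injEq, Fin.mk.injEq] at h
  obtain ⟨h1, h2, h3, h4, h5, h6⟩ := h
  subst h1
  subst h2
  have h7 : R = R' := congrArg Subtype.val (hN τ hτ h4)
  subst h7
  have h8 : k = k' := by
    funext i
    have h9 := congrFun h3 ⟨i.1, i.2.trans_le ht⟩
    simp only [i.2, dif_pos, Fin.mk.injEq] at h9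
    exact h9
  subst h8
  have h10 : a = a' := by
    funext i j
    have h9 := congrFun (congrFun h5 ⟨i.1, i.2.trans_le ht⟩) j
    simp only [i.2, dif_pos] at h9
    exact hT τ hτ R hR h9
  have h11 : q = q' := by
    funext i
    have h9 := congrFun h6 ⟨i.1, i.2.trans_le ht⟩
    simp only [i.2, dif_pos] at h9
    exact hT τ hτ R hR h9
  rw [h10, h11]

instance finite_IData {n s : ℕ} :
    Finite (Σ D : IData p n s, (Fin D.t → Fin s → FG s ⧸ D.R) × (Fin D.t → FG s ⧸ D.R)) := by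
  obtain ⟨Φ, hΦ⟩ := tie_inj (p := p) n s
  exact Finite.of_injective Φ hΦ

/-- all the data except the commutators are few -/
theorem card_IData_le {n s : ℕ} (hn : 1 ≤ n) (hs : 1 ≤ s) :
    Nat.card (Σ D : IData p n s, (Fin D.t → Fin s → FG s ⧸ D.R) × (Fin D.t → FG s ⧸ D.R)) ≤
      p ^ (2 * s * n ^ 2 + 6 * n ^ 2) := by
  obtain ⟨Φ, hΦ⟩ := tie_inj (p := p) n s
  have hp2 : 2 ≤ p := (Fact.out : p.Prime).two_le
  have hp : 0 < p := by omega
  have h1 := Nat.card_le_card_of_injective Φ hΦ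
  have h2 : Nat.card (TieTgt p n s) = (n + 1) * ((n + 1) * ((n + 1) ^ n * (p ^ (s * n ^ 2) *
      (((p ^ n) ^ s) ^ n * (p ^ n) ^ n)))) := by
    simp [TieTgt, Nat.card_prod, Nat.card_pi]
  have h3 : n + 1 ≤ p ^ n := by
    have h4 : n < 2 ^ n := Nat.lt_two_pow_self
    exact (Nat.succ_le_of_lt h4).trans (Nat.pow_le_pow_left hp2 n)
  refine h1.trans ?_
  rw [h2]
  calc (n + 1) * ((n + 1) * ((n + 1) ^ n * (p ^ (s * n ^ 2) * (((p ^ n) ^ s) ^ n * (p ^ n) ^ n))))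
      ≤ p ^ n * (p ^ n * ((p ^ n) ^ n * (p ^ (s * n ^ 2) * (((p ^ n) ^ s) ^ n * (p ^ n) ^ n)))) := by
        gcongr
    _ = p ^ (n + (n + (n * n + (s * n ^ 2 + (n * s * n + n * n))))) := by
        simp only [← pow_mul, ← pow_add]
    _ ≤ p ^ (2 * s * n ^ 2 + 6 * n ^ 2) := by
        apply Nat.pow_le_pow_right hp
        nlinarith [Nat.mul_le_mul hn hn, Nat.mul_le_mul_left n hn]

end Pool.Agent.IG
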