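import Pool.Agent.IG.TypeID
import Pool.Agent.IG.TypeIE
import Pool.Agent.IG.Opt

/-!
# Theorem B: counting groups of type I which are not good
-/

open Subgroup Filter
open scoped commutatorElement

set_option linter.unusedSectionVars false

noncomputable section

namespace Pool.Agent.IG

variable {p : ℕ} [Fact p.Prime]

theorem Good_mono {e e' : ℝ} (h : e' ≤ e) {n : ℕ} {G : Type} [Group G] (hg : Good p e' n G) :
    Good p e n G := by
  have hn : (0 : ℝ) ≤ n := Nat.cast_nonneg n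
  refine ⟨le_trans ?_ hg.1, le_trans ?_ hg.2⟩
  · exact mul_le_mul_of_nonneg_right (by linarith) hn
  · exact mul_le_mul_of_nonneg_right (by linarith) hn

theorem IData.card_T {n s : ℕ} (D : IData p n s) : Nat.card (FG s ⧸ D.R) = p ^ D.τ := D.hR.2

theorem IData.finite_T {n s : ℕ} (D : IData p n s) : Finite (FG s ⧸ D.R) := by
  have hp : p.Prime := Fact.out
  exact Nat.finite_of_card_ne_zero (by rw [D.card_T]; exact pow_ne_zero _ hp.ne_zero)

/-- a subgroup of a group of order `p ^ m` has order `p ^ k` with `k ≤ m` -/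
theorem exists_card_eq_pow {T : Type} [Group T] {m : ℕ} (hT : Nat.card T = p ^ m)
    (K : Subgroup T) : ∃ k ≤ m, Nat.card K = p ^ k := by
  have hp : p.Prime := Fact.out
  have h := card_subgroup_dvd_card K
  rw [hT] at h
  obtain ⟨k, hk, hk'⟩ := (Nat.dvd_prime_pow hp).1 h
  exact ⟨k, hk, hk'⟩

theorem choose_two_le (m : ℕ) : ((m.choose 2 : ℕ) : ℝ) ≤ (m : ℝ) ^ 2 / 2 := by
  rw [Nat.cast_choose_two]
  have : (0 : ℝ) ≤ m := Nat.cast_nonneg m
  nlinarith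

theorem le_choose_two {m : ℕ} {y : ℝ} (hy : 2 ≤ y) (h : y ≤ m) :
    y ^ 2 / 4 ≤ ((m.choose 2 : ℕ) : ℝ) := by
  rw [Nat.cast_choose_two]
  nlinarith

/-- case (i) -/
theorem case_i {t μ n x : ℝ} {c : ℝ} (hn : 0 ≤ n) (ht : 0 ≤ t) (hμ : 0 ≤ μ) (h : t + μ ≤ n)
    (hx : 0 ≤ x) (hx' : x ≤ 1 / 10) (hb : t ≤ (2 / 3 - x) * n ∨ μ ≤ (1 / 3 - x) * n)
    (hc : c ≤ t ^ 2 / 2) : μ * c ≤ (2 / 27 - x ^ 2 / 4) * n ^ 3 := by
  have h1 : μ * c ≤ μ * (t ^ 2 / 2) := mul_le_mul_of_nonneg_left hc hμ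
  have h2 := opt_stab hn ht hμ h hx hx' hb
  have h3 : μ * (t ^ 2 / 2) = t ^ 2 * μ / 2 := by ring
  linarith

theorem pow_le_rpow {k : ℕ} {E : ℝ} (h : (k : ℝ) ≤ E) : ((p ^ k : ℕ) : ℝ) ≤ (p : ℝ) ^ E := by
  have hp : p.Prime := Fact.out
  have h1 : (1 : ℝ) ≤ p := by exact_mod_cast hp.one_lt.le
  rw [Nat.cast_pow, ← Real.rpow_natCast]
  exact Real.rpow_le_rpow_of_exponent_le h1 h

/-- case (ii), arithmetic -/
theorem case_ii {e n μ ν r A B : ℝ} (he : 0 < e) (he' : e ≤ 2 / 5) (hn0 : 0 ≤ n)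
    (hν' : ν + r ≤ μ) (hr2 : e / 8 * n ≤ r) (hB0 : 0 ≤ B)
    (hch : (7 / 15 * n) ^ 2 / 4 ≤ B) (hopt : μ * A ≤ 2 / 27 * n ^ 3) :
    μ * (A - B) + ν * B ≤ (2 / 27 - e ^ 2 / 64) * n ^ 3 := by
  have h6 : ν * B ≤ (μ - r) * B := mul_le_mul_of_nonneg_right (by linarith) hB0
  have h7 : e / 8 * n * ((7 / 15 * n) ^ 2 / 4) ≤ r * B := by
    have hr0 : 0 ≤ r := le_trans (by positivity) hr2
    apply mul_le_mul hr2 hch (by positivity) hr0
  have h8 : e ^ 2 / 64 * n ^ 3 ≤ e / 8 * n * ((7 / 15 * n) ^ 2 / 4) := by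
    have h9 : e / 8 * n * ((7 / 15 * n) ^ 2 / 4) = 49 / 7200 * (e * n ^ 3) := by ring
    have h10 : e ^ 2 / 64 * n ^ 3 = 1 / 64 * (e * (e * n ^ 3)) := by ring
    have h11 : 0 ≤ e * n ^ 3 := by positivity
    have h12 : e * (e * n ^ 3) ≤ 2 / 5 * (e * n ^ 3) := mul_le_mul_of_nonneg_right he' h11
    rw [h9, h10]
    linarith
  have h13 : μ * (A - B) + (μ - r) * B = μ * A - r * B := by ring
  have h14 : (2 / 27 - e ^ 2 / 64) * n ^ 3 = 2 / 27 * n ^ 3 - e ^ 2 / 64 * n ^ 3 := by ring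
  rw [h14]
  linarith

/-- case (iii), arithmetic -/
theorem case_iii {e n μ r om A B : ℝ} (he : 0 < e) (he' : e ≤ 2 / 5) (hn0 : 0 ≤ n)
    (hr : r ≤ e / 4 * n) (hμ : (1 / 3 - e / 4) * n ≤ μ)
    (hom : om ≤ (1 / 3 - e) * n)
    (hch : (1 / 3 * n) ^ 2 / 4 ≤ B) (hopt : μ * A ≤ 2 / 27 * n ^ 3) :
    μ * (A - B) + (r + om) * B ≤ (2 / 27 - e ^ 2 / 64) * n ^ 3 := by
  have h1 : e / 2 * n ≤ μ - r - om := by linarith
  have h7 : e / 2 * n * ((1 / 3 * n) ^ 2 / 4) ≤ (μ - r - om) * B := by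
    apply mul_le_mul h1 hch (by positivity)
    exact le_trans (by positivity) h1
  have h8 : e ^ 2 / 64 * n ^ 3 ≤ e / 2 * n * ((1 / 3 * n) ^ 2 / 4) := by
    have h9 : e / 2 * n * ((1 / 3 * n) ^ 2 / 4) = 1 / 72 * (e * n ^ 3) := by ring
    have h10 : e ^ 2 / 64 * n ^ 3 = 1 / 64 * (e * (e * n ^ 3)) := by ring
    have h11 : 0 ≤ e * n ^ 3 := by positivity
    have h12 : e * (e * n ^ 3) ≤ 2 / 5 * (e * n ^ 3) := mul_le_mul_of_nonneg_right he' h11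
    rw [h9, h10]
    linarith
  have h13 : μ * (A - B) + (r + om) * B = μ * A - (μ - r - om) * B := by ring
  have h14 : (2 / 27 - e ^ 2 / 64) * n ^ 3 = 2 / 27 * n ^ 3 - e ^ 2 / 64 * n ^ 3 := by ring
  rw [h14, h13]
  linarith

/-- the number of commutator data, abstract form -/
theorem ncard_C_le {T : Type} [Group T] {n τ t om dG : ℕ} (hT : Nat.card T = p ^ τ)
    {a : Fin t → MulAut T} {J : Finset (Fin t)} {C : Set (Fin t → Fin t → T)}
    (hC : CProp p a J C) {e : ℝ} (he : 0 < e) (he' : e ≤ 2 / 5) (hn : 8 / e ≤ n)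
    (hd : t ≤ dG) (hom : Nat.card (MOm p a) = p ^ om)
    (hlog : t + Nat.log p (Nat.card (MI a ∅)) ≤ n) (hJ : τ + t + t ≤ n + J.card)
    (hbad : ¬ ((2 / 3 - e) * n ≤ (dG : ℝ) ∧ (1 / 3 - e) * n ≤ (om : ℝ))) :
    (C.ncard : ℝ) ≤ (p : ℝ) ^ ((2 / 27 - e ^ 2 / 64) * (n : ℝ) ^ 3) := by
  have hp : p.Prime := Fact.out
  have hfin : Finite T :=
    Nat.finite_of_card_ne_zero (by rw [hT]; exact pow_ne_zero _ hp.ne_zero)
  obtain ⟨μ, hμτ, hμ⟩ := exists_card_eq_pow hT (MI a ∅)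
  obtain ⟨μ₀, -, hμ₀⟩ := exists_card_eq_pow hT (MI a Finset.univ)
  rw [hμ, Nat.log_pow hp.one_lt] at hlog
  have hn0 : (0 : ℝ) ≤ n := Nat.cast_nonneg n
  have hn20 : (20 : ℝ) ≤ n := by
    refine le_trans ?_ hn
    rw [le_div_iff₀ he]
    linarith
  have hen : 8 ≤ e * n := by
    rw [div_le_iff₀ he] at hn
    linarith
  have hen' : e * n ≤ 2 / 5 * n := mul_le_mul_of_nonneg_right he' hn0
  have ht0 : (0 : ℝ) ≤ (t : ℝ) := Nat.cast_nonneg t
  have hμ0 : (0 : ℝ) ≤ (μ : ℝ) := Nat.cast_nonneg μ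
  have htμ : (t : ℝ) + μ ≤ n := by exact_mod_cast hlog
  have hct := choose_two_le t
  have hopt : (μ : ℝ) * (t.choose 2 : ℕ) ≤ 2 / 27 * (n : ℝ) ^ 3 := by
    have h1 := opt_le ht0 hμ0 htμ
    have h2 : (μ : ℝ) * (t.choose 2 : ℕ) ≤ μ * (t ^ 2 / 2) := mul_le_mul_of_nonneg_left hct hμ0
    have h3 : (μ : ℝ) * (t ^ 2 / 2) = t ^ 2 * μ / 2 := by ring
    linarith
  by_cases hb : (t : ℝ) ≤ (2 / 3 - e / 4) * n ∨ (μ : ℝ) ≤ (1 / 3 - e / 4) * n
  · -- case (i)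
    have h1 := card_C_le hC
    rw [hμ, ← pow_mul] at h1
    refine le_trans (Nat.cast_le.2 h1) (pow_le_rpow ?_)
    push_cast
    have h2 := case_i hn0 ht0 hμ0 htμ (by linarith : 0 ≤ e / 4) (by linarith) hb hct
    refine h2.trans (le_of_eq ?_)
    ring
  · push Not at hb
    obtain ⟨hb1, hb2⟩ := hb
    obtain ⟨r, hr⟩ : ∃ r : ℕ, r = ⌊e / 4 * n⌋₊ := ⟨_, rfl⟩
    have hr1 : (r : ℝ) ≤ e / 4 * n := by rw [hr]; exact Nat.floor_le (by positivity)
    have hr2 : e / 8 * n ≤ (r : ℝ) := by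
      have := Nat.lt_floor_add_one (e / 4 * n)
      rw [← hr] at this
      linarith
    by_cases hM : Nat.card (MI a Finset.univ) * p ^ r ≤ Nat.card (MI a ∅)
    · -- case (ii)
      obtain ⟨I, hI1, hI2⟩ := exists_I hT a r hM
      obtain ⟨ν, -, hν⟩ := exists_card_eq_pow hT (MI a I)
      have hνμ : ν + r ≤ μ := by
        rw [hν, hμ, ← pow_add] at hI2
        exact (Nat.pow_le_pow_iff_right hp.one_lt).1 hI2
      have h1 := card_C_le' hC I
      rw [hμ, hν, ← pow_mul, ← pow_mul, ← pow_add] at h1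
      refine le_trans (Nat.cast_le.2 h1) (pow_le_rpow ?_)
      have hle : (t - I.card).choose 2 ≤ t.choose 2 := Nat.choose_le_choose 2 (Nat.sub_le _ _)
      have hIt : (I.card : ℝ) ≤ r := by exact_mod_cast hI1
      have hm : (7 / 15 : ℝ) * n ≤ ((t - I.card : ℕ) : ℝ) := by
        have h3 : t ≤ (t - I.card) + I.card := by omega
        have h4 : (t : ℝ) ≤ ((t - I.card : ℕ) : ℝ) + I.card := by exact_mod_cast h3
        nlinarith
      have hch := le_choose_two (by linarith) hm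
      push_cast [Nat.cast_sub hle]
      have hν' : (ν : ℝ) + r ≤ μ := by exact_mod_cast hνμ
      exact case_ii he he' hn0 hν' hr2 (Nat.cast_nonneg _) hch hopt
    · -- case (iii)
      push Not at hM
      rw [hμ, hμ₀, ← pow_add] at hM
      have hM' : μ < μ₀ + r := (Nat.pow_lt_pow_iff_right hp.one_lt).1 hM
      -- the rank of `Om` is small
      have hom2 : (om : ℝ) < (1 / 3 - e) * n := by
        by_contra hcon
        push Not at hcon
        refine hbad ⟨?_, hcon⟩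
        have h1 : (t : ℝ) ≤ dG := by exact_mod_cast hd
        nlinarith
      have hJt : J.card ≤ t := by
        have := Finset.card_le_univ J
        rwa [Fintype.card_fin] at this
      have hJc : (1 / 3 : ℝ) * n ≤ J.card := by
        have h9 : μ + t + t ≤ n + J.card := by omega
        have h10 : (μ : ℝ) + t + t ≤ n + J.card := by exact_mod_cast h9
        nlinarith
      have h1 := card_C_le'' hC (m := p ^ r) (by
        rw [hμ, hμ₀, ← pow_add]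
        exact Nat.pow_le_pow_right hp.pos hM'.le)
      rw [hμ, hom, ← pow_add, ← pow_mul, ← pow_mul, ← pow_add] at h1
      refine le_trans (Nat.cast_le.2 h1) (pow_le_rpow ?_)
      have hle : J.card.choose 2 ≤ t.choose 2 := Nat.choose_le_choose 2 hJt
      have hch := le_choose_two (by linarith) hJc
      push_cast [Nat.cast_sub hle]
      exact case_iii he he' hn0 hr1 hb2.le hom2.le hch hopt

/-- the number of `k i ≠ 1` is small -/
theorem IData.J_bound {n s : ℕ} (D : IData p n s) :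
    D.τ + D.t + D.t ≤ n + (Finset.univ.filter fun i => D.k i = 1).card := by
  have h3 : ∑ i : Fin D.t, 2 ≤ ∑ i : Fin D.t, (D.k i + (if D.k i = 1 then 1 else 0)) := by
    refine Finset.sum_le_sum fun i _ => ?_
    have := D.hk i
    split_ifs with h
    · omega
    · omega
  rw [Finset.sum_add_distrib, ← Finset.card_filter, Finset.sum_const, Finset.card_univ,
    Fintype.card_fin, smul_eq_mul] at h3
  have h4 := D.hkn
  omega

/-- the number of commutator data -/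
theorem realised_le {n s : ℕ} (D : IData p n s) (a : Fin D.t → Fin s → FG s ⧸ D.R)
    (q : Fin D.t → FG s ⧸ D.R) {e : ℝ} (he : 0 < e) (he' : e ≤ 2 / 5) (hn : 8 / e ≤ n) :
    (Nat.card {c : Fin D.t → Fin D.t → FG s ⧸ D.R // ∃ (G : Type) (_ : Group G),
      Nat.card G = p ^ n ∧ Realises D a c q G ∧ ¬ Good p e n G} : ℝ) ≤
      (p : ℝ) ^ ((2 / 27 - e ^ 2 / 64) * (n : ℝ) ^ 3) := by
  have hp : p.Prime := Fact.out
  have hfin : Finite (FG s ⧸ D.R) := D.finite_T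
  by_cases hne : Nonempty {c : Fin D.t → Fin D.t → FG s ⧸ D.R // ∃ (G : Type) (_ : Group G),
      Nat.card G = p ^ n ∧ Realises D a c q G ∧ ¬ Good p e n G}
  · obtain ⟨c, G, hGi, hG, hR, hbad⟩ := hne
    obtain ⟨α, -, hC, hprop⟩ := realised_CProp D a q ⟨G, hGi, c, hG, hR⟩
    obtain ⟨hd, hom, hlog⟩ := hprop G c hG hR
    refine le_trans ?_ (ncard_C_le D.card_T hC he he' hn hd hom hlog D.J_bound hbad)
    refine Nat.cast_le.2 ?_
    have h1 : Nat.card {c : Fin D.t → Fin D.t → FG s ⧸ D.R // ∃ (G : Type) (_ : Group G),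
        Nat.card G = p ^ n ∧ Realises D a c q G ∧ ¬ Good p e n G} =
        ({c | ∃ (G : Type) (_ : Group G),
          Nat.card G = p ^ n ∧ Realises D a c q G ∧ ¬ Good p e n G} :
          Set (Fin D.t → Fin D.t → FG s ⧸ D.R)).ncard := rfl
    rw [h1]
    refine Set.ncard_le_ncard ?_ (Set.toFinite _)
    rintro c' ⟨G', hGi', hG', hR', -⟩
    exact ⟨G', hGi', hG', hR'⟩
  · rw [not_nonempty_iff] at hne
    rw [Nat.card_of_isEmpty, Nat.cast_zero]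
    exact Real.rpow_nonneg (Nat.cast_nonneg p) _

/-- counting -/
theorem num_typeI_le {n s : ℕ} (hn1 : 1 ≤ n) (hs : 1 ≤ s) {e : ℝ} (he : 0 < e) (he' : e ≤ 2 / 5)
    (hn : 8 / e ≤ n) :
    (num (p ^ n) (fun G _ => TypeI s G ∧ ¬ Good p e n G) : ℝ) ≤
      (p : ℝ) ^ ((2 * s * (n : ℝ) ^ 2 + 6 * (n : ℝ) ^ 2) +
        (2 / 27 - e ^ 2 / 64) * (n : ℝ) ^ 3) := by
  have hp : p.Prime := Fact.out
  let Y : Type := Σ D : IData p n s, (Fin D.t → Fin s → FG s ⧸ D.R) × (Fin D.t → FG s ⧸ D.R)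
  let S : Y → Type := fun y => {c : Fin y.1.t → Fin y.1.t → FG s ⧸ y.1.R //
    ∃ (G : Type) (_ : Group G), Nat.card G = p ^ n ∧ Realises y.1 y.2.1 c y.2.2 G ∧
      ¬ Good p e n G}
  have hYfin : Finite Y := finite_IData
  have hSfin : ∀ y, Finite (S y) := fun y => by
    have hfin : Finite (FG s ⧸ y.1.R) := y.1.finite_T
    exact Subtype.finite
  have h1 : num (p ^ n) (fun G _ => TypeI s G ∧ ¬ Good p e n G) ≤ Nat.card (Σ y, S y) := by
    refine num_le_of_rel (pow_pos hp.pos n)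
      (fun G _ x => Realises x.1.1 x.1.2.1 x.2.1 x.1.2.2 G) ?_ ?_
    · intro G _ hG hP
      obtain ⟨D, a, c, q, hR⟩ := exists_realises hG hP.1
      exact ⟨⟨⟨D, a, q⟩, ⟨c, G, inferInstance, hG, hR, hP.2⟩⟩, hR⟩
    · intro G H _ _ x hG hH _ _ hR1 hR2
      exact iso_of_realises hG hH _ _ _ _ hR1 hR2
  have := Fintype.ofFinite Y
  rw [Nat.card_sigma] at h1
  have h2 : (num (p ^ n) (fun G _ => TypeI s G ∧ ¬ Good p e n G) : ℝ) ≤
      ∑ y : Y, (Nat.card (S y) : ℝ) := by exact_mod_cast h1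
  refine h2.trans ?_
  have h3 : ∑ y : Y, (Nat.card (S y) : ℝ) ≤
      ∑ _y : Y, (p : ℝ) ^ ((2 / 27 - e ^ 2 / 64) * (n : ℝ) ^ 3) :=
    Finset.sum_le_sum fun y _ => realised_le y.1 y.2.1 y.2.2 he he' hn
  refine h3.trans ?_
  rw [Finset.sum_const, Finset.card_univ, ← Nat.card_eq_fintype_card, nsmul_eq_mul,
    Real.rpow_add (by exact_mod_cast hp.pos)]
  refine mul_le_mul_of_nonneg_right ?_ (Real.rpow_nonneg (Nat.cast_nonneg p) _)
  refine le_trans (Nat.cast_le.2 (card_IData_le (p := p) hn1 hs)) (pow_le_rpow (le_of_eq ?_))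
  push_cast
  ring

/-- **Theorem B** -/
theorem thmB (e : ℝ) (he : 0 < e) : ∃ σ > (0 : ℝ), ∃ δ > (0 : ℝ), ∀ᶠ n : ℕ in atTop,
    (num (p ^ n) (fun G _ => TypeI ⌊σ * n⌋₊ G ∧ ¬ Good p e n G) : ℝ) ≤
      (p : ℝ) ^ ((2 / 27 - δ) * (n : ℝ) ^ 3) := by
  have hp : p.Prime := Fact.out
  obtain ⟨f, hf⟩ : ∃ f : ℝ, f = min e (2 / 5) := ⟨_, rfl⟩
  have hf0 : 0 < f := by rw [hf]; exact lt_min he (by norm_num)
  have hfe : f ≤ e := by rw [hf]; exact min_le_left _ _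
  have hf1 : f ≤ 2 / 5 := by rw [hf]; exact min_le_right _ _
  refine ⟨f ^ 2 / 512, by positivity, f ^ 2 / 128, by positivity, ?_⟩
  filter_upwards [eventually_ge_atTop ⌈2000 / f ^ 2⌉₊, eventually_ge_atTop 1] with n hn hn1
  have hf2 : 0 < f ^ 2 := by positivity
  have hn2 : 2000 / f ^ 2 ≤ (n : ℝ) := (Nat.le_ceil _).trans (by exact_mod_cast hn)
  have hn3 : 2000 ≤ f ^ 2 * n := by
    rw [div_le_iff₀ hf2] at hn2
    linarith
  have hn0 : (0 : ℝ) ≤ n := Nat.cast_nonneg n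
  have hs1 : 1 ≤ ⌊f ^ 2 / 512 * (n : ℝ)⌋₊ := by
    rw [Nat.one_le_floor_iff]
    linarith
  have hs2 : ((⌊f ^ 2 / 512 * (n : ℝ)⌋₊ : ℕ) : ℝ) ≤ f ^ 2 / 512 * n :=
    Nat.floor_le (by positivity)
  have hfn : 8 / f ≤ (n : ℝ) := by
    rw [div_le_iff₀ hf0]
    have h1 : f ^ 2 * n ≤ 2 / 5 * (f * n) := by
      have h2 : f ^ 2 * n = f * (f * n) := by ring
      rw [h2]
      exact mul_le_mul_of_nonneg_right hf1 (by positivity)
    linarith
  have h1 : num (p ^ n) (fun G _ => TypeI ⌊f ^ 2 / 512 * (n : ℝ)⌋₊ G ∧ ¬ Good p e n G) ≤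
      num (p ^ n) (fun G _ => TypeI ⌊f ^ 2 / 512 * (n : ℝ)⌋₊ G ∧ ¬ Good p f n G) :=
    num_mono (pow_pos hp.pos n) fun G _ _ h => ⟨h.1, fun hg => h.2 (Good_mono hfe hg)⟩
  refine (Nat.cast_le.2 h1).trans ((num_typeI_le hn1 hs1 hf0 hf1 hfn).trans ?_)
  refine Real.rpow_le_rpow_of_exponent_le (by exact_mod_cast hp.one_lt.le) ?_
  have h2 : 2 * ((⌊f ^ 2 / 512 * (n : ℝ)⌋₊ : ℕ) : ℝ) * (n : ℝ) ^ 2 ≤
      2 * (f ^ 2 / 512 * n) * (n : ℝ) ^ 2 := by
    refine mul_le_mul_of_nonneg_right (by linarith) (by positivity)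
  have h3 : 6 * (n : ℝ) ^ 2 ≤ f ^ 2 / 256 * (n : ℝ) ^ 3 := by
    have h4 : f ^ 2 / 256 * (n : ℝ) ^ 3 = 1 / 256 * (f ^ 2 * n) * (n : ℝ) ^ 2 := by ring
    rw [h4]
    refine mul_le_mul_of_nonneg_right (by linarith) (by positivity)
  have h5 : 2 * (f ^ 2 / 512 * n) * (n : ℝ) ^ 2 = f ^ 2 / 256 * (n : ℝ) ^ 3 := by ring
  have h6 : (2 / 27 - f ^ 2 / 64) * (n : ℝ) ^ 3 =
      2 / 27 * (n : ℝ) ^ 3 - f ^ 2 / 64 * (n : ℝ) ^ 3 := by ring
  have h7 : (2 / 27 - f ^ 2 / 128) * (n : ℝ) ^ 3 =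
      2 / 27 * (n : ℝ) ^ 3 - f ^ 2 / 128 * (n : ℝ) ^ 3 := by ring
  rw [h6, h7]
  linarith

end Pool.Agent.IG
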