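import Pool.Agent.IG.StepDB
import Pool.Agent.IG.StepDC
import Pool.Agent.IG.TypeICount
import Pool.Agent.IG.ExtDet

/-!
# Theorem A: almost all groups of order `p ^ n` are good
-/

open Subgroup Module Filter
open scoped commutatorElement

noncomputable section

namespace Pool.Agent.IG

variable {p : ℕ} [Fact p.Prime]

/-- the error terms are negligible -/
theorem thmA_real (p C : ℕ) (hp : 2 ≤ p) (δ : ℝ) (hδ : 0 < δ) : ∀ᶠ n : ℕ in atTop,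
    (((C + 1) * 2 : ℕ) : ℝ) * ((p : ℝ) ^ ((2 / 27 - δ) * (n : ℝ) ^ 3) *
      (p : ℝ) ^ ((C * (n ^ 2 + n) : ℕ) : ℝ)) ≤ (p : ℝ) ^ ((2 / 27 - δ / 2) * (n : ℝ) ^ 3) := by
  have hp1 : (1 : ℝ) ≤ p := by exact_mod_cast (by omega : 1 ≤ p)
  have hp0 : (0 : ℝ) < p := by linarith
  filter_upwards [eventually_ge_atTop 1, eventually_ge_atTop ⌈8 * ((C : ℝ) + 1) / δ⌉₊] with n hn1 hn2
  have h1 : (((C + 1) * 2 : ℕ) : ℝ) ≤ (p : ℝ) ^ (((C + 1) * 2 : ℕ) : ℝ) := by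
    rw [Real.rpow_natCast]
    have h2 : (C + 1) * 2 ≤ p ^ ((C + 1) * 2) := (Nat.lt_pow_self (by omega)).le
    exact_mod_cast h2
  have h3 : (0 : ℝ) ≤ (p : ℝ) ^ ((2 / 27 - δ) * (n : ℝ) ^ 3) *
      (p : ℝ) ^ ((C * (n ^ 2 + n) : ℕ) : ℝ) := by positivity
  refine (mul_le_mul_of_nonneg_right h1 h3).trans ?_
  rw [← Real.rpow_add hp0, ← Real.rpow_add hp0]
  refine Real.rpow_le_rpow_of_exponent_le hp1 ?_
  have h4 : 8 * ((C : ℝ) + 1) / δ ≤ n := (Nat.le_ceil _).trans (by exact_mod_cast hn2)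
  have h5 : 8 * ((C : ℝ) + 1) ≤ δ * n := by
    rw [div_le_iff₀ hδ] at h4
    linarith
  have h6 : (1 : ℝ) ≤ n := by exact_mod_cast hn1
  have hC : (0 : ℝ) ≤ C := Nat.cast_nonneg _
  have h7 : 8 * ((C : ℝ) + 1) * (n : ℝ) ^ 2 ≤ δ * n * (n : ℝ) ^ 2 :=
    mul_le_mul_of_nonneg_right h5 (sq_nonneg _)
  have h8 : (n : ℝ) ≤ (n : ℝ) ^ 2 := by nlinarith
  have h9 : (1 : ℝ) ≤ (n : ℝ) ^ 2 := by nlinarith
  push_cast
  have h10 : (C : ℝ) * ((n : ℝ) ^ 2 + n) ≤ C * (2 * (n : ℝ) ^ 2) :=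
    mul_le_mul_of_nonneg_left (by linarith) hC
  have h11 : ((C : ℝ) + 1) * 2 ≤ (C + 1) * 2 * (n : ℝ) ^ 2 :=
    le_mul_of_one_le_right (by positivity) h9
  have h12 : (0 : ℝ) ≤ C * (n : ℝ) ^ 2 := by positivity
  nlinarith

/-- monotonicity in the order -/
theorem thmA_pow (p : ℕ) (hp : 2 ≤ p) {δ δ' : ℝ} (h : δ ≤ δ') (h2 : δ ≤ 2 / 27) {a n : ℕ}
    (han : a ≤ n) : (p : ℝ) ^ ((2 / 27 - δ') * (a : ℝ) ^ 3) ≤
      (p : ℝ) ^ ((2 / 27 - δ) * (n : ℝ) ^ 3) := by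
  have hp1 : (1 : ℝ) ≤ p := by exact_mod_cast (by omega : 1 ≤ p)
  refine Real.rpow_le_rpow_of_exponent_le hp1 ?_
  have h3 : (a : ℝ) ^ 3 ≤ (n : ℝ) ^ 3 := by gcongr
  have h4 : (0 : ℝ) ≤ (a : ℝ) ^ 3 := by positivity
  calc (2 / 27 - δ') * (a : ℝ) ^ 3 ≤ (2 / 27 - δ) * (a : ℝ) ^ 3 :=
        mul_le_mul_of_nonneg_right (by linarith) h4
    _ ≤ (2 / 27 - δ) * (n : ℝ) ^ 3 := mul_le_mul_of_nonneg_left h3 (by linarith)

/-- counting the groups with a bad normal subgroup -/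
theorem thmA_ext {P : ∀ (G : Type) [Group G], Prop} (hP : IsoInv P) {a c n C : ℕ} (hac : a + c = n)
    (hc : c ≤ C) {δ δ' : ℝ} (h : δ ≤ δ') (h2 : δ ≤ 2 / 27)
    (hnum : (num (p ^ a) P : ℝ) ≤ (p : ℝ) ^ ((2 / 27 - δ') * (a : ℝ) ^ 3)) :
    (num (p ^ n) (fun G _ => ∃ N : Subgroup G, N.Normal ∧ N.index = p ^ c ∧ P N) : ℝ) ≤
      (p : ℝ) ^ ((2 / 27 - δ) * (n : ℝ) ^ 3) * (p : ℝ) ^ ((C * (n ^ 2 + n) : ℕ) : ℝ) := by
  have hp : p.Prime := Fact.out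
  have hp1 : (1 : ℝ) ≤ p := by exact_mod_cast hp.one_lt.le
  have h3 := num_ext_pow (p := p) a c hP
  rw [hac] at h3
  have h4 : (num (p ^ n) (fun G _ => ∃ N : Subgroup G, N.Normal ∧ N.index = p ^ c ∧ P N) : ℝ) ≤
      (num (p ^ a) P : ℝ) * (p : ℝ) ^ (c * (n ^ 2 + n)) := by exact_mod_cast h3
  refine h4.trans ?_
  refine mul_le_mul (hnum.trans (thmA_pow p hp.two_le h h2 (by omega))) ?_ (by positivity)
    (by positivity)
  rw [Real.rpow_natCast]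
  exact pow_le_pow_right₀ hp1 (Nat.mul_le_mul_right _ hc)

/-- groups with a normal subgroup of type I which is not good -/
def BadI (p n c : ℕ) (σ e : ℝ) (G : Type) [Group G] : Prop :=
  ∃ N : Subgroup G, N.Normal ∧ N.index = p ^ c ∧
    (TypeI ⌊σ * ((n - c : ℕ) : ℝ)⌋₊ N ∧ ¬ Good p e (n - c) N)

/-- groups with a good normal subgroup which is moved -/
def BadM (p n c : ℕ) (e₁ e : ℝ) (G : Type) [Group G] : Prop :=
  ∃ N : Subgroup G, N.Normal ∧ N.index = p ^ c ∧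
    (Good p e₁ (n - c) N ∧ Moves p c ⌊e * ((n - c : ℕ) : ℝ)⌋₊ N)

/-- both kinds of bad groups -/
def BadIM (p n C : ℕ) (σ e₁ e₂ e : ℝ) (i : Fin (C + 1) × Bool) (G : Type) [Group G] : Prop :=
  match i with
  | (c, true) => BadI p n c σ e₂ G
  | (c, false) => BadM p n c e₁ e G

theorem num_BadI {n c C : ℕ} (hcn : c ≤ n) (hc : c ≤ C) {σ e δ δ' : ℝ} (h : δ ≤ δ')
    (h2 : δ ≤ 2 / 27)
    (hnum : (num (p ^ (n - c)) (fun G _ => TypeI ⌊σ * ((n - c : ℕ) : ℝ)⌋₊ G ∧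
        ¬ Good p e (n - c) G) : ℝ) ≤ (p : ℝ) ^ ((2 / 27 - δ') * ((n - c : ℕ) : ℝ) ^ 3)) :
    (num (p ^ n) (fun G _ => BadI p n c σ e G) : ℝ) ≤
      (p : ℝ) ^ ((2 / 27 - δ) * (n : ℝ) ^ 3) * (p : ℝ) ^ ((C * (n ^ 2 + n) : ℕ) : ℝ) := by
  refine thmA_ext (P := fun G _ => TypeI ⌊σ * ((n - c : ℕ) : ℝ)⌋₊ G ∧
        ¬ Good p e (n - c) G) ?_ (by omega) hc h h2 hnum
  intro G H _ _ f hG
  exact ⟨TypeI_isoInv _ G H f hG.1, fun h => hG.2 (Good_congr _ _ f.symm h)⟩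

theorem num_BadM {n c C : ℕ} (hcn : c ≤ n) (hc : c ≤ C) {e₁ e δ δ' : ℝ} (h : δ ≤ δ')
    (h2 : δ ≤ 2 / 27)
    (hnum : (num (p ^ (n - c)) (fun G _ => Good p e₁ (n - c) G ∧
        Moves p c ⌊e * ((n - c : ℕ) : ℝ)⌋₊ G) : ℝ) ≤
          (p : ℝ) ^ ((2 / 27 - δ') * ((n - c : ℕ) : ℝ) ^ 3)) :
    (num (p ^ n) (fun G _ => BadM p n c e₁ e G) : ℝ) ≤
      (p : ℝ) ^ ((2 / 27 - δ) * (n : ℝ) ^ 3) * (p : ℝ) ^ ((C * (n ^ 2 + n) : ℕ) : ℝ) := by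
  refine thmA_ext (P := fun G _ => Good p e₁ (n - c) G ∧
        Moves p c ⌊e * ((n - c : ℕ) : ℝ)⌋₊ G) ?_ (by omega) hc h h2 hnum
  intro G H _ _ f hG
  exact ⟨Good_congr _ _ f hG.1, Moves_isoInv _ _ G H f hG.2⟩

/-- **Theorem A** -/
theorem thmA (e : ℝ) (he : 0 < e) : ∃ δ > 0, ∀ᶠ n : ℕ in atTop,
    (num (p ^ n) (fun G _ => ¬ Good p e n G) : ℝ) ≤ (p : ℝ) ^ ((2 / 27 - δ) * (n : ℝ) ^ 3) := by
  have hp : p.Prime := Fact.out
  obtain ⟨e₁, he₁, δ₁, hδ₁, hM⟩ := few_moves (p := p) (e / 4) (by positivity)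
  obtain ⟨e₂, he₂, he₂₁, he₂₄⟩ : ∃ e₂ : ℝ, 0 < e₂ ∧ e₂ ≤ e₁ ∧ e₂ ≤ e / 4 :=
    ⟨min e₁ (e / 4), lt_min he₁ (by positivity), min_le_left _ _, min_le_right _ _⟩
  obtain ⟨σ, hσ, δ₂, hδ₂, hB⟩ := thmB (p := p) e₂ he₂
  obtain ⟨C, hC⟩ := exists_typeI (p := p) (σ / 4) (by positivity)
  choose D hD using dd_om_of_normal p
  obtain ⟨D', hD'⟩ : ∃ D' : ℕ, ∀ c ≤ C, D c ≤ D' := by
    refine ⟨∑ c ∈ Finset.range (C + 1), D c, fun c hc => ?_⟩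
    exact Finset.single_le_sum (f := D) (fun _ _ => Nat.zero_le _)
      (Finset.mem_range.2 (by omega))
  obtain ⟨δ, hδ, hδ1, hδ2, hδ3⟩ : ∃ δ : ℝ, 0 < δ ∧ δ ≤ δ₁ ∧ δ ≤ δ₂ ∧ δ ≤ 2 / 27 := by
    refine ⟨min (min δ₁ δ₂) (2 / 27), lt_min (lt_min hδ₁ hδ₂) (by norm_num), ?_, ?_, ?_⟩
    · exact (min_le_left _ _).trans (min_le_left _ _)
    · exact (min_le_left _ _).trans (min_le_right _ _)
    · exact min_le_right _ _
  refine ⟨δ / 2, by positivity, ?_⟩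
  have hM' : ∀ᶠ n : ℕ in atTop, ∀ c : Fin (C + 1),
      (num (p ^ (n - c)) (fun G _ => Good p e₁ (n - c) G ∧
        Moves p c ⌊e / 4 * ((n - c : ℕ) : ℝ)⌋₊ G) : ℝ) ≤
        (p : ℝ) ^ ((2 / 27 - δ₁) * ((n - c : ℕ) : ℝ) ^ 3) :=
    eventually_all.2 fun c => (tendsto_sub_atTop_nat (c : ℕ)).eventually (hM c)
  have hB' : ∀ᶠ n : ℕ in atTop, ∀ c : Fin (C + 1),
      (num (p ^ (n - c)) (fun G _ => TypeI ⌊σ * ((n - c : ℕ) : ℝ)⌋₊ G ∧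
        ¬ Good p e₂ (n - c) G) : ℝ) ≤
        (p : ℝ) ^ ((2 / 27 - δ₂) * ((n - c : ℕ) : ℝ) ^ 3) :=
    eventually_all.2 fun c => (tendsto_sub_atTop_nat (c : ℕ)).eventually hB
  filter_upwards [hM', hB', hC, thmA_real p C hp.two_le δ hδ, eventually_ge_atTop (4 * C),
    eventually_ge_atTop ⌈((2 * (C : ℝ) + 2 * D') / e)⌉₊] with n hM hB hC hreal hn1 hn2
  refine le_trans ?_ hreal
  have hQ : ∀ i, (num (p ^ n) (BadIM p n C σ e₁ e₂ (e / 4) i) : ℝ) ≤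
      (p : ℝ) ^ ((2 / 27 - δ) * (n : ℝ) ^ 3) * (p : ℝ) ^ ((C * (n ^ 2 + n) : ℕ) : ℝ) := by
    rintro ⟨c, b⟩
    have hc := c.2
    cases b
    · exact num_BadM (by omega) (by omega) hδ1 hδ3 (hM c)
    · exact num_BadI (by omega) (by omega) hδ2 hδ3 (hB c)
  have hsum : num (p ^ n) (fun G _ => ¬ Good p e n G) ≤ 
      ∑ i, num (p ^ n) (BadIM p n C σ e₁ e₂ (e / 4) i) := by
    refine num_le_sum (pow_pos hp.pos n) _ ?_
    intro G _ hG hbad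
    have hfin : Finite G := Nat.finite_of_card_ne_zero (by rw [hG]; exact pow_ne_zero _ hp.ne_zero)
    obtain ⟨K, hKn, hKi, hKT⟩ := hC G hG
    obtain ⟨c, hcn, hc⟩ : ∃ c ≤ n, K.index = p ^ c :=
      (Nat.dvd_prime_pow hp).1 (hG ▸ K.index_dvd_card)
    have hcC : c ≤ C := by
      rw [hc] at hKi
      exact (Nat.pow_le_pow_iff_right hp.one_lt).1 hKi
    have hmn : ((n - c : ℕ) : ℝ) = n - c := by rw [Nat.cast_sub hcn]
    have hcC' : (c : ℝ) ≤ C := by exact_mod_cast hcC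
    have hn1' : 4 * (C : ℝ) ≤ n := by exact_mod_cast hn1
    have hC0 : (0 : ℝ) ≤ C := Nat.cast_nonneg _
    have hc0 : (0 : ℝ) ≤ c := Nat.cast_nonneg _
    have hT : TypeI ⌊σ * ((n - c : ℕ) : ℝ)⌋₊ K := by
      refine TypeI_mono (Nat.floor_le_floor ?_) hKT
      rw [hmn]
      nlinarith
    by_cases hg : Good p e₂ (n - c) K
    · by_cases hmv : Moves p c ⌊e / 4 * ((n - c : ℕ) : ℝ)⌋₊ K
      · refine ⟨(⟨c, by omega⟩, false), ?_⟩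
        have hm0 : (0 : ℝ) ≤ ((n - c : ℕ) : ℝ) := Nat.cast_nonneg _
        refine ⟨K, hKn, hc, ⟨?_, ?_⟩, hmv⟩
        · refine le_trans ?_ hg.1
          exact mul_le_mul_of_nonneg_right (by linarith) hm0
        · refine le_trans ?_ hg.2
          exact mul_le_mul_of_nonneg_right (by linarith) hm0
      · exfalso
        apply hbad
        obtain ⟨h1, h2⟩ := hD c G (IsPGroup.of_card hG) K hc _ hmv
        have h3 := hD' c hcC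
        obtain ⟨h4, h5⟩ := hg
        have h6 : (⌊e / 4 * ((n - c : ℕ) : ℝ)⌋₊ : ℝ) ≤ e / 4 * ((n - c : ℕ) : ℝ) :=
          Nat.floor_le (by positivity)
        have h7 : (dd p K : ℝ) ≤ dd p G + ⌊e / 4 * ((n - c : ℕ) : ℝ)⌋₊ + D' := by
          have : dd p K ≤ dd p G + ⌊e / 4 * ((n - c : ℕ) : ℝ)⌋₊ + D' := by omega
          exact_mod_cast this
        have h8 : (om p K : ℝ) ≤ om p G + ⌊e / 4 * ((n - c : ℕ) : ℝ)⌋₊ := by exact_mod_cast h2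
        rw [hmn] at h4 h5 h6
        rw [hmn] at h7 h8
        have h9 : (2 * (C : ℝ) + 2 * D') ≤ e * n := by
          have h10 : ((2 * (C : ℝ) + 2 * D') / e) ≤ n :=
            (Nat.le_ceil _).trans (by exact_mod_cast hn2)
          rw [div_le_iff₀ he] at h10
          linarith
        have h10 : (0 : ℝ) ≤ (n : ℝ) - c := by
          have : (c : ℝ) ≤ n := by exact_mod_cast hcn
          linarith
        have h11 : e₂ * ((n : ℝ) - c) ≤ e / 4 * ((n : ℝ) - c) :=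
          mul_le_mul_of_nonneg_right he₂₄ h10
        have h12 : e / 4 * ((n : ℝ) - c) ≤ e / 4 * n := by nlinarith
        have hD0 : (0 : ℝ) ≤ D' := Nat.cast_nonneg _
        constructor
        · nlinarith
        · nlinarith
    · refine ⟨(⟨c, by omega⟩, true), ?_⟩
      exact ⟨K, hKn, hc, hT, hg⟩
  have hsum' : (num (p ^ n) (fun G _ => ¬ Good p e n G) : ℝ) ≤
      ∑ i, (num (p ^ n) (BadIM p n C σ e₁ e₂ (e / 4) i) : ℝ) := by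
    exact_mod_cast hsum
  refine hsum'.trans ((Finset.sum_le_sum fun i _ => hQ i).trans (le_of_eq ?_))
  rw [Finset.sum_const, Finset.card_univ, Fintype.card_prod, Fintype.card_fin, Fintype.card_bool,
    nsmul_eq_mul]

end Pool.Agent.IG
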