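import Pool.Agent.IG.Inv

/-!
# Groups with moving automorphisms
-/

open Subgroup Module Filter
open scoped commutatorElement

noncomputable section

namespace Pool.Agent.IG

variable {p : ℕ} [Fact p.Prime]

/-- `K` has `c` automorphisms generating a `p`-group of automorphisms, for which `[V, P]` has
dimension at least `f` or the fixed points on `Om` have codimension at least `f` -/
def Moves (p c f : ℕ) (K : Type) [Group K] : Prop :=
  ∃ α : Fin c → MulAut K, IsPGroup p (closure (Set.range α)) ∧
    (f ≤ finrank (ZMod p) (Submodule.span (ZMod p) {v : V p K | ∃ g ∈ closure (Set.range α),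
        ∃ x, v = vmap p (g : K ≃* K).toMonoidHom x - x}) ∨
      ∃ Z : Submodule (ZMod p) (OV p K),
        (∀ z, z ∈ Z ↔ ∀ g ∈ closure (Set.range α), omap p (g : K ≃* K) z = z) ∧
        finrank (ZMod p) Z + f ≤ om p K)

theorem stepDA_closure {G H : Type} [Group G] [Group H] (e : G ≃* H) {c : ℕ}
    (α : Fin c → MulAut G) :
    closure (Set.range fun i => MulAut.congr e (α i)) =
      (closure (Set.range α)).map (MulAut.congr e).toMonoidHom := by
  rw [MonoidHom.map_closure]
  congr 1
  ext x
  simp [Set.mem_range]

theorem Moves_isoInv (c f : ℕ) : IsoInv (fun K _ => Moves p c f K) := by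
  intro G H _ _ e h
  obtain ⟨α, hα, h⟩ := h
  refine ⟨fun i => MulAut.congr e (α i), ?_, ?_⟩
  · rw [stepDA_closure]
    exact hα.map _
  · rw [stepDA_closure]
    rcases h with h | ⟨Z, hZ, hf⟩
    · left
      suffices hs : Submodule.map (vequiv p e : V p G →ₗ[ZMod p] V p H)
          (Submodule.span (ZMod p) {v : V p G | ∃ g ∈ closure (Set.range α),
            ∃ x, v = vmap p (g : G ≃* G).toMonoidHom x - x}) =
          Submodule.span (ZMod p) {v : V p H | ∃ g ∈ (closure (Set.range α)).map
            (MulAut.congr e).toMonoidHom, ∃ x, v = vmap p (g : H ≃* H).toMonoidHom x - x} by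
        rw [← hs, LinearEquiv.finrank_map_eq (vequiv p e)]
        exact h
      rw [← Submodule.span_image]
      congr 1
      ext v
      constructor
      · rintro ⟨_, ⟨g, hg, x, rfl⟩, rfl⟩
        refine ⟨MulAut.congr e g, ⟨g, hg, rfl⟩, vequiv p e x, ?_⟩
        rw [map_sub]
        congr 1
        obtain ⟨x, rfl⟩ := mkV_surjective p x
        change mkV p _ = mkV p _
        congr 1
        change e (g x) = e (g (e.symm (e x)))
        rw [e.symm_apply_apply]
      · rintro ⟨_, ⟨g, hg, rfl⟩, x, rfl⟩
        obtain ⟨y, rfl⟩ := (vequiv p e).surjective x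
        refine ⟨_, ⟨g, hg, y, rfl⟩, ?_⟩
        rw [map_sub]
        congr 1
        obtain ⟨y, rfl⟩ := mkV_surjective p y
        change mkV p _ = mkV p _
        congr 1
        change e (g y) = e (g (e.symm (e y)))
        rw [e.symm_apply_apply]
    · right
      refine ⟨Z.map (oequiv p e : OV p G →ₗ[ZMod p] OV p H), ?_, ?_⟩
      · intro z
        obtain ⟨y, rfl⟩ := (oequiv p e).surjective z
        have key : ∀ g : MulAut G, omap p (MulAut.congr e g : H ≃* H) (oequiv p e y) =
            oequiv p e (omap p (g : G ≃* G) y) := by
          intro g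
          refine Additive.toMul.injective (Subtype.ext ?_)
          change e (g (e.symm (e y.val))) = e (g y.val)
          rw [e.symm_apply_apply]
        constructor
        · rintro ⟨y', hy', hyy⟩
          have hy2 : y' = y := (oequiv p e).injective hyy
          subst hy2
          rintro _ ⟨g, hg, rfl⟩
          have := (hZ y').1 hy' g hg
          change omap p (MulAut.congr e g : H ≃* H) (oequiv p e y') = _
          rw [key, this]
        · intro hz
          refine ⟨y, (hZ y).2 fun g hg => ?_, rfl⟩
          have := hz (MulAut.congr e g) ⟨g, hg, rfl⟩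
          rw [key] at this
          exact (oequiv p e).injective this
      · rw [LinearEquiv.finrank_map_eq, ← om_congr e]
        exact hf

end Pool.Agent.IG
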