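import Pool.Agent.IG.StepDA

/-!
# From a normal subgroup of bounded index to the group
-/

open Subgroup Module Filter
open scoped commutatorElement

noncomputable section

namespace Pool.Agent.IG

variable {p : ℕ} [Fact p.Prime]

/-- a group of order `p ^ c` is generated by `c` elements -/
theorem stepDB_exists_gens {c : ℕ} {Q : Type} [Group Q] [Finite Q] (hQ : Nat.card Q = p ^ c) :
    ∃ x : Fin c → Q, closure (Set.range x) = ⊤ := by
  have hd : dd p Q ≤ c := (Nat.le_add_right _ _).trans (dd_add_om_le hQ)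
  let b := Module.finBasis (ZMod p) (V p Q)
  choose y hy using fun i => mkV_surjective p (b i)
  refine ⟨fun i => if h : i.val < dd p Q then y ⟨i.val, h⟩ else 1, ?_⟩
  rw [closure_eq_top_iff (IsPGroup.of_card hQ), eq_top_iff, ← b.span_eq]
  apply Submodule.span_mono
  rintro _ ⟨j, rfl⟩
  refine ⟨⟨j.val, lt_of_lt_of_le j.2 hd⟩, ?_⟩
  have : j.val < dd p Q := j.2
  simp only [this, dif_pos]
  rw [hy]

/-- an elementary abelian group generated by `m` elements -/
theorem stepDB_card_le {A : Type} [Group A] [Finite A] (h1 : ∀ a b : A, a * b = b * a)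
    (h2 : ∀ a : A, a ^ p = 1) : Nat.card A ≤ p ^ Group.rank A := by
  have hp : p.Prime := Fact.out
  have hPhi : Phi p A = ⊥ := by
    rw [eq_bot_iff, Phi_le_iff]
    refine ⟨fun a b => ?_, fun a => ?_⟩
    · rw [Subgroup.mem_bot, commutatorElement_eq_one_iff_mul_comm]
      exact h1 a b
    · rw [Subgroup.mem_bot]
      exact h2 a
  have hc : Nat.card A = p ^ dd p A := by
    rw [← index_Phi, hPhi, index_bot]
  rw [hc]
  apply Nat.pow_le_pow_right hp.pos
  obtain ⟨S, hS, hS2⟩ := Group.rank_spec A
  have h3 : Submodule.span (ZMod p) (Set.range fun i : S => mkV p (i : A)) = ⊤ := by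
    rw [eq_top_iff]
    intro v _
    obtain ⟨g, rfl⟩ := mkV_surjective p v
    apply mkV_mem_span_of_mem_closure (fun i : S => (i : A)) g
    have : Set.range (fun i : S => (i : A)) = (S : Set A) := by
      ext x; simp
    rw [this, hS2]
    exact mem_top g
  have h4 := finrank_range_le_card (R := ZMod p) (fun i : S => mkV p (i : A))
  rw [Set.finrank, h3, finrank_top, Fintype.card_coe, hS] at h4
  exact h4

/-- fixed points on `Om` -/
theorem stepDB_om {G : Type} [Group G] [Finite G] (K : Subgroup G) [K.Normal] (S : Subgroup G)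
    (hS : S ⊔ K = ⊤) (Z : Submodule (ZMod p) (OV p K))
    (hZ : ∀ z ∈ Z, ∀ g ∈ S, omap p (MulAut.conjNormal g : K ≃* K) z = z) :
    finrank (ZMod p) Z ≤ om p G := by
  have hmem : ∀ z ∈ Z, (z.val : G) ∈ Om p G := by
    intro z hz
    have h0 := z.val_mem
    rw [mem_Om] at h0
    obtain ⟨h1, h2, h3⟩ := h0
    refine ⟨?_, ?_, ?_⟩
    · have hle : S ⊔ K ≤ centralizer {(z.val : G)} := by
        refine sup_le ?_ ?_
        · intro g hg
          have h4 := congrArg (fun w => ((OV.val p w : K) : G)) (hZ z hz g hg)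
          have h5 : g * (z.val : G) * g⁻¹ = (z.val : G) := h4
          rw [mem_centralizer_iff]
          rintro _ rfl
          exact (mul_inv_eq_iff_eq_mul.1 h5).symm
        · intro k hk
          have h4 := (mem_center_iff.1 h1) ⟨k, hk⟩
          rw [mem_centralizer_iff]
          rintro _ rfl
          exact (congrArg Subtype.val h4).symm
      rw [hS, top_le_iff] at hle
      rw [mem_center_iff]
      intro g
      have hg : g ∈ centralizer {(z.val : G)} := by rw [hle]; exact mem_top g
      exact (mem_centralizer_iff.1 hg _ rfl).symm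
    · have h4 : (z.val : G) ∈ (commutator K).map K.subtype := ⟨_, h2, rfl⟩
      rw [map_commutator_eq] at h4
      exact commutator_mono le_top le_top h4
    · have h4 := congrArg Subtype.val h3
      simpa using h4
  let F : Z →ₗ[ZMod p] OV p G := AddMonoidHom.toZModLinearMap p
    { toFun := fun z => mkO p (z.1.val : G) (hmem z.1 z.2)
      map_zero' := rfl
      map_add' := fun _ _ => rfl }
  have hF : Function.Injective F := by
    intro a b hab
    have h1 := congrArg (OV.val p) hab
    have h2 : ((a.1.val : K) : G) = ((b.1.val : K) : G) := h1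
    apply Subtype.ext
    apply Additive.toMul.injective
    apply Subtype.ext
    exact Subtype.ext h2
  exact LinearMap.finrank_le_finrank_of_injective hF

theorem stepDB_dd {G : Type} [Group G] [Finite G] (K : Subgroup G) [K.Normal]
    {c : ℕ} (hK : K.index = p ^ c) (x : Fin c → G) (hx : closure (Set.range x) ⊔ K = ⊤)
    (W : Submodule (ZMod p) (V p K))
    (hW : ∀ g ∈ closure (Set.range x), ∀ v : V p K,
      vmap p (MulAut.conjNormal g : K ≃* K).toMonoidHom v - v ∈ W) :
    dd p K ≤ dd p G + finrank (ZMod p) W + p ^ c * c := by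
  have hp : p.Prime := Fact.out
  -- the homomorphism `K → V / W`
  let φ : K →* Multiplicative (V p K ⧸ W) :=
    { toFun := fun k => Multiplicative.ofAdd (W.mkQ (mkV p k))
      map_one' := by rw [mkV_one, map_zero]; rfl
      map_mul' := fun a b => by rw [mkV_mul, map_add]; rfl }
  have hφker : ∀ k, k ∈ φ.ker ↔ mkV p k ∈ W := by
    intro k
    rw [MonoidHom.mem_ker]
    change Multiplicative.ofAdd (W.mkQ (mkV p k)) = Multiplicative.ofAdd 0 ↔ _
    rw [Multiplicative.ofAdd.apply_eq_iff_eq, Submodule.mkQ_apply, Submodule.Quotient.mk_eq_zero]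
  have hφs : Function.Surjective φ := by
    intro q
    obtain ⟨v, hv⟩ := W.mkQ_surjective (Multiplicative.toAdd q)
    obtain ⟨k, rfl⟩ := mkV_surjective p v
    exact ⟨k, by change Multiplicative.ofAdd (W.mkQ (mkV p k)) = q; rw [hv]; rfl⟩
  let N : Subgroup G := φ.ker.map K.subtype
  have hNmem : ∀ k : K, (k : G) ∈ N ↔ mkV p k ∈ W := by
    intro k
    rw [← hφker]
    constructor
    · rintro ⟨k', hk', h⟩
      have : k' = k := Subtype.ext h
      rwa [this] at hk'
    · intro h
      exact ⟨k, h, rfl⟩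
  have hNK : N ≤ K := by
    rintro _ ⟨k, _, rfl⟩
    exact k.2
  have hNn : N.Normal := by
    constructor
    intro n hn g
    have hg : g ∈ closure (Set.range x) ⊔ K := by rw [hx]; exact mem_top g
    obtain ⟨s, hs, k, hk, rfl⟩ := (mem_sup_of_normal_right).1 hg
    obtain ⟨n0, hn0, rfl⟩ := hn
    have h1 : ((⟨k, hk⟩ * n0 * ⟨k, hk⟩⁻¹ : K) : G) ∈ N := by
      rw [hNmem, mkV_mul, mkV_mul, mkV_inv]
      have : mkV p (⟨k, hk⟩ : K) + mkV p n0 + -mkV p (⟨k, hk⟩ : K) = mkV p n0 := by abel
      rw [this]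
      exact (hφker n0).1 hn0
    have h2 : ∀ m : K, (m : G) ∈ N → s * m * s⁻¹ ∈ N := by
      intro m hm
      have h3 := hW s hs (mkV p m)
      have h4 : vmap p (MulAut.conjNormal s : K ≃* K).toMonoidHom (mkV p m) ∈ W := by
        have := W.add_mem h3 ((hNmem m).1 hm)
        rwa [sub_add_cancel] at this
      exact (hNmem (MulAut.conjNormal s m)).2 h4
    have h5 := h2 _ h1
    have h6 : s * k * K.subtype n0 * (s * k)⁻¹ =
        s * ((⟨k, hk⟩ * n0 * ⟨k, hk⟩⁻¹ : K) : G) * s⁻¹ := by
      push_cast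
      simp only [subtype_apply]
      group
    rw [h6]
    exact h5
  have hrel : N.relIndex K = p ^ (dd p K - finrank (ZMod p) W) := by
    have h1 : N.subgroupOf K = φ.ker := by
      ext k
      rw [mem_subgroupOf, hNmem, hφker]
    rw [relIndex, h1, index_ker, MonoidHom.range_eq_top.2 hφs, card_top]
    have h2 : Nat.card (Multiplicative (V p K ⧸ W)) = Nat.card (V p K ⧸ W) := rfl
    rw [h2, Module.natCard_eq_pow_finrank (K := ZMod p), Nat.card_zmod,
      Submodule.finrank_quotient, dd]
  have hidx : N.index = p ^ (dd p K - finrank (ZMod p) W) * p ^ c := by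
    rw [← hrel, ← hK, relIndex_mul_index hNK]
  -- the quotient
  let Q := G ⧸ N
  let KQ : Subgroup Q := K.map (QuotientGroup.mk' N)
  let SQ : Subgroup Q := (closure (Set.range x)).map (QuotientGroup.mk' N)
  have hKcomm : ∀ k : K, ∀ g : K, ((k : G) : Q) * ((g : G) : Q) = ((g : G) : Q) * ((k : G) : Q) := by
    intro k g
    change (((k : G) * (g : G) : G) : Q) = (((g : G) * (k : G) : G) : Q)
    rw [QuotientGroup.eq]
    have h1 : (((k * g)⁻¹ * (g * k) : K) : G) ∈ N := by
      rw [hNmem, mkV_mul, mkV_inv, mkV_mul, mkV_mul]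
      have : -(mkV p k + mkV p g) + (mkV p g + mkV p k) = 0 := by abel
      rw [this]
      exact W.zero_mem
    exact_mod_cast h1
  have hKcent : ∀ k : K, ∀ g : Q, ((k : G) : Q) * g = g * ((k : G) : Q) := by
    intro k g
    obtain ⟨g, rfl⟩ := QuotientGroup.mk_surjective g
    have hg : g ∈ closure (Set.range x) ⊔ K := by rw [hx]; exact mem_top g
    obtain ⟨s, hs, k', hk', rfl⟩ := (mem_sup_of_normal_right).1 hg
    have h2 : ((k : G) : Q) * (s : Q) = (s : Q) * ((k : G) : Q) := by
      have h3 : (((MulAut.conjNormal s k : K) : G) : Q) = ((k : G) : Q) := by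
        rw [QuotientGroup.eq]
        have h4 : (((MulAut.conjNormal s k)⁻¹ * k : K) : G) ∈ N := by
          rw [hNmem, mkV_mul, mkV_inv]
          have h5 := W.neg_mem (hW s hs (mkV p k))
          have h6 : -(vmap p (MulAut.conjNormal s : K ≃* K).toMonoidHom (mkV p k) - mkV p k) =
            -mkV p (MulAut.conjNormal s k) + mkV p k := by
            rw [neg_sub, sub_eq_add_neg, add_comm]; rfl
          rwa [h6] at h5
        exact_mod_cast h4
      rw [MulAut.conjNormal_apply, QuotientGroup.mk_mul, QuotientGroup.mk_mul,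
        QuotientGroup.mk_inv] at h3
      exact (mul_inv_eq_iff_eq_mul.1 h3).symm
    change ((k : G) : Q) * ((s : Q) * (k' : Q)) = ((s : Q) * (k' : Q)) * ((k : G) : Q)
    rw [← mul_assoc, h2, mul_assoc, hKcomm k ⟨k', hk'⟩, mul_assoc]
  have hKpow : ∀ k : K, ((k : G) : Q) ^ p = 1 := by
    intro k
    change (((k : G) ^ p : G) : Q) = 1
    rw [QuotientGroup.eq_one_iff]
    have h1 : ((k ^ p : K) : G) ∈ N := by
      rw [hNmem, mkV_pow, nsmul_V]
      exact W.zero_mem
    exact_mod_cast h1
  have htop : SQ ⊔ KQ = ⊤ := by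
    change (closure (Set.range x)).map (QuotientGroup.mk' N) ⊔ K.map (QuotientGroup.mk' N) = ⊤
    rw [← Subgroup.map_sup, hx, ← MonoidHom.range_eq_map, MonoidHom.range_eq_top]
    exact QuotientGroup.mk'_surjective N
  have hKQn : KQ.Normal := Normal.map inferInstance _ (QuotientGroup.mk'_surjective N)
  have hKQidx : KQ.index = p ^ c := by
    change (K.map (QuotientGroup.mk' N)).index = _
    rw [Subgroup.index_map, QuotientGroup.ker_mk', sup_eq_left.2 hNK,
      MonoidHom.range_eq_top.2 (QuotientGroup.mk'_surjective N), index_top, mul_one, hK]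
  -- `Phi(Q)` is contained in `SQ`
  have hPhi : Phi p Q ≤ SQ := by
    rw [Phi_le_iff]
    have hdec : ∀ a : Q, ∃ s ∈ SQ, ∃ k : K, a = s * ((k : G) : Q) := by
      intro a
      have ha : a ∈ SQ ⊔ KQ := by rw [htop]; exact mem_top a
      obtain ⟨s, hs, _, ⟨k, hk, rfl⟩, rfl⟩ := (mem_sup_of_normal_right).1 ha
      exact ⟨s, hs, ⟨k, hk⟩, rfl⟩
    constructor
    · intro a b
      obtain ⟨s, hs, k, rfl⟩ := hdec a
      obtain ⟨t, ht, l, rfl⟩ := hdec b
      have h1 : ⁅s * ((k : G) : Q), t * ((l : G) : Q)⁆ = ⁅s, t⁆ := by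
        rw [commutatorElement_def, commutatorElement_def, mul_inv_rev, mul_inv_rev]
        have e1 : s * ((k : G) : Q) * (t * ((l : G) : Q)) =
            s * t * (((k : G) : Q) * ((l : G) : Q)) := by
          rw [mul_assoc s, ← mul_assoc ((k : G) : Q) t, hKcent k t]
          simp only [mul_assoc]
        have e2 : ((k : G) : Q)⁻¹ * s⁻¹ * (((l : G) : Q)⁻¹ * t⁻¹) =
            (((k : G) : Q) * ((l : G) : Q))⁻¹ * (s⁻¹ * t⁻¹) := by
          have e3 : s⁻¹ * ((l : G) : Q)⁻¹ = ((l : G) : Q)⁻¹ * s⁻¹ := by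
            rw [← mul_inv_rev, ← mul_inv_rev, hKcent l s]
          rw [hKcomm k l, mul_inv_rev, mul_assoc, ← mul_assoc s⁻¹, e3]
          simp only [mul_assoc]
        rw [mul_assoc (s * ((k : G) : Q) * (t * ((l : G) : Q))), e1, e2, mul_assoc (s * t),
          mul_inv_cancel_left, mul_assoc, mul_assoc, mul_assoc]
      rw [h1, commutatorElement_def]
      exact mul_mem (mul_mem (mul_mem hs ht) (inv_mem hs)) (inv_mem ht)
    · intro a
      obtain ⟨s, hs, k, rfl⟩ := hdec a
      have h1 : Commute s ((k : G) : Q) := (hKcent k s).symm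
      rw [h1.mul_pow, hKpow, mul_one]
      exact pow_mem hs p
  -- the order of `SQ`
  have hSQ : Nat.card SQ ≤ p ^ (c + p ^ c * c) := by
    have hSQ' : SQ = closure (Set.range fun i => ((x i : G) : Q)) := by
      change (closure (Set.range x)).map (QuotientGroup.mk' N) = _
      rw [MonoidHom.map_closure]
      congr 1
      ext q
      simp [Set.mem_range]
    have hrS : Group.rank SQ ≤ c := by
      rw [Subgroup.rank_congr hSQ']
      refine (rank_closure_finite_le_nat_card _).trans ?_
      refine (Finite.card_range_le _).trans ?_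
      rw [Nat.card_fin]
    let A : Subgroup SQ := KQ.subgroupOf SQ
    have hAi : A.index ≤ p ^ c := by
      have h1 : KQ.relIndex SQ ∣ KQ.index := relIndex_dvd_index_of_normal _ _
      rw [hKQidx] at h1
      exact Nat.le_of_dvd (pow_pos hp.pos _) h1
    have hrA : Group.rank A ≤ p ^ c * c :=
      (rank_le_index_mul_rank A).trans (Nat.mul_le_mul hAi hrS)
    have hAmem : ∀ a : A, ∃ k : K, ((a : SQ) : Q) = ((k : G) : Q) := by
      intro a
      obtain ⟨k, hk, h⟩ := mem_subgroupOf.1 a.2
      exact ⟨⟨k, hk⟩, h.symm⟩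
    have hcA : Nat.card A ≤ p ^ Group.rank A := by
      apply stepDB_card_le
      · intro a b
        apply Subtype.ext
        apply Subtype.ext
        obtain ⟨k, hk⟩ := hAmem a
        change ((a : SQ) : Q) * ((b : SQ) : Q) = ((b : SQ) : Q) * ((a : SQ) : Q)
        rw [hk, hKcent]
      · intro a
        apply Subtype.ext
        apply Subtype.ext
        obtain ⟨k, hk⟩ := hAmem a
        change ((a : SQ) : Q) ^ p = 1
        rw [hk, hKpow]
    rw [← card_mul_index A, mul_comm, pow_add]
    exact Nat.mul_le_mul hAi (hcA.trans (Nat.pow_le_pow_right hp.pos hrA))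
  -- conclusion
  have hcard : Nat.card Q = p ^ (dd p K - finrank (ZMod p) W) * p ^ c := by
    rw [← hidx]; rfl
  have h1 : Nat.card (Phi p Q) * (Phi p Q).index = Nat.card Q := card_mul_index _
  have h2 : Nat.card (Phi p Q) ≤ Nat.card SQ :=
    Nat.card_le_card_of_injective _ (inclusion_injective hPhi)
  have h3 : dd p Q ≤ dd p G := dd_le_of_surjective _ (QuotientGroup.mk'_surjective N)
  rw [index_Phi, hcard] at h1
  have h4 : p ^ ((dd p K - finrank (ZMod p) W) + c) ≤ p ^ ((c + p ^ c * c) + dd p G) := by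
    rw [pow_add, ← h1, pow_add _ _ (dd p G)]
    exact Nat.mul_le_mul (h2.trans hSQ) (Nat.pow_le_pow_right hp.pos h3)
  have h5 := (Nat.pow_le_pow_iff_right hp.one_lt).1 h4
  omega

/-- from a normal subgroup `K` of bounded index to `G` -/
theorem dd_om_of_normal (p : ℕ) [Fact p.Prime] (c : ℕ) : ∃ C : ℕ, ∀ (G : Type) [Group G] [Finite G]
    (_ : IsPGroup p G) (K : Subgroup G) [K.Normal] (_ : K.index = p ^ c) (f : ℕ),
    ¬ Moves p c f K → dd p K ≤ dd p G + f + C ∧ om p K ≤ om p G + f := by
  refine ⟨p ^ c * c, ?_⟩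
  intro G _ _ hG K _ hK f hM
  -- generators of `G / K`
  obtain ⟨y, hy⟩ := stepDB_exists_gens (c := c) (Q := G ⧸ K) (by rw [← hK]; rfl)
  choose x hx using fun i => QuotientGroup.mk_surjective (y i)
  have hxK : closure (Set.range x) ⊔ K = ⊤ := by
    have h1 : (closure (Set.range x)).map (QuotientGroup.mk' K) = ⊤ := by
      rw [MonoidHom.map_closure, ← hy]
      congr 1
      ext q
      constructor
      · rintro ⟨_, ⟨i, rfl⟩, rfl⟩
        exact ⟨i, (hx i).symm⟩
      · rintro ⟨i, rfl⟩
        exact ⟨x i, ⟨i, rfl⟩, hx i⟩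
    rw [eq_top_iff]
    intro g _
    have h2 : (g : G ⧸ K) ∈ (closure (Set.range x)).map (QuotientGroup.mk' K) := by
      rw [h1]; exact mem_top _
    obtain ⟨s, hs, hsg⟩ := h2
    have h3 : s⁻¹ * g ∈ K := QuotientGroup.eq.1 hsg
    have h4 : g = s * (s⁻¹ * g) := by group
    rw [h4]
    exact mul_mem (mem_sup_left hs) (mem_sup_right h3)
  -- the automorphisms
  have hcl : closure (Set.range fun i => (MulAut.conjNormal (x i) : MulAut K)) =
      (closure (Set.range x)).map (MulAut.conjNormal : G →* MulAut K) := by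
    rw [MonoidHom.map_closure]
    congr 1
    ext q
    simp [Set.mem_range]
  have hP : IsPGroup p (closure (Set.range fun i => (MulAut.conjNormal (x i) : MulAut K))) := by
    rw [hcl]
    exact (hG.to_subgroup _).map _
  unfold Moves at hM
  push Not at hM
  obtain ⟨hM1, hM2⟩ := hM _ hP
  constructor
  · have h1 := stepDB_dd K hK x hxK _ (fun g hg v => Submodule.subset_span
      (s := {v : V p K | ∃ g ∈ closure (Set.range fun i => (MulAut.conjNormal (x i) : MulAut K)),
        ∃ x, v = vmap p (g : K ≃* K).toMonoidHom x - x})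
      ⟨MulAut.conjNormal g, by rw [hcl]; exact ⟨g, hg, rfl⟩, v, rfl⟩)
    omega
  · let Z : Submodule (ZMod p) (OV p K) :=
      ⨅ g : closure (Set.range fun i => (MulAut.conjNormal (x i) : MulAut K)),
        LinearMap.ker (omap p (g.1 : K ≃* K) - LinearMap.id)
    have hZ : ∀ z, z ∈ Z ↔ ∀ g ∈ closure (Set.range fun i => (MulAut.conjNormal (x i) : MulAut K)),
        omap p (g : K ≃* K) z = z := by
      intro z
      simp only [Z, Submodule.mem_iInf, LinearMap.mem_ker, LinearMap.sub_apply, LinearMap.id_apply,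
        sub_eq_zero, Subtype.forall]
    have h1 := hM2 Z hZ
    have h2 := stepDB_om K (closure (Set.range x)) hxK Z (fun z hz g hg =>
      (hZ z).1 hz _ (by rw [hcl]; exact ⟨g, hg, rfl⟩))
    omega

end Pool.Agent.IG
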