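import Pool.Agent.IG.Transfer

/-!
# Step E: in almost all good groups all automorphisms are nearly scalar
-/

open Subgroup Module Filter
open scoped commutatorElement

noncomputable section

namespace Pool.Agent.IG

variable {p : ℕ} [Fact p.Prime]

/-- the automorphism `α` acts as `μ` on `V` and `μ ^ 2` on `Om`, up to rank `r` -/
def NSc (p : ℕ) [Fact p.Prime] (r : ℕ) {G : Type} [Group G] (α : G ≃* G) (μ : ZMod p) : Prop :=
  rk (vmap p α.toMonoidHom - μ • LinearMap.id) ≤ r ∧ rk (omap p α - μ ^ 2 • LinearMap.id) ≤ r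

/-- all automorphisms are nearly scalar -/
def AllNS (p : ℕ) [Fact p.Prime] (r : ℕ) (G : Type) [Group G] : Prop :=
  ∀ α : G ≃* G, ∃ μ : ZMod p, μ ≠ 0 ∧ NSc p r α μ

theorem stepEA_rk_conj {K V W : Type} [Field K] [AddCommGroup V] [Module K V] [AddCommGroup W]
    [Module K W] (e : V ≃ₗ[K] W) (f : V →ₗ[K] V) (g : W →ₗ[K] W)
    (h : ∀ v, e (f v) = g (e v)) : rk g = rk f := by
  unfold rk
  have h1 : LinearMap.range g = (LinearMap.range f).map e.toLinearMap := by
    ext y
    constructor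
    · rintro ⟨x, rfl⟩
      obtain ⟨v, rfl⟩ := e.surjective x
      exact ⟨f v, ⟨v, rfl⟩, h v⟩
    · rintro ⟨_, ⟨v, rfl⟩, rfl⟩
      exact ⟨e v, (h v).symm⟩
  rw [h1]
  exact LinearEquiv.finrank_map_eq e _

theorem stepEA_NSc_conj {G H : Type} [Group G] [Group H] (e : G ≃* H) (r : ℕ) (α : H ≃* H)
    (μ : ZMod p) (h : NSc p r (e.trans (α.trans e.symm)) μ) : NSc p r α μ := by
  obtain ⟨h1, h2⟩ := h
  refine ⟨?_, ?_⟩
  · refine le_trans (le_of_eq ?_) h1
    refine stepEA_rk_conj (vequiv p e) _ _ ?_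
    intro v
    obtain ⟨x, rfl⟩ := mkV_surjective p v
    have h3 : ∀ y : V p G, vequiv p e y = vmap p e.toMonoidHom y := fun y => rfl
    rw [h3, h3]
    simp only [LinearMap.sub_apply, LinearMap.smul_apply, LinearMap.id_apply, map_sub, map_smul,
      vmap_mkV]
    congr 2
    simp
  · refine le_trans (le_of_eq ?_) h2
    refine stepEA_rk_conj (oequiv p e) _ _ ?_
    intro v
    have h3 : ∀ y : OV p G, oequiv p e y = omap p e y := fun y => rfl
    rw [h3, h3]
    simp only [LinearMap.sub_apply, LinearMap.smul_apply, LinearMap.id_apply, map_sub, map_smul]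
    congr 1
    rw [omap_trans, omap_trans]
    simp only [LinearMap.comp_apply]
    have h4 := LinearMap.congr_fun (omap_trans (p := p) e.symm e) (omap p α (omap p e v))
    rw [LinearMap.comp_apply] at h4
    rw [← h4]
    have h5 : e.symm.trans e = MulEquiv.refl H := by ext x; simp
    rw [h5, omap_refl]
    rfl

theorem AllNS_isoInv (r : ℕ) : IsoInv (fun G _ => AllNS p r G) := by
  intro G H _ _ e hG α
  obtain ⟨μ, hμ, h⟩ := hG (e.trans (α.trans e.symm))
  exact ⟨μ, hμ, stepEA_NSc_conj e r α μ h⟩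

theorem stepEA_finite_V (p d : ℕ) [Fact p.Prime] : Finite (V p (FG d)) := by
  obtain ⟨b, -⟩ := basis_V_FG p d
  have : Module.Finite (ZMod p) (V p (FG d)) := Module.Finite.of_basis b
  exact Module.finite_of_finite (ZMod p)

/-- the number of invariant maps for an automorphism which is not nearly scalar -/
theorem stepEA_fix {d w r : ℕ} (hr : 4 ≤ r) (hd : 2 * r < d)
    (A A' : V p (FG d) →ₗ[ZMod p] V p (FG d)) (B : XW p w →ₗ[ZMod p] XW p w)
    (hA : A ∘ₗ A' = LinearMap.id)
    (h : ∀ μ : ZMod p, μ ≠ 0 → r < rk (A - μ • LinearMap.id) ∨ r < rk (B - μ ^ 2 • LinearMap.id)) :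
    Nat.card (Fix (fun _ : Fin 1 => A) (fun _ => B)) ≤
      p ^ max (w * (d.choose 2 - (r / 2).choose 2)) (w * d.choose 2 - r * (d - r).choose 2) := by
  have hp : p.Prime := Fact.out
  have := stepEA_finite_V p d
  have hX : finrank (ZMod p) (XW p w) = w := Module.finrank_fin_fun _
  by_cases hc : ∀ μ : ZMod p, r < rk (A - μ • LinearMap.id)
  · have h1 := fix_E1 A B hc (j := r / 2) (by omega) (by rw [finrank_V_FG]; omega)
    rw [finrank_V_FG, hX] at h1
    exact h1.trans (Nat.pow_le_pow_right hp.pos (le_max_left _ _))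
  · push Not at hc
    obtain ⟨μ, hμ⟩ := hc
    have hμ0 : μ ≠ 0 := by
      rintro rfl
      rw [zero_smul, sub_zero] at hμ
      have h2 : LinearMap.range A = ⊤ := by
        rw [LinearMap.range_eq_top]
        intro v
        exact ⟨A' v, LinearMap.congr_fun hA v⟩
      unfold rk at hμ
      rw [h2, finrank_top, finrank_V_FG] at hμ
      omega
    have h2 : r < rk (B - μ ^ 2 • LinearMap.id) := by
      rcases h μ hμ0 with h3 | h3
      · omega
      · exact h3
    have h1 := fix_E2 A B hμ h2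
    rw [finrank_V_FG, hX] at h1
    exact h1.trans (Nat.pow_le_pow_right hp.pos (le_max_right _ _))

theorem num_exc {d k w r : ℕ} (hr : 4 ≤ r) (hd : 2 * r < d) :
    num (p ^ (d + k + w)) (fun G _ => dd p G = d ∧ om p G = w ∧ ¬ AllNS p r G) ≤
      p ^ (k * (d * (d + 1) / 2 + d * k) + ((d + k) * d + w ^ 2) +
        w * (d * k + 3 * k + d) +
        max (w * (d.choose 2 - (r / 2).choose 2)) (w * d.choose 2 - r * (d - r).choose 2)) := by
  have hp : p.Prime := Fact.out
  set M := max (w * (d.choose 2 - (r / 2).choose 2)) (w * d.choose 2 - r * (d - r).choose 2) with hM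
  have h1 := num_fam (p := p) (d := d) (k := k) (w := w) (c := 1) M
    (fun A B => Nat.card (Fix A B) ≤ p ^ M) (fun A B h => h)
  refine le_trans (num_mono (pow_pos hp.pos _) ?_) (h1.trans (le_of_eq ?_))
  · rintro G _ hcard ⟨hdd, hom, hns⟩
    have hfin : Finite G := Nat.finite_of_card_ne_zero (by
      rw [hcard]; exact pow_ne_zero _ hp.ne_zero)
    have hG : IsPGroup p G := IsPGroup.of_card hcard
    obtain ⟨x, hx⟩ := Mark.exists_gen hG
    obtain ⟨k', hk', m, e, -⟩ := Mark.exists_mark hcard x hx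
    subst hdd hom
    obtain rfl : k' = k := by omega
    unfold AllNS at hns
    push Not at hns
    obtain ⟨α, hα⟩ := hns
    let β : m.grp ≃* m.grp := e.symm.trans (α.trans e)
    have hβ : ∀ μ : ZMod p, μ ≠ 0 → ¬ NSc p r β μ := by
      intro μ hμ hn
      exact hα μ hμ (stepEA_NSc_conj (p := p) e.symm r α μ hn)
    obtain ⟨A, B, hI⟩ := Mark.exists_ind β
    obtain ⟨A', B', -, hAA, -, -, -⟩ := Mark.ind_symm hI
    refine ⟨m, e, fun _ => β, fun _ => A, fun _ => B, fun _ => hI, ?_⟩
    apply stepEA_fix hr hd A A' B hAA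
    intro μ hμ
    obtain ⟨h3, -⟩ := Mark.rk_ind hI μ (μ ^ 2)
    obtain ⟨-, h4⟩ := Mark.rk_ind hI μ (μ ^ 2)
    rw [← h3, ← h4]
    by_contra hcon
    push Not at hcon
    exact hβ μ hμ hcon
  · congr 1
    ring

end Pool.Agent.IG
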