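import Pool.Agent.IG.StepEA

/-!
# Step F: integrable groups `G = H'` on which `H` acts nearly trivially
-/

open Subgroup Module Filter
open scoped commutatorElement

noncomputable section

namespace Pool.Agent.IG

universe v

variable {p : ℕ} [Fact p.Prime]

/-- the automorphism of `G ≃* H'` induced by an element of `H` -/
def autOf {G : Type} [Group G] {H : Type v} [Group H] (e : commutator H ≃* G) (h : H) : G ≃* G :=
  (e.symm.trans (MulAut.conjNormal h : commutator H ≃* commutator H)).trans e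

/-- `G` has a generating tuple of `d(G)` elements with large centralizers -/
def BigCent (p s : ℕ) (G : Type) [Group G] : Prop :=
  ∃ x : Fin (dd p G) → G, closure (Set.range x) = ⊤ ∧
    ∀ i, (centralizer {x i}).index ≤ p ^ s ∧ (centralizer {x i}).index ≠ 0

theorem fa_index_centralizer {G H : Type} [Group G] [Group H] (e : G ≃* H) (x : G) :
    (centralizer {e x}).index = (centralizer {x}).index := by
  have h1 : centralizer {e x} = (centralizer {x}).map (e : G →* H) := by
    ext y
    obtain ⟨z, rfl⟩ := e.surjective y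
    rw [mem_centralizer_singleton_iff, Subgroup.mem_map]
    constructor
    · intro h
      refine ⟨z, ?_, rfl⟩
      rw [mem_centralizer_singleton_iff]
      rw [← map_mul, ← map_mul] at h
      exact e.injective h
    · rintro ⟨w, hw, hwz⟩
      have hwz' : w = z := e.injective hwz
      rw [← hwz', ← map_mul, ← map_mul]
      rw [mem_centralizer_singleton_iff] at hw
      rw [hw]
  rw [h1, index_map_equiv]

theorem BigCent_isoInv (s : ℕ) : IsoInv (fun G _ => BigCent p s G) := by
  intro G H _ _ e h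
  obtain ⟨x, hx1, hx2⟩ := h
  have hd : dd p H = dd p G := (dd_congr e).symm
  refine ⟨fun i => e (x (Fin.cast hd i)), ?_, fun i => ?_⟩
  · have h1 : Set.range (fun i => e (x (Fin.cast hd i))) = (e : G →* H) '' Set.range x := by
      ext y
      constructor
      · rintro ⟨i, rfl⟩
        exact ⟨_, ⟨_, rfl⟩, rfl⟩
      · rintro ⟨_, ⟨i, rfl⟩, rfl⟩
        exact ⟨Fin.cast hd.symm i, rfl⟩
    rw [h1, ← MonoidHom.map_closure, hx1, ← MonoidHom.range_eq_map, MonoidHom.range_eq_top]
    exact e.surjective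
  · rw [fa_index_centralizer]
    exact hx2 _

/-- index bound from a map separating cosets -/
theorem fa_index_le {G : Type} [Group G] {X : Type} [Finite X] (H : Subgroup G) (f : G → X)
    (hf : ∀ x y, f x = f y → x⁻¹ * y ∈ H) : H.index ≤ Nat.card X := by
  refine Nat.card_le_card_of_injective (fun q : G ⧸ H => f q.out) ?_
  intro q q' hqq
  have h1 := hf _ _ hqq
  rw [← QuotientGroup.eq, QuotientGroup.out_eq', QuotientGroup.out_eq'] at h1
  exact h1

/-- the preimage in `G` of the range of an endomorphism of `V` -/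
def faT {G : Type} [Group G] (L : V p G →ₗ[ZMod p] V p G) : Subgroup G where
  carrier := {g | mkV p g ∈ LinearMap.range L}
  mul_mem' := by
    intro a b ha hb
    rw [Set.mem_ofPred_eq, mkV_mul]
    exact Submodule.add_mem _ ha hb
  one_mem' := by
    rw [Set.mem_ofPred_eq, mkV_one]
    exact Submodule.zero_mem _
  inv_mem' := by
    intro a ha
    rw [Set.mem_ofPred_eq, mkV_inv]
    exact Submodule.neg_mem _ ha

theorem mem_faT {G : Type} [Group G] (L : V p G →ₗ[ZMod p] V p G) (g : G) :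
    g ∈ faT L ↔ mkV p g ∈ LinearMap.range L := Iff.rfl

theorem Phi_le_faT {G : Type} [Group G] (L : V p G →ₗ[ZMod p] V p G) : Phi p G ≤ faT L := by
  intro g hg
  rw [mem_faT, (mkV_eq_zero_iff p g).2 hg]
  exact Submodule.zero_mem _

theorem relIndex_Phi_faT {G : Type} [Group G] [Finite G] (L : V p G →ₗ[ZMod p] V p G) :
    (Phi p G).relIndex (faT L) ≤ p ^ rk L := by
  have h1 : (Phi p G).relIndex (faT L) ≤ Nat.card (LinearMap.range L) := by
    refine fa_index_le ((Phi p G).subgroupOf (faT L)) (fun t => ⟨mkV p t.1, t.2⟩) ?_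
    intro x y hxy
    have h2 : mkV p x.1 = mkV p y.1 := congrArg Subtype.val hxy
    rw [mem_subgroupOf]
    exact (mkV_eq_iff p _ _).1 h2
  refine h1.trans (le_of_eq ?_)
  rw [Module.natCard_eq_pow_finrank (K := ZMod p), Nat.card_zmod, rk]

theorem relIndex_Om_Phi {G : Type} [Group G] {n : ℕ} (hG : Nat.card G = p ^ n) :
    (Om p G).relIndex (Phi p G) = p ^ (n - dd p G - om p G) := by
  have hp : p.Prime := Fact.out
  have hfin : Finite G := Nat.finite_of_card_ne_zero (by rw [hG]; exact pow_ne_zero _ hp.ne_zero)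
  have h1 : (Om p G).relIndex (Phi p G) * (Phi p G).index = (Om p G).index :=
    relIndex_mul_index (Om_le_Phi p)
  have h2 : Nat.card (Om p G) * (Om p G).index = Nat.card G := card_mul_index _
  rw [card_OV, ← h1, index_Phi, hG] at h2
  have h3 := dd_add_om_le hG
  have h4 : p ^ n = p ^ om p G * (p ^ (n - dd p G - om p G) * p ^ dd p G) := by
    rw [← pow_add, ← pow_add]
    congr 1
    omega
  rw [h4] at h2
  have h5 := Nat.eq_of_mul_eq_mul_left (pow_pos hp.pos _) h2
  exact Nat.eq_of_mul_eq_mul_right (pow_pos hp.pos _) h5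

/-- the elements moved by `α` only by an element of `Om` -/
def faY (p : ℕ) [Fact p.Prime] {G : Type} [Group G] (α : G ≃* G) : Subgroup G where
  carrier := {x | x⁻¹ * α x ∈ Om p G}
  mul_mem' := by
    intro a b ha hb
    rw [Set.mem_ofPred_eq] at ha hb ⊢
    have h1 : (a * b)⁻¹ * α (a * b) = b⁻¹ * (a⁻¹ * α a) * b * (b⁻¹ * α b) := by
      rw [map_mul]; group
    rw [h1]
    refine mul_mem ?_ hb
    have h2 := (Om_normal (p := p) (G := G)).conj_mem _ ha b⁻¹
    rwa [inv_inv] at h2
  one_mem' := by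
    rw [Set.mem_ofPred_eq, map_one, inv_one, one_mul]
    exact one_mem _
  inv_mem' := by
    intro a ha
    rw [Set.mem_ofPred_eq] at ha ⊢
    have h1 : (a⁻¹)⁻¹ * α a⁻¹ = a * (a⁻¹ * α a)⁻¹ * a⁻¹ := by
      rw [map_inv]; group
    rw [h1]
    exact (Om_normal (p := p) (G := G)).conj_mem _ (inv_mem ha) a

theorem mem_faY {G : Type} [Group G] (α : G ≃* G) (x : G) : x ∈ faY p α ↔ x⁻¹ * α x ∈ Om p G :=
  Iff.rfl

theorem index_faY {G : Type} [Group G] {n : ℕ} (hG : Nat.card G = p ^ n) {r : ℕ} (α : G ≃* G)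
    (h : rk (vmap p α.toMonoidHom - (1 : ZMod p) • LinearMap.id) ≤ r) :
    (faY p α).index ≤ p ^ (r + (n - dd p G - om p G)) := by
  have hp : p.Prime := Fact.out
  have hfin : Finite G := Nat.finite_of_card_ne_zero (by rw [hG]; exact pow_ne_zero _ hp.ne_zero)
  let L : V p G →ₗ[ZMod p] V p G := vmap p α.toMonoidHom - (1 : ZMod p) • LinearMap.id
  have hT : ∀ x : G, x * (α x)⁻¹ ∈ faT L := by
    intro x
    rw [mem_faT]
    refine ⟨mkV p x⁻¹, ?_⟩
    change vmap p α.toMonoidHom (mkV p x⁻¹) - (1 : ZMod p) • (mkV p x⁻¹) = _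
    rw [vmap_mkV, one_smul, mkV_mul, mkV_inv, mkV_inv]
    change mkV p (α x⁻¹) - _ = _
    rw [map_inv, mkV_inv]
    abel
  have h1 : (faY p α).index ≤ Nat.card (faT L ⧸ (Om p G).subgroupOf (faT L)) := by
    refine fa_index_le (faY p α) (fun x => QuotientGroup.mk ⟨x * (α x)⁻¹, hT x⟩) ?_
    intro x y hxy
    rw [QuotientGroup.eq, mem_subgroupOf] at hxy
    have h2 : (x * (α x)⁻¹)⁻¹ * (y * (α y)⁻¹) ∈ Om p G := hxy
    rw [mem_faY]
    have h3 : (x⁻¹ * y)⁻¹ * α (x⁻¹ * y) =
        ((x⁻¹ * y)⁻¹ * (α x)⁻¹) * ((x * (α x)⁻¹)⁻¹ * (y * (α y)⁻¹))⁻¹ *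
          ((x⁻¹ * y)⁻¹ * (α x)⁻¹)⁻¹ := by
      rw [map_mul, map_inv]; group
    rw [h3]
    exact (Om_normal (p := p) (G := G)).conj_mem _ (inv_mem h2) _
  have h2 : Nat.card (faT L ⧸ (Om p G).subgroupOf (faT L)) = (Om p G).relIndex (faT L) := rfl
  rw [h2, ← relIndex_mul_relIndex _ _ _ (Om_le_Phi p) (Phi_le_faT L), relIndex_Om_Phi hG] at h1
  refine h1.trans ?_
  rw [add_comm, pow_add]
  refine Nat.mul_le_mul_left _ ((relIndex_Phi_faT L).trans ?_)
  exact Nat.pow_le_pow_right hp.pos h

theorem autOf_apply {G : Type} [Group G] {H : Type v} [Group H] (e : commutator H ≃* G) (h : H)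
    (x : G) : ((e.symm (autOf e h x) : commutator H) : H) = h * (e.symm x : commutator H) * h⁻¹ := by
  rw [autOf]
  simp only [MulEquiv.trans_apply, MulEquiv.symm_apply_apply, MulAut.conjNormal_apply]

omit [Fact p.Prime] in
theorem OV_val_add {G : Type} [Group G] (a b : OV p G) : (a + b).val = a.val * b.val := rfl

omit [Fact p.Prime] in
theorem OV_val_neg {G : Type} [Group G] (a : OV p G) : (-a).val = a.val⁻¹ := rfl

omit [Fact p.Prime] in
theorem OV_val_mkO {G : Type} [Group G] (x : G) (hx : x ∈ Om p G) : (mkO p x hx).val = x := rfl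

/-- the commutators of elements of `H` have large centralizers in `G = H'` -/
theorem index_centralizer_comm {G : Type} [Group G] {n : ℕ} (hG : Nat.card G = p ^ n)
    {H : Type v} [Group H] (e : commutator H ≃* G) {r : ℕ} (h₁ h₂ : H)
    (h1 : NSc p r (autOf e h₁) 1) (h2 : NSc p r (autOf e h₂) 1) (g : G)
    (hg : ∀ (hc : ⁅h₁, h₂⁆ ∈ commutator H), g = e ⟨⁅h₁, h₂⁆, hc⟩) :
    (centralizer {g}).index ≤ p ^ (2 * (r + (n - dd p G - om p G)) + 2 * r) := by
  have hp : p.Prime := Fact.out
  have hfin : Finite G := Nat.finite_of_card_ne_zero (by rw [hG]; exact pow_ne_zero _ hp.ne_zero)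
  have hc : ⁅h₁, h₂⁆ ∈ commutator H := commutator_mem_commutator (mem_top _) (mem_top _)
  have hge := hg hc
  let α := autOf e h₁
  let β := autOf e h₂
  let B1 : OV p G →ₗ[ZMod p] OV p G := omap p α - (1 : ZMod p) ^ 2 • LinearMap.id
  let B2 : OV p G →ₗ[ZMod p] OV p G := omap p β - (1 : ZMod p) ^ 2 • LinearMap.id
  let W : Submodule (ZMod p) (OV p G) := LinearMap.range B1 ⊔ LinearMap.range B2
  have hB1 : ∀ u : OV p G, B1 u = omap p α u + -u := fun u => by
    change omap p α u - (1 : ZMod p) ^ 2 • u = _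
    rw [one_pow, one_smul, sub_eq_add_neg]
  have hB2 : ∀ u : OV p G, B2 u = omap p β u + -u := fun u => by
    change omap p β u - (1 : ZMod p) ^ 2 • u = _
    rw [one_pow, one_smul, sub_eq_add_neg]
  have hWcard : Nat.card W ≤ p ^ (2 * r) := by
    rw [Module.natCard_eq_pow_finrank (K := ZMod p), Nat.card_zmod]
    refine Nat.pow_le_pow_right hp.pos ?_
    refine (Submodule.finrank_add_le_finrank_add_finrank _ _).trans ?_
    have ha : finrank (ZMod p) (LinearMap.range B1) ≤ r := h1.2
    have hb : finrank (ZMod p) (LinearMap.range B2) ≤ r := h2.2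
    omega
  -- the big subgroup
  let Y : Subgroup G := faY p α ⊓ faY p β
  let γ : G ≃* G := α.trans β
  let Y' : Subgroup G := Y.map (γ : G →* G)
  have hY : Y'.index ≤ p ^ (2 * (r + (n - dd p G - om p G))) := by
    rw [index_map_equiv]
    refine (index_inf_le (H := faY p α) (K := faY p β)).trans ?_
    rw [two_mul, pow_add]
    exact Nat.mul_le_mul (index_faY hG α h1.1) (index_faY hG β h2.1)
  -- conjugation by `g`
  have hconj : ∀ x : G, g * γ x * g⁻¹ = α (β x) := by
    intro x
    apply e.symm.injective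
    apply Subtype.ext
    rw [map_mul, map_mul, map_inv, hge, e.symm_apply_apply]
    simp only [Subgroup.coe_mul, InvMemClass.coe_inv]
    change ⁅h₁, h₂⁆ * ((e.symm (autOf e h₂ (autOf e h₁ x)) : commutator H) : H) * ⁅h₁, h₂⁆⁻¹ =
      ((e.symm (autOf e h₁ (autOf e h₂ x)) : commutator H) : H)
    rw [autOf_apply, autOf_apply, autOf_apply, autOf_apply, commutatorElement_def]
    group
  have hw : ∀ y ∈ Y', ∃ z ∈ W, z.val = y * g * y⁻¹ * g⁻¹ := by
    intro y hy
    obtain ⟨x, hx, hxy⟩ := (Y').inv_mem hy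
    have hxy' : γ x = y⁻¹ := hxy
    have hx1 : x⁻¹ * α x ∈ Om p G := hx.1
    have hx2 : x⁻¹ * β x ∈ Om p G := hx.2
    let u1 := mkO p _ hx1
    let u2 := mkO p _ hx2
    refine ⟨B1 u2 + B2 (-u1), Submodule.add_mem_sup ⟨_, rfl⟩ ⟨_, rfl⟩, ?_⟩
    have ha : α x = x * u1.val := by
      change α x = x * (x⁻¹ * α x); group
    have hb : β x = x * u2.val := by
      change β x = x * (x⁻¹ * β x); group
    have e1 : α (β x) = x * u1.val * α u2.val := by rw [hb, map_mul, ha]
    have e2 : γ x = x * u2.val * β u1.val := by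
      change β (α x) = _
      rw [ha, map_mul, hb]
    have hu1 := Om_le_center p u1.val_mem
    have hu2 := Om_le_center p u2.val_mem
    have hau2 := Om_le_center p (Om_map p α u2.val_mem)
    have hbu1 := Om_le_center p (Om_map p β u1.val_mem)
    have e3 : y * g * y⁻¹ * g⁻¹ = y * α (β x) := by
      rw [← hconj x, hxy']; group
    have e4 : y = (x * u2.val * β u1.val)⁻¹ := by rw [← e2, hxy', inv_inv]
    rw [e3, e1, e4]
    simp only [hB1, hB2, OV_val_add, OV_val_neg, omap_val, map_inv, inv_inv, mul_inv_rev]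
    have c1 : ∀ z : G, z * u1.val = u1.val * z := fun z => mem_center_iff.1 hu1 z
    have c2 : ∀ z : G, z * (u2.val)⁻¹ = (u2.val)⁻¹ * z := fun z =>
      mem_center_iff.1 (inv_mem hu2) z
    have c3 : ∀ z : G, z * (β u1.val)⁻¹ = (β u1.val)⁻¹ * z := fun z =>
      mem_center_iff.1 (inv_mem hbu1) z
    calc α u2.val * (u2.val)⁻¹ * ((β u1.val)⁻¹ * u1.val)
        = (α u2.val * (u2.val)⁻¹ * (β u1.val)⁻¹) * u1.val := by group
      _ = (β u1.val)⁻¹ * (α u2.val * (u2.val)⁻¹) * u1.val := by rw [c3]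
      _ = (β u1.val)⁻¹ * ((u2.val)⁻¹ * α u2.val) * u1.val := by rw [c2]
      _ = (β u1.val)⁻¹ * (u2.val)⁻¹ * (α u2.val * u1.val) := by group
      _ = (β u1.val)⁻¹ * (u2.val)⁻¹ * (u1.val * α u2.val) := by rw [c1]
      _ = (β u1.val)⁻¹ * ((u2.val)⁻¹ * x⁻¹) * (x * u1.val * α u2.val) := by group
  choose! ζ hζ1 hζ2 using hw
  have hrel : (centralizer {g}).relIndex Y' ≤ p ^ (2 * r) := by
    refine le_trans ?_ hWcard
    refine fa_index_le ((centralizer {g}).subgroupOf Y') (fun y => ⟨ζ y.1, hζ1 y.1 y.2⟩) ?_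
    intro y y' hyy
    have h3 : ζ y.1 = ζ y'.1 := congrArg Subtype.val hyy
    have h4 : y.1 * g * y.1⁻¹ * g⁻¹ = y'.1 * g * y'.1⁻¹ * g⁻¹ := by
      rw [← hζ2 y.1 y.2, ← hζ2 y'.1 y'.2, h3]
    have h5 : y.1 * g * y.1⁻¹ = y'.1 * g * y'.1⁻¹ := mul_right_cancel h4
    rw [mem_subgroupOf, mem_centralizer_singleton_iff]
    change (y.1⁻¹ * y'.1) * g = g * (y.1⁻¹ * y'.1)
    have h6 : y.1⁻¹ * (y.1 * g * y.1⁻¹) * y'.1 = y.1⁻¹ * (y'.1 * g * y'.1⁻¹) * y'.1 := by rw [h5]
    calc (y.1⁻¹ * y'.1) * g = y.1⁻¹ * (y'.1 * g * y'.1⁻¹) * y'.1 := by group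
      _ = y.1⁻¹ * (y.1 * g * y.1⁻¹) * y'.1 := h6.symm
      _ = g * (y.1⁻¹ * y'.1) := by group
  have hfin1 : (centralizer {g} ⊓ Y').index ≠ 0 := index_ne_zero_of_finite
  calc (centralizer {g}).index ≤ (centralizer {g} ⊓ Y').index :=
        Nat.le_of_dvd (Nat.pos_of_ne_zero hfin1) (index_dvd_of_le inf_le_left)
    _ = (centralizer {g} ⊓ Y').relIndex Y' * Y'.index := (relIndex_mul_index inf_le_right).symm
    _ = (centralizer {g}).relIndex Y' * Y'.index := by rw [inf_relIndex_right]
    _ ≤ p ^ (2 * r) * p ^ (2 * (r + (n - dd p G - om p G))) := Nat.mul_le_mul hrel hY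
    _ = p ^ (2 * (r + (n - dd p G - om p G)) + 2 * r) := by rw [← pow_add, add_comm]

theorem bigCent_of_integrable {G : Type} [Group G] {n : ℕ} (hG : Nat.card G = p ^ n)
    {H : Type v} [Group H] (e : commutator H ≃* G) {r : ℕ}
    (h : ∀ h : H, NSc p r (autOf e h) 1) :
    BigCent p (2 * (r + (n - dd p G - om p G)) + 2 * r) G := by
  have hp : p.Prime := Fact.out
  have hfin : Finite G := Nat.finite_of_card_ne_zero (by rw [hG]; exact pow_ne_zero _ hp.ne_zero)
  have hcm : ∀ a b : H, ⁅a, b⁆ ∈ commutator H := fun a b =>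
    commutator_mem_commutator (mem_top _) (mem_top _)
  let S : Set G := {g | ∃ a b : H, g = e ⟨⁅a, b⁆, hcm a b⟩}
  -- the commutators generate
  have hS : closure S = ⊤ := by
    rw [eq_top_iff]
    intro g _
    obtain ⟨⟨c, hc⟩, rfl⟩ := e.surjective g
    have key : ∀ c ∈ closure (commutatorSet H), ∀ hc : c ∈ commutator H,
        e ⟨c, hc⟩ ∈ closure S := by
      intro c hcc
      induction hcc using Subgroup.closure_induction with
      | mem x hx =>
        intro hc
        obtain ⟨a, b, rfl⟩ := hx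
        exact subset_closure ⟨a, b, rfl⟩
      | one =>
        intro hc
        have : (⟨1, hc⟩ : commutator H) = 1 := rfl
        rw [this, map_one]
        exact one_mem _
      | mul x y hx hy ihx ihy =>
        intro hc
        have hx' : x ∈ commutator H := by rw [commutator_eq_closure]; exact hx
        have hy' : y ∈ commutator H := by rw [commutator_eq_closure]; exact hy
        have : (⟨x * y, hc⟩ : commutator H) = ⟨x, hx'⟩ * ⟨y, hy'⟩ := rfl
        rw [this, map_mul]
        exact mul_mem (ihx hx') (ihy hy')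
      | inv x hx ihx =>
        intro hc
        have hx' : x ∈ commutator H := by rw [commutator_eq_closure]; exact hx
        have : (⟨x⁻¹, hc⟩ : commutator H) = ⟨x, hx'⟩⁻¹ := rfl
        rw [this, map_inv]
        exact inv_mem (ihx hx')
    exact key c (by rw [← commutator_eq_closure]; exact hc) hc
  -- their classes span `V`
  have hspan : Submodule.span (ZMod p) (mkV p '' S) = ⊤ := by
    rw [eq_top_iff]
    intro v _
    obtain ⟨g, rfl⟩ := mkV_surjective p v
    have hg : g ∈ closure S := by rw [hS]; exact mem_top g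
    induction hg using Subgroup.closure_induction with
    | mem g hg => exact Submodule.subset_span ⟨g, hg, rfl⟩
    | one => exact Submodule.zero_mem _
    | mul a b _ _ ha hb => rw [mkV_mul]; exact Submodule.add_mem _ (ha trivial) (hb trivial)
    | inv a _ ha => rw [mkV_inv]; exact Submodule.neg_mem _ (ha trivial)
  obtain ⟨f, hf1, hf2, _⟩ := Submodule.exists_fun_fin_finrank_span_eq (ZMod p) (mkV p '' S)
  have hrank : finrank (ZMod p) (Submodule.span (ZMod p) (mkV p '' S)) = dd p G := by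
    rw [hspan, finrank_top, dd]
  choose x hxS hxf using hf1
  have hr : Set.range (fun i : Fin (dd p G) => mkV p (x (Fin.cast hrank.symm i))) = Set.range f := by
    ext v
    constructor
    · rintro ⟨i, rfl⟩
      exact ⟨_, (hxf _).symm⟩
    · rintro ⟨i, rfl⟩
      exact ⟨Fin.cast hrank i, hxf _⟩
  refine ⟨fun i => x (Fin.cast hrank.symm i), ?_, fun i => ⟨?_, index_ne_zero_of_finite⟩⟩
  · rw [closure_eq_top_iff (IsPGroup.of_card hG), hr, hf2, hspan]
  · obtain ⟨a, b, hab⟩ := hxS (Fin.cast hrank.symm i)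
    exact index_centralizer_comm hG e a b (h a) (h b) _ (fun _ => hab)

end Pool.Agent.IG
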