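import Pool.Agent.IG.Mark
import Pool.Agent.IG.Fix

/-!
# Counting invariant homomorphisms with prescribed equivariance
-/

open Subgroup Module
open scoped commutatorElement

noncomputable section

namespace Pool.Agent.IG

variable {p : ℕ} [Fact p.Prime] {d k w c : ℕ}

/-- invariant homomorphisms on `N` which intertwine the endomorphisms `φ j` with `B j` -/
def EqHom (N : Subgroup (FG d)) (φ : Fin c → FG d →* FG d)
    (B : Fin c → XW p w →ₗ[ZMod p] XW p w) : Set (N → XW p w) :=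
  {l | l ∈ IHom N (XW p w) ∧ ∀ (j : Fin c) (u u' : N), (u' : FG d) = φ j u → l u' = B j (l u)}

/-! ### counting with homomorphisms -/

theorem tra_card_hom {G H : Type} [AddCommGroup G] [AddCommGroup H] [Finite H] (f : G →+ H)
    {m : ℕ} (hfin : Finite f.ker) (hm : Nat.card f.ker ≤ m) :
    Finite G ∧ Nat.card G ≤ m * Nat.card H := by
  have h1 := AddSubgroup.card_eq_card_quotient_mul_card_addSubgroup f.ker
  have h2 : Nat.card (G ⧸ f.ker) = Nat.card f.range :=
    Nat.card_congr (QuotientAddGroup.quotientKerEquivRange f).toEquiv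
  have h3 : Nat.card f.range ≤ Nat.card H :=
    Nat.card_le_card_of_injective _ Subtype.val_injective
  rw [h2] at h1
  constructor
  · apply Nat.finite_of_card_ne_zero
    rw [h1]
    exact mul_ne_zero Nat.card_pos.ne' Nat.card_pos.ne'
  · rw [h1, mul_comm]
    exact Nat.mul_le_mul hm h3

theorem tra_card_hom_set {G H : Type} [AddCommGroup G] [AddCommGroup H] (f : G →+ H)
    (K : Set H) (hK : Finite K) (hfK : ∀ g, f g ∈ K)
    {m : ℕ} (hfin : Finite f.ker) (hm : Nat.card f.ker ≤ m) :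
    Finite G ∧ Nat.card G ≤ m * Nat.card K := by
  have h1 := AddSubgroup.card_eq_card_quotient_mul_card_addSubgroup f.ker
  have h2 : Nat.card (G ⧸ f.ker) = Nat.card f.range :=
    Nat.card_congr (QuotientAddGroup.quotientKerEquivRange f).toEquiv
  have hmem : ∀ y : f.range, y.1 ∈ K := by
    rintro ⟨y, g, rfl⟩
    exact hfK g
  have hinj : Function.Injective (fun y : f.range => (⟨y.1, hmem y⟩ : K)) := by
    intro y y' h
    exact Subtype.ext (congrArg (fun z : K => z.1) h)
  have h3 : Nat.card f.range ≤ Nat.card K := Nat.card_le_card_of_injective _ hinj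
  have hfr : Finite f.range := Finite.of_injective _ hinj
  rw [h2] at h1
  constructor
  · apply Nat.finite_of_card_ne_zero
    rw [h1]
    exact mul_ne_zero Nat.card_pos.ne' Nat.card_pos.ne'
  · rw [h1, mul_comm]
    exact Nat.mul_le_mul hm h3

theorem tra_card_XW (p w : ℕ) [Fact p.Prime] : Nat.card (XW p w) = p ^ w := by
  rw [Nat.card_eq_fintype_card, Fintype.card_fun, ZMod.card, Fintype.card_fin]

/-! ### finiteness of `V p (FG d)` -/

theorem tra_finite_V (p d : ℕ) [Fact p.Prime] : Finite (V p (FG d)) := by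
  obtain ⟨b, -⟩ := basis_V_FG p d
  have := Module.Finite.of_basis b
  exact Module.finite_of_finite (ZMod p)

theorem tra_card_lin (p d w : ℕ) [Fact p.Prime] :
    Finite (V p (FG d) →ₗ[ZMod p] XW p w) ∧
      Nat.card (V p (FG d) →ₗ[ZMod p] XW p w) = (p ^ w) ^ d := by
  obtain ⟨b, -⟩ := basis_V_FG p d
  have e : (V p (FG d) →ₗ[ZMod p] XW p w) ≃ (Fin d → XW p w) := (b.constr ℕ).toEquiv.symm
  refine ⟨Finite.of_equiv _ e.symm, ?_⟩
  rw [Nat.card_congr e, Nat.card_pi, Finset.prod_const, tra_card_XW, Finset.card_univ,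
    Fintype.card_fin]

/-! ### restriction of invariant homomorphisms -/

section restriction

variable {G : Type} [Group G] {N M : Subgroup G} (hNM : N ≤ M) (X : Type) [AddCommGroup X]

/-- restriction of invariant homomorphisms -/
def traRes : IHom M X →+ IHom N X where
  toFun l := ⟨fun u => l.1 ⟨u, hNM u.2⟩, fun a b => l.2.1 ⟨a, hNM a.2⟩ ⟨b, hNM b.2⟩,
    fun g a b h => l.2.2 g ⟨a, hNM a.2⟩ ⟨b, hNM b.2⟩ h⟩
  map_zero' := rfl
  map_add' _ _ := rfl

theorem traRes_apply (l : IHom M X) (u : G) (hu : u ∈ N) :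
    (traRes hNM X l).1 ⟨u, hu⟩ = l.1 ⟨u, hNM hu⟩ := rfl

theorem tra_mem_ker (l : IHom M X) :
    l ∈ (traRes hNM X).ker ↔ ∀ (u : G) (hu : u ∈ N), l.1 ⟨u, hNM hu⟩ = 0 := by
  rw [AddMonoidHom.mem_ker]
  constructor
  · intro h u hu
    have := congrArg (fun m => m.1 ⟨u, hu⟩) h
    exact this
  · intro h
    apply Subtype.ext
    funext u
    exact h u.1 u.2

end restriction

/-- at most `|X| ^ k` homomorphisms vanish on a subgroup of index `p ^ k` -/
theorem tra_card_ker {N : Subgroup (FG d)} (hN : N ∈ PSub p d k) :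
    Finite (traRes hN.2.1 (XW p w)).ker ∧
      Nat.card (traRes hN.2.1 (XW p w)).ker ≤ (p ^ w) ^ k := by
  have hp : p.Prime := Fact.out
  obtain ⟨hn, hle, hidx⟩ := hN
  have hn' : (N.subgroupOf (Phi p (FG d))).Normal := inferInstance
  let Q := Phi p (FG d) ⧸ N.subgroupOf (Phi p (FG d))
  have hcard : Nat.card Q = p ^ k := hidx
  have hfin : Finite Q := Nat.finite_of_card_ne_zero (by rw [hcard]; exact pow_ne_zero _ hp.ne_zero)
  have hQ : IsPGroup p Q := IsPGroup.of_card hcard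
  have hdd : dd p Q ≤ k := by
    have h1 : Nat.card (V p Q) ≤ Nat.card Q := Nat.card_le_card_of_surjective _ (mkV_surjective p)
    rw [card_V, hcard] at h1
    exact (Nat.pow_le_pow_iff_right hp.one_lt).1 h1
  obtain ⟨x, hx⟩ := Mark.exists_gen hQ
  have hy : ∀ i, ∃ y : Phi p (FG d), (y : Q) = x i := fun i => QuotientGroup.mk_surjective (x i)
  choose y hy using hy
  have hinj : Function.Injective (fun (l : (traRes hle (XW p w)).ker) (i : Fin (dd p Q)) =>
      l.1.1 (y i)) := by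
    intro l l' hl
    apply Subtype.ext
    apply Subtype.ext
    funext u
    let H : Subgroup (Phi p (FG d)) :=
      { carrier := {u | l.1.1 u = l'.1.1 u}
        mul_mem' := by
          intro a b ha hb
          change l.1.1 (a * b) = l'.1.1 (a * b)
          rw [l.1.2.1, l'.1.2.1]
          rw [Set.mem_ofPred_eq] at ha hb
          rw [ha, hb]
        one_mem' := by
          change l.1.1 1 = l'.1.1 1
          rw [IHom_one l.1.2, IHom_one l'.1.2]
        inv_mem' := by
          intro a ha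
          have h1 := l.1.2.1 a a⁻¹
          have h2 := l'.1.2.1 a a⁻¹
          rw [mul_inv_cancel, IHom_one l.1.2] at h1
          rw [mul_inv_cancel, IHom_one l'.1.2] at h2
          rw [Set.mem_ofPred_eq] at ha
          change l.1.1 a⁻¹ = l'.1.1 a⁻¹
          rw [ha] at h1
          exact add_left_cancel (h1.symm.trans h2) }
    have hNH : N.subgroupOf (Phi p (FG d)) ≤ H := by
      intro u hu
      rw [mem_subgroupOf] at hu
      change l.1.1 u = l'.1.1 u
      have h1 := (tra_mem_ker hle (XW p w) l.1).1 l.2 u.1 hu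
      have h2 := (tra_mem_ker hle (XW p w) l'.1).1 l'.2 u.1 hu
      exact h1.trans h2.symm
    have htop : H.map (QuotientGroup.mk' (N.subgroupOf (Phi p (FG d)))) = ⊤ := by
      rw [eq_top_iff, ← hx, closure_le]
      rintro _ ⟨i, rfl⟩
      refine ⟨y i, ?_, hy i⟩
      exact congrFun hl i
    have hu : (u : Q) ∈ H.map (QuotientGroup.mk' (N.subgroupOf (Phi p (FG d)))) := by
      rw [htop]; exact mem_top _
    obtain ⟨h, hh, hhu⟩ := hu
    have h3 : h⁻¹ * u ∈ N.subgroupOf (Phi p (FG d)) := QuotientGroup.eq.1 hhu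
    have h4 : u ∈ H := by
      have := mul_mem hh (hNH h3)
      rwa [mul_inv_cancel_left] at this
    exact h4
  refine ⟨Finite.of_injective _ hinj, (Nat.card_le_card_of_injective _ hinj).trans ?_⟩
  rw [Nat.card_pi, Finset.prod_const, tra_card_XW, Finset.card_univ, Fintype.card_fin]
  exact Nat.pow_le_pow_right (pow_pos hp.pos _) hdd

/-! ### the form of an invariant homomorphism on `Phi` -/

theorem tra_form_unique {X : Type} [AddCommGroup X] [Module (ZMod p) X]
    {ψ ψ' : V p (FG d) →ₗ[ZMod p] V p (FG d) →ₗ[ZMod p] X}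
    (h : ∀ f g, ψ (mkV p f) (mkV p g) = ψ' (mkV p f) (mkV p g)) : ψ = ψ' := by
  refine LinearMap.ext fun x => LinearMap.ext fun y => ?_
  obtain ⟨f, rfl⟩ := mkV_surjective p x
  obtain ⟨g, rfl⟩ := mkV_surjective p y
  exact h f g

/-- the alternating form of an invariant homomorphism, as an additive map -/
def traForm (X : Type) [AddCommGroup X] [Module (ZMod p) X] :
    IHom (Phi p (FG d)) X →+ (V p (FG d) →ₗ[ZMod p] V p (FG d) →ₗ[ZMod p] X) where
  toFun l := (exists_form_of_IHom l).choose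
  map_zero' := by
    apply tra_form_unique
    intro f g
    rw [← (exists_form_of_IHom (0 : IHom (Phi p (FG d)) X)).choose_spec.2 f g]
    rfl
  map_add' l l' := by
    apply tra_form_unique
    intro f g
    rw [← (exists_form_of_IHom (l + l')).choose_spec.2 f g, LinearMap.add_apply,
      LinearMap.add_apply, ← (exists_form_of_IHom l).choose_spec.2 f g,
      ← (exists_form_of_IHom l').choose_spec.2 f g]
    rfl

theorem traForm_alt {X : Type} [AddCommGroup X] [Module (ZMod p) X]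
    (l : IHom (Phi p (FG d)) X) (x : V p (FG d)) : traForm X l x x = 0 :=
  (exists_form_of_IHom l).choose_spec.1 x

theorem traForm_comm {X : Type} [AddCommGroup X] [Module (ZMod p) X]
    (l : IHom (Phi p (FG d)) X) (f g : FG d) :
    traForm X l (mkV p f) (mkV p g) = l.1 ⟨⁅f, g⁆, comm_mem_Phi p f g⟩ :=
  ((exists_form_of_IHom l).choose_spec.2 f g).symm

/-! ### the defect -/

/-- the endomorphism of `Phi` induced by an endomorphism -/
def traPhi (p : ℕ) [Fact p.Prime] (φ : FG d →* FG d) : Phi p (FG d) →* Phi p (FG d) where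
  toFun u := ⟨φ u.1, Phi_map_le p φ u.2⟩
  map_one' := Subtype.ext (map_one φ)
  map_mul' a b := Subtype.ext (map_mul φ a.1 b.1)

theorem traPhi_mk (φ : FG d →* FG d) (u : FG d) (hu : u ∈ Phi p (FG d)) :
    traPhi p φ ⟨u, hu⟩ = ⟨φ u, Phi_map_le p φ hu⟩ := rfl

theorem traPhi_coe (φ : FG d →* FG d) (u : Phi p (FG d)) :
    (traPhi p φ u : FG d) = φ u.1 := rfl

/-- `B l - l φ` -/
def traDef (φ : FG d →* FG d) (B : XW p w →ₗ[ZMod p] XW p w) :
    IHom (Phi p (FG d)) (XW p w) →+ IHom (Phi p (FG d)) (XW p w) where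
  toFun l := ⟨fun u => B (l.1 u) - l.1 (traPhi p φ u), by
    constructor
    · intro a b
      beta_reduce
      rw [map_mul, l.2.1, l.2.1, map_add]
      abel
    · intro g a b h
      beta_reduce
      have h1 : l.1 (traPhi p φ b) = l.1 (traPhi p φ a) := by
        apply l.2.2 (φ g)
        rw [traPhi_coe, traPhi_coe, h, map_mul, map_mul, map_inv]
      rw [h1, l.2.2 g a b h]⟩
  map_zero' := by
    apply Subtype.ext
    funext u
    simp
  map_add' l l' := by
    apply Subtype.ext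
    funext u
    simp only [AddSubgroup.coe_add, Pi.add_apply, map_add]
    abel

theorem traDef_apply (φ : FG d →* FG d) (B : XW p w →ₗ[ZMod p] XW p w)
    (l : IHom (Phi p (FG d)) (XW p w)) (u : Phi p (FG d)) :
    (traDef φ B l).1 u = B (l.1 u) - l.1 (traPhi p φ u) := rfl

/-- if the defects vanish, the form is equivariant -/
theorem tra_mem_Fix (φ : Fin c → FG d →* FG d) (B : Fin c → XW p w →ₗ[ZMod p] XW p w)
    (l : IHom (Phi p (FG d)) (XW p w)) (h : ∀ j, traDef (φ j) (B j) l = 0) :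
    traForm (XW p w) l ∈ Fix (fun j => vmap p (φ j)) B := by
  refine ⟨traForm_alt l, fun j x y => ?_⟩
  obtain ⟨f, rfl⟩ := mkV_surjective p x
  obtain ⟨g, rfl⟩ := mkV_surjective p y
  rw [vmap_mkV, vmap_mkV, traForm_comm, traForm_comm]
  have h1 : B j (l.1 ⟨⁅f, g⁆, comm_mem_Phi p f g⟩) -
      l.1 (traPhi p (φ j) ⟨⁅f, g⁆, comm_mem_Phi p f g⟩) = 0 := by
    rw [← traDef_apply, h j]
    rfl
  have h2 : traPhi p (φ j) ⟨⁅f, g⁆, comm_mem_Phi p f g⟩ =
      ⟨⁅φ j f, φ j g⁆, comm_mem_Phi p _ _⟩ := Subtype.ext (map_commutatorElement _ _ _)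
  rw [h2] at h1
  exact sub_eq_zero.1 h1

/-- `EqHom` as an additive subgroup -/
def traEq (N : Subgroup (FG d)) (φ : Fin c → FG d →* FG d)
    (B : Fin c → XW p w →ₗ[ZMod p] XW p w) : AddSubgroup (IHom N (XW p w)) where
  carrier := {l | ∀ (j : Fin c) (u u' : N), (u' : FG d) = φ j u → l.1 u' = B j (l.1 u)}
  add_mem' := by
    intro a b ha hb j u u' h
    change a.1 u' + b.1 u' = B j (a.1 u + b.1 u)
    rw [ha j u u' h, hb j u u' h, map_add]
  zero_mem' := by
    intro j u u' _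
    change (0 : XW p w) = B j 0
    rw [map_zero]
  neg_mem' := by
    intro a ha j u u' h
    change -a.1 u' = B j (-a.1 u)
    rw [ha j u u' h, map_neg]

theorem tra_card_Eq (N : Subgroup (FG d)) (φ : Fin c → FG d →* FG d)
    (B : Fin c → XW p w →ₗ[ZMod p] XW p w) (h : Finite (traEq N φ B)) :
    (EqHom N φ B).Finite ∧ (EqHom N φ B).ncard = Nat.card (traEq N φ B) := by
  let e : traEq N φ B ≃ EqHom N φ B :=
    { toFun := fun l => ⟨l.1.1, l.1.2, l.2⟩
      invFun := fun l => ⟨⟨l.1, l.2.1⟩, l.2.2⟩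
      left_inv := fun _ => rfl
      right_inv := fun _ => rfl }
  have hf : Finite (EqHom N φ B) := Finite.of_equiv _ e
  refine ⟨Set.toFinite _, ?_⟩
  rw [← Nat.card_coe_set_eq]
  exact (Nat.card_congr e).symm

/-- the cokernel of the restriction -/
theorem tra_quot {N : Subgroup (FG d)} (hN : N ∈ PSub p d k) (w : ℕ) :
    Finite (IHom N (XW p w)) ∧
    Nat.card (IHom N (XW p w) ⧸ (traRes hN.2.1 (XW p w)).range) ≤ (p ^ w) ^ (d * k + k) := by
  have hp : p.Prime := Fact.out
  have hn : N.Normal := hN.1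
  have hXpos : 0 < p ^ w := pow_pos hp.pos _
  have hTc := (tra_card_ker (w := w) hN).2
  obtain ⟨r', hr', hrel⟩ := exists_relIndex (p := p) (NGen_PSub hN)
  have hcN : Nat.card (IHom N (XW p w)) = (p ^ w) ^ r' := by
    rw [card_IHom hrel (XW p w), tra_card_XW]
  have hcP : Nat.card (IHom (Phi p (FG d)) (XW p w)) = (p ^ w) ^ (d * (d + 1) / 2) := by
    rw [card_IHom (relIndex_EE_Phi p d) (XW p w), tra_card_XW]
  refine ⟨Nat.finite_of_card_ne_zero (by rw [hcN]; exact (pow_pos hXpos _).ne'), ?_⟩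
  have h1 := AddSubgroup.card_eq_card_quotient_mul_card_addSubgroup
    (traRes hN.2.1 (XW p w)).range
  have h2 := AddSubgroup.card_eq_card_quotient_mul_card_addSubgroup
    (traRes hN.2.1 (XW p w)).ker
  have h3 : Nat.card (IHom (Phi p (FG d)) (XW p w) ⧸ (traRes hN.2.1 (XW p w)).ker) =
      Nat.card (traRes hN.2.1 (XW p w)).range :=
    Nat.card_congr (QuotientAddGroup.quotientKerEquivRange _).toEquiv
  rw [h3, hcP] at h2
  rw [hcN] at h1
  generalize Nat.card (IHom N (XW p w) ⧸ (traRes hN.2.1 (XW p w)).range) = q at h1 ⊢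
  generalize Nat.card (traRes hN.2.1 (XW p w)).range = a at h1 h2
  generalize Nat.card (traRes hN.2.1 (XW p w)).ker = b at h2 hTc
  have h4 : (p ^ w) ^ r' ≤ (p ^ w) ^ (d * (d + 1) / 2 + d * k) :=
    Nat.pow_le_pow_right hXpos hr'
  have h5 : q * (p ^ w) ^ (d * (d + 1) / 2) ≤
      (p ^ w) ^ (d * k + k) * (p ^ w) ^ (d * (d + 1) / 2) := by
    calc q * (p ^ w) ^ (d * (d + 1) / 2)
        = (p ^ w) ^ r' * b := by rw [h2, h1]; ring
      _ ≤ (p ^ w) ^ (d * (d + 1) / 2 + d * k) * (p ^ w) ^ k := Nat.mul_le_mul h4 hTc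
      _ = _ := by rw [← pow_add, ← pow_add]; congr 1; ring
  exact Nat.le_of_mul_le_mul_right h5 (pow_pos hXpos _)

/-- the invariant homomorphisms on `Phi` whose defects vanish -/
def traZ (φ : Fin c → FG d →* FG d) (B : Fin c → XW p w →ₗ[ZMod p] XW p w) :
    AddSubgroup (IHom (Phi p (FG d)) (XW p w)) where
  carrier := {l | ∀ j, traDef (φ j) (B j) l = 0}
  add_mem' := by
    intro a b ha hb j
    rw [map_add, ha j, hb j, add_zero]
  zero_mem' := fun j => map_zero _
  neg_mem' := by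
    intro a ha j
    rw [map_neg, ha j, neg_zero]

theorem tra_finite_Fix (A : Fin c → V p (FG d) →ₗ[ZMod p] V p (FG d))
    (B : Fin c → XW p w →ₗ[ZMod p] XW p w) : Finite (Fix A B) := by
  have hfV := tra_finite_V p d
  have h2 : Function.Injective
      (fun (ψ : Fix A B) (x y : V p (FG d)) => ψ.1 x y) := by
    intro ψ ψ' h
    refine Subtype.ext (LinearMap.ext fun x => LinearMap.ext fun y => ?_)
    exact congrFun (congrFun h x) y
  exact Finite.of_injective _ h2

/-- on `traZ` the commutator map -/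
def traF3 (φ : Fin c → FG d →* FG d) (B : Fin c → XW p w →ₗ[ZMod p] XW p w) :
    traZ φ B →+ (FG d → FG d → XW p w) where
  toFun s f g := s.1.1 ⟨⁅f, g⁆, comm_mem_Phi p f g⟩
  map_zero' := rfl
  map_add' _ _ := rfl

theorem traF3_apply (φ : Fin c → FG d →* FG d) (B : Fin c → XW p w →ₗ[ZMod p] XW p w)
    (s : traZ φ B) (f g : FG d) : traF3 φ B s f g = s.1.1 ⟨⁅f, g⁆, comm_mem_Phi p f g⟩ := rfl

theorem tra_card_F3_ker (φ : Fin c → FG d →* FG d) (B : Fin c → XW p w →ₗ[ZMod p] XW p w) :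
    Finite (traF3 φ B).ker ∧ Nat.card (traF3 φ B).ker ≤ (p ^ w) ^ d := by
  obtain ⟨hlf, hlc⟩ := tra_card_lin p d w
  have hf3 : ∀ s : (traF3 φ B).ker, ∃ τ : V p (FG d) →ₗ[ZMod p] XW p w,
      ∀ u, s.1.1.1 u = τ ((piH p d).1 u) := by
    intro s
    apply IHom_of_form_zero
    intro f g
    have h1 : traF3 φ B s.1 = 0 := AddMonoidHom.mem_ker.1 s.2
    rw [← traF3_apply φ B s.1, h1]
    rfl
  choose τ hτ using hf3
  have hτinj : Function.Injective τ := by
    intro s s' h
    apply Subtype.ext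
    apply Subtype.ext
    apply Subtype.ext
    funext u
    rw [hτ s u, hτ s' u, h]
  refine ⟨Finite.of_injective _ hτinj, ?_⟩
  rw [← hlc]
  exact Nat.card_le_card_of_injective _ hτinj

/-- values of equivariant forms -/
def traK (φ : Fin c → FG d →* FG d) (B : Fin c → XW p w →ₗ[ZMod p] XW p w)
    (ψ : Fix (fun j => vmap p (φ j)) B) (f g : FG d) : XW p w := ψ.1 (mkV p f) (mkV p g)

theorem traF3_mem (φ : Fin c → FG d →* FG d) (B : Fin c → XW p w →ₗ[ZMod p] XW p w)
    (s : traZ φ B) : traF3 φ B s ∈ Set.range (traK φ B) := by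
  refine ⟨⟨traForm (XW p w) s.1, tra_mem_Fix φ B s.1 s.2⟩, ?_⟩
  funext f g
  exact traForm_comm s.1 f g

theorem tra_card_K (φ : Fin c → FG d →* FG d) (B : Fin c → XW p w →ₗ[ZMod p] XW p w) :
    Finite (Set.range (traK φ B)) ∧
      Nat.card (Set.range (traK φ B)) ≤ Nat.card (Fix (fun j => vmap p (φ j)) B) := by
  have hfinFix := tra_finite_Fix (fun j => vmap p (φ j)) B
  exact ⟨Set.finite_range _, Finite.card_range_le _⟩

theorem tra_card_Z (φ : Fin c → FG d →* FG d) (B : Fin c → XW p w →ₗ[ZMod p] XW p w) :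
    Finite (traZ φ B) ∧
      Nat.card (traZ φ B) ≤ (p ^ w) ^ d * Nat.card (Fix (fun j => vmap p (φ j)) B) := by
  obtain ⟨h1, h2⟩ := tra_card_F3_ker φ B
  obtain ⟨h3, h4⟩ := tra_card_K φ B
  obtain ⟨h5, h6⟩ := tra_card_hom_set (traF3 φ B) _ h3 (traF3_mem φ B) h1 h2
  exact ⟨h5, h6.trans (Nat.mul_le_mul le_rfl h4)⟩

theorem tra_card_S {N : Subgroup (FG d)} (hN : N ∈ PSub p d k) (φ : Fin c → FG d →* FG d)
    (hφ : ∀ j, N ≤ N.comap (φ j)) (B : Fin c → XW p w →ₗ[ZMod p] XW p w) :
    Finite ((traEq N φ B).comap (traRes hN.2.1 (XW p w))) ∧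
      Nat.card ((traEq N φ B).comap (traRes hN.2.1 (XW p w))) ≤
        (p ^ w) ^ d * Nat.card (Fix (fun j => vmap p (φ j)) B) * ((p ^ w) ^ k) ^ c := by
  obtain ⟨hTf, hTc⟩ := tra_card_ker (w := w) hN
  have hSker : ∀ (s : (traEq N φ B).comap (traRes hN.2.1 (XW p w))) (j : Fin c),
      traDef (φ j) (B j) s.1 ∈ (traRes hN.2.1 (XW p w)).ker := by
    intro s j
    rw [tra_mem_ker]
    intro u hu
    rw [traDef_apply, traPhi_mk]
    have h1 := s.2 j ⟨u, hu⟩ ⟨φ j u, hφ j hu⟩ rfl
    rw [traRes_apply, traRes_apply] at h1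
    rw [h1, sub_self]
  let f2 : (traEq N φ B).comap (traRes hN.2.1 (XW p w)) →+
      (Fin c → (traRes hN.2.1 (XW p w)).ker) :=
    { toFun := fun s j => ⟨traDef (φ j) (B j) s.1, hSker s j⟩
      map_zero' := funext fun j => Subtype.ext (map_zero (traDef (φ j) (B j)))
      map_add' := fun a b => funext fun j => Subtype.ext (map_add (traDef (φ j) (B j)) a.1 b.1) }
  obtain ⟨hZf, hZ⟩ := tra_card_Z φ B
  have hinj : Function.Injective (fun s : f2.ker => (⟨s.1.1, fun j =>
      congrArg (fun m => (m j).1) (AddMonoidHom.mem_ker.1 s.2)⟩ : traZ φ B)) := by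
    intro s s' h
    have h1 : s.1.1 = s'.1.1 := congrArg (fun z : traZ φ B => z.1) h
    exact Subtype.ext (Subtype.ext h1)
  have hk2f : Finite f2.ker := Finite.of_injective _ hinj
  have hk2 : Nat.card f2.ker ≤ _ := (Nat.card_le_card_of_injective _ hinj).trans hZ
  obtain ⟨h1, h2⟩ := tra_card_hom f2 hk2f hk2
  refine ⟨h1, h2.trans ?_⟩
  have hTc' : Nat.card (Fin c → (traRes hN.2.1 (XW p w)).ker) ≤ ((p ^ w) ^ k) ^ c := by
    rw [Nat.card_pi, Finset.prod_const, Finset.card_univ, Fintype.card_fin]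
    exact Nat.pow_le_pow_left hTc c
  exact Nat.mul_le_mul le_rfl hTc'

/-- **Transfer lemma** (TR) -/
theorem card_EqHom_le {N : Subgroup (FG d)} (hN : N ∈ PSub p d k) (φ : Fin c → FG d →* FG d)
    (hφ : ∀ j, N ≤ N.comap (φ j)) (B : Fin c → XW p w →ₗ[ZMod p] XW p w) :
    (EqHom N φ B).Finite ∧ (EqHom N φ B).ncard ≤
      p ^ (w * (d * k + 2 * k + c * k + d)) * Nat.card (Fix (fun j => vmap p (φ j)) B) := by
  have hp : p.Prime := Fact.out
  obtain ⟨hfN, hquot⟩ := tra_quot hN w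
  obtain ⟨hSf, hS⟩ := tra_card_S hN φ hφ B
  -- the restriction of `S` covers the intersection with the range
  let f1 : traEq N φ B →+ IHom N (XW p w) ⧸ (traRes hN.2.1 (XW p w)).range :=
    (QuotientAddGroup.mk' (traRes hN.2.1 (XW p w)).range).comp (traEq N φ B).subtype
  have hf1 : ∀ l : f1.ker, ∃ s : (traEq N φ B).comap (traRes hN.2.1 (XW p w)),
      traRes hN.2.1 (XW p w) s.1 = l.1.1 := by
    intro l
    have h1 : f1 l.1 = 0 := AddMonoidHom.mem_ker.1 l.2
    have h2 : l.1.1 ∈ (traRes hN.2.1 (XW p w)).range := (QuotientAddGroup.eq_zero_iff _).1 h1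
    obtain ⟨s, hs⟩ := h2
    refine ⟨⟨s, ?_⟩, hs⟩
    rw [AddSubgroup.mem_comap, hs]
    exact l.1.2
  choose σ hσ using hf1
  have hσinj : Function.Injective σ := by
    intro l l' h
    apply Subtype.ext
    apply Subtype.ext
    rw [← hσ l, ← hσ l', h]
  have hk1f : Finite f1.ker := Finite.of_injective _ hσinj
  have hk1 : Nat.card f1.ker ≤ _ := (Nat.card_le_card_of_injective _ hσinj).trans hS
  have hfq : Finite (IHom N (XW p w) ⧸ (traRes hN.2.1 (XW p w)).range) := inferInstance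
  obtain ⟨hEf, hE⟩ := tra_card_hom f1 hk1f hk1
  obtain ⟨hfin, hcard⟩ := tra_card_Eq N φ B hEf
  refine ⟨hfin, ?_⟩
  rw [hcard]
  refine hE.trans ?_
  generalize Nat.card (Fix (fun j => vmap p (φ j)) B) = F
  refine (Nat.mul_le_mul le_rfl hquot).trans ?_
  have e : (p ^ w) ^ d * F * ((p ^ w) ^ k) ^ c * (p ^ w) ^ (d * k + k) =
      p ^ (w * (d + k * c + (d * k + k))) * F := by
    have e1 : ((p ^ w) ^ k) ^ c = (p ^ w) ^ (k * c) := (pow_mul _ _ _).symm
    rw [e1, pow_mul p w, pow_add (p ^ w) (d + k * c), pow_add (p ^ w) d]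
    ring
  rw [e]
  refine Nat.mul_le_mul (Nat.pow_le_pow_right hp.pos (Nat.mul_le_mul le_rfl ?_)) le_rfl
  have : k * c = c * k := mul_comm _ _
  omega

end Pool.Agent.IG
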