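import Pool.Agent.IG.StepFA
import Pool.Agent.IG.TransferA

/-!
# Step F: counting groups with large centralizers
-/

open Subgroup Module Filter
open scoped commutatorElement

noncomputable section

namespace Pool.Agent.IG

variable {p : ℕ} [Fact p.Prime]

/-- fibrewise counting -/
private theorem fb_card_le_mul {S A : Type} [Finite S] [Finite A] (f : S → A) (K : ℕ)
    (h : ∀ s₀ : S, Nat.card {s // f s = f s₀} ≤ K) : Nat.card S ≤ Nat.card A * K := by
  classical
  have := Fintype.ofFinite A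
  rw [Nat.card_congr (Equiv.sigmaFiberEquiv f).symm, Nat.card_sigma]
  have h2 : ∀ a, Nat.card {s : S // f s = a} ≤ K := by
    intro a
    by_cases hne : Nonempty {s : S // f s = a}
    · obtain ⟨s₀, rfl⟩ := hne
      exact h s₀
    · rw [not_nonempty_iff] at hne
      rw [Nat.card_of_isEmpty]
      exact Nat.zero_le _
  calc ∑ a, Nat.card {s : S // f s = a} ≤ ∑ _a : A, K := Finset.sum_le_sum fun a _ => h2 a
    _ = Nat.card A * K := by
        rw [Finset.sum_const, Finset.card_univ, ← Nat.card_eq_fintype_card, smul_eq_mul]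

private theorem fb_EE_mono {G : Type} [Group G] {N N' : Subgroup G} (h : N ≤ N') :
    EE p N ≤ EE p N' := by
  refine sup_le_sup (commutator_mono h le_rfl) (closure_mono ?_)
  rintro x ⟨a, ha, rfl⟩
  exact ⟨a, h ha, rfl⟩

private theorem fb_moduleFinite (p d : ℕ) [Fact p.Prime] : Module.Finite (ZMod p) (V p (FG d)) := by
  obtain ⟨b, -⟩ := basis_V_FG p d
  exact Module.Finite.of_basis b

private theorem fb_finite_V (p d : ℕ) [Fact p.Prime] : Finite (V p (FG d)) := by
  have := fb_moduleFinite p d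
  exact Module.finite_of_finite (ZMod p)

private theorem fb_card_XW (p w : ℕ) [Fact p.Prime] : Nat.card (XW p w) = p ^ w := by
  rw [Nat.card_fun, Nat.card_zmod, Nat.card_eq_fintype_card, Fintype.card_fin]

/-- large centralizers, in terms of the free group -/
private def QQ (s : ℕ) {d w : ℕ} {N : Subgroup (FG d)} (l : IHom N (XW p w)) : Prop :=
  ∀ i : Fin d, ∃ D : Subgroup (FG d), D.index ≤ p ^ s ∧ D.index ≠ 0 ∧
    ∀ c ∈ D, ⁅c, FreeGroup.of i⁆ ∈ kerS l

private theorem fb_finite_IHom {d k : ℕ} {N : Subgroup (FG d)} (hN : N ∈ PSub p d k) (w : ℕ) :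
    Finite (IHom N (XW p w)) := by
  have := hN.1
  obtain ⟨r', _, hr'⟩ := exists_relIndex (p := p) (NGen_PSub hN)
  have h1 := card_IHom hr' (XW p w)
  refine Nat.finite_of_card_ne_zero ?_
  rw [h1, fb_card_XW]
  exact pow_ne_zero _ (pow_ne_zero _ (Fact.out : p.Prime).ne_zero)

/-- the restriction to `N ∩ EE Phi` takes few values -/
private theorem fb_restr {d k : ℕ} {N : Subgroup (FG d)} (hN : N ∈ PSub p d k) (w : ℕ) :
    ∃ a ≤ d * k + k, ∃ y : Fin a → N, ∀ l l₂ : IHom N (XW p w),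
      (∀ i, l.1 (y i) = l₂.1 (y i)) → ∀ u : N, (u : FG d) ∈ EE p (Phi p (FG d)) →
        l.1 u = l₂.1 u := by
  have hp : p.Prime := Fact.out
  have := hN.1
  have hNP : N ≤ Phi p (FG d) := hN.2.1
  set M0 : Subgroup (FG d) := EE p (Phi p (FG d)) ⊓ N with hM0
  have hle : EE p N ≤ M0 := le_inf (fb_EE_mono hNP) (EE_le p N)
  obtain ⟨r', hr', hrel⟩ := exists_relIndex (p := p) (NGen_PSub hN)
  have h1 : (EE p N).relIndex M0 * M0.relIndex N = p ^ r' := by
    rw [relIndex_mul_relIndex _ _ _ hle inf_le_right, hrel]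
  obtain ⟨a, ha1, ha⟩ := (Nat.dvd_prime_pow hp).1 (Dvd.intro _ h1)
  obtain ⟨b, hb1, hb⟩ := (Nat.dvd_prime_pow hp).1 (Dvd.intro_left _ h1)
  have hab : a + b = r' := by
    rw [ha, hb, ← pow_add] at h1
    exact Nat.pow_right_injective hp.two_le h1
  have h2 : (M0.relIndex N) * N.relIndex (Phi p (FG d)) = M0.relIndex (Phi p (FG d)) :=
    relIndex_mul_relIndex _ _ _ inf_le_right hNP
  have h3 : (EE p (Phi p (FG d))).relIndex (Phi p (FG d)) ∣ M0.relIndex (Phi p (FG d)) :=
    relIndex_dvd_of_le_left _ inf_le_left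
  rw [relIndex_EE_Phi, ← h2, hb, hN.2.2, ← pow_add] at h3
  have h4 : d * (d + 1) / 2 ≤ b + k := (Nat.pow_dvd_pow_iff_le_right hp.one_lt).1 h3
  have hak : a ≤ d * k + k := by omega
  refine ⟨a, hak, ?_⟩
  have hcard : Nat.card (M0 ⧸ (EE p N).subgroupOf M0) = p ^ a := ha
  obtain ⟨x, hx⟩ := exists_gen (M0 ⧸ (EE p N).subgroupOf M0) hcard
  have hlift : ∀ i, ∃ z : M0, (z : M0 ⧸ (EE p N).subgroupOf M0) = x i := fun i =>
    QuotientGroup.mk_surjective (x i)
  choose z hz using hlift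
  refine ⟨fun i => ⟨(z i : FG d), (z i).2.2⟩, ?_⟩
  intro l l₂ hl u hu
  -- the subgroup where they agree
  have hE1 : EE p N ≤ kerS (l - l₂) := by
    intro g hg
    exact ⟨EE_le p N hg, IHom_EE (l - l₂).2 ⟨g, EE_le p N hg⟩ hg⟩
  have hE2 : ∀ i, (z i : FG d) ∈ kerS (l - l₂) := by
    intro i
    refine ⟨(z i).2.2, ?_⟩
    change l.1 _ - l₂.1 _ = 0
    rw [hl i, sub_self]
  have hmap : ((kerS (l - l₂)).subgroupOf M0).map (QuotientGroup.mk' ((EE p N).subgroupOf M0))
      = ⊤ := by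
    rw [eq_top_iff, ← hx, closure_le]
    rintro _ ⟨i, rfl⟩
    exact ⟨z i, hE2 i, hz i⟩
  have htop : (kerS (l - l₂)).subgroupOf M0 = ⊤ := by
    have h5 := congrArg (Subgroup.comap (QuotientGroup.mk' ((EE p N).subgroupOf M0))) hmap
    rw [comap_map_eq_self, Subgroup.comap_top] at h5
    · exact h5
    · rw [QuotientGroup.ker_mk']
      exact fun g hg => hE1 hg
  have h6 : (⟨(u : FG d), ⟨hu, u.2⟩⟩ : M0) ∈ (kerS (l - l₂)).subgroupOf M0 := by
    rw [htop]; exact mem_top _
  obtain ⟨h7, h8⟩ := h6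
  change l.1 _ - l₂.1 _ = 0 at h8
  exact sub_eq_zero.1 h8

/-- the form of the difference -/
private theorem fb_form {d k w : ℕ} {N : Subgroup (FG d)} (hN : N ∈ PSub p d k)
    (l l₂ : IHom N (XW p w))
    (h : ∀ u : N, (u : FG d) ∈ EE p (Phi p (FG d)) → l.1 u = l₂.1 u) :
    ∃ (l' : IHom (Phi p (FG d)) (XW p w)) (ψ : V p (FG d) →ₗ[ZMod p] V p (FG d) →ₗ[ZMod p] XW p w),
      (∀ a : N, l'.1 ⟨a, hN.2.1 a.2⟩ = l.1 a - l₂.1 a) ∧
      ∀ f g, l'.1 ⟨⁅f, g⁆, comm_mem_Phi p f g⟩ = ψ (mkV p f) (mkV p g) := by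
  have := hN.1
  obtain ⟨l', hl', h'⟩ := IHom_extend (p := p) hN.2.1 (fun a : N => l.1 a - l₂.1 a) (by
    intro a b
    rw [l.2.1, l₂.2.1]
    abel) (by
    intro a ha
    rw [h a ha, sub_self])
  obtain ⟨ψ, -, hψ⟩ := exists_form_of_IHom (⟨l', hl'⟩ : IHom (Phi p (FG d)) (XW p w))
  exact ⟨⟨l', hl'⟩, ψ, h', hψ⟩

/-- the form has small rank on generators -/
private theorem fb_rank {d k w s : ℕ} {N : Subgroup (FG d)} (hN : N ∈ PSub p d k)
    (l l₂ : IHom N (XW p w)) (hl : QQ s l) (hl₂ : QQ s l₂)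
    (l' : IHom (Phi p (FG d)) (XW p w)) (ψ : V p (FG d) →ₗ[ZMod p] V p (FG d) →ₗ[ZMod p] XW p w)
    (h1 : ∀ a : N, l'.1 ⟨a, hN.2.1 a.2⟩ = l.1 a - l₂.1 a)
    (h2 : ∀ f g, l'.1 ⟨⁅f, g⁆, comm_mem_Phi p f g⟩ = ψ (mkV p f) (mkV p g)) (i : Fin d) :
    rk (ψ.flip (mkV p (FreeGroup.of i))) ≤ 2 * s + k := by
  have hp : p.Prime := Fact.out
  obtain ⟨D₁, hD₁, hD₁', hc₁⟩ := hl i
  obtain ⟨D₂, hD₂, hD₂', hc₂⟩ := hl₂ i
  set h := ψ.flip (mkV p (FreeGroup.of i)) with hh
  have hD0 : (D₁ ⊓ D₂).index ≠ 0 := index_inf_ne_zero hD₁' hD₂'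
  have hDle : (D₁ ⊓ D₂).index ≤ p ^ (2 * s) := by
    refine index_inf_le.trans ?_
    rw [two_mul, pow_add]
    exact Nat.mul_le_mul hD₁ hD₂
  have hzero : ∀ c ∈ D₁ ⊓ D₂, h (mkV p c) = 0 := by
    intro c hc
    obtain ⟨hcN, hc0⟩ := hc₁ c hc.1
    obtain ⟨hcN', hc0'⟩ := hc₂ c hc.2
    rw [hh, LinearMap.flip_apply, ← h2]
    have h3 := h1 ⟨⁅c, FreeGroup.of i⁆, hcN⟩
    rw [hc0, hc0', sub_zero] at h3
    exact h3
  have hfi : (D₁ ⊓ D₂).FiniteIndex := ⟨hD0⟩
  have hfin : Finite (FG d ⧸ (D₁ ⊓ D₂)) := finite_quotient_of_finiteIndex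
  let F : FG d ⧸ (D₁ ⊓ D₂) → LinearMap.range h := fun q => ⟨h (mkV p q.out), ⟨_, rfl⟩⟩
  have hF : Function.Surjective F := by
    rintro ⟨_, v, rfl⟩
    obtain ⟨g, rfl⟩ := mkV_surjective p v
    refine ⟨(g : FG d ⧸ (D₁ ⊓ D₂)), ?_⟩
    apply Subtype.ext
    change h (mkV p ((g : FG d ⧸ (D₁ ⊓ D₂))).out) = h (mkV p g)
    have h4 : ((g : FG d ⧸ (D₁ ⊓ D₂)).out : FG d ⧸ (D₁ ⊓ D₂)) = (g : FG d ⧸ (D₁ ⊓ D₂)) :=
      Quotient.out_eq' _
    rw [QuotientGroup.eq] at h4
    have h5 := hzero _ h4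
    rw [mkV_mul, mkV_inv, map_add, map_neg] at h5
    exact (neg_add_eq_zero.1 h5)
  have hcard : Nat.card (LinearMap.range h) ≤ p ^ (2 * s) := by
    refine (Nat.card_le_card_of_surjective F hF).trans ?_
    exact hDle
  have := fb_moduleFinite p d
  rw [Module.natCard_eq_pow_finrank (K := ZMod p), Nat.card_zmod] at hcard
  have h6 : rk h ≤ 2 * s := (Nat.pow_le_pow_iff_right hp.one_lt).1 hcard
  omega

private theorem fb_fixedN {d k w s : ℕ} {N : Subgroup (FG d)} (hN : N ∈ PSub p d k) :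
    Nat.card {l : IHom N (XW p w) // QQ s l} ≤
      p ^ (w * (d * k + 2 * k + d) + d * ((2 * s + k) * (d + w))) := by
  have hp : p.Prime := Fact.out
  have hfin := fb_finite_IHom hN w
  have hfV := fb_finite_V p d
  have hmf := fb_moduleFinite p d
  have hfL : Finite (V p (FG d) →ₗ[ZMod p] XW p w) := Module.finite_of_finite (ZMod p)
  obtain ⟨a, ha, y, hy⟩ := fb_restr hN w
  -- level 1
  have hlev1 := fb_card_le_mul (S := {l : IHom N (XW p w) // QQ s l}) (A := Fin a → XW p w)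
    (fun l i => l.1.1 (y i)) (p ^ (d * ((2 * s + k) * (d + w)) + d * w)) (by
      intro l₂
      have hag : ∀ l : {l : {l : IHom N (XW p w) // QQ s l} //
          (fun i => l.1.1 (y i)) = fun i => l₂.1.1 (y i)},
          ∀ u : N, (u : FG d) ∈ EE p (Phi p (FG d)) → l.1.1.1 u = l₂.1.1 u := fun l =>
        hy l.1.1 l₂.1 (fun i => congrFun l.2 i)
      have hform := fun l : {l : {l : IHom N (XW p w) // QQ s l} //
          (fun i => l.1.1 (y i)) = fun i => l₂.1.1 (y i)} => fb_form hN l.1.1 l₂.1 (hag l)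
      choose l' ψ h1 h2 using hform
      have hrk := fun l (i : Fin d) => fb_rank hN l.1.1 l₂.1 l.1.2 l₂.2 (l' l) (ψ l) (h1 l) (h2 l) i
      -- level 2
      have hlev2 := fb_card_le_mul
        (S := {l : {l : IHom N (XW p w) // QQ s l} //
          (fun i => l.1.1 (y i)) = fun i => l₂.1.1 (y i)})
        (A := Fin d → {f : V p (FG d) →ₗ[ZMod p] XW p w // rk f ≤ 2 * s + k})
        (fun l i => ⟨(ψ l).flip (mkV p (FreeGroup.of i)), hrk l i⟩) (p ^ (d * w)) (by
          intro l₃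
          have hψ : ∀ l : {l : {l : {l : IHom N (XW p w) // QQ s l} //
              (fun i => l.1.1 (y i)) = fun i => l₂.1.1 (y i)} //
              (fun i => (⟨(ψ l).flip (mkV p (FreeGroup.of i)), hrk l i⟩ :
                {f : V p (FG d) →ₗ[ZMod p] XW p w // rk f ≤ 2 * s + k})) =
              fun i => ⟨(ψ l₃).flip (mkV p (FreeGroup.of i)), hrk l₃ i⟩}, ψ l.1 = ψ l₃ := by
            intro l
            obtain ⟨b, hb⟩ := basis_V_FG p d
            have h3 : (ψ l.1).flip = (ψ l₃).flip := by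
              refine b.ext fun i => ?_
              rw [hb]
              exact congrArg Subtype.val (congrFun l.2 i)
            rw [← LinearMap.flip_flip (ψ l.1), h3, LinearMap.flip_flip]
          have hτ : ∀ l : {l : {l : {l : IHom N (XW p w) // QQ s l} //
              (fun i => l.1.1 (y i)) = fun i => l₂.1.1 (y i)} //
              (fun i => (⟨(ψ l).flip (mkV p (FreeGroup.of i)), hrk l i⟩ :
                {f : V p (FG d) →ₗ[ZMod p] XW p w // rk f ≤ 2 * s + k})) =
              fun i => ⟨(ψ l₃).flip (mkV p (FreeGroup.of i)), hrk l₃ i⟩},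
              ∃ τ : V p (FG d) →ₗ[ZMod p] XW p w, ∀ u,
                (l' l.1 - l' l₃).1 u = τ ((piH p d).1 u) := by
            intro l
            refine IHom_of_form_zero _ ?_
            intro f g
            change (l' l.1).1 _ - (l' l₃).1 _ = 0
            rw [h2, h2, hψ l, sub_self]
          choose τ hτ using hτ
          have hinj : Function.Injective τ := by
            intro l m hlm
            apply Subtype.ext
            apply Subtype.ext
            apply Subtype.ext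
            apply Subtype.ext
            funext u
            have e1 := hτ l ⟨u, hN.2.1 u.2⟩
            have e2 := hτ m ⟨u, hN.2.1 u.2⟩
            change (l' l.1).1 _ - (l' l₃).1 _ = _ at e1
            change (l' m.1).1 _ - (l' l₃).1 _ = _ at e2
            rw [h1, h1] at e1 e2
            rw [hlm, ← e2] at e1
            have e3 := sub_left_injective e1
            exact sub_left_injective e3
          refine (Nat.card_le_card_of_injective τ hinj).trans (le_of_eq ?_)
          rw [Module.natCard_eq_pow_finrank (K := ZMod p), Nat.card_zmod,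
            Module.finrank_linearMap, finrank_V_FG, Module.finrank_fin_fun])
      refine hlev2.trans ?_
      rw [pow_add]
      refine Nat.mul_le_mul_right _ ?_
      rw [Nat.card_fun, Nat.card_eq_fintype_card (α := Fin d), Fintype.card_fin]
      have h3 := card_rank_le (p := p) (V := V p (FG d)) (X := XW p w) (2 * s + k)
      rw [finrank_V_FG, Module.finrank_fin_fun] at h3
      calc _ ≤ (p ^ ((2 * s + k) * (d + w))) ^ d := Nat.pow_le_pow_left h3 d
        _ = p ^ (d * ((2 * s + k) * (d + w))) := by rw [← pow_mul, mul_comm])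
  refine hlev1.trans ?_
  rw [Nat.card_fun, Nat.card_eq_fintype_card (α := Fin a), Fintype.card_fin, fb_card_XW, ← pow_mul,
    ← pow_add]
  refine Nat.pow_le_pow_right hp.pos ?_
  have h7 : w * a ≤ w * (d * k + k) := Nat.mul_le_mul_left _ ha
  have h8 : w * (d * k + 2 * k + d) = w * (d * k + k) + w * k + d * w := by ring
  omega

/-- marked groups with large centralizers -/
private def MQ (p : ℕ) [Fact p.Prime] (d k w s : ℕ) : Type :=
  {m : Mark p d k w // QQ s m.l}

private def MQ.toSig {d k w s : ℕ} (m : MQ p d k w s) :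
    Σ N : PSub p d k, {l : IHom N.1 (XW p w) // QQ s l} :=
  ⟨⟨m.1.N, m.1.hN⟩, ⟨m.1.l, m.2⟩⟩

private theorem MQ.toSig_injective {d k w s : ℕ} :
    Function.Injective (MQ.toSig : MQ p d k w s → _) := by
  rintro ⟨⟨N, hN, l, h1, h2⟩, hm⟩ ⟨⟨N', hN', l', h1', h2'⟩, hm'⟩ h
  simp only [MQ.toSig, Sigma.mk.injEq, Subtype.mk.injEq] at h
  obtain ⟨h3, h4⟩ := h
  subst h3
  have h5 := eq_of_heq h4
  simp only [Subtype.mk.injEq] at h5
  subst h5
  rfl

private theorem fb_finite_sig (d k w s : ℕ) :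
    Finite (Σ N : PSub p d k, {l : IHom N.1 (XW p w) // QQ s l}) := by
  have h1 : Finite (PSub p d k) := finite_PSub d k
  have h2 : ∀ N : PSub p d k, Finite {l : IHom N.1 (XW p w) // QQ s l} := fun N => by
    have := fb_finite_IHom N.2 w
    infer_instance
  infer_instance

private theorem fb_card_sig (d k w s : ℕ) :
    Nat.card (Σ N : PSub p d k, {l : IHom N.1 (XW p w) // QQ s l}) ≤
      p ^ (k * (d * (d + 1) / 2 + d * k) + w * (d * k + 2 * k + d) +
        d * ((2 * s + k) * (d + w))) := by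
  have h1 : Finite (PSub p d k) := finite_PSub d k
  have := Fintype.ofFinite (PSub p d k)
  have h2 : ∀ N : PSub p d k, Finite {l : IHom N.1 (XW p w) // QQ s l} := fun N => by
    have := fb_finite_IHom N.2 w
    infer_instance
  rw [Nat.card_sigma]
  calc ∑ N : PSub p d k, Nat.card {l : IHom N.1 (XW p w) // QQ s l}
      ≤ ∑ _N : PSub p d k, p ^ (w * (d * k + 2 * k + d) + d * ((2 * s + k) * (d + w))) :=
        Finset.sum_le_sum fun N _ => fb_fixedN N.2
    _ = (PSub p d k).ncard * p ^ (w * (d * k + 2 * k + d) + d * ((2 * s + k) * (d + w))) := by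
        rw [Finset.sum_const, Finset.card_univ, ← Nat.card_eq_fintype_card, smul_eq_mul]
        rfl
    _ ≤ _ := by
        rw [add_assoc (k * (d * (d + 1) / 2 + d * k)), pow_add p (k * (d * (d + 1) / 2 + d * k))]
        exact Nat.mul_le_mul_right _ (card_PSub_le d k)

/-- a group with large centralizers has a marking with large centralizers -/
private theorem fb_exists {d k w s : ℕ} {G : Type} [Group G] (hG : Nat.card G = p ^ (d + k + w))
    (hd : dd p G = d) (hw : om p G = w) (hB : BigCent p s G) :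
    ∃ m : MQ p d k w s, Nonempty (G ≃* m.1.grp) := by
  subst hd hw
  obtain ⟨x, hx, hc⟩ := hB
  obtain ⟨k', hk', m, e, he⟩ := Mark.exists_mark hG x hx
  have hkk : k' = k := by omega
  subst hkk
  refine ⟨⟨m, ?_⟩, ⟨e⟩⟩
  intro i
  have := m.hN.1
  refine ⟨((centralizer {(x i)}).map e.toMonoidHom).comap (QuotientGroup.mk' (kerS m.l)), ?_⟩
  have h1 : (((centralizer {(x i)}).map e.toMonoidHom).comap (QuotientGroup.mk' (kerS m.l))).index
      = (centralizer {(x i)}).index := by
    rw [index_comap_of_surjective _ (QuotientGroup.mk'_surjective _)]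
    exact index_map_equiv _ e
  rw [h1]
  refine ⟨(hc i).1, (hc i).2, ?_⟩
  intro c hc'
  obtain ⟨g, hg, hgc⟩ := hc'
  have h2 : g * x i = x i * g := (mem_centralizer_singleton_iff.1 hg)
  have h3 : (c : m.grp) * (FreeGroup.of i : FG (dd p G)) = (FreeGroup.of i : FG (dd p G)) * (c : m.grp) := by
    have h4 : e g = (c : m.grp) := hgc
    rw [← he, ← h4, ← map_mul, ← map_mul, h2]
  rw [← QuotientGroup.eq_one_iff]
  change ((⁅c, (FreeGroup.of i : FG (dd p G))⁆ : FG (dd p G)) : m.grp) = 1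
  rw [commutatorElement_def, QuotientGroup.mk_mul, QuotientGroup.mk_mul, QuotientGroup.mk_mul,
    QuotientGroup.mk_inv, QuotientGroup.mk_inv, h3]
  group

/-- counting groups with large centralizers -/
theorem num_bigCent {d k w s : ℕ} :
    num (p ^ (d + k + w)) (fun G _ => dd p G = d ∧ om p G = w ∧ BigCent p s G) ≤
      p ^ (k * (d * (d + 1) / 2 + d * k) + w * (d * k + 2 * k + d) +
        d * ((2 * s + k) * (d + w))) := by
  have hp : p.Prime := Fact.out
  have hfs := fb_finite_sig (p := p) d k w s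
  have hfin : Finite (MQ p d k w s) := Finite.of_injective _ MQ.toSig_injective
  refine (num_le_of_rel (pow_pos hp.pos _) (X := MQ p d k w s)
    (fun G _ m => Nonempty (G ≃* m.1.grp)) ?_ ?_).trans ?_
  · rintro G _ hG ⟨hd, hw, hB⟩
    exact fb_exists hG hd hw hB
  · rintro G H _ _ m _ _ _ _ ⟨e⟩ ⟨e'⟩
    exact ⟨e.trans e'.symm⟩
  · exact (Nat.card_le_card_of_injective _ MQ.toSig_injective).trans (fb_card_sig d k w s)

end Pool.Agent.IG
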