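import Pool.Agent.IG.StepGB

/-!
# Step G: double counting
-/

open Subgroup Module Filter
open scoped commutatorElement

noncomputable section

namespace Pool.Agent.IG

variable {p : ℕ} [Fact p.Prime] {d k w : ℕ}

private theorem finite_VFGs (p d : ℕ) [Fact p.Prime] :
    Module.Finite (ZMod p) (V p (FG d)) ∧ Finite (V p (FG d)) := by
  obtain ⟨b, -⟩ := basis_V_FG p d
  have h : Module.Finite (ZMod p) (V p (FG d)) := Module.Finite.of_basis b
  exact ⟨h, Module.finite_of_finite (ZMod p)⟩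

namespace Mark

/-- the pairs of maps induced by the automorphisms of a marked group -/
def autPairs (m : Mark p d k w) :
    Set ((V p (FG d) →ₗ[ZMod p] V p (FG d)) × (XW p w →ₗ[ZMod p] XW p w)) :=
  {q | ∃ α : m.grp ≃* m.grp, Ind α q.1 q.2}

private theorem finite_homs (p d w : ℕ) [Fact p.Prime] :
    Finite (V p (FG d) →ₗ[ZMod p] V p (FG d)) ∧ Finite (XW p w →ₗ[ZMod p] XW p w) ∧
      Finite (V p (FG d) →ₗ[ZMod p] XW p w) := by
  have h2 := (finite_VFGs p d).2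
  refine ⟨?_, ?_, ?_⟩ <;> exact Finite.of_injective _ DFunLike.coe_injective

/-- (G1) -/
theorem card_autPairs_le (m : Mark p d k w) {r : ℕ} (h : AllNS p r m.grp) :
    (m.autPairs).Finite ∧ Nat.card m.autPairs ≤ p ^ (1 + 2 * d * r + 2 * w * r) := by
  obtain ⟨h1, h2⟩ := finite_VFGs p d
  obtain ⟨f1, f2, f3⟩ := finite_homs p d w
  have hex : ∀ q ∈ m.autPairs, ∃ μ : ZMod p, rk (q.1 - μ • LinearMap.id) ≤ r ∧
      rk (q.2 - μ ^ 2 • LinearMap.id) ≤ r := by
    rintro ⟨A, B⟩ ⟨α, hα⟩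
    obtain ⟨μ, -, h3, h4⟩ := h α
    obtain ⟨h5, -⟩ := rk_ind hα μ 0
    obtain ⟨-, h6⟩ := rk_ind hα 0 (μ ^ 2)
    exact ⟨μ, by rw [← h5]; exact h3, by rw [← h6]; exact h4⟩
  refine ⟨Set.toFinite _, ?_⟩
  choose μ hμ1 hμ2 using hex
  let F : m.autPairs → ZMod p × {f : V p (FG d) →ₗ[ZMod p] V p (FG d) // rk f ≤ r} ×
      {f : XW p w →ₗ[ZMod p] XW p w // rk f ≤ r} :=
    fun q => (μ q.1 q.2, ⟨_, hμ1 q.1 q.2⟩, ⟨_, hμ2 q.1 q.2⟩)
  have hF : Function.Injective F := by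
    rintro ⟨⟨A, B⟩, hq⟩ ⟨⟨A', B'⟩, hq'⟩ hqq
    simp only [F, Prod.mk.injEq, Subtype.mk.injEq] at hqq
    obtain ⟨e1, e2, e3⟩ := hqq
    rw [e1] at e2 e3
    have e4 : A = A' := sub_left_injective e2
    have e5 : B = B' := sub_left_injective e3
    subst e4 e5
    rfl
  refine (Nat.card_le_card_of_injective F hF).trans ?_
  rw [Nat.card_prod, Nat.card_prod, Nat.card_zmod]
  have c1 := card_rank_le (p := p) (V := V p (FG d)) (X := V p (FG d)) r
  have c2 := card_rank_le (p := p) (V := XW p w) (X := XW p w) r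
  rw [finrank_V_FG] at c1
  rw [Module.finrank_fin_fun] at c2
  calc p * (_ * _) ≤ p * (p ^ (r * (d + d)) * p ^ (r * (w + w))) :=
        Nat.mul_le_mul_left _ (Nat.mul_le_mul c1 c2)
    _ = p ^ (1 + 2 * d * r + 2 * w * r) := by
        rw [← pow_add, ← pow_succ']
        congr 1
        ring

/-- every group with the right invariants is the group of a marking -/
theorem exists_mark_of_card {G : Type} [Group G] (hG : Nat.card G = p ^ (d + k + w))
    (h1 : dd p G = d) (h2 : om p G = w) : ∃ m : Mark p d k w, Nonempty (G ≃* m.grp) := by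
  subst h1 h2
  have hfin : Finite G := Nat.finite_of_card_ne_zero
    (by rw [hG]; exact pow_ne_zero _ (Fact.out : p.Prime).ne_zero)
  obtain ⟨x, hx⟩ := Mark.exists_gen (p := p) (IsPGroup.of_card hG)
  obtain ⟨k', hk', m, e, -⟩ := Mark.exists_mark hG x hx
  have hk : k' = k := by omega
  subst hk
  exact ⟨m, ⟨e⟩⟩

/-- representatives of the isomorphism classes by markings -/
theorem exists_mark_reps {P : ∀ (G : Type) [Group G], Prop} (hP : IsoInv P)
    (hdw : ∀ (G : Type) [Group G], P G → dd p G = d ∧ om p G = w) :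
    ∃ m : Fin (num (p ^ (d + k + w)) P) → Mark p d k w, (∀ i, P (m i).grp) ∧
      (∀ i j, Nonempty ((m i).grp ≃* (m j).grp) → i = j) ∧
      ∀ (G : Type) [Group G], Nat.card G = p ^ (d + k + w) → P G →
        ∃ i, Nonempty (G ≃* (m i).grp) := by
  have hN : 0 < p ^ (d + k + w) := pow_pos (Fact.out : p.Prime).pos _
  obtain ⟨S, h1, h2, h3⟩ := exists_reps hN hP
  have h4 : ∀ i, ∃ m : Mark p d k w,
      Nonempty (@MulEquiv (Fin (p ^ (d + k + w))) m.grp (S i).toMul _) := by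
    intro i
    let _ : Group (Fin (p ^ (d + k + w))) := S i
    exact exists_mark_of_card (by simp) (hdw _ (h1 i)).1 (hdw _ (h1 i)).2
  choose m hm using h4
  refine ⟨m, ?_, ?_, ?_⟩
  · intro i
    let _ : Group (Fin (p ^ (d + k + w))) := S i
    exact hP (Fin (p ^ (d + k + w))) (m i).grp (hm i).some (h1 i)
  · rintro i j ⟨e⟩
    obtain ⟨e1⟩ := hm i
    obtain ⟨e2⟩ := hm j
    refine h2 i j ⟨?_⟩
    exact @MulEquiv.trans _ _ _ (S i).toMul _ (S j).toMul
      (@MulEquiv.trans _ _ _ (S i).toMul _ _ e1 e) (@MulEquiv.symm _ _ (S j).toMul _ e2)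
  · intro G _ hG hPG
    obtain ⟨i, ⟨e⟩⟩ := h3 G hG hPG
    obtain ⟨e1⟩ := hm i
    exact ⟨i, ⟨@MulEquiv.trans _ _ _ _ (S i).toMul _ e e1⟩⟩

theorem twist_back {m m' : Mark p d k w} {τ : V p (FG d) →ₗ[ZMod p] XW p w}
    {θ : (m.twist τ).grp ≃* m'.grp} {A : _} {B : _} (h : Ind θ A B)
    {τ' : V p (FG d) →ₗ[ZMod p] XW p w} (hτ : τ' ∘ₗ A = -(B ∘ₗ τ)) :
    ∃ θ' : m.grp ≃* (m'.twist τ').grp, Ind θ' A B := by
  have h1 := twist_natural h (-τ) τ' (by rw [hτ, LinearMap.comp_neg])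
  have h2 : (m.twist τ).twist (-τ) = m := by
    rw [twist_twist, add_neg_cancel, twist_zero]
  rw [h2] at h1
  exact h1

end Mark

open Mark in
/-- the double counting argument -/
theorem double_count {r n1 n2 : ℕ} (m : Fin n1 → Mark p d k w) (m' : Fin n2 → Mark p d k w)
    (hm1 : ∀ i, ClS p r (m i).grp)
    (hm2 : ∀ i j, Nonempty ((m i).grp ≃* (m j).grp) → i = j)
    (hm' : ∀ i τ, ∃ c, Nonempty (((m i).twist τ).grp ≃* (m' c).grp)) :
    n1 * p ^ (d * w) ≤ n2 * p ^ ((1 + 2 * d * r + 2 * w * r) +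
        (2 + 2 * d * r + k * d + 2 * w * r + r * d + w * (r + k))) := by
  classical
  obtain ⟨hV1, hV2⟩ := finite_VFGs p d
  obtain ⟨f1, f2, f3⟩ := finite_homs p d w
  -- the twisting data
  have key : ∀ (i : Fin n1) (τ : V p (FG d) →ₗ[ZMod p] XW p w),
      ∃ (c : Fin n2) (τ' : V p (FG d) →ₗ[ZMod p] XW p w) (A : _) (B : _)
        (θ : (m i).grp ≃* ((m' c).twist τ').grp), Ind θ A B ∧ τ' ∘ₗ A = -(B ∘ₗ τ) := by
    intro i τ
    obtain ⟨c, ⟨θ⟩⟩ := hm' i τ
    obtain ⟨A, B, hAB⟩ := exists_ind θ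
    obtain ⟨A', B', -, -, hA, -, -⟩ := ind_symm hAB
    have h1 : (-(B ∘ₗ τ ∘ₗ A')) ∘ₗ A = -(B ∘ₗ τ) := by
      refine LinearMap.ext fun v => ?_
      have h2 : A' (A v) = v := LinearMap.congr_fun hA v
      simp only [LinearMap.comp_apply, LinearMap.neg_apply, h2]
    obtain ⟨θ', hθ'⟩ := twist_back hAB h1
    exact ⟨c, -(B ∘ₗ τ ∘ₗ A'), A, B, θ', hθ', h1⟩
  choose c τ' A B θ hθ hτ using key
  have hCl : ∀ i τ, ClS p r ((m' (c i τ)).twist (τ' i τ)).grp := fun i τ =>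
    ClS_isoInv r _ _ (θ i τ) (hm1 i)
  -- the map
  let Y : Type := {y : Fin n2 × (V p (FG d) →ₗ[ZMod p] XW p w) //
    ClS p r ((m' y.1).twist y.2).grp}
  let F : Fin n1 × (V p (FG d) →ₗ[ZMod p] XW p w) → Y := fun x =>
    ⟨(c x.1 x.2, τ' x.1 x.2), hCl x.1 x.2⟩
  have hY : Finite Y := @Subtype.finite _ inferInstance _
  have hYcard : Nat.card Y ≤ n2 *
      p ^ (2 + 2 * d * r + k * d + 2 * w * r + r * d + w * (r + k)) := by
    have hfy : ∀ c : Fin n2, Finite {τ : V p (FG d) →ₗ[ZMod p] XW p w //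
        ClS p r ((m' c).twist τ).grp} := fun c => @Subtype.finite _ f3 _
    have h1 : Nat.card Y = ∑ c : Fin n2,
        Nat.card {τ : V p (FG d) →ₗ[ZMod p] XW p w // ClS p r ((m' c).twist τ).grp} := by
      rw [← Nat.card_sigma]
      exact Nat.card_congr (Equiv.subtypeProdEquivSigmaSubtype
        (fun (c : Fin n2) (τ : V p (FG d) →ₗ[ZMod p] XW p w) => ClS p r ((m' c).twist τ).grp))
    rw [h1]
    refine (Finset.sum_le_sum fun c _ => card_twist_le (m' c)).trans ?_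
    rw [Finset.sum_const, Finset.card_univ, Fintype.card_fin, smul_eq_mul]
  -- the fibres
  have hfib : ∀ y : Y, Nat.card {x : Fin n1 × (V p (FG d) →ₗ[ZMod p] XW p w) // F x = y} ≤
      p ^ (1 + 2 * d * r + 2 * w * r) := by
    rintro ⟨⟨c0, σ0⟩, hy⟩
    have hrel : ∀ (i : Fin n1) (τ : V p (FG d) →ₗ[ZMod p] XW p w),
        F (i, τ) = ⟨(c0, σ0), hy⟩ → ∃ θ' : (m i).grp ≃* ((m' c0).twist σ0).grp,
          Ind θ' (A i τ) (B i τ) ∧ σ0 ∘ₗ A i τ = -(B i τ ∘ₗ τ) := by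
      intro i τ hF
      have h1 := Subtype.ext_iff.1 hF
      simp only [F, Prod.mk.injEq] at h1
      obtain ⟨h2, h3⟩ := h1
      rw [← h2, ← h3]
      exact ⟨θ i τ, hθ i τ, hτ i τ⟩
    by_cases hne : Nonempty {x : Fin n1 × (V p (FG d) →ₗ[ZMod p] XW p w) //
        F x = ⟨(c0, σ0), hy⟩}
    swap
    · rw [not_nonempty_iff] at hne
      rw [Nat.card_of_isEmpty]
      exact Nat.zero_le _
    obtain ⟨⟨⟨i0, τ0⟩, hF0⟩⟩ := hne
    obtain ⟨θ0, hθ0, -⟩ := hrel i0 τ0 hF0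
    obtain ⟨A0', B0', hs, hA0, -, hB0, -⟩ := ind_symm hθ0
    have hmem : ∀ (i : Fin n1) (τ : V p (FG d) →ₗ[ZMod p] XW p w),
        F (i, τ) = ⟨(c0, σ0), hy⟩ → i = i0 ∧
          (A0' ∘ₗ A i τ, B0' ∘ₗ B i τ) ∈ autPairs (m i0) := by
      intro i τ hF
      obtain ⟨θ', hθ', -⟩ := hrel i τ hF
      have h1 := ind_trans hθ' hs
      have h2 : i = i0 := hm2 i i0 ⟨θ'.trans θ0.symm⟩
      subst h2
      exact ⟨rfl, _, h1⟩
    obtain ⟨hfin, hcard⟩ := card_autPairs_le (m i0) (hm1 i0).1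
    have hfin' : Finite (autPairs (m i0)) := hfin
    refine le_trans ?_ hcard
    refine Nat.card_le_card_of_injective
      (fun x => (⟨_, (hmem x.1.1 x.1.2 x.2).2⟩ : autPairs (m i0))) ?_
    rintro ⟨⟨i, τ⟩, hx⟩ ⟨⟨j, σ⟩, hx'⟩ hxx
    have h1 := Subtype.ext_iff.1 hxx
    simp only [Prod.mk.injEq] at h1
    obtain ⟨h2, h3⟩ := h1
    have hi := (hmem i τ hx).1
    have hj := (hmem j σ hx').1
    subst hi hj
    have h4 : A j τ = A j σ := by
      have := congrArg (fun f => A j τ0 ∘ₗ f) h2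
      simp only [← LinearMap.comp_assoc, hA0, LinearMap.id_comp] at this
      exact this
    have h5 : B j τ = B j σ := by
      have := congrArg (fun f => B j τ0 ∘ₗ f) h3
      simp only [← LinearMap.comp_assoc, hB0, LinearMap.id_comp] at this
      exact this
    obtain ⟨θ1, hθ1, e1⟩ := hrel j τ hx
    obtain ⟨θ2, hθ2, e2⟩ := hrel j σ hx'
    obtain ⟨A1, B1, -, -, -, -, hB1⟩ := ind_symm hθ1
    rw [h4, e2] at e1
    rw [← h5] at e1
    have h6 : B j τ ∘ₗ σ = B j τ ∘ₗ τ := neg_injective e1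
    have h7 : σ = τ := by
      have := congrArg (fun f => B1 ∘ₗ f) h6
      simp only [← LinearMap.comp_assoc, hB1, LinearMap.id_comp] at this
      exact this
    subst h7
    rfl
  -- conclusion
  have hfy : Fintype Y := Fintype.ofFinite _
  have hfh : Fintype (V p (FG d) →ₗ[ZMod p] XW p w) := Fintype.ofFinite _
  have hcount : Nat.card (Fin n1 × (V p (FG d) →ₗ[ZMod p] XW p w)) ≤
      p ^ (1 + 2 * d * r + 2 * w * r) * Nat.card Y := by
    rw [Nat.card_eq_fintype_card, Nat.card_eq_fintype_card]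
    refine Finset.card_le_mul_card_image_of_maps_to (f := F) (s := Finset.univ)
      (t := Finset.univ) (fun _ _ => Finset.mem_univ _) _ fun y _ => ?_
    have := hfib y
    rw [Nat.card_eq_fintype_card, Fintype.card_subtype] at this
    exact this
  have hhom : Nat.card (V p (FG d) →ₗ[ZMod p] XW p w) = p ^ (d * w) := by
    rw [Module.natCard_eq_pow_finrank (K := ZMod p), Module.finrank_linearMap, finrank_V_FG,
      Module.finrank_fin_fun, Nat.card_zmod]
  rw [Nat.card_prod, hhom, Nat.card_eq_fintype_card (α := Fin n1), Fintype.card_fin] at hcount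
  refine hcount.trans ?_
  rw [pow_add p (1 + 2 * d * r + 2 * w * r), mul_left_comm]
  exact Nat.mul_le_mul_left _ hYcard

open Mark in
/-- **Step G**: double counting -/
theorem num_ClS {r : ℕ} :
    num (p ^ (d + k + w)) (fun G _ => dd p G = d ∧ om p G = w ∧ ClS p r G) * p ^ (d * w) ≤
      gp p (d + k + w) * p ^ ((1 + 2 * d * r + 2 * w * r) +
        (2 + 2 * d * r + k * d + 2 * w * r + r * d + w * (r + k))) := by
  have hN : 0 < p ^ (d + k + w) := pow_pos (Fact.out : p.Prime).pos _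
  obtain ⟨m, hm1, hm2, -⟩ := exists_mark_reps (p := p) (d := d) (k := k) (w := w)
    (P := fun G _ => dd p G = d ∧ om p G = w ∧ ClS p r G)
    (fun G H _ _ e h => ⟨by rw [← dd_congr e]; exact h.1, by rw [← om_congr e]; exact h.2.1,
      ClS_isoInv r G H e h.2.2⟩) (fun G _ h => ⟨h.1, h.2.1⟩)
  obtain ⟨m', -, -, hm'⟩ := exists_mark_reps (p := p) (d := d) (k := k) (w := w)
    (P := fun G _ => dd p G = d ∧ om p G = w)
    (fun G H _ _ e h => ⟨by rw [← dd_congr e]; exact h.1, by rw [← om_congr e]; exact h.2⟩)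
    (fun G _ h => h)
  refine (double_count m m' (fun i => (hm1 i).2.2) hm2
    (fun i τ => hm' _ (card_grp _) ⟨dd_grp _, om_grp _⟩)).trans ?_
  exact Nat.mul_le_mul_right _ (num_mono hN fun _ _ _ _ => trivial)

end Pool.Agent.IG
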