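import Pool.Agent.IG.StepEA

/-!
# Step G: groups with a nearly scalar automorphism with `μ ≠ 1`
-/

open Subgroup Module Filter
open scoped commutatorElement

noncomputable section

namespace Pool.Agent.IG

variable {p : ℕ} [Fact p.Prime] {d k w : ℕ}

/-- the class `S` -/
def ClS (p : ℕ) [Fact p.Prime] (r : ℕ) (G : Type) [Group G] : Prop :=
  AllNS p r G ∧ ∃ (α : G ≃* G) (μ : ZMod p), μ ≠ 0 ∧ μ ≠ 1 ∧ NSc p r α μ

theorem rk_conj {K V W : Type} [Field K] [AddCommGroup V] [Module K V] [AddCommGroup W] [Module K W]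
    (e : V ≃ₗ[K] W) (f : V →ₗ[K] V) (g : W →ₗ[K] W) (h : ∀ v, g (e v) = e (f v)) :
    rk g = rk f := by
  have h1 : LinearMap.range g = (LinearMap.range f).map (e : V →ₗ[K] W) := by
    ext y
    constructor
    · rintro ⟨x, rfl⟩
      refine ⟨f (e.symm x), ⟨_, rfl⟩, ?_⟩
      have := h (e.symm x)
      rw [e.apply_symm_apply] at this
      exact this.symm
    · rintro ⟨_, ⟨x, rfl⟩, rfl⟩
      exact ⟨e x, h x⟩
  unfold rk
  rw [h1]
  exact LinearEquiv.finrank_map_eq e _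

theorem NSc_congr {G H : Type} [Group G] [Group H] (e : G ≃* H) {r : ℕ} {α : G ≃* G}
    {μ : ZMod p} (h : NSc p r α μ) : NSc p r (e.symm.trans (α.trans e)) μ := by
  obtain ⟨h1, h2⟩ := h
  refine ⟨?_, ?_⟩
  · rw [rk_conj (vequiv p e) (vmap p α.toMonoidHom - μ • LinearMap.id)]
    · exact h1
    · intro v
      obtain ⟨x, rfl⟩ := mkV_surjective p v
      have h3 : vequiv p e (mkV p x) = mkV p (e x) := rfl
      simp only [LinearMap.sub_apply, LinearMap.smul_apply, LinearMap.id_apply, map_sub, map_smul,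
        h3, vmap_mkV]
      congr 1
      change mkV p (e (α (e.symm (e x)))) = mkV p (e (α x))
      rw [e.symm_apply_apply]
  · rw [rk_conj (oequiv p e) (omap p α - μ ^ 2 • LinearMap.id)]
    · exact h2
    · intro z
      simp only [LinearMap.sub_apply, LinearMap.smul_apply, LinearMap.id_apply, map_sub, map_smul]
      congr 1
      refine Additive.toMul.injective (Subtype.ext ?_)
      change e (α (e.symm (e z.val))) = e (α z.val)
      rw [e.symm_apply_apply]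

theorem ClS_isoInv (r : ℕ) : IsoInv (fun G _ => ClS p r G) := by
  rintro G H _ _ e ⟨h1, α, μ, h2, h3, h4⟩
  exact ⟨AllNS_isoInv r G H e h1, _, μ, h2, h3, NSc_congr e h4⟩

namespace Mark

/-- the twisted invariant homomorphism `l + τ ∘ pi` -/
def twl (m : Mark p d k w) (τ : V p (FG d) →ₗ[ZMod p] XW p w) : IHom m.N (XW p w) :=
  ⟨fun u => m.l.1 u + τ ((piH p d).1 ⟨u, m.hN.2.1 u.2⟩), by
    refine ⟨fun a b => ?_, fun g a b h => ?_⟩
    · have h1 := (piH p d).2.1 ⟨a, m.hN.2.1 a.2⟩ ⟨b, m.hN.2.1 b.2⟩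
      have h2 : (⟨((a * b : m.N) : FG d), m.hN.2.1 (a * b).2⟩ : Phi p (FG d)) =
        ⟨a, m.hN.2.1 a.2⟩ * ⟨b, m.hN.2.1 b.2⟩ := rfl
      simp only [h2, h1, m.l.2.1 a b, map_add]
      abel
    · have h1 := (piH p d).2.2 g ⟨a, m.hN.2.1 a.2⟩ ⟨b, m.hN.2.1 b.2⟩ h
      simp only [h1, m.l.2.2 g a b h]⟩

theorem twl_apply (m : Mark p d k w) (τ : V p (FG d) →ₗ[ZMod p] XW p w) (u : FG d)
    (hu : u ∈ m.N) : (m.twl τ).1 ⟨u, hu⟩ = m.l.1 ⟨u, hu⟩ + τ ((piH p d).1 ⟨u, m.hN.2.1 hu⟩) := rfl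

theorem twl_of_comm (m : Mark p d k w) (τ : V p (FG d) →ₗ[ZMod p] XW p w) {u : FG d}
    (hu : u ∈ m.N) (hc : u ∈ commutator (FG d)) : (m.twl τ).1 ⟨u, hu⟩ = m.l.1 ⟨u, hu⟩ := by
  rw [twl_apply, piH_comm u hc, map_zero, add_zero]

theorem twl_pow (m : Mark p d k w) (τ : V p (FG d) →ₗ[ZMod p] XW p w) {g : FG d}
    (hg : g ∈ Phi p (FG d)) (hu : g ^ p ∈ m.N) :
    (m.twl τ).1 ⟨g ^ p, hu⟩ = m.l.1 ⟨g ^ p, hu⟩ := by
  rw [twl_apply, piH_pow g, (mkV_eq_zero_iff p g).2 hg, map_zero, add_zero]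

theorem exists_comm (m : Mark p d k w) (x : XW p w) :
    ∃ (c : FG d) (hc : c ∈ m.N), c ∈ commutator (FG d) ∧ m.l.1 ⟨c, hc⟩ = x := by
  obtain ⟨⟨u, hu⟩, rfl⟩ := m.surj x
  have h1 := ((m.hOm u).1 hu).2.1
  rw [Subgroup.mem_sup_of_normal_left] at h1
  obtain ⟨c, hc, y, hy, rfl⟩ := h1
  obtain ⟨hy1, hy2⟩ := hy
  have hcN : c ∈ m.N := by
    have := m.N.mul_mem hu (m.N.inv_mem hy1)
    rwa [mul_inv_cancel_right] at this
  refine ⟨c, hcN, hc, ?_⟩
  have h3 := m.l.2.1 ⟨c, hcN⟩ ⟨y, hy1⟩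
  rw [hy2, add_zero] at h3
  exact h3.symm

/-- twisting a marked group by `τ` gives a marked group -/
theorem exists_twist (m : Mark p d k w) (τ : V p (FG d) →ₗ[ZMod p] XW p w) :
    ∃ m' : Mark p d k w, m'.N = m.N ∧ ∀ (u : FG d) (h : u ∈ m.N) (h' : u ∈ m'.N),
      m'.l.1 ⟨u, h'⟩ = (m.twl τ).1 ⟨u, h⟩ := by
  have hex : ∀ x : XW p w, ∃ (c : FG d) (hc : c ∈ m.N), c ∈ commutator (FG d) ∧
      (m.twl τ).1 ⟨c, hc⟩ = x := by
    intro x
    obtain ⟨c, hc, hcc, hcx⟩ := m.exists_comm x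
    exact ⟨c, hc, hcc, by rw [twl_of_comm m τ hc hcc, hcx]⟩
  refine ⟨⟨m.N, m.hN, m.twl τ, ?_, ?_⟩, rfl, fun u h h' => rfl⟩
  · intro x
    obtain ⟨c, hc, -, hcx⟩ := hex x
    exact ⟨⟨c, hc⟩, hcx⟩
  · intro g
    constructor
    · intro hg
      obtain ⟨h1, h2, h3⟩ := (m.hOm g).1 hg
      refine ⟨fun f => ?_, ?_, ?_⟩
      · obtain ⟨h4, h5⟩ := h1 f
        refine ⟨h4, ?_⟩
        rw [twl_of_comm m τ h4 (commutator_mem_commutator (mem_top g) (mem_top f)), h5]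
      · obtain ⟨c, hc, hcc, hcx⟩ := hex ((m.twl τ).1 ⟨g, hg⟩)
        have h4 : g = c * (c⁻¹ * g) := by group
        rw [h4]
        refine mul_mem (mem_sup_left hcc) (mem_sup_right ?_)
        have hm : c⁻¹ * g ∈ m.N := m.N.mul_mem (m.N.inv_mem hc) hg
        refine ⟨hm, ?_⟩
        have h5 := (m.twl τ).2.1 ⟨c, hc⟩ ⟨c⁻¹ * g, hm⟩
        have h6 : (⟨c, hc⟩ : m.N) * ⟨c⁻¹ * g, hm⟩ = ⟨g, hg⟩ := Subtype.ext h4.symm
        rw [h6, hcx] at h5
        simpa using h5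
      · obtain ⟨h4, h5⟩ := h3
        refine ⟨h4, ?_⟩
        rw [twl_pow m τ (m.hN.2.1 hg) h4, h5]
    · rintro ⟨h1, h2, h3⟩
      have hK : kerS (m.twl τ) ≤ m.N := kerS_le _
      have hPhi : g ∈ Phi p (FG d) :=
        (sup_le (commutator_le_Phi p) (hK.trans m.hN.2.1)) h2
      rw [m.hOm]
      refine ⟨fun f => ?_, ?_, ?_⟩
      · obtain ⟨h4, h5⟩ := h1 f
        refine ⟨h4, ?_⟩
        rwa [twl_of_comm m τ h4 (commutator_mem_commutator (mem_top g) (mem_top f))] at h5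
      · refine (sup_le le_sup_left ?_ : commutator (FG d) ⊔ kerS (m.twl τ) ≤ _) h2
        intro y hy
        exact ((m.hOm y).1 (hK hy)).2.1
      · obtain ⟨h4, h5⟩ := h3
        refine ⟨h4, ?_⟩
        rwa [twl_pow m τ hPhi h4] at h5

/-- the twisted marked group -/
def twist (m : Mark p d k w) (τ : V p (FG d) →ₗ[ZMod p] XW p w) : Mark p d k w :=
  (m.exists_twist τ).choose

theorem twist_N (m : Mark p d k w) (τ : V p (FG d) →ₗ[ZMod p] XW p w) :
    (m.twist τ).N = m.N := (m.exists_twist τ).choose_spec.1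

theorem twist_l (m : Mark p d k w) (τ : V p (FG d) →ₗ[ZMod p] XW p w) (u : FG d) (h : u ∈ m.N)
    (h' : u ∈ (m.twist τ).N) : (m.twist τ).l.1 ⟨u, h'⟩ =
      m.l.1 ⟨u, h⟩ + τ ((piH p d).1 ⟨u, m.hN.2.1 h⟩) :=
  (m.exists_twist τ).choose_spec.2 u h h'

theorem ext' {m m' : Mark p d k w} (hN : m.N = m'.N)
    (hl : ∀ (u : FG d) (h : u ∈ m.N) (h' : u ∈ m'.N), m.l.1 ⟨u, h⟩ = m'.l.1 ⟨u, h'⟩) :
    m = m' := by
  obtain ⟨N, hN1, l, hs, hO⟩ := m
  obtain ⟨N', hN1', l', hs', hO'⟩ := m'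
  simp only at hN
  subst hN
  have : l = l' := by
    apply Subtype.ext
    funext u
    exact hl u.1 u.2 u.2
  subst this
  rfl

theorem twist_twist (m : Mark p d k w) (τ τ' : V p (FG d) →ₗ[ZMod p] XW p w) :
    (m.twist τ).twist τ' = m.twist (τ + τ') := by
  refine ext' (by rw [twist_N, twist_N, twist_N]) fun u h h' => ?_
  have h1 : u ∈ (m.twist τ).N := by rwa [twist_N] at h
  have h2 : u ∈ m.N := by rwa [twist_N] at h1
  rw [twist_l (m.twist τ) τ' u h1 h, twist_l m τ u h2 h1, twist_l m (τ + τ') u h2 h',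
    LinearMap.add_apply, add_assoc]

theorem twist_zero (m : Mark p d k w) : m.twist 0 = m := by
  refine ext' (twist_N m 0) fun u h h' => ?_
  rw [twist_l m 0 u h' h, LinearMap.zero_apply, add_zero]

/-- naturality of twisting -/
theorem twist_natural {m m' : Mark p d k w} {θ : m.grp ≃* m'.grp} {A : _} {B : _}
    (h : Ind θ A B) (τ τ' : V p (FG d) →ₗ[ZMod p] XW p w) (hτ : τ' ∘ₗ A = B ∘ₗ τ) :
    ∃ θ' : (m.twist τ).grp ≃* (m'.twist τ').grp, Ind θ' A B := by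
  obtain ⟨A', B', -, -, -, -, hB⟩ := ind_symm h
  obtain ⟨φ, h1, h2, h3⟩ := h
  -- the key computation
  have key : ∀ (u : FG d) (hu : u ∈ (m.twist τ).N), ∃ h' : φ u ∈ (m'.twist τ').N,
      (m'.twist τ').l.1 ⟨φ u, h'⟩ = B ((m.twist τ).l.1 ⟨u, hu⟩) := by
    intro u hu
    have hu1 : u ∈ m.N := by rwa [twist_N] at hu
    obtain ⟨h4, h5⟩ := h3 u hu1
    have h4' : φ u ∈ (m'.twist τ').N := by rwa [twist_N]
    refine ⟨h4', ?_⟩
    rw [twist_l m' τ' (φ u) h4 h4', twist_l m τ u hu1 hu, h5, map_add]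
    congr 1
    rw [piH_natural φ u (m.hN.2.1 hu1), h2]
    exact LinearMap.congr_fun hτ _
  have hker : kerS (m.twist τ).l ≤ (kerS (m'.twist τ').l).comap φ := by
    rintro u ⟨hu, hu'⟩
    obtain ⟨h4, h5⟩ := key u hu
    exact ⟨h4, by rw [h5, hu', map_zero]⟩
  let θ₀ : (m.twist τ).grp →* (m'.twist τ').grp := QuotientGroup.map _ _ φ hker
  have hinj : Function.Injective θ₀ := by
    rw [injective_iff_map_eq_one]
    intro x hx
    obtain ⟨u, rfl⟩ := QuotientGroup.mk_surjective x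
    have h4 : φ u ∈ kerS (m'.twist τ').l := (QuotientGroup.eq_one_iff _).1 hx
    obtain ⟨h5, h6⟩ := h4
    have h7 : φ u ∈ m'.N := by rwa [twist_N] at h5
    have h8 : u ∈ m.N := by
      rw [← mem_Om_iff] at h7 ⊢
      rw [← h1] at h7
      have := Om_map p θ.symm h7
      rwa [θ.symm_apply_apply] at this
    have h9 : u ∈ (m.twist τ).N := by rwa [twist_N]
    obtain ⟨h10, h11⟩ := key u h9
    rw [h11] at h6
    have h12 : (m.twist τ).l.1 ⟨u, h9⟩ = 0 := by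
      have := congrArg B' h6
      rw [map_zero] at this
      rw [← this]
      exact (LinearMap.congr_fun hB _).symm
    exact (QuotientGroup.eq_one_iff _).2 ⟨h9, h12⟩
  have hf1 : Finite (m.twist τ).grp := finite_grp _
  have hf2 : Finite (m'.twist τ').grp := finite_grp _
  have hbij : Function.Bijective θ₀ := by
    refine (Nat.bijective_iff_injective_and_card θ₀).2 ⟨hinj, ?_⟩
    rw [card_grp, card_grp]
  exact ⟨MulEquiv.ofBijective θ₀ hbij, φ, fun f => rfl, h2, key⟩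

end Mark

end Pool.Agent.IG
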