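import Pool.Agent.IG.StepGA

/-!
# Step G: few twists are in the class `S`
-/

open Subgroup Module Filter
open scoped commutatorElement

noncomputable section

namespace Pool.Agent.IG

variable {p : ℕ} [Fact p.Prime] {d k w : ℕ}

section GBAux

/-- counting along the fibres of a map -/
theorem gb_card_le_of_fibers {S D : Type} [Finite S] [Finite D] (f : S → D) {M : ℕ}
    (h : ∀ s₀ : S, Nat.card {s // f s = f s₀} ≤ M) : Nat.card S ≤ Nat.card D * M := by
  have h1 : Nat.card S = Nat.card (Σ c, {y : S // f y = c}) :=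
    Nat.card_congr (Equiv.sigmaFiberEquiv f).symm
  have := Fintype.ofFinite D
  rw [h1, Nat.card_sigma]
  have h2 : ∀ c, Nat.card {y : S // f y = c} ≤ M := by
    intro c
    by_cases hne : Nonempty {y : S // f y = c}
    · obtain ⟨y, hy⟩ := hne
      have h3 := h y
      rw [hy] at h3
      exact h3
    · rw [not_nonempty_iff] at hne
      rw [Nat.card_of_isEmpty]
      exact Nat.zero_le _
  calc ∑ c, Nat.card {y : S // f y = c} ≤ ∑ _c : D, M := Finset.sum_le_sum fun c _ => h2 c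
    _ = Nat.card D * M := by
        rw [Finset.sum_const, Finset.card_univ, ← Nat.card_eq_fintype_card, smul_eq_mul]

section lin

variable {V X : Type} [AddCommGroup V] [Module (ZMod p) V] [Finite V]
  [AddCommGroup X] [Module (ZMod p) X] [Finite X]

/-- linear maps which send `E` to `Z` -/
theorem gb_card_lin_le (E : Submodule (ZMod p) V) (Z : Submodule (ZMod p) X) {r j : ℕ}
    (hZ : finrank (ZMod p) Z ≤ r) (hE : finrank (ZMod p) V ≤ finrank (ZMod p) E + j) :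
    Nat.card {ρ : V →ₗ[ZMod p] X // ∀ v ∈ E, ρ v ∈ Z} ≤
      p ^ (r * finrank (ZMod p) V + finrank (ZMod p) X * j) := by
  have hp : p.Prime := Fact.out
  obtain ⟨E', hE'⟩ := E.exists_isCompl
  let F : {ρ : V →ₗ[ZMod p] X // ∀ v ∈ E, ρ v ∈ Z} → (E →ₗ[ZMod p] Z) × (E' →ₗ[ZMod p] X) :=
    fun ρ => (LinearMap.codRestrict Z (ρ.1.domRestrict E) (fun v => ρ.2 v v.2),
      ρ.1.domRestrict E')
  have hF : Function.Injective F := by
    intro ρ ρ' h
    have h1 : LinearMap.codRestrict Z (ρ.1.domRestrict E) (fun v => ρ.2 v v.2) =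
        LinearMap.codRestrict Z (ρ'.1.domRestrict E) (fun v => ρ'.2 v v.2) :=
      congrArg Prod.fst h
    have h2 : ρ.1.domRestrict E' = ρ'.1.domRestrict E' := congrArg Prod.snd h
    refine Subtype.ext (LinearMap.ext fun v => ?_)
    have hv : v ∈ E ⊔ E' := by rw [hE'.sup_eq_top]; exact Submodule.mem_top
    obtain ⟨a, ha, b, hb, rfl⟩ := Submodule.mem_sup.1 hv
    have h3 : ρ.1 a = ρ'.1 a := congrArg Subtype.val (LinearMap.congr_fun h1 ⟨a, ha⟩)
    have h4 : ρ.1 b = ρ'.1 b := LinearMap.congr_fun h2 ⟨b, hb⟩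
    rw [map_add, map_add, h3, h4]
  have hfinE : Finite (E →ₗ[ZMod p] Z) := Module.finite_of_finite (ZMod p)
  have hfinE' : Finite (E' →ₗ[ZMod p] X) := Module.finite_of_finite (ZMod p)
  refine (Nat.card_le_card_of_injective F hF).trans ?_
  rw [Nat.card_prod, Module.natCard_eq_pow_finrank (K := ZMod p) (V := E →ₗ[ZMod p] Z),
    Module.natCard_eq_pow_finrank (K := ZMod p) (V := E' →ₗ[ZMod p] X), Nat.card_zmod,
    Module.finrank_linearMap, Module.finrank_linearMap, ← pow_add]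
  refine Nat.pow_le_pow_right hp.pos ?_
  have h1 : finrank (ZMod p) E + finrank (ZMod p) E' = finrank (ZMod p) V :=
    Submodule.finrank_add_eq_of_isCompl hE'
  have h2 : finrank (ZMod p) E' ≤ j := by omega
  have h3 : finrank (ZMod p) E ≤ finrank (ZMod p) V := by omega
  refine add_le_add ?_ ?_
  · rw [mul_comm]
    exact Nat.mul_le_mul hZ h3
  · rw [mul_comm]
    exact Nat.mul_le_mul_left _ h2

/-- the dimension of an eigenspace is bounded by the codimension of another one -/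
theorem gb_finrank_ker_le (B : X →ₗ[ZMod p] X) {μ ν : ZMod p} (h : μ ≠ ν) :
    finrank (ZMod p) (LinearMap.ker (B - μ • LinearMap.id)) ≤ rk (B - ν • LinearMap.id) := by
  have h1 : Disjoint (LinearMap.ker (B - μ • LinearMap.id))
      (LinearMap.ker (B - ν • LinearMap.id)) := by
    rw [Submodule.disjoint_def]
    intro x hx hx'
    rw [LinearMap.mem_ker, LinearMap.sub_apply, LinearMap.smul_apply, LinearMap.id_apply,
      sub_eq_zero] at hx hx'
    rw [hx, ← sub_eq_zero, ← sub_smul] at hx'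
    rcases smul_eq_zero.1 hx' with h2 | h2
    · exact absurd (sub_eq_zero.1 h2) h
    · exact h2
  have h2 := Submodule.finrank_add_finrank_le_of_disjoint h1
  have h3 := LinearMap.finrank_range_add_finrank_ker (B - ν • LinearMap.id)
  rw [rk]
  omega

/-- the number of `ρ` with `ρ A = B ρ` on a subspace of small codimension -/
theorem gb_card_rho_le (A : V →ₗ[ZMod p] V) (B : X →ₗ[ZMod p] X) {μ : ZMod p} (h0 : μ ≠ 0)
    (h1 : μ ≠ 1) {r k : ℕ} (hA : rk (A - μ • LinearMap.id) ≤ r)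
    (hB : rk (B - μ ^ 2 • LinearMap.id) ≤ r) (P : Submodule (ZMod p) V)
    (hP : finrank (ZMod p) V ≤ finrank (ZMod p) P + k) :
    Nat.card {ρ : V →ₗ[ZMod p] X // ∀ v ∈ P, ρ (A v) = B (ρ v)} ≤
      p ^ (r * finrank (ZMod p) V + finrank (ZMod p) X * (r + k)) := by
  have hμ : μ ≠ μ ^ 2 := by
    intro h
    rw [sq] at h
    have h2 : μ * (μ - 1) = 0 := by linear_combination -h
    rcases mul_eq_zero.1 h2 with h3 | h3
    · exact h0 h3
    · exact h1 (sub_eq_zero.1 h3)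
  have hZ := (gb_finrank_ker_le B hμ).trans hB
  have hE : finrank (ZMod p) V ≤
      finrank (ZMod p) (LinearMap.ker (A - μ • LinearMap.id) ⊓ P : Submodule (ZMod p) V) +
        (r + k) := by
    have h3 := LinearMap.finrank_range_add_finrank_ker (A - μ • LinearMap.id)
    have h4 := Submodule.finrank_sup_add_finrank_inf_eq (LinearMap.ker (A - μ • LinearMap.id)) P
    have h5 : finrank (ZMod p) (LinearMap.ker (A - μ • LinearMap.id) ⊔ P : Submodule (ZMod p) V) ≤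
      finrank (ZMod p) V := Submodule.finrank_le _
    rw [rk] at hA
    omega
  have hfin : Finite (V →ₗ[ZMod p] X) := Module.finite_of_finite (ZMod p)
  refine le_trans (Nat.card_le_card_of_injective
    (fun ρ : {ρ : V →ₗ[ZMod p] X // ∀ v ∈ P, ρ (A v) = B (ρ v)} =>
      (⟨ρ.1, ?_⟩ : {ρ : V →ₗ[ZMod p] X // ∀ v ∈ (LinearMap.ker (A - μ • LinearMap.id) ⊓ P :
        Submodule (ZMod p) V), ρ v ∈ LinearMap.ker (B - μ • LinearMap.id)})) ?_)
    (gb_card_lin_le _ _ hZ hE)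
  · intro v hv
    obtain ⟨hv1, hv2⟩ := Submodule.mem_inf.1 hv
    rw [LinearMap.mem_ker, LinearMap.sub_apply, LinearMap.smul_apply, LinearMap.id_apply,
      sub_eq_zero] at hv1
    have h3 := ρ.2 v hv2
    rw [hv1, map_smul] at h3
    rw [LinearMap.mem_ker, LinearMap.sub_apply, LinearMap.smul_apply, LinearMap.id_apply,
      sub_eq_zero, h3]
  · intro ρ ρ' h
    have h3 := Subtype.ext_iff.1 h
    exact Subtype.ext h3

end lin

theorem gb_finite_V (p d : ℕ) [Fact p.Prime] : Finite (V p (FG d)) := by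
  obtain ⟨b, -⟩ := basis_V_FG p d
  exact Finite.of_equiv _ b.equivFun.toEquiv.symm

/-- `pi(N)` as a subspace -/
theorem gb_exists_piN {N : Subgroup (FG d)} (hN : N ∈ PSub p d k) :
    ∃ P : Submodule (ZMod p) (V p (FG d)), d ≤ finrank (ZMod p) P + k ∧
      ∀ v ∈ P, ∃ (u : FG d) (hu : u ∈ N), v = (piH p d).1 ⟨u, hN.2.1 hu⟩ := by
  have hp : p.Prime := Fact.out
  have hfV := gb_finite_V p d
  let π : Phi p (FG d) →* Multiplicative (V p (FG d)) :=
    { toFun := fun u => Multiplicative.ofAdd ((piH p d).1 u)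
      map_one' := by rw [IHom_one (piH p d).2]; rfl
      map_mul' := fun a b => by rw [(piH p d).2.1 a b]; rfl }
  have hπ : Function.Surjective π := by
    intro v
    obtain ⟨u, hu⟩ := piH_surjective (p := p) (d := d) (Multiplicative.toAdd v)
    exact ⟨u, congrArg Multiplicative.ofAdd hu⟩
  let P : Submodule (ZMod p) (V p (FG d)) :=
    { carrier := {v | ∃ (u : FG d) (hu : u ∈ N), v = (piH p d).1 ⟨u, hN.2.1 hu⟩}
      add_mem' := by
        rintro _ _ ⟨u, hu, rfl⟩ ⟨u', hu', rfl⟩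
        exact ⟨u * u', mul_mem hu hu', ((piH p d).2.1 ⟨u, _⟩ ⟨u', _⟩).symm⟩
      zero_mem' := ⟨1, one_mem _, (IHom_one (piH p d).2).symm⟩
      smul_mem' := by
        rintro c _ ⟨u, hu, rfl⟩
        have h1 : ∀ n : ℕ, n • (piH p d).1 ⟨u, hN.2.1 hu⟩ =
            (piH p d).1 ⟨u ^ n, hN.2.1 (pow_mem hu n)⟩ := by
          intro n
          exact (map_pow π ⟨u, hN.2.1 hu⟩ n).symm
        refine ⟨u ^ c.val, pow_mem hu _, ?_⟩
        rw [← h1, ← Nat.cast_smul_eq_nsmul (ZMod p), ZMod.natCast_zmod_val] }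
  refine ⟨P, ?_, fun v hv => hv⟩
  set Q : Subgroup (Multiplicative (V p (FG d))) := (N.subgroupOf (Phi p (FG d))).map π with hQ
  have h1 : Nat.card Q * Q.index = Nat.card (Multiplicative (V p (FG d))) := card_mul_index _
  have h2 : Q.index ∣ p ^ k := by
    rw [← hN.2.2]
    exact index_map_dvd _ hπ
  have h3 : Nat.card Q = Nat.card P := by
    refine Nat.card_congr (Equiv.subtypeEquiv Multiplicative.toAdd fun v => ?_)
    constructor
    · rintro ⟨u, hu, rfl⟩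
      exact ⟨u.1, hu, rfl⟩
    · rintro ⟨u, hu, h⟩
      exact ⟨⟨u, hN.2.1 hu⟩, hu, congrArg Multiplicative.ofAdd h.symm⟩
  have h4 : Nat.card (Multiplicative (V p (FG d))) = p ^ d := by
    change Nat.card (V p (FG d)) = p ^ d
    rw [Module.natCard_eq_pow_finrank (K := ZMod p), finrank_V_FG, Nat.card_zmod]
  rw [h3, h4, Module.natCard_eq_pow_finrank (K := ZMod p) (V := P), Nat.card_zmod] at h1
  have h5 : Q.index ≤ p ^ k := Nat.le_of_dvd (pow_pos hp.pos _) h2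
  have h6 : p ^ d ≤ p ^ (finrank (ZMod p) P + k) := by
    rw [← h1, pow_add]
    exact Nat.mul_le_mul_left _ h5
  exact (Nat.pow_le_pow_iff_right hp.one_lt).1 h6

/-- the data attached to a twist in the class `S` -/
theorem gb_data (m : Mark p d k w) {r : ℕ} (τ : V p (FG d) →ₗ[ZMod p] XW p w)
    (h : ClS p r (m.twist τ).grp) :
    ∃ (μ : ZMod p) (φ : FG d →* FG d) (B : XW p w →ₗ[ZMod p] XW p w), μ ≠ 0 ∧ μ ≠ 1 ∧
      rk (vmap p φ - μ • LinearMap.id) ≤ r ∧ rk (B - μ ^ 2 • LinearMap.id) ≤ r ∧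
      ∀ (g : FG d) (hg : g ∈ m.N), ∃ h : φ g ∈ m.N,
        (m.twl τ).1 ⟨φ g, h⟩ = B ((m.twl τ).1 ⟨g, hg⟩) := by
  obtain ⟨-, α, μ, h0, h1, hα, hβ⟩ := h
  obtain ⟨A, B, hAB⟩ := Mark.exists_ind α
  have h2 := Mark.rk_ind hAB μ (μ ^ 2)
  rw [h2.1] at hα
  rw [h2.2] at hβ
  obtain ⟨φ, -, hφA, hφ⟩ := hAB
  obtain ⟨hN, hl⟩ := (m.exists_twist τ).choose_spec
  rw [← hφA] at hα
  refine ⟨μ, φ, B, h0, h1, hα, hβ, fun g hg => ?_⟩
  have hg' : g ∈ (m.twist τ).N := by
    have h3 : (m.twist τ).N = m.N := hN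
    rw [h3]; exact hg
  obtain ⟨h3, h4⟩ := hφ g hg'
  have h5 : φ g ∈ m.N := by
    have h6 : (m.twist τ).N = m.N := hN
    rw [← h6]; exact h3
  refine ⟨h5, ?_⟩
  rw [← hl (φ g) h5 h3, ← hl g hg hg']
  exact h4

end GBAux

/-- (G2) few twists of a given group are in the class `S` -/
theorem card_twist_le (m : Mark p d k w) {r : ℕ} :
    Nat.card {τ : V p (FG d) →ₗ[ZMod p] XW p w // ClS p r (m.twist τ).grp} ≤
      p ^ (2 + 2 * d * r + k * d + 2 * w * r + r * d + w * (r + k)) := by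
  classical
  have hp : p.Prime := Fact.out
  have hfV := gb_finite_V p d
  have hfL : Finite (V p (FG d) →ₗ[ZMod p] XW p w) := Module.finite_of_finite (ZMod p)
  have hfEnd : Finite (V p (FG d) →ₗ[ZMod p] V p (FG d)) := Module.finite_of_finite (ZMod p)
  have hfB : Finite (XW p w →ₗ[ZMod p] XW p w) := Module.finite_of_finite (ZMod p)
  choose μ φ B h0 h1 hA hB hφ using
    fun τ : {τ : V p (FG d) →ₗ[ZMod p] XW p w // ClS p r (m.twist τ).grp} => gb_data m τ.1 τ.2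
  choose s hs using mkV_surjective p (G := FG d)
  have hmem : ∀ (τ : {τ : V p (FG d) →ₗ[ZMod p] XW p w // ClS p r (m.twist τ).grp}) (i : Fin d),
      (s (vmap p (φ τ) (mkV p (FreeGroup.of i))))⁻¹ * φ τ (FreeGroup.of i) ∈ Phi p (FG d) := by
    intro τ i
    rw [← mkV_eq_iff, hs, vmap_mkV]
  have hQ : Nat.card (Phi p (FG d) ⧸ m.N.subgroupOf (Phi p (FG d))) = p ^ k := m.hN.2.2
  have hfQ : Finite (Phi p (FG d) ⧸ m.N.subgroupOf (Phi p (FG d))) :=
    Nat.finite_of_card_ne_zero (by rw [hQ]; exact pow_ne_zero _ hp.ne_zero)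
  let F : {τ : V p (FG d) →ₗ[ZMod p] XW p w // ClS p r (m.twist τ).grp} →
      ZMod p × {f : V p (FG d) →ₗ[ZMod p] V p (FG d) // rk f ≤ r} ×
        {f : XW p w →ₗ[ZMod p] XW p w // rk f ≤ r} ×
        (Fin d → Phi p (FG d) ⧸ m.N.subgroupOf (Phi p (FG d))) :=
    fun τ => (μ τ, ⟨_, hA τ⟩, ⟨_, hB τ⟩, fun i => QuotientGroup.mk ⟨_, hmem τ i⟩)
  have hfib : ∀ τ₀, Nat.card {τ // F τ = F τ₀} ≤ p ^ (r * d + w * (r + k)) := by
    intro τ₀
    obtain ⟨P, hP, hPN⟩ := gb_exists_piN m.hN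
    have hbd := gb_card_rho_le (vmap p (φ τ₀)) (B τ₀) (h0 τ₀) (h1 τ₀) (hA τ₀) (hB τ₀) P
      (by rw [finrank_V_FG]; exact hP)
    rw [finrank_V_FG, Module.finrank_fin_fun] at hbd
    refine le_trans (Nat.card_le_card_of_injective
      (fun τ : {τ // F τ = F τ₀} => (⟨τ.1.1 - τ₀.1, ?_⟩ : {ρ : V p (FG d) →ₗ[ZMod p] XW p w //
        ∀ v ∈ P, ρ (vmap p (φ τ₀) v) = B τ₀ (ρ v)})) ?_) hbd
    · obtain ⟨τ, hτ⟩ := τ
      have e1 : μ τ = μ τ₀ := congrArg Prod.fst hτ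
      have e2 : vmap p (φ τ) - μ τ • LinearMap.id = vmap p (φ τ₀) - μ τ₀ • LinearMap.id :=
        congrArg (fun x => x.2.1.1) hτ
      have e3 : B τ - μ τ ^ 2 • LinearMap.id = B τ₀ - μ τ₀ ^ 2 • LinearMap.id :=
        congrArg (fun x => x.2.2.1.1) hτ
      rw [e1] at e2 e3
      have e4 : vmap p (φ τ) = vmap p (φ τ₀) := sub_left_injective e2
      have e5 : B τ = B τ₀ := sub_left_injective e3
      have e6 : ∀ i : Fin d, (QuotientGroup.mk ⟨_, hmem τ i⟩ :
          Phi p (FG d) ⧸ m.N.subgroupOf (Phi p (FG d))) = QuotientGroup.mk ⟨_, hmem τ₀ i⟩ :=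
        fun i => congrFun (congrArg (fun x => x.2.2.2) hτ) i
      have e7 : ∀ i : Fin d, (φ τ (FreeGroup.of i))⁻¹ * φ τ₀ (FreeGroup.of i) ∈ m.N := by
        intro i
        have h2 := QuotientGroup.eq.1 (e6 i)
        rw [mem_subgroupOf] at h2
        have h3 : (((⟨_, hmem τ i⟩ : Phi p (FG d))⁻¹ * ⟨_, hmem τ₀ i⟩ : Phi p (FG d)) : FG d) =
            (φ τ (FreeGroup.of i))⁻¹ * φ τ₀ (FreeGroup.of i) := by
          change ((s (vmap p (φ τ) (mkV p (FreeGroup.of i))))⁻¹ * φ τ (FreeGroup.of i))⁻¹ *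
            ((s (vmap p (φ τ₀) (mkV p (FreeGroup.of i))))⁻¹ * φ τ₀ (FreeGroup.of i)) = _
          rw [e4]
          group
        rw [h3] at h2
        exact h2
      have e8 : (QuotientGroup.mk' m.N).comp (φ τ) = (QuotientGroup.mk' m.N).comp (φ τ₀) := by
        refine FreeGroup.ext_hom _ _ fun i => ?_
        exact QuotientGroup.eq.2 (e7 i)
      have e9 : ∀ f, (φ τ f)⁻¹ * φ τ₀ f ∈ m.N := fun f =>
        QuotientGroup.eq.1 (DFunLike.congr_fun e8 f)
      intro v hv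
      obtain ⟨u, hu, rfl⟩ := hPN v hv
      obtain ⟨g1, g2⟩ := hφ τ u hu
      obtain ⟨g3, g4⟩ := hφ τ₀ u hu
      have g5 := IHom_lift_indep m.hN.2.1 (m.twl τ.1) (φ τ) (φ τ₀) e9
        (fun f hf => (hφ τ f hf).choose) (fun f hf => (hφ τ₀ f hf).choose) u hu
      rw [g2, e5] at g5
      have g6 : (m.twl τ.1).1 ⟨φ τ₀ u, g3⟩ = m.l.1 ⟨φ τ₀ u, g3⟩ +
          τ.1 ((piH p d).1 ⟨φ τ₀ u, m.hN.2.1 g3⟩) := rfl
      have g7 : (m.twl τ₀.1).1 ⟨φ τ₀ u, g3⟩ = m.l.1 ⟨φ τ₀ u, g3⟩ +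
          τ₀.1 ((piH p d).1 ⟨φ τ₀ u, m.hN.2.1 g3⟩) := rfl
      have g8 : (m.twl τ.1).1 ⟨u, hu⟩ = m.l.1 ⟨u, hu⟩ + τ.1 ((piH p d).1 ⟨u, m.hN.2.1 hu⟩) := rfl
      have g9 : (m.twl τ₀.1).1 ⟨u, hu⟩ = m.l.1 ⟨u, hu⟩ + τ₀.1 ((piH p d).1 ⟨u, m.hN.2.1 hu⟩) := rfl
      have g10 := piH_natural (φ τ₀) u (m.hN.2.1 hu)
      have g11 : (piH p d).1 ⟨φ τ₀ u, m.hN.2.1 g3⟩ =
        vmap p (φ τ₀) ((piH p d).1 ⟨u, m.hN.2.1 hu⟩) := g10
      rw [← g11, LinearMap.sub_apply, LinearMap.sub_apply]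
      rw [g8, map_add] at g5
      rw [g7, g9, map_add] at g4
      have g12 : B τ₀ (m.l.1 ⟨u, hu⟩) + B τ₀ (τ.1 ((piH p d).1 ⟨u, m.hN.2.1 hu⟩)) =
        m.l.1 ⟨φ τ₀ u, g3⟩ + τ.1 ((piH p d).1 ⟨φ τ₀ u, m.hN.2.1 g3⟩) := g5
      rw [map_sub]
      linear_combination -g12 - g4
    · intro τ τ' h
      have h3 := Subtype.ext_iff.1 h
      have h4 : τ.1.1 = τ'.1.1 := sub_left_injective h3
      exact Subtype.ext (Subtype.ext h4)
  refine (gb_card_le_of_fibers F hfib).trans ?_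
  rw [Nat.card_prod, Nat.card_prod, Nat.card_prod, Nat.card_zmod, Nat.card_fun, hQ, Nat.card_fin]
  have hc1 := card_rank_le (p := p) (V := V p (FG d)) (X := V p (FG d)) r
  have hc2 := card_rank_le (p := p) (V := XW p w) (X := XW p w) r
  rw [finrank_V_FG] at hc1
  rw [Module.finrank_fin_fun] at hc2
  calc p * (Nat.card {f : V p (FG d) →ₗ[ZMod p] V p (FG d) // rk f ≤ r} *
        (Nat.card {f : XW p w →ₗ[ZMod p] XW p w // rk f ≤ r} * (p ^ k) ^ d)) *
        p ^ (r * d + w * (r + k))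
      ≤ p * (p ^ (r * (d + d)) * (p ^ (r * (w + w)) * (p ^ k) ^ d)) *
        p ^ (r * d + w * (r + k)) := by gcongr
    _ = p ^ (1 + r * (d + d) + r * (w + w) + k * d + (r * d + w * (r + k))) := by
        rw [← pow_mul]
        ring
    _ ≤ _ := Nat.pow_le_pow_right hp.pos (by nlinarith)

end Pool.Agent.IG
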