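import Pool.Agent.IG.Inv

/-!
# Type I groups: adapted generators and relations
-/

open Subgroup Filter
open scoped commutatorElement

noncomputable section

namespace Pool.Agent.IG

variable {p : ℕ} [Fact p.Prime]

/-! ### B1: adapted generators -/

/-- a subgroup containing the commutators is normal -/
theorem normal_of_commutator_le {G : Type} [Group G] {T : Subgroup G} (hT : commutator G ≤ T) :
    T.Normal := by
  refine ⟨fun n hn g => ?_⟩
  have h : g * n * g⁻¹ = ⁅g, n⁆ * n := by rw [commutatorElement_def]; group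
  rw [h]
  exact mul_mem (hT (commutator_mem_commutator (mem_top g) (mem_top n))) hn

/-- the rank of an elementary abelian group -/
theorem dd_pi (ι : Type) [Fintype ι] : dd p (ι → Multiplicative (ZMod p)) = Fintype.card ι := by
  have hp : p.Prime := Fact.out
  have hbot : Phi p (ι → Multiplicative (ZMod p)) = ⊥ := by
    rw [eq_bot_iff, Phi_le_iff]
    refine ⟨fun a b => ?_, fun a => ?_⟩
    · rw [Subgroup.mem_bot, commutatorElement_eq_one_iff_mul_comm, mul_comm]
    · rw [Subgroup.mem_bot]
      funext i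
      rw [Pi.pow_apply, Pi.one_apply]
      refine Multiplicative.toAdd.injective ?_
      rw [toAdd_pow, toAdd_one, nsmul_eq_mul, CharP.cast_eq_zero, zero_mul]
  have h1 := index_Phi (p := p) (G := ι → Multiplicative (ZMod p))
  rw [hbot, index_bot, Nat.card_pi] at h1
  have h2 : ∀ i : ι, Nat.card (Multiplicative (ZMod p)) = p := fun _ => by
    rw [Nat.card_congr Multiplicative.toAdd, Nat.card_zmod]
  rw [Finset.prod_congr rfl fun i _ => h2 i, Finset.prod_const, Finset.card_univ] at h1
  exact (Nat.pow_right_injective hp.two_le h1).symm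

/-- generators of `G` modulo `T ⊇ G'` adapted to a decomposition of `G / T` into cyclic groups -/
theorem exists_adapted {G : Type} [Group G] {n : ℕ} (hG : Nat.card G = p ^ n) (T : Subgroup G)
    (hT : commutator G ≤ T) : ∃ (t : ℕ) (x : Fin t → G) (k : Fin t → ℕ), (∀ i, 1 ≤ k i) ∧
      T.index = ∏ i, p ^ k i ∧ closure ((T : Set G) ∪ Set.range x) = ⊤ ∧
      (∀ i, x i ^ p ^ k i ∈ T) ∧ t ≤ dd p G := by
  classical
  have hp : p.Prime := Fact.out
  have hfin : Finite G := Nat.finite_of_card_ne_zero (by rw [hG]; exact pow_ne_zero _ hp.ne_zero)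
  have hN : T.Normal := normal_of_commutator_le hT
  let _ : CommGroup (G ⧸ T) :=
    { (inferInstance : Group (G ⧸ T)) with
      mul_comm := by
        intro a b
        induction a using QuotientGroup.induction_on with | _ a => ?_
        induction b using QuotientGroup.induction_on with | _ b => ?_
        rw [← QuotientGroup.mk_mul, ← QuotientGroup.mk_mul, QuotientGroup.eq]
        have h : (a * b)⁻¹ * (b * a) = ⁅b⁻¹, a⁻¹⁆ := by rw [commutatorElement_def]; group
        rw [h]
        exact hT (commutator_mem_commutator (mem_top _) (mem_top _)) }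
  obtain ⟨ι, hι, m, hm, ⟨e⟩⟩ := CommGroup.equiv_prod_multiplicative_zmod_of_finite (G ⧸ T)
  have hidx : T.index = ∏ i, m i := by
    rw [index, Nat.card_congr e.toEquiv, Nat.card_pi]
    refine Finset.prod_congr rfl fun i _ => ?_
    rw [Nat.card_congr Multiplicative.toAdd, Nat.card_zmod]
  have hdvd : T.index ∣ p ^ n := hG ▸ T.index_dvd_card
  have hk : ∀ i, ∃ k, 1 ≤ k ∧ m i = p ^ k := by
    intro i
    have h1 : m i ∣ p ^ n := (Finset.dvd_prod_of_mem m (Finset.mem_univ i)).trans (hidx ▸ hdvd)
    obtain ⟨k, _, hk⟩ := (Nat.dvd_prime_pow hp).1 h1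
    refine ⟨k, ?_, hk⟩
    by_contra hcon
    have h2 : k = 0 := by omega
    have := hm i
    rw [hk, h2, pow_zero] at this
    exact lt_irrefl _ this
  choose k hk1 hk2 using hk
  let E : ι ≃ Fin (Fintype.card ι) := Fintype.equivFin ι
  have hx : ∀ i : ι, ∃ x : G, (x : G ⧸ T) = e.symm (Pi.mulSingle i (Multiplicative.ofAdd 1)) :=
    fun i => QuotientGroup.mk_surjective _
  choose x hx using hx
  refine ⟨Fintype.card ι, fun j => x (E.symm j), fun j => k (E.symm j), fun j => hk1 _, ?_, ?_,
    ?_, ?_⟩
  · rw [hidx, ← Equiv.prod_comp E.symm]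
    exact Finset.prod_congr rfl fun i _ => hk2 _
  · set S := closure ((T : Set G) ∪ Set.range fun j => x (E.symm j)) with hS
    have hTS : T ≤ S := fun g hg => subset_closure (Or.inl hg)
    have hxS : ∀ i, x i ∈ S := fun i => subset_closure (Or.inr ⟨E i, by simp⟩)
    have hmem : ∀ y : G ⧸ T, y ∈ S.map (QuotientGroup.mk' T) := by
      intro y
      have h1 : y = ∏ i, e.symm (Pi.mulSingle i (e y i)) := by
        rw [← map_prod, Finset.univ_prod_mulSingle, e.symm_apply_apply]
      rw [h1]
      refine prod_mem fun i _ => ?_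
      have h2 : (Pi.mulSingle i (e y i) : (i : ι) → Multiplicative (ZMod (m i)))
          = (Pi.mulSingle i (Multiplicative.ofAdd 1)) ^ (Multiplicative.toAdd (e y i)).val := by
        rw [← Pi.mulSingle_pow]
        congr 1
        refine Multiplicative.toAdd.injective ?_
        have : NeZero (m i) := ⟨by have := hm i; omega⟩
        rw [toAdd_pow, toAdd_ofAdd, nsmul_eq_mul, mul_one, ZMod.natCast_zmod_val]
      rw [h2, map_pow, ← hx]
      exact pow_mem (mem_map_of_mem _ (hxS i)) _
    rw [eq_top_iff]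
    intro g _
    obtain ⟨s, hs, hsg⟩ := hmem (g : G ⧸ T)
    have h3 : s⁻¹ * g ∈ T := QuotientGroup.eq.1 hsg
    have h4 : g = s * (s⁻¹ * g) := by group
    rw [h4]
    exact mul_mem hs (hTS h3)
  · intro j
    change x (E.symm j) ^ p ^ k (E.symm j) ∈ T
    rw [← QuotientGroup.eq_one_iff, QuotientGroup.mk_pow, hx, ← map_pow, ← Pi.mulSingle_pow]
    have h1 : (Multiplicative.ofAdd (1 : ZMod (m (E.symm j)))) ^ p ^ k (E.symm j) = 1 := by
      refine Multiplicative.toAdd.injective ?_
      rw [toAdd_pow, toAdd_ofAdd, nsmul_eq_mul, mul_one, toAdd_one, ← hk2, ZMod.natCast_self]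
    rw [h1, Pi.mulSingle_one, map_one]
  · have hpm : ∀ i, p ∣ m i := fun i => by
      rw [hk2 i]
      exact dvd_pow_self p (by have := hk1 i; omega)
    let F : G →* (ι → Multiplicative (ZMod p)) :=
      (MonoidHom.pi fun i : ι => (((ZMod.castHom (hpm i) (ZMod p)).toAddMonoidHom.toMultiplicative).comp
        (Pi.evalMonoidHom (fun i : ι => Multiplicative (ZMod (m i))) i))).comp
        (e.toMonoidHom.comp (QuotientGroup.mk' T))
    have hF : Function.Surjective F := by
      intro y
      have h1 : ∀ i, ∃ z : ZMod (m i), ZMod.castHom (hpm i) (ZMod p) z = Multiplicative.toAdd (y i) :=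
        fun i => ZMod.castHom_surjective (hpm i) _
      choose z hz using h1
      obtain ⟨g, hg⟩ := QuotientGroup.mk_surjective (e.symm fun i => Multiplicative.ofAdd (z i))
      refine ⟨g, ?_⟩
      funext i
      change Multiplicative.ofAdd (ZMod.castHom (hpm i) (ZMod p)
        (Multiplicative.toAdd (e (g : G ⧸ T) i))) = y i
      rw [hg, e.apply_symm_apply, toAdd_ofAdd, hz]
      rfl
    rw [← dd_pi (p := p) ι]
    exact dd_le_of_surjective F hF

/-! ### B2: relations -/

section relations

variable {G : Type} [Group G]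

theorem rel_conj (x y z : G) : z * ⁅x, y⁆ * z⁻¹ =
    ⁅z, x⁆ * (x * ⁅z, y⁆ * x⁻¹) * ⁅x, y⁆ * (y * ⁅z, x⁆⁻¹ * y⁻¹) * ⁅z, y⁆⁻¹ := by
  simp only [commutatorElement_def]; group

theorem rel_pow (x y : G) (m : ℕ) : y * x ^ m * y⁻¹ =
    ((List.range m).map fun l => x ^ l * ⁅y, x⁆ * (x ^ l)⁻¹).prod * x ^ m := by
  induction m with
  | zero => simp
  | succ m ih =>
    rw [List.range_succ, List.map_append, List.prod_append]
    have h1 : y * x ^ (m + 1) * y⁻¹ = (y * x ^ m * y⁻¹) * (y * x * y⁻¹) := by
      rw [pow_succ]; group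
    rw [h1, ih]
    simp only [List.map_cons, List.map_nil, List.prod_cons, List.prod_nil, mul_one]
    have h2 : y * x * y⁻¹ = ⁅y, x⁆ * x := by rw [commutatorElement_def]; group
    rw [h2, pow_succ]
    group

end relations

end Pool.Agent.IG
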