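import Pool.Agent.IG.Inv

/-!
# Type I groups: the sets of commutator data
-/

open Subgroup Filter
open scoped commutatorElement

noncomputable section

namespace Pool.Agent.IG

variable {p : ℕ} [Fact p.Prime]

/-- the properties of the set of realised commutator data -/
structure CProp (p : ℕ) {T : Type} [Group T] {t : ℕ} (a : Fin t → MulAut T) (J : Finset (Fin t))
    (C : Set (Fin t → Fin t → T)) : Prop where
  symm : ∀ c ∈ C, ∀ i j, c j i = (c i j)⁻¹
  diag : ∀ c ∈ C, ∀ i, c i i = 1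
  mem : ∀ c ∈ C, ∀ c' ∈ C, ∀ i j, (c i j)⁻¹ * c' i j ∈ center T ⊓ commutator T
  fix : ∀ c ∈ C, ∀ c' ∈ C, ∀ i j k, c i k = c' i k → c j k = c' j k →
    a k ((c i j)⁻¹ * c' i j) = (c i j)⁻¹ * c' i j
  nrm : ∀ c ∈ C, ∀ c' ∈ C, ∀ i ∈ J, ∀ j,
    ((List.range p).map fun l => ((a i) ^ l : MulAut T) ((c i j)⁻¹ * c' i j)).prod = 1

/-- the elements of `Z(T) ∩ T'` fixed by `a k`, `k ∈ I` -/
def MI {T : Type} [Group T] {t : ℕ} (a : Fin t → MulAut T) (I : Finset (Fin t)) : Subgroup T where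
  carrier := {m | m ∈ center T ∧ m ∈ commutator T ∧ ∀ k ∈ I, a k m = m}
  mul_mem' := by
    rintro x y ⟨h1, h2, h3⟩ ⟨h1', h2', h3'⟩
    exact ⟨mul_mem h1 h1', mul_mem h2 h2', fun k hk => by rw [map_mul, h3 k hk, h3' k hk]⟩
  one_mem' := ⟨one_mem _, one_mem _, fun k _ => map_one _⟩
  inv_mem' := by
    rintro x ⟨h1, h2, h3⟩
    exact ⟨inv_mem h1, inv_mem h2, fun k hk => by rw [map_inv, h3 k hk]⟩

/-- the elements of exponent `p` of `MI a ⊤` -/
def MOm (p : ℕ) {T : Type} [Group T] {t : ℕ} (a : Fin t → MulAut T) : Subgroup T where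
  carrier := {m | m ∈ MI a Finset.univ ∧ m ^ p = 1}
  mul_mem' := by
    rintro x y ⟨h1, h2⟩ ⟨h1', h2'⟩
    refine ⟨mul_mem h1 h1', ?_⟩
    rw [(show Commute x y from ((mem_center_iff.1 h1.1) y).symm).mul_pow, h2, h2', mul_one]
  one_mem' := ⟨one_mem _, one_pow p⟩
  inv_mem' := by
    rintro x ⟨h1, h2⟩
    exact ⟨inv_mem h1, by rw [inv_pow, h2, inv_one]⟩

/-! ### counting families of functions -/

theorem card_le_pow_of_diff {ι T : Type} [Group T] [Finite T] [DecidableEq ι] [DecidableEq T]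
    [DecidableEq (ι → T)]
    (C : Finset (ι → T)) (P : Finset ι) (k : ℕ) (H : ι → Subgroup T)
    (hH : ∀ e ∈ P, Nat.card (H e) ≤ k)
    (hdiff : ∀ c ∈ C, ∀ c' ∈ C, ∀ e ∈ P, (c e)⁻¹ * c' e ∈ H e)
    (hdet : ∀ c ∈ C, ∀ c' ∈ C, (∀ e ∈ P, c e = c' e) → c = c') : C.card ≤ k ^ P.card := by
  rcases C.eq_empty_or_nonempty with rfl | ⟨c0, hc0⟩
  · simp
  let f : C → (∀ e : P, H e.1) := fun c e => ⟨(c0 e.1)⁻¹ * c.1 e.1, hdiff c0 hc0 c.1 c.2 e.1 e.2⟩
  have hf : Function.Injective f := by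
    intro c c' h
    refine Subtype.ext (hdet c.1 c.2 c'.1 c'.2 fun e he => ?_)
    have h1 : (f c ⟨e, he⟩ : T) = f c' ⟨e, he⟩ := by rw [h]
    exact mul_left_cancel h1
  have h1 := Nat.card_le_card_of_injective f hf
  rw [Nat.card_eq_fintype_card, Fintype.card_coe, Nat.card_pi] at h1
  refine h1.trans ?_
  calc ∏ e : P, Nat.card (H e.1) ≤ ∏ _e : P, k := Finset.prod_le_prod' fun e _ => hH e.1 e.2
    _ = k ^ P.card := by rw [Finset.prod_const, Finset.card_univ, Fintype.card_coe]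

theorem card_le_two_stage {ι T : Type} [Group T] [Finite T] [DecidableEq ι] [DecidableEq T]
    [DecidableEq (ι → T)]
    (C : Finset (ι → T)) (P1 P2 : Finset ι) (k1 k2 : ℕ) (H1 H2 : ι → Subgroup T)
    (hH1 : ∀ e ∈ P1, Nat.card (H1 e) ≤ k1) (hH2 : ∀ e ∈ P2, Nat.card (H2 e) ≤ k2)
    (hdiff1 : ∀ c ∈ C, ∀ c' ∈ C, ∀ e ∈ P1, (c e)⁻¹ * c' e ∈ H1 e)
    (hdiff2 : ∀ c ∈ C, ∀ c' ∈ C, (∀ e ∈ P1, c e = c' e) → ∀ e ∈ P2, (c e)⁻¹ * c' e ∈ H2 e)
    (hdet : ∀ c ∈ C, ∀ c' ∈ C, (∀ e ∈ P1, c e = c' e) → (∀ e ∈ P2, c e = c' e) → c = c') :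
    C.card ≤ k1 ^ P1.card * k2 ^ P2.card := by
  let r : (ι → T) → (ι → T) := fun c e => if e ∈ P1 then c e else 1
  have hr : ∀ c c' : ι → T, r c = r c' → ∀ e ∈ P1, c e = c' e := by
    intro c c' h e he
    have h1 : r c e = r c' e := by rw [h]
    simpa only [r, if_pos he] using h1
  have h1 : (C.image r).card ≤ k1 ^ P1.card := by
    refine card_le_pow_of_diff (C.image r) P1 k1 H1 hH1 ?_ ?_
    · intro c hc c' hc' e he
      obtain ⟨d, hd, rfl⟩ := Finset.mem_image.mp hc
      obtain ⟨d', hd', rfl⟩ := Finset.mem_image.mp hc'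
      simp only [r, if_pos he]
      exact hdiff1 d hd d' hd' e he
    · intro c hc c' hc' h
      obtain ⟨d, hd, rfl⟩ := Finset.mem_image.mp hc
      obtain ⟨d', hd', rfl⟩ := Finset.mem_image.mp hc'
      funext e
      by_cases he : e ∈ P1
      · exact h e he
      · simp only [r, if_neg he]
  have h2 := Finset.card_le_mul_card_image (f := r) C (k2 ^ P2.card) (fun b _ => by
    refine card_le_pow_of_diff _ P2 k2 H2 hH2 ?_ ?_
    · intro c hc c' hc' e he
      obtain ⟨hc1, hc2⟩ := Finset.mem_filter.mp hc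
      obtain ⟨hc1', hc2'⟩ := Finset.mem_filter.mp hc'
      exact hdiff2 c hc1 c' hc1' (hr c c' (hc2.trans hc2'.symm)) e he
    · intro c hc c' hc' h
      obtain ⟨hc1, hc2⟩ := Finset.mem_filter.mp hc
      obtain ⟨hc1', hc2'⟩ := Finset.mem_filter.mp hc'
      exact hdet c hc1 c' hc1' (hr c c' (hc2.trans hc2'.symm)) h)
  calc C.card ≤ k2 ^ P2.card * (C.image r).card := h2
    _ ≤ k2 ^ P2.card * k1 ^ P1.card := Nat.mul_le_mul_left _ h1
    _ = _ := Nat.mul_comm _ _

/-- ordered pairs inside `S` -/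
def prs {t : ℕ} (S : Finset (Fin t)) : Finset (Fin t × Fin t) := (S ×ˢ S).filter fun x => x.1 < x.2

theorem card_prs {t : ℕ} (S : Finset (Fin t)) : (prs S).card = S.card.choose 2 :=
  Finset.card_product_filter_lt

theorem mem_prs {t : ℕ} {S : Finset (Fin t)} {x : Fin t × Fin t} :
    x ∈ prs S ↔ x.1 ∈ S ∧ x.2 ∈ S ∧ x.1 < x.2 := by
  simp [prs, and_assoc]

theorem prs_mono {t : ℕ} {S S' : Finset (Fin t)} (h : S ⊆ S') : prs S ⊆ prs S' := by
  intro x hx
  rw [mem_prs] at hx ⊢
  exact ⟨h hx.1, h hx.2.1, hx.2.2⟩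

/-- the two-stage count for sets of alternating tuples; `S` is the set of indices of the pairs in
the second stage -/
theorem CProp.card_le {T : Type} [Group T] [Finite T] {t : ℕ} {a : Fin t → MulAut T}
    {J : Finset (Fin t)} {C : Set (Fin t → Fin t → T)} (h : CProp p a J C) (S : Finset (Fin t))
    (k2 : ℕ) (H2 : Fin t × Fin t → Subgroup T) (hH2 : ∀ e ∈ prs S, Nat.card (H2 e) ≤ k2)
    (hdiff2 : ∀ c ∈ C, ∀ c' ∈ C, (∀ i j, i < j → (i, j) ∉ prs S → c i j = c' i j) →
      ∀ e ∈ prs S, (c e.1 e.2)⁻¹ * c' e.1 e.2 ∈ H2 e) :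
    C.ncard ≤ Nat.card (MI a ∅) ^ (t.choose 2 - S.card.choose 2) * k2 ^ (S.card.choose 2) := by
  classical
  let u : (Fin t → Fin t → T) → (Fin t × Fin t → T) := fun c e => c e.1 e.2
  have hu : Function.Injective u := by
    intro c c' hcc
    funext i j
    exact congrFun hcc (i, j)
  have hfin : C.Finite := Set.toFinite C
  have hcard : C.ncard = (hfin.toFinset.image u).card := by
    rw [Finset.card_image_of_injective _ hu, Set.ncard_eq_toFinset_card C hfin]
  have hP : (prs (Finset.univ : Finset (Fin t)) \ prs S).card = t.choose 2 - S.card.choose 2 := by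
    rw [Finset.card_sdiff_of_subset (prs_mono (Finset.subset_univ S)), card_prs, card_prs,
      Finset.card_univ, Fintype.card_fin]
  rw [hcard, ← hP, ← card_prs S]
  refine card_le_two_stage _ _ _ _ _ (fun _ => MI a ∅) H2 (fun _ _ => le_rfl) hH2 ?_ ?_ ?_
  · intro c hc c' hc' e _
    obtain ⟨d, hd, rfl⟩ := Finset.mem_image.mp hc
    obtain ⟨d', hd', rfl⟩ := Finset.mem_image.mp hc'
    have h1 := h.mem d (hfin.mem_toFinset.mp hd) d' (hfin.mem_toFinset.mp hd') e.1 e.2
    exact ⟨h1.1, h1.2, fun k hk => absurd hk (Finset.notMem_empty k)⟩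
  · intro c hc c' hc' hag e he
    obtain ⟨d, hd, rfl⟩ := Finset.mem_image.mp hc
    obtain ⟨d', hd', rfl⟩ := Finset.mem_image.mp hc'
    refine hdiff2 d (hfin.mem_toFinset.mp hd) d' (hfin.mem_toFinset.mp hd') ?_ e he
    intro i j hij hnot
    exact hag (i, j) (Finset.mem_sdiff.mpr ⟨mem_prs.mpr ⟨Finset.mem_univ _, Finset.mem_univ _, hij⟩,
      hnot⟩)
  · intro c hc c' hc' h1 h2
    obtain ⟨d, hd, rfl⟩ := Finset.mem_image.mp hc
    obtain ⟨d', hd', rfl⟩ := Finset.mem_image.mp hc'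
    have hd := hfin.mem_toFinset.mp hd
    have hd' := hfin.mem_toFinset.mp hd'
    have key : ∀ i j : Fin t, i < j → d i j = d' i j := by
      intro i j hij
      by_cases hin : (i, j) ∈ prs S
      · exact h2 (i, j) hin
      · exact h1 (i, j) (Finset.mem_sdiff.mpr ⟨mem_prs.mpr ⟨Finset.mem_univ _, Finset.mem_univ _,
          hij⟩, hin⟩)
    have : d = d' := by
      funext i j
      rcases lt_trichotomy i j with hij | rfl | hij
      · exact key i j hij
      · rw [h.diag d hd, h.diag d' hd']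
      · rw [h.symm d hd j i, h.symm d' hd' j i, key j i hij]
    rw [this]

/-- B3a -/
theorem card_C_le {T : Type} [Group T] [Finite T] {t : ℕ} {a : Fin t → MulAut T}
    {J : Finset (Fin t)} {C : Set (Fin t → Fin t → T)} (h : CProp p a J C) :
    C.ncard ≤ Nat.card (MI a ∅) ^ (t.choose 2) := by
  have h1 := h.card_le ∅ 1 (fun _ => ⊥) (fun e he => by simp [prs] at he)
    (fun c _ c' _ _ e he => by simp [prs] at he)
  simpa using h1

/-- B3b -/
theorem card_C_le' {T : Type} [Group T] [Finite T] {t : ℕ} {a : Fin t → MulAut T}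
    {J : Finset (Fin t)} {C : Set (Fin t → Fin t → T)} (h : CProp p a J C)
    (I : Finset (Fin t)) :
    C.ncard ≤ Nat.card (MI a ∅) ^ (t.choose 2 - (t - I.card).choose 2) *
      Nat.card (MI a I) ^ ((t - I.card).choose 2) := by
  classical
  have hc : (Iᶜ).card = t - I.card := by rw [Finset.card_compl, Fintype.card_fin]
  rw [← hc]
  refine h.card_le Iᶜ _ (fun _ => MI a I) (fun _ _ => le_rfl) ?_
  intro c hc c' hc' hag e he
  rw [mem_prs] at he
  have h1 := h.mem c hc c' hc' e.1 e.2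
  refine ⟨h1.1, h1.2, fun k hk => ?_⟩
  -- entries with the index `k` agree
  have key : ∀ i, c i k = c' i k := by
    intro i
    rcases lt_trichotomy i k with hik | rfl | hik
    · refine hag i k hik fun hmem => ?_
      rw [mem_prs] at hmem
      exact (Finset.mem_compl.mp hmem.2.1) hk
    · rw [h.diag c hc, h.diag c' hc']
    · rw [h.symm c hc k i, h.symm c' hc' k i]
      congr 1
      refine hag k i hik fun hmem => ?_
      rw [mem_prs] at hmem
      exact (Finset.mem_compl.mp hmem.1) hk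
  exact h.fix c hc c' hc' e.1 e.2 k (key _) (key _)

theorem MI_anti {T : Type} [Group T] {t : ℕ} (a : Fin t → MulAut T) {I I' : Finset (Fin t)}
    (h : I ⊆ I') : MI a I' ≤ MI a I := by
  rintro m ⟨h1, h2, h3⟩
  exact ⟨h1, h2, fun k hk => h3 k (h hk)⟩

/-- B3b': greedy choice of `I` -/
theorem exists_I {T : Type} [Group T] {τ : ℕ} (hT : Nat.card T = p ^ τ) {t : ℕ}
    (a : Fin t → MulAut T) (q : ℕ) (hq : Nat.card (MI a Finset.univ) * p ^ q ≤ Nat.card (MI a ∅)) :
    ∃ I : Finset (Fin t), I.card ≤ q ∧ Nat.card (MI a I) * p ^ q ≤ Nat.card (MI a ∅) := by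
  classical
  have hp : p.Prime := Fact.out
  have hfin : Finite T := Nat.finite_of_card_ne_zero (by rw [hT]; exact pow_ne_zero _ hp.ne_zero)
  have hpow : ∀ H : Subgroup T, ∃ k, Nat.card H = p ^ k := by
    intro H
    obtain ⟨k, _, hk⟩ := (Nat.dvd_prime_pow hp).1 (hT ▸ card_subgroup_dvd_card H)
    exact ⟨k, hk⟩
  induction q with
  | zero => exact ⟨∅, by simp, by simp⟩
  | succ q ih =>
    have hq' : Nat.card (MI a Finset.univ) * p ^ q ≤ Nat.card (MI a ∅) := by
      refine le_trans (Nat.mul_le_mul_left _ ?_) hq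
      exact Nat.pow_le_pow_right hp.pos (Nat.le_succ q)
    obtain ⟨I, hI1, hI2⟩ := ih hq'
    by_cases hdone : Nat.card (MI a I) * p ^ (q + 1) ≤ Nat.card (MI a ∅)
    · exact ⟨I, by omega, hdone⟩
    · -- some index moves an element
      obtain ⟨k, m, hm, hkm⟩ : ∃ k, ∃ m ∈ MI a I, a k m ≠ m := by
        by_contra hcon
        push Not at hcon
        apply hdone
        have : MI a I ≤ MI a Finset.univ := by
          rintro m hm
          exact ⟨hm.1, hm.2.1, fun k _ => hcon k m hm⟩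
        have h1 : Nat.card (MI a I) ≤ Nat.card (MI a Finset.univ) :=
          Subgroup.card_le_of_le this
        exact le_trans (Nat.mul_le_mul_right _ h1) hq
      have hle : MI a (insert k I) ≤ MI a I := MI_anti a (Finset.subset_insert k I)
      have hlt : Nat.card (MI a (insert k I)) < Nat.card (MI a I) := by
        refine lt_of_le_of_ne (Subgroup.card_le_of_le hle) fun heq => ?_
        have h1 : MI a (insert k I) = MI a I := Subgroup.eq_of_le_of_card_ge hle heq.ge
        rw [← h1] at hm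
        exact hkm (hm.2.2 k (Finset.mem_insert_self k I))
      have hstep : Nat.card (MI a (insert k I)) * p ≤ Nat.card (MI a I) := by
        obtain ⟨u, hu⟩ := hpow (MI a (insert k I))
        obtain ⟨v, hv⟩ := hpow (MI a I)
        rw [hu, hv] at hlt ⊢
        have huv : u < v := (Nat.pow_lt_pow_iff_right hp.one_lt).1 hlt
        rw [← pow_succ]
        exact Nat.pow_le_pow_right hp.pos huv
      refine ⟨insert k I, (Finset.card_insert_le _ _).trans (by omega), ?_⟩
      calc Nat.card (MI a (insert k I)) * p ^ (q + 1)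
          = (Nat.card (MI a (insert k I)) * p) * p ^ q := by rw [pow_succ]; ring
        _ ≤ Nat.card (MI a I) * p ^ q := Nat.mul_le_mul_right _ hstep
        _ ≤ _ := hI2

theorem mulAut_mem_center {T : Type} [Group T] (α : MulAut T) {y : T} (hy : y ∈ center T) :
    α y ∈ center T := by
  rw [mem_center_iff]
  intro z
  obtain ⟨w, rfl⟩ := α.surjective z
  rw [← map_mul, ← map_mul, mem_center_iff.1 hy w]

theorem norm_mul {T : Type} [Group T] (α : MulAut T) (x : T) {y : T} (hy : y ∈ center T)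
    (L : List ℕ) : (L.map fun l => (α ^ l : MulAut T) (x * y)).prod =
      (L.map fun l => (α ^ l : MulAut T) x).prod * (L.map fun l => (α ^ l : MulAut T) y).prod := by
  induction L with
  | nil => simp
  | cons l L ih =>
    simp only [List.map_cons, List.prod_cons]
    rw [ih, map_mul]
    have h4 := mem_center_iff.1 (mulAut_mem_center (α ^ l) hy)
      (L.map fun l => (α ^ l : MulAut T) x).prod
    rw [mul_assoc, mul_assoc, ← mul_assoc ((α ^ l : MulAut T) y), ← h4, mul_assoc]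

theorem norm_one {T : Type} [Group T] (α : MulAut T) (L : List ℕ) :
    (L.map fun l => (α ^ l : MulAut T) (1 : T)).prod = 1 := by
  refine List.prod_eq_one fun z hz => ?_
  obtain ⟨l, _, rfl⟩ := List.mem_map.1 hz
  exact map_one _

/-- the elements of `MI a ∅` killed by the norm of `a i` -/
def NK (p : ℕ) {T : Type} [Group T] {t : ℕ} (a : Fin t → MulAut T) (i : Fin t) : Subgroup T where
  carrier := {m | m ∈ MI a ∅ ∧
    ((List.range p).map fun l => ((a i) ^ l : MulAut T) m).prod = 1}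
  mul_mem' := by
    rintro x y ⟨h1, h2⟩ ⟨h1', h2'⟩
    refine ⟨mul_mem h1 h1', ?_⟩
    rw [norm_mul (a i) x h1'.1, h2, h2', one_mul]
  one_mem' := ⟨one_mem _, norm_one _ _⟩
  inv_mem' := by
    rintro x ⟨h1, h2⟩
    refine ⟨inv_mem h1, ?_⟩
    have h3 := norm_mul (a i) x (y := x⁻¹) (inv_mem h1.1) (List.range p)
    rw [mul_inv_cancel, norm_one, h2, one_mul] at h3
    exact h3.symm

theorem card_NK_le {T : Type} [Group T] [Finite T] {t : ℕ} {a : Fin t → MulAut T} {m : ℕ}
    (hm : Nat.card (MI a ∅) ≤ Nat.card (MI a Finset.univ) * m) (i : Fin t) :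
    Nat.card (NK p a i) ≤ m * Nat.card (MOm p a) := by
  have hU : MI a Finset.univ ≤ MI a ∅ := MI_anti a (Finset.empty_subset _)
  have hK : NK p a i ≤ MI a ∅ := fun x hx => hx.1
  have hinf : MI a Finset.univ ⊓ NK p a i ≤ MOm p a := by
    rintro x ⟨h1, h2⟩
    refine ⟨h1, ?_⟩
    have h3 : ∀ l : ℕ, ((a i) ^ l : MulAut T) x = x := by
      intro l
      induction l with
      | zero => simp
      | succ l ih =>
        rw [pow_succ, MulAut.mul_apply, h1.2.2 i (Finset.mem_univ i), ih]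
    have h4 := h2.2
    simp only [h3, List.map_const', List.prod_replicate, List.length_range] at h4
    exact h4
  have h1 : Nat.card (MI a Finset.univ) * (MI a Finset.univ).relIndex (MI a ∅) =
      Nat.card (MI a ∅) := by
    have h0 := relIndex_mul_relIndex ⊥ _ _ bot_le hU
    rwa [relIndex_bot_left, relIndex_bot_left] at h0
  have hpos : 0 < Nat.card (MI a Finset.univ) := Nat.card_pos
  have h2 : (MI a Finset.univ).relIndex (MI a ∅) ≤ m := by
    rw [← h1] at hm
    exact Nat.le_of_mul_le_mul_left hm hpos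
  have h3 : (MI a Finset.univ).relIndex (MI a ∅) ≠ 0 := by
    intro h0
    rw [h0, Nat.mul_zero] at h1
    have : 0 < Nat.card (MI a ∅) := Nat.card_pos
    omega
  have h4 : (MI a Finset.univ).relIndex (NK p a i) ≤ m :=
    (relIndex_le_of_le_right hK h3).trans h2
  have h5 : Nat.card (MI a Finset.univ ⊓ NK p a i : Subgroup T) *
      (MI a Finset.univ).relIndex (NK p a i) = Nat.card (NK p a i) := by
    have h0 := relIndex_mul_relIndex ⊥ (MI a Finset.univ ⊓ NK p a i) (NK p a i) bot_le inf_le_right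
    rwa [relIndex_bot_left, relIndex_bot_left, inf_relIndex_right] at h0
  rw [← h5, Nat.mul_comm]
  exact Nat.mul_le_mul h4 (Subgroup.card_le_of_le hinf)

/-- B3c -/
theorem card_C_le'' {T : Type} [Group T] [Finite T] {t : ℕ} {a : Fin t → MulAut T}
    {J : Finset (Fin t)} {C : Set (Fin t → Fin t → T)} (h : CProp p a J C) {m : ℕ}
    (hm : Nat.card (MI a ∅) ≤ Nat.card (MI a Finset.univ) * m) :
    C.ncard ≤ Nat.card (MI a ∅) ^ (t.choose 2 - J.card.choose 2) *
      (m * Nat.card (MOm p a)) ^ (J.card.choose 2) := by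
  refine h.card_le J _ (fun e => NK p a e.1) (fun e _ => card_NK_le hm e.1) ?_
  intro c hc c' hc' _ e he
  rw [mem_prs] at he
  have h1 := h.mem c hc c' hc' e.1 e.2
  exact ⟨⟨h1.1, h1.2, fun k hk => absurd hk (Finset.notMem_empty k)⟩,
    h.nrm c hc c' hc' e.1 he.1 e.2⟩

end Pool.Agent.IG
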