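import Pool.Agent.IG.TypeIA
import Pool.Agent.IG.TypeIB
import Pool.Agent.IG.BoundedIndex
import Pool.Agent.IG.FreeCount
import Pool.Agent.IG.ExtDetA

/-!
# Type I groups: data and realisations
-/

open Subgroup Filter
open scoped commutatorElement

noncomputable section

namespace Pool.Agent.IG

variable {p : ℕ} [Fact p.Prime]

/-! ### B4: the data of a group of type I -/

/-- data of a group of order `p ^ n` of type I: `T` is the quotient of the free group on `s`
generators by `R`, of order `p ^ τ` -/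
structure IData (p n s : ℕ) where
  t : ℕ
  ht : t ≤ n
  τ : ℕ
  hτ : τ ≤ n
  R : Subgroup (FG s)
  hR : R ∈ NSub p s τ
  k : Fin t → ℕ
  hk : ∀ i, 1 ≤ k i
  hkn : τ + ∑ i, k i = n

instance {p n s : ℕ} (D : IData p n s) : D.R.Normal := D.hR.1

/-- realisation of data by a group: `a`, `c`, `q` are the conjugations on the generators of `T`,
the commutators and the powers -/
def Realises {p n s : ℕ} (D : IData p n s) (a : Fin D.t → Fin s → FG s ⧸ D.R)
    (c : Fin D.t → Fin D.t → FG s ⧸ D.R) (q : Fin D.t → FG s ⧸ D.R) (G : Type) [Group G] : Prop :=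
  ∃ (f : (FG s ⧸ D.R) →* G) (x : Fin D.t → G), Function.Injective f ∧
    ⁅f.range, f.range⁆ = commutator G ∧ closure ((f.range : Set G) ∪ Set.range x) = ⊤ ∧
    (∀ i j, f (a i j) = x i * f (FreeGroup.of j : FG s) * (x i)⁻¹) ∧
    (∀ i j, f (c i j) = ⁅x i, x j⁆) ∧ ∀ i, f (q i) = x i ^ p ^ D.k i

theorem exists_realises {n s : ℕ} {G : Type} [Group G] (hG : Nat.card G = p ^ n)
    (h : TypeI s G) : ∃ (D : IData p n s) (a : _) (c : _) (q : _), Realises D a c q G := by
  classical
  have hp : p.Prime := Fact.out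
  have hfin : Finite G := Nat.finite_of_card_ne_zero (by rw [hG]; exact pow_ne_zero _ hp.ne_zero)
  obtain ⟨u, hu⟩ := h
  set T := closure (Set.range u) with hTdef
  have hcomm : commutator G ≤ T := by
    rw [← hu]
    exact Subgroup.commutator_le_self T
  have hTn : T.Normal := normal_of_commutator_le hcomm
  obtain ⟨t, x, k, hk1, hidx, hgen, hpow, _⟩ := exists_adapted hG T hcomm
  let F : FG s →* G := FreeGroup.lift u
  have hrange : F.range = T := by
    rw [FreeGroup.range_lift_eq_closure]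
  have hcardT : ∃ τ ≤ n, Nat.card T = p ^ τ := by
    have h1 : Nat.card T ∣ p ^ n := hG ▸ card_subgroup_dvd_card T
    exact (Nat.dvd_prime_pow hp).1 h1
  obtain ⟨τ, hτ, hcT⟩ := hcardT
  have hRidx : F.ker.index = p ^ τ := by
    rw [index_ker, hrange, hcT]
  have hsum : τ + ∑ i, k i = n := by
    have h1 : Nat.card T * T.index = Nat.card G := card_mul_index T
    rw [hcT, hidx, hG, Finset.prod_pow_eq_pow_sum, ← pow_add] at h1
    exact Nat.pow_right_injective hp.two_le h1
  have ht : t ≤ n := by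
    have h1 : t ≤ ∑ i, k i := by
      calc t = ∑ _i : Fin t, 1 := by simp
        _ ≤ ∑ i, k i := Finset.sum_le_sum fun i _ => hk1 i
    omega
  let D : IData p n s :=
    { t := t, ht := ht, τ := τ, hτ := hτ, R := F.ker, hR := ⟨inferInstance, hRidx⟩, k := k,
      hk := hk1, hkn := hsum }
  let f : (FG s ⧸ F.ker) →* G := QuotientGroup.kerLift F
  have hf : Function.Injective f := QuotientGroup.kerLift_injective F
  have hfr : f.range = T := by
    rw [← hrange]
    ext g
    constructor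
    · rintro ⟨w, rfl⟩
      obtain ⟨w, rfl⟩ := QuotientGroup.mk_surjective w
      exact ⟨w, rfl⟩
    · rintro ⟨w, rfl⟩
      exact ⟨(w : FG s ⧸ F.ker), rfl⟩
  have hpre : ∀ g ∈ T, ∃ w, f w = g := by
    intro g hg
    rw [← hfr] at hg
    exact hg
  have huT : ∀ j, u j ∈ T := fun j => subset_closure ⟨j, rfl⟩
  have ha : ∀ (i : Fin t) (j : Fin s), ∃ w, f w = x i * u j * (x i)⁻¹ := fun i j =>
    hpre _ (hTn.conj_mem _ (huT j) _)
  have hc : ∀ i j : Fin t, ∃ w, f w = ⁅x i, x j⁆ := fun i j =>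
    hpre _ (hcomm (commutator_mem_commutator (mem_top _) (mem_top _)))
  have hq : ∀ i : Fin t, ∃ w, f w = x i ^ p ^ k i := fun i => hpre _ (hpow i)
  choose a ha using ha
  choose c hc using hc
  choose q hq using hq
  refine ⟨D, a, c, q, f, x, hf, ?_, ?_, ?_, hc, hq⟩
  · rw [hfr, hu]
  · rw [hfr, hgen]
  · intro i j
    rw [ha]
    congr 2
    exact (FreeGroup.lift_apply_of (f := u) (x := j)).symm

theorem iso_of_realises {n s : ℕ} {G H : Type} [Group G] [Group H] (hG : Nat.card G = p ^ n)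
    (hH : Nat.card H = p ^ n) (D : IData p n s) (a : _) (c : _) (q : _)
    (h1 : Realises D a c q G) (h2 : Realises D a c q H) : Nonempty (G ≃* H) := by
  have hp : p.Prime := Fact.out
  have hfG : Finite G := Nat.finite_of_card_ne_zero (by rw [hG]; exact pow_ne_zero _ hp.ne_zero)
  have hfH : Finite H := Nat.finite_of_card_ne_zero (by rw [hH]; exact pow_ne_zero _ hp.ne_zero)
  obtain ⟨f, x, hf, hfc, hfg, hfa, hfcc, hfq⟩ := h1
  obtain ⟨f', x', hf', hfc', hfg', hfa', hfcc', hfq'⟩ := h2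
  have hidx : ∀ {K : Type} [Group K] [Finite K] (hK : Nat.card K = p ^ n)
      (g : (FG s ⧸ D.R) →* K) (_ : Function.Injective g),
      g.range.index = ∏ i, p ^ D.k i := by
    intro K _ _ hK g hg
    have h1 : Nat.card g.range = p ^ D.τ := by
      rw [← Nat.card_congr (MonoidHom.ofInjective hg).toEquiv]
      exact D.hR.2
    have h2 : Nat.card g.range * g.range.index = Nat.card K := card_mul_index _
    have h3 : p ^ n = p ^ D.τ * p ^ (∑ i, D.k i) := by rw [← pow_add, D.hkn]
    rw [h1, hK, h3] at h2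
    rw [Finset.prod_pow_eq_pow_sum]
    exact Nat.eq_of_mul_eq_mul_left (pow_pos hp.pos _) h2
  have hn1 : f.range.Normal := normal_of_commutator_le (by
    rw [← hfc]; exact Subgroup.commutator_le_self _)
  have hn2 : f'.range.Normal := normal_of_commutator_le (by
    rw [← hfc']; exact Subgroup.commutator_le_self _)
  let ι : f.range ≃* f'.range := (MonoidHom.ofInjective hf).symm.trans (MonoidHom.ofInjective hf')
  have hι : ∀ w, ((ι ⟨f w, ⟨w, rfl⟩⟩ : f'.range) : H) = f' w := by
    intro w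
    have h3 : (MonoidHom.ofInjective hf).symm ⟨f w, ⟨w, rfl⟩⟩ = w := by
      rw [MulEquiv.symm_apply_eq]
      rfl
    change ((MonoidHom.ofInjective hf' ((MonoidHom.ofInjective hf).symm ⟨f w, ⟨w, rfl⟩⟩) :
      f'.range) : H) = f' w
    rw [h3]
    rfl
  -- conjugation
  have hconj : ∀ (i : Fin D.t) (w : FG s ⧸ D.R), ∃ w', f w' = x i * f w * (x i)⁻¹ ∧
      f' w' = x' i * f' w * (x' i)⁻¹ := by
    intro i
    have key : ∀ v : FG s, ∃ w', f w' = x i * f (v : FG s ⧸ D.R) * (x i)⁻¹ ∧
        f' w' = x' i * f' (v : FG s ⧸ D.R) * (x' i)⁻¹ := by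
      intro v
      induction v using FreeGroup.induction_on with
      | C1 => exact ⟨1, by simp, by simp⟩
      | of j => exact ⟨a i j, hfa i j, hfa' i j⟩
      | inv_of j ih =>
        obtain ⟨w', h3, h4⟩ := ih
        refine ⟨w'⁻¹, ?_, ?_⟩
        · rw [map_inv, h3, QuotientGroup.mk_inv, map_inv]; group
        · rw [map_inv, h4, QuotientGroup.mk_inv, map_inv]; group
      | mul v₁ v₂ ih₁ ih₂ =>
        obtain ⟨w₁, h3, h4⟩ := ih₁
        obtain ⟨w₂, h5, h6⟩ := ih₂
        refine ⟨w₁ * w₂, ?_, ?_⟩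
        · rw [map_mul, h3, h5, QuotientGroup.mk_mul, map_mul]; group
        · rw [map_mul, h4, h6, QuotientGroup.mk_mul, map_mul]; group
    intro w
    obtain ⟨v, rfl⟩ := QuotientGroup.mk_surjective w
    exact key v
  obtain ⟨Θ, _⟩ := ext_det ι x x' (fun i => p ^ D.k i) (hidx hG f hf) (hidx hH f' hf') hfg hfg'
    (by
      rintro i ⟨_, w, rfl⟩ ⟨_, w₂, rfl⟩ hv
      obtain ⟨w', h3, h4⟩ := hconj i w
      simp only at hv
      rw [hι, hι, ← h4]
      rw [← h3] at hv
      rw [hf hv])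
    (by
      intro i j
      refine ⟨⟨f (c i j), ⟨_, rfl⟩⟩, hfcc i j, ?_⟩
      rw [hι, hfcc'])
    (by
      intro i
      refine ⟨⟨f (q i), ⟨_, rfl⟩⟩, hfq i, ?_⟩
      rw [hι, hfq'])
  exact ⟨Θ⟩

end Pool.Agent.IG
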