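import Pool.Agent.IG.TypeIC

/-!
# Type I groups: the realised commutator data satisfy `CProp`
-/

open Subgroup Filter
open scoped commutatorElement

noncomputable section

namespace Pool.Agent.IG

variable {p : ℕ} [Fact p.Prime]

/-! ### one realisation -/

section one

variable {T G : Type} [Group T] [Group G] {t : ℕ}

/-- the situation of a realisation: `f` embeds `T`, `T' = G'`, the `x i` act on `T` by `α i` -/
structure Rlz (f : T →* G) (x : Fin t → G) (α : Fin t → MulAut T) (c : Fin t → Fin t → T) :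
    Prop where
  inj : Function.Injective f
  com : ⁅f.range, f.range⁆ = commutator G
  gen : closure ((f.range : Set G) ∪ Set.range x) = ⊤
  act : ∀ i u, f (α i u) = x i * f u * (x i)⁻¹
  cc : ∀ i j, f (c i j) = ⁅x i, x j⁆

variable {f : T →* G} {x : Fin t → G} {α : Fin t → MulAut T} {c : Fin t → Fin t → T}

theorem Rlz.map_commutator (h : Rlz f x α c) : (commutator T).map f = commutator G := by
  rw [map_commutator_eq, h.com]

theorem Rlz.mem_commutator_iff (h : Rlz f x α c) {u : T} :
    f u ∈ commutator G ↔ u ∈ commutator T := by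
  rw [← h.map_commutator]
  constructor
  · rintro ⟨v, hv, hvu⟩
    rw [← h.inj hvu]; exact hv
  · intro hu; exact ⟨u, hu, rfl⟩

theorem Rlz.symm (h : Rlz f x α c) (i j : Fin t) : c j i = (c i j)⁻¹ := by
  apply h.inj
  rw [map_inv, h.cc, h.cc, commutatorElement_inv]

theorem Rlz.diag (h : Rlz f x α c) (i : Fin t) : c i i = 1 := by
  apply h.inj
  rw [h.cc, map_one, commutatorElement_self]

theorem Rlz.mem (h : Rlz f x α c) (i j : Fin t) : c i j ∈ commutator T := by
  rw [← h.mem_commutator_iff, h.cc]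
  exact commutator_mem_commutator (mem_top _) (mem_top _)

/-- conjugation by the commutators -/
theorem Rlz.conj (h : Rlz f x α c) (i j : Fin t) (u : T) :
    c i j * u * (c i j)⁻¹ = (α i * α j * (α i)⁻¹ * (α j)⁻¹) u := by
  apply h.inj
  have h1 : ∀ k u, f ((α k)⁻¹ u) = (x k)⁻¹ * f u * x k := by
    intro k u
    have h2 := h.act k ((α k)⁻¹ u)
    rw [MulAut.apply_inv_self] at h2
    rw [h2]; group
  simp only [MulAut.mul_apply]
  rw [h.act, h.act, h1, h1, map_mul, map_mul, map_inv, h.cc, commutatorElement_def]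
  group

theorem Rlz.conj_gen (h : Rlz f x α c) (i j k : Fin t) :
    α k (c i j) = c k i * α i (c k j) * c i j * α j ((c k i)⁻¹) * (c k j)⁻¹ := by
  apply h.inj
  rw [h.act, h.cc, rel_conj, map_mul, map_mul, map_mul, map_mul, h.act, h.act, map_inv, map_inv,
    h.cc, h.cc, h.cc]

theorem Rlz.act_pow (h : Rlz f x α c) (i : Fin t) (l : ℕ) (u : T) :
    f (((α i) ^ l : MulAut T) u) = x i ^ l * f u * (x i ^ l)⁻¹ := by
  induction l with
  | zero => simp
  | succ l ih =>
    rw [pow_succ', MulAut.mul_apply, h.act, ih, pow_succ']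
    group

theorem Rlz.norm (h : Rlz f x α c) (i j : Fin t) (m : ℕ) (q : T) (hq : f q = x i ^ m) :
    α j q = ((List.range m).map fun l => ((α i) ^ l : MulAut T) (c j i)).prod * q := by
  apply h.inj
  rw [h.act, hq, rel_pow, map_mul, hq, map_list_prod, List.map_map]
  congr 2
  refine List.map_congr_left fun l _ => ?_
  rw [Function.comp_apply, h.act_pow, h.cc]

/-- an element of `T` is central in `G` iff it is central in `T` and fixed by all `α k` -/
theorem Rlz.mem_center_iff (h : Rlz f x α c) {u : T} :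
    f u ∈ center G ↔ u ∈ center T ∧ ∀ k, α k u = u := by
  constructor
  · intro hu
    refine ⟨?_, fun k => h.inj ?_⟩
    · rw [Subgroup.mem_center_iff]
      intro v
      apply h.inj
      rw [map_mul, map_mul, Subgroup.mem_center_iff.1 hu (f v)]
    · rw [h.act, Subgroup.mem_center_iff.1 hu (x k), mul_inv_cancel_right]
  · rintro ⟨h1, h2⟩
    rw [Subgroup.mem_center_iff]
    have key : (⊤ : Subgroup G) ≤ centralizer {f u} := by
      rw [← h.gen, closure_le]
      rintro g (⟨v, rfl⟩ | ⟨k, rfl⟩)
      · rw [SetLike.mem_coe, mem_centralizer_singleton_iff, ← map_mul, ← map_mul,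
          Subgroup.mem_center_iff.1 h1 v]
      · rw [SetLike.mem_coe, mem_centralizer_singleton_iff]
        have h3 := h.act k u
        rw [h2 k] at h3
        rw [eq_mul_inv_iff_mul_eq] at h3
        exact h3.symm
    intro g
    exact mem_centralizer_singleton_iff.1 (key (mem_top g))

theorem Rlz.map_MOm (h : Rlz f x α c) : (MOm p α).map f = Om p G := by
  ext g
  constructor
  · rintro ⟨u, ⟨⟨h1, h2, h3⟩, h4⟩, rfl⟩
    refine ⟨h.mem_center_iff.2 ⟨h1, fun k => h3 k (Finset.mem_univ k)⟩,
      h.mem_commutator_iff.2 h2, ?_⟩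
    rw [← map_pow, h4, map_one]
  · rintro ⟨h1, h2, h3⟩
    have h4 := h2
    rw [← h.map_commutator] at h4
    obtain ⟨u, hu, rfl⟩ := h4
    obtain ⟨h5, h6⟩ := h.mem_center_iff.1 h1
    refine ⟨u, ⟨⟨h5, hu, fun k _ => h6 k⟩, ?_⟩, rfl⟩
    apply h.inj
    rw [map_pow, h3, map_one]

theorem Rlz.card_MOm [Finite G] (h : Rlz f x α c) : Nat.card (MOm p α) = p ^ om p G := by
  rw [← card_OV, ← h.map_MOm (p := p)]
  exact Nat.card_congr ((MOm p α).equivMapOfInjective f h.inj).toEquiv

end one

/-! ### the number of generators -/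

/-- in a commutative group the subgroup generated by `y i`, `y i ^ m i = 1`, has at most
`∏ m i` elements -/
theorem card_closure_le {Q : Type} [CommGroup Q] {t : ℕ} (y : Fin t → Q) (m : Fin t → ℕ)
    (hm : ∀ i, 0 < m i) (h : ∀ i, y i ^ m i = 1) :
    Nat.card (closure (Set.range y)) ≤ ∏ i, m i := by
  have hcomm : Pairwise fun i j => ∀ (a : zpowers (y i)) (b : zpowers (y j)),
      Commute ((zpowers (y i)).subtype a) ((zpowers (y j)).subtype b) :=
    fun i j _ a b => Commute.all _ _
  let F := MonoidHom.noncommPiCoprod (fun i => (zpowers (y i)).subtype) hcomm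
  have hfin : ∀ i, Finite (zpowers (y i)) := fun i => by
    rw [← SetLike.coe_sort_coe, Set.finite_coe_iff, finite_zpowers, isOfFinOrder_iff_pow_eq_one]
    exact ⟨m i, hm i, h i⟩
  have hr : F.range = closure (Set.range y) := by
    rw [MonoidHom.noncommPiCoprod_range]
    refine le_antisymm (iSup_le fun i => ?_) ?_
    · rw [range_subtype, zpowers_le]
      exact subset_closure ⟨i, rfl⟩
    · rw [closure_le]
      rintro _ ⟨i, rfl⟩
      refine (le_iSup (fun i => ((zpowers (y i)).subtype).range) i : _) ?_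
      rw [range_subtype]
      exact mem_zpowers (y i)
  rw [← hr]
  have h1 : Nat.card F.range ≤ Nat.card (∀ i, zpowers (y i)) :=
    Nat.card_le_card_of_surjective F.rangeRestrict F.rangeRestrict_surjective
  refine h1.trans ?_
  rw [Nat.card_pi]
  refine Finset.prod_le_prod' fun i _ => ?_
  rw [Nat.card_zpowers]
  exact orderOf_le_of_pow_eq_one (hm i) (h i)

theorem le_dd_of_gen {G : Type} [Group G] {n : ℕ} (hG : Nat.card G = p ^ n) (N : Subgroup G)
    (hN : commutator G ≤ N) {t : ℕ} (x : Fin t → G) (k : Fin t → ℕ) (hk : ∀ i, 1 ≤ k i)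
    (hidx : N.index = ∏ i, p ^ k i) (hgen : closure ((N : Set G) ∪ Set.range x) = ⊤)
    (hx : ∀ i, x i ^ p ^ k i ∈ N) : t ≤ dd p G := by
  have hp : p.Prime := Fact.out
  have hfin : Finite G := Nat.finite_of_card_ne_zero (by rw [hG]; exact pow_ne_zero _ hp.ne_zero)
  have hnorm : N.Normal := by
    refine ⟨fun a ha g => ?_⟩
    have h1 : g * a * g⁻¹ = ⁅g, a⁆ * a := by rw [commutatorElement_def]; group
    rw [h1]
    exact mul_mem (hN (commutator_mem_commutator (mem_top _) (mem_top _))) ha
  let _ : CommGroup (G ⧸ N) :=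
    { (inferInstance : Group (G ⧸ N)) with
      mul_comm := by
        intro a b
        induction a using QuotientGroup.induction_on with | _ a => ?_
        induction b using QuotientGroup.induction_on with | _ b => ?_
        rw [← QuotientGroup.mk_mul, ← QuotientGroup.mk_mul, QuotientGroup.eq]
        have h : (a * b)⁻¹ * (b * a) = ⁅b⁻¹, a⁻¹⁆ := by rw [commutatorElement_def]; group
        rw [h]
        exact hN (commutator_mem_commutator (mem_top _) (mem_top _)) }
  let y : Fin t → G ⧸ N := fun i => ((x i : G) : G ⧸ N)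
  have hytop : closure (Set.range y) = ⊤ := by
    have h1 : (⊤ : Subgroup G) ≤ (closure (Set.range y)).comap (QuotientGroup.mk' N) := by
      rw [← hgen, closure_le]
      rintro g (hg | ⟨i, rfl⟩)
      · rw [SetLike.mem_coe, Subgroup.mem_comap, QuotientGroup.mk'_apply, (QuotientGroup.eq_one_iff g).2 hg]
        exact one_mem _
      · rw [SetLike.mem_coe, Subgroup.mem_comap]
        exact subset_closure ⟨i, rfl⟩
    rw [eq_top_iff]
    intro z _
    obtain ⟨g, rfl⟩ := QuotientGroup.mk_surjective z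
    exact h1 (mem_top g)
  let E : Subgroup (G ⧸ N) := closure (Set.range fun i => y i ^ p)
  have hE : Nat.card E ≤ ∏ i, p ^ (k i - 1) := by
    refine card_closure_le _ _ (fun i => pow_pos hp.pos _) fun i => ?_
    rw [← pow_mul, ← pow_succ', Nat.sub_add_cancel (hk i)]
    change ((x i : G) : G ⧸ N) ^ p ^ k i = 1
    rw [← QuotientGroup.mk_pow, QuotientGroup.eq_one_iff]
    exact hx i
  have hQ : Nat.card (G ⧸ N) = ∏ i, p ^ k i := by rw [← hidx, index_eq_card]
  have hEidx : p ^ t ≤ E.index := by
    have h1 : Nat.card E * E.index = ∏ i, p ^ k i := by rw [card_mul_index, hQ]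
    have h2 : ∏ i, p ^ k i = (∏ i, p ^ (k i - 1)) * p ^ t := by
      have h3 : (p ^ t : ℕ) = ∏ _i : Fin t, p := by
        rw [Finset.prod_const, Finset.card_univ, Fintype.card_fin]
      rw [h3, ← Finset.prod_mul_distrib]
      refine Finset.prod_congr rfl fun i _ => ?_
      rw [← pow_succ, Nat.sub_add_cancel (hk i)]
    have hpos : 0 < ∏ i, p ^ (k i - 1) := Finset.prod_pos fun i _ => pow_pos hp.pos _
    rw [h2] at h1
    have h4 : (∏ i, p ^ (k i - 1)) * p ^ t ≤ (∏ i, p ^ (k i - 1)) * E.index := by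
      rw [← h1]
      exact Nat.mul_le_mul_right _ hE
    exact Nat.le_of_mul_le_mul_left h4 hpos
  have hPhi : Phi p G ≤ E.comap (QuotientGroup.mk' N) := by
    rw [Phi_le_iff]
    constructor
    · intro a b
      rw [Subgroup.mem_comap, QuotientGroup.mk'_apply, (QuotientGroup.eq_one_iff _).2
        (hN (commutator_mem_commutator (mem_top a) (mem_top b)))]
      exact one_mem _
    · intro a
      rw [Subgroup.mem_comap, map_pow]
      have h1 : (⊤ : Subgroup (G ⧸ N)) ≤ E.comap (powMonoidHom p) := by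
        rw [← hytop, closure_le]
        rintro _ ⟨i, rfl⟩
        exact subset_closure ⟨i, rfl⟩
      exact h1 (mem_top (QuotientGroup.mk' N a))
  have h1 : E.index ≤ (Phi p G).index := by
    rw [← index_comap_of_surjective E (QuotientGroup.mk'_surjective N)]
    exact Nat.le_of_dvd (Nat.pos_of_ne_zero index_ne_zero_of_finite) (index_dvd_of_le hPhi)
  rw [index_Phi] at h1
  exact (Nat.pow_le_pow_iff_right hp.one_lt).1 (hEidx.trans h1)

/-- the automorphisms of `T` given by `a`, and the relations of the realised commutators -/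
theorem realised_CProp {n s : ℕ} (D : IData p n s) (a : _) (q : _) (hne : ∃ (G : Type) (_ : Group G)
    (c : _), Nat.card G = p ^ n ∧ Realises D a c q G) :
    ∃ α : Fin D.t → MulAut (FG s ⧸ D.R),
      (∀ i j, α i (FreeGroup.of j : FG s) = a i j) ∧
      CProp p α (Finset.univ.filter fun i => D.k i = 1)
        {c | ∃ (G : Type) (_ : Group G), Nat.card G = p ^ n ∧ Realises D a c q G} ∧
      ∀ (G : Type) [Group G] (c : _), Nat.card G = p ^ n → Realises D a c q G →
        D.t ≤ dd p G ∧ Nat.card (MOm p α) = p ^ om p G ∧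
        D.t + Nat.log p (Nat.card (MI α ∅)) ≤ n := by
  have hp : p.Prime := Fact.out
  have hcardT : Nat.card (FG s ⧸ D.R) = p ^ D.τ := by rw [← index_eq_card, D.hR.2]
  have hfinT : Finite (FG s ⧸ D.R) :=
    Nat.finite_of_card_ne_zero (by rw [hcardT]; exact pow_ne_zero _ hp.ne_zero)
  -- the range is normal
  have hnorm : ∀ (G : Type) [Group G] (f : (FG s ⧸ D.R) →* G),
      ⁅f.range, f.range⁆ = commutator G → f.range.Normal := by
    intro G _ f hf
    have hle : commutator G ≤ f.range := by
      rw [← hf]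
      exact commutator_le_self _
    refine ⟨fun a ha g => ?_⟩
    have h1 : g * a * g⁻¹ = ⁅g, a⁆ * a := by rw [commutatorElement_def]; group
    rw [h1]
    exact mul_mem (hle (commutator_mem_commutator (mem_top _) (mem_top _))) ha
  -- uniqueness of the action
  have huniq : ∀ (G : Type) [Group G] (f : (FG s ⧸ D.R) →* G) (g : G)
      (β : (FG s ⧸ D.R) →* (FG s ⧸ D.R)),
      (∀ j, f (β (FreeGroup.of j : FG s)) = g * f (FreeGroup.of j : FG s) * g⁻¹) →
      ∀ u, f (β u) = g * f u * g⁻¹ := by
    intro G _ f g β hβ u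
    have h1 : f.comp β = (MulAut.conj g).toMonoidHom.comp f := by
      refine QuotientGroup.monoidHom_ext _ (FreeGroup.ext_hom _ _ fun j => ?_)
      exact hβ j
    exact DFunLike.congr_fun h1 u
  obtain ⟨G0, _, c0, hG0, f0, x0, hinj0, hcom0, hgen0, hact0, hcc0, hq0⟩ := hne
  have hn0 := hnorm G0 f0 hcom0
  -- the automorphism of `T` induced by conjugation with `x0 i`
  let e0 : (FG s ⧸ D.R) ≃* f0.range := MonoidHom.ofInjective hinj0
  let α : Fin D.t → MulAut (FG s ⧸ D.R) := fun i =>
    (e0.trans (MulAut.conjNormal (x0 i) : MulAut f0.range)).trans e0.symm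
  have hα0 : ∀ i u, f0 (α i u) = x0 i * f0 u * (x0 i)⁻¹ := by
    intro i u
    have h1 : e0 (α i u) = (MulAut.conjNormal (x0 i) : MulAut f0.range) (e0 u) := by
      simp only [α, MulEquiv.trans_apply, MulEquiv.apply_symm_apply]
    have h2 := congrArg Subtype.val h1
    rw [MulAut.conjNormal_apply] at h2
    exact h2
  have hαa : ∀ i j, α i (FreeGroup.of j : FG s) = a i j := by
    intro i j
    apply hinj0
    rw [hα0, hact0]
  -- all realisations
  have hR : ∀ (G : Type) [Group G] (c : _), Realises D a c q G → ∃ (f : (FG s ⧸ D.R) →* G)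
      (x : Fin D.t → G), Rlz f x α c ∧ ∀ i, f (q i) = x i ^ p ^ D.k i := by
    rintro G _ c ⟨f, x, hinj, hcom, hgen, hact, hcc, hq⟩
    refine ⟨f, x, ⟨hinj, hcom, hgen, ?_, hcc⟩, hq⟩
    intro i u
    refine huniq G f (x i) (α i).toMonoidHom (fun j => ?_) u
    have h1 : (α i).toMonoidHom (FreeGroup.of j : FG s) = a i j := hαa i j
    rw [h1]
    exact hact i j
  refine ⟨α, hαa, ?_, ?_⟩
  · -- the relations
    have hcent : ∀ c ∈ {c | ∃ (G : Type) (_ : Group G), Nat.card G = p ^ n ∧ Realises D a c q G},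
        ∀ c' ∈ {c | ∃ (G : Type) (_ : Group G), Nat.card G = p ^ n ∧ Realises D a c q G},
        ∀ i j, (c i j)⁻¹ * c' i j ∈ center (FG s ⧸ D.R) ⊓ commutator (FG s ⧸ D.R) := by
      rintro c ⟨G, _, hG, hc⟩ c' ⟨G', _, hG', hc'⟩ i j
      obtain ⟨f, x, h, _⟩ := hR G c hc
      obtain ⟨f', x', h', _⟩ := hR G' c' hc'
      refine Subgroup.mem_inf.2 ⟨?_, mul_mem (inv_mem (h.mem i j)) (h'.mem i j)⟩
      rw [Subgroup.mem_center_iff]
      intro u
      have h1 : c i j * u * (c i j)⁻¹ = c' i j * u * (c' i j)⁻¹ := by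
        rw [h.conj, h'.conj]
      have h2 : (c i j)⁻¹ * (c i j * u * (c i j)⁻¹) * c' i j =
          (c i j)⁻¹ * (c' i j * u * (c' i j)⁻¹) * c' i j := by rw [h1]
      calc u * ((c i j)⁻¹ * c' i j) = (c i j)⁻¹ * (c i j * u * (c i j)⁻¹) * c' i j := by group
        _ = _ := h2
        _ = _ := by group
    refine ⟨?_, ?_, hcent, ?_, ?_⟩
    · rintro c ⟨G, _, hG, hc⟩ i j
      obtain ⟨f, x, h, _⟩ := hR G c hc
      exact h.symm i j
    · rintro c ⟨G, _, hG, hc⟩ i
      obtain ⟨f, x, h, _⟩ := hR G c hc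
      exact h.diag i
    · intro c hcC c' hcC' i j k hik hjk
      have hm := (hcent c hcC c' hcC' i j).1
      obtain ⟨G, _, hG, hc⟩ := hcC
      obtain ⟨G', _, hG', hc'⟩ := hcC'
      obtain ⟨f, x, h, _⟩ := hR G c hc
      obtain ⟨f', x', h', _⟩ := hR G' c' hc'
      set m := (c i j)⁻¹ * c' i j with hmdef
      have hc'm : c' i j = c i j * m := by rw [hmdef, mul_inv_cancel_left]
      have h1 := h.conj_gen i j k
      have h2 := h'.conj_gen i j k
      have hki : c' k i = c k i := by rw [h.symm i k, h'.symm i k, hik]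
      have hkj : c' k j = c k j := by rw [h.symm j k, h'.symm j k, hjk]
      rw [hki, hkj, hc'm, map_mul, h1] at h2
      have h3 := Subgroup.mem_center_iff.1 hm (α j ((c k i)⁻¹) * (c k j)⁻¹)
      have h4 : c k i * α i (c k j) * c i j * α j ((c k i)⁻¹) * (c k j)⁻¹ * α k m =
          c k i * α i (c k j) * c i j * α j ((c k i)⁻¹) * (c k j)⁻¹ * m := by
        rw [h2]
        simp only [mul_assoc] at h3 ⊢
        rw [h3]
      exact mul_left_cancel h4
    · intro c hcC c' hcC' i hi j
      have hm := (hcent c hcC c' hcC' j i).1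
      have hm2 := (hcent c hcC c' hcC' i j).1
      obtain ⟨G, _, hG, hc⟩ := hcC
      obtain ⟨G', _, hG', hc'⟩ := hcC'
      obtain ⟨f, x, h, hq1⟩ := hR G c hc
      obtain ⟨f', x', h', hq1'⟩ := hR G' c' hc'
      have hki : D.k i = 1 := (Finset.mem_filter.1 hi).2
      have h1 := h.norm i j p (q i) (by rw [hq1, hki, pow_one])
      have h2 := h'.norm i j p (q i) (by rw [hq1', hki, pow_one])
      have h3 : ((List.range p).map fun l => ((α i) ^ l : MulAut _) (c j i)).prod =
          ((List.range p).map fun l => ((α i) ^ l : MulAut _) (c' j i)).prod := by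
        rw [h1] at h2
        exact mul_right_cancel h2
      set m := (c j i)⁻¹ * c' j i with hmdef
      have hc'm : c' j i = c j i * m := by rw [hmdef, mul_inv_cancel_left]
      rw [hc'm, norm_mul (α i) (c j i) hm] at h3
      have h4 : ((List.range p).map fun l => ((α i) ^ l : MulAut _) m).prod = 1 :=
        mul_eq_left.1 h3.symm
      have h5 : (c i j)⁻¹ * c' i j = m⁻¹ := by
        have h6 : (c i j)⁻¹ = c j i := (h.symm i j).symm
        have h7 : c' i j = (c' j i)⁻¹ := h'.symm j i
        have h8 := Subgroup.mem_center_iff.1 hm2 (c i j)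
        have h9 : (c i j)⁻¹ * c' i j = c' i j * (c i j)⁻¹ := by
          rw [mul_inv_cancel_left] at h8
          rw [eq_mul_inv_iff_mul_eq]
          exact h8.symm
        rw [h9, h7, hmdef, mul_inv_rev, h6]
        rw [show (c j i)⁻¹⁻¹ = c j i from inv_inv _]
      have h10 := norm_mul (α i) m (y := m⁻¹) (inv_mem hm) (List.range p)
      rw [mul_inv_cancel, norm_one, h4, one_mul] at h10
      rw [h5]
      exact h10.symm
  · -- the numbers
    intro G _ c hG hc
    have hfinG : Finite G :=
      Nat.finite_of_card_ne_zero (by rw [hG]; exact pow_ne_zero _ hp.ne_zero)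
    obtain ⟨f, x, h, hq1⟩ := hR G c hc
    have hsum : D.t ≤ ∑ i, D.k i := by
      calc D.t = ∑ _i : Fin D.t, 1 := by simp
        _ ≤ ∑ i, D.k i := Finset.sum_le_sum fun i _ => D.hk i
    refine ⟨?_, h.card_MOm, ?_⟩
    · refine le_dd_of_gen hG f.range ?_ x D.k D.hk ?_ h.gen ?_
      · rw [← h.com]; exact commutator_le_self _
      · have h1 : Nat.card f.range = p ^ D.τ := by
          rw [← hcardT]
          exact (Nat.card_congr (MonoidHom.ofInjective h.inj).toEquiv).symm
        have h2 := card_mul_index f.range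
        have h3 : p ^ n = p ^ D.τ * p ^ (∑ i, D.k i) := by
          rw [← pow_add, D.hkn]
        rw [h1, hG, h3] at h2
        rw [Finset.prod_pow_eq_pow_sum]
        exact Nat.eq_of_mul_eq_mul_left (pow_pos hp.pos _) h2
      · intro i
        rw [← hq1]
        exact ⟨_, rfl⟩
    · have h1 : Nat.card (MI α ∅) ≤ p ^ D.τ := by
        rw [← hcardT]
        exact Nat.card_le_card_of_injective _ Subtype.val_injective
      have h2 : Nat.log p (Nat.card (MI α ∅)) ≤ D.τ := by
        calc Nat.log p (Nat.card (MI α ∅)) ≤ Nat.log p (p ^ D.τ) := Nat.log_mono_right h1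
          _ = D.τ := Nat.log_pow hp.one_lt _
      have := D.hkn
      omega

end Pool.Agent.IG
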